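import Mathlib

set_option autoImplicit false
open MeasureTheory Metric Set Filter Topology Complex
open scoped ContDiff ENNReal ComplexConjugate

namespace Pool.Agent.Helper366.IV

noncomputable def KK (δ : ℝ) (w : ℂ) : ℂ := conj w * (((max (‖w‖ ^ 2) (δ ^ 2))⁻¹ : ℝ) : ℂ)

lemma KK_cont (δ : ℝ) (hδ : 0 < δ) : Continuous (KK δ) := by
  unfold KK
  have h1 : Continuous (fun w : ℂ => (max (‖w‖ ^ 2) (δ ^ 2))⁻¹) := by
    refine Continuous.inv₀ (by fun_prop) (fun w => ?_)
    have : 0 < max (‖w‖ ^ 2) (δ ^ 2) := lt_of_lt_of_le (by positivity) (le_max_right _ _)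
    exact this.ne'
  exact (Complex.continuous_conj).mul (Complex.continuous_ofReal.comp h1)

lemma KK_bound (δ : ℝ) (hδ : 0 < δ) (w : ℂ) : ‖KK δ w‖ ≤ δ⁻¹ := by
  have h0 : 0 < max (‖w‖ ^ 2) (δ ^ 2) := lt_of_lt_of_le (by positivity) (le_max_right _ _)
  unfold KK
  rw [norm_mul, RCLike.norm_conj, Complex.norm_real, Real.norm_of_nonneg (by positivity),
    ← div_eq_mul_inv, div_le_iff₀ h0, inv_mul_eq_div, le_div_iff₀ hδ]
  rcases le_total δ ‖w‖ with h | h
  · refine le_trans ?_ (le_max_left _ _)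
    nlinarith [norm_nonneg w]
  · refine le_trans ?_ (le_max_right _ _)
    nlinarith [norm_nonneg w]

lemma KK_eq (δ : ℝ) (hδ : 0 < δ) (w : ℂ) (h : δ ≤ ‖w‖) : w⁻¹ - KK δ w = 0 := by
  unfold KK
  rw [max_eq_left (by gcongr), Complex.inv_def, Complex.normSq_eq_norm_sq, sub_self]

lemma KK_diff (δ : ℝ) (hδ : 0 < δ) (w : ℂ) : ‖w⁻¹ - KK δ w‖ ≤ ‖w‖⁻¹ := by
  unfold KK
  rw [Complex.inv_def, Complex.normSq_eq_norm_sq, ← mul_sub, ← Complex.ofReal_sub, norm_mul,
    RCLike.norm_conj, Complex.norm_real]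
  by_cases hw : w = 0
  · subst hw; simp
  have hw' : 0 < ‖w‖ := norm_pos_iff.2 hw
  have h0 : 0 < max (‖w‖ ^ 2) (δ ^ 2) := lt_of_lt_of_le (by positivity) (le_max_right _ _)
  have h1 : (max (‖w‖ ^ 2) (δ ^ 2))⁻¹ ≤ (‖w‖ ^ 2)⁻¹ := by
    apply inv_anti₀ (by positivity) (le_max_left _ _)
  rw [Real.norm_of_nonneg (by linarith)]
  have h2 : ‖w‖ * ((‖w‖ ^ 2)⁻¹ - (max (‖w‖ ^ 2) (δ ^ 2))⁻¹) ≤ ‖w‖ * (‖w‖ ^ 2)⁻¹ := by
    gcongr
    have : 0 < (max (‖w‖ ^ 2) (δ ^ 2))⁻¹ := by positivity
    linarith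
  refine h2.trans (le_of_eq ?_)
  field_simp

lemma inv_norm_integrableOn (δ : ℝ) : IntegrableOn (fun u : ℂ => ‖u‖⁻¹) (ball 0 δ) := by
  have := (integrableOn_fun_norm_addHaar (volume : Measure ℂ) (f := fun y : ℝ => y⁻¹) (r := δ)).2
  apply this
  rw [Complex.finrank_real_complex]
  have h1 : IntegrableOn (fun _ : ℝ => (1:ℝ)) (Ioo 0 δ) := by
    apply integrableOn_const
    · simp
    · simp
  refine h1.congr_fun ?_ measurableSet_Ioo
  intro y hy
  have : y ≠ 0 := hy.1.ne'
  simp [this]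

lemma eps_tendsto : Tendsto (fun n : ℕ => ∫ u in ball (0 : ℂ) (1 / ((n : ℝ) + 1)), ‖u‖⁻¹) atTop (𝓝 0) := by
  have h := tendsto_setIntegral_of_antitone (μ := (volume : Measure ℂ)) (f := fun u : ℂ => ‖u‖⁻¹)
    (s := fun n : ℕ => ball (0 : ℂ) (1 / ((n : ℝ) + 1))) (fun n => measurableSet_ball) (by
      intro m n hmn
      apply ball_subset_ball
      have : (m : ℝ) ≤ n := by exact_mod_cast hmn
      exact one_div_le_one_div_of_le (by positivity) (by linarith)) ⟨0, inv_norm_integrableOn _⟩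
  have h2 : (⋂ n : ℕ, ball (0 : ℂ) (1 / ((n : ℝ) + 1))) = {0} := by
    ext u
    simp only [mem_iInter, mem_ball_zero_iff, mem_singleton_iff]
    constructor
    · intro hu
      by_contra hne
      obtain ⟨n, hn⟩ := exists_nat_one_div_lt (norm_pos_iff.2 hne)
      exact absurd (hu n) (not_lt.2 hn.le)
    · rintro rfl n
      simp only [norm_zero]; positivity
  rw [h2] at h
  simpa using h

/- TARGET -/
theorem cauchy_cont (g : ℂ → ℂ) (hg : Integrable g) (z₀ : ℂ) (r M : ℝ)
    (hM : ∀ᵐ z ∂(volume.restrict (ball z₀ r)), ‖g z‖ ≤ M) :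
    ContinuousOn (fun z => ∫ w, g w / (z - w)) (ball z₀ r) := by
  intro z1 hz1
  apply ContinuousAt.continuousWithinAt
  obtain ⟨s, hs, hsub⟩ : ∃ s > 0, ball z1 (2 * s) ⊆ ball z₀ r := by
    obtain ⟨ε, hε, h⟩ := Metric.isOpen_iff.1 isOpen_ball z1 hz1
    exact ⟨ε / 2, by positivity, by rwa [mul_div_cancel₀ _ (two_ne_zero)]⟩
  rw [ae_restrict_iff' measurableSet_ball] at hM
  have hδpos : ∀ n : ℕ, 0 < 1 / ((n : ℝ) + 1) := fun n => by positivity
  -- approximants
  have hint : ∀ (n : ℕ) (z : ℂ), Integrable (fun w => g w * KK (1 / ((n : ℝ) + 1)) (z - w)) := by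
    intro n z
    refine hg.mul_bdd (c := (1 / ((n : ℝ) + 1))⁻¹) ?_ ?_
    · exact ((KK_cont _ (hδpos n)).comp (continuous_const.sub continuous_id)).aestronglyMeasurable
    · exact Eventually.of_forall fun w => KK_bound _ (hδpos n) _
  have hcont : ∀ n : ℕ, Continuous (fun z : ℂ => ∫ w, g w * KK (1 / ((n : ℝ) + 1)) (z - w)) := by
    intro n
    refine continuous_of_dominated (bound := fun w => ‖g w‖ * (1 / ((n : ℝ) + 1))⁻¹)
      (fun z => (hint n z).aestronglyMeasurable) ?_ (hg.norm.mul_const _) ?_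
    · intro z
      refine Eventually.of_forall fun w => ?_
      rw [norm_mul]
      exact mul_le_mul_of_nonneg_left (KK_bound _ (hδpos n) _) (norm_nonneg _)
    · refine Eventually.of_forall fun w => ?_
      exact continuous_const.mul ((KK_cont _ (hδpos n)).comp (continuous_id.sub continuous_const))
  -- error estimate
  have herr : ∀ n : ℕ, 1 / ((n : ℝ) + 1) < s → ∀ z ∈ ball z1 s,
      ‖(∫ w, g w / (z - w)) - ∫ w, g w * KK (1 / ((n : ℝ) + 1)) (z - w)‖ ≤
        |M| * ∫ u in ball (0 : ℂ) (1 / ((n : ℝ) + 1)), ‖u‖⁻¹ := by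
    intro n hn z hz
    set δ := 1 / ((n : ℝ) + 1) with hδ
    have hδ0 : 0 < δ := hδpos n
    set b : ℂ → ℝ := (ball (0 : ℂ) δ).indicator (fun u => ‖u‖⁻¹) with hb
    have hbint : Integrable b := (integrable_indicator_iff measurableSet_ball).2 (inv_norm_integrableOn δ)
    have hbint' : Integrable (fun w => |M| * b (z - w)) := (hbint.comp_sub_left z).const_mul _
    have hbd : ∀ᵐ w, ‖g w * ((z - w)⁻¹ - KK δ (z - w))‖ ≤ |M| * b (z - w) := by
      filter_upwards [hM] with w hw
      by_cases hzw : δ ≤ ‖z - w‖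
      · rw [KK_eq δ hδ0 _ hzw, mul_zero, norm_zero, hb, indicator_of_notMem]
        · simp
        · simpa using hzw
      · push Not at hzw
        have hmem : w ∈ ball z₀ r := by
          apply hsub
          rw [mem_ball, dist_comm, dist_eq_norm]
          have h1 : ‖z1 - z‖ < s := by
            rw [← dist_eq_norm, dist_comm]; exact hz
          calc ‖z1 - w‖ = ‖(z1 - z) + (z - w)‖ := by ring_nf
            _ ≤ ‖z1 - z‖ + ‖z - w‖ := norm_add_le _ _
            _ < 2 * s := by linarith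
        have h2 := (hw hmem).trans (le_abs_self M)
        have h3 := KK_diff δ hδ0 (z - w)
        rw [norm_mul, hb, indicator_of_mem (by simpa using hzw)]
        exact mul_le_mul h2 h3 (norm_nonneg _) (abs_nonneg _)
    have hdm : AEStronglyMeasurable (fun w => g w * ((z - w)⁻¹ - KK δ (z - w))) volume := by
      refine hg.aestronglyMeasurable.mul ?_
      refine Measurable.aestronglyMeasurable ?_
      exact (measurable_const.sub measurable_id).inv.sub
        ((KK_cont _ hδ0).measurable.comp (measurable_const.sub measurable_id))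
    have hdint : Integrable (fun w => g w * ((z - w)⁻¹ - KK δ (z - w))) :=
      hbint'.mono' hdm hbd
    have hsum : (∫ w, g w / (z - w)) - ∫ w, g w * KK δ (z - w) =
        ∫ w, g w * ((z - w)⁻¹ - KK δ (z - w)) := by
      have hgi : Integrable (fun w => g w / (z - w)) := by
        refine ((hint n z).add hdint).congr (Eventually.of_forall fun w => ?_)
        simp only [Pi.add_apply]
        rw [← hδ, div_eq_mul_inv]; ring
      rw [← integral_sub hgi (hint n z)]
      congr 1
      funext w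
      rw [div_eq_mul_inv]; ring
    rw [hsum]
    refine (norm_integral_le_of_norm_le hbint' hbd).trans (le_of_eq ?_)
    rw [integral_const_mul, integral_sub_left_eq_self (fun u => b u) volume z, hb,
      integral_indicator measurableSet_ball]
  have hunif : TendstoUniformlyOn (fun (n : ℕ) (z : ℂ) => ∫ w, g w * KK (1 / ((n : ℝ) + 1)) (z - w))
      (fun z => ∫ w, g w / (z - w)) atTop (ball z1 s) := by
    rw [Metric.tendstoUniformlyOn_iff]
    intro ε hε
    have h1 : Tendsto (fun n : ℕ => |M| * ∫ u in ball (0 : ℂ) (1 / ((n : ℝ) + 1)), ‖u‖⁻¹) atTop (𝓝 0) := by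
      simpa using eps_tendsto.const_mul |M|
    have h2 : ∀ᶠ n : ℕ in atTop, 1 / ((n : ℝ) + 1) < s :=
      (tendsto_one_div_add_atTop_nhds_zero_nat (𝕜 := ℝ)).eventually_lt_const hs
    filter_upwards [h1.eventually_lt_const hε, h2] with n hn1 hn2 z hz
    rw [dist_eq_norm]
    exact (herr n hn2 z hz).trans_lt hn1
  have hco := hunif.continuousOn (Eventually.frequently (Eventually.of_forall fun n => (hcont n).continuousOn))
  exact hco.continuousAt (ball_mem_nhds z1 hs)

/- TARGET -/
theorem cauchy_holo (g : ℂ → ℂ) (hg : Integrable g) (z₀ : ℂ) (r : ℝ)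
    (h0 : ∀ z ∈ ball z₀ r, g z = 0) :
    DifferentiableOn ℂ (fun z => ∫ w, g w / (z - w)) (ball z₀ r) := by
  intro z1 hz1
  apply DifferentiableAt.differentiableWithinAt
  obtain ⟨s, hs, hsub⟩ : ∃ s > 0, ball z1 (2 * s) ⊆ ball z₀ r := by
    obtain ⟨ε, hε, h⟩ := Metric.isOpen_iff.1 isOpen_ball z1 hz1
    exact ⟨ε / 2, by positivity, by rwa [mul_div_cancel₀ _ (two_ne_zero)]⟩
  have hfar : ∀ z ∈ ball z1 s, ∀ w, g w ≠ 0 → s ≤ ‖z - w‖ := by
    intro z hz w hw
    by_contra hcon
    push Not at hcon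
    apply hw
    apply h0
    apply hsub
    rw [mem_ball, dist_comm, dist_eq_norm]
    have h1 : ‖z1 - z‖ < s := by
      rw [← dist_eq_norm, dist_comm]; exact hz
    calc ‖z1 - w‖ = ‖(z1 - z) + (z - w)‖ := by ring_nf
      _ ≤ ‖z1 - z‖ + ‖z - w‖ := norm_add_le _ _
      _ < 2 * s := by linarith
  have hmeas : ∀ z : ℂ, AEStronglyMeasurable (fun w => g w / (z - w)) volume := by
    intro z
    have : (fun w => g w / (z - w)) = fun w => g w * (z - w)⁻¹ := by
      funext w; rw [div_eq_mul_inv]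
    rw [this]
    exact hg.aestronglyMeasurable.mul (measurable_const.sub measurable_id).inv.aestronglyMeasurable
  have hmeas2 : AEStronglyMeasurable (fun w => -g w / (z1 - w) ^ 2) volume := by
    have : (fun w => -g w / (z1 - w) ^ 2) = fun w => (-g w) * ((z1 - w) ^ 2)⁻¹ := by
      funext w; rw [div_eq_mul_inv]
    rw [this]
    exact hg.aestronglyMeasurable.neg.mul
      ((measurable_const.sub measurable_id).pow_const 2).inv.aestronglyMeasurable
  have := hasDerivAt_integral_of_dominated_loc_of_deriv_le (𝕜 := ℂ) (μ := (volume : Measure ℂ))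
    (F := fun z w => g w / (z - w)) (F' := fun z w => -g w / (z - w) ^ 2) (x₀ := z1)
    (s := ball z1 s) (bound := fun w => ‖g w‖ / s ^ 2) (ball_mem_nhds z1 hs)
    (Eventually.of_forall hmeas) ?_ hmeas2 ?_ (hg.norm.div_const _) ?_
  · exact this.2.differentiableAt
  · refine (hg.norm.div_const s).mono' (hmeas z1) (Eventually.of_forall fun w => ?_)
    by_cases hw : g w = 0
    · simp [hw]
    · rw [norm_div]
      have := hfar z1 (mem_ball_self hs) w hw
      gcongr
  · refine Eventually.of_forall fun w z hz => ?_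
    by_cases hw : g w = 0
    · simp [hw]
    · rw [norm_div, norm_neg, norm_pow]
      have := hfar z hz w hw
      gcongr
  · refine Eventually.of_forall fun w z hz => ?_
    by_cases hw : g w = 0
    · simp only [hw, zero_div, neg_zero]
      exact hasDerivAt_const z 0
    · have h1 := hfar z hz w hw
      have h2 : z - w ≠ 0 := by
        intro h
        rw [h, norm_zero] at h1
        linarith
      have h3 := ((hasDerivAt_id z).sub_const w).inv h2
      have h4 := h3.const_mul (g w)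
      refine (h4.congr_deriv ?_).congr_of_eventuallyEq ?_
      · simp only [id]; ring
      · exact Eventually.of_forall fun y => by simp [div_eq_mul_inv]

end Pool.Agent.Helper366.IV
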