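import Mathlib

set_option autoImplicit false
open MeasureTheory Metric Set Filter Topology Complex
open scoped ContDiff ENNReal ComplexConjugate

namespace Pool.Agent.Helper366.IV

theorem ess_close {D : ℂ → ℝ} {z₀ z₁ : ℂ} {l₀ l₁ ε r : ℝ}
    (h0 : ∀ᵐ z ∂(volume.restrict (ball z₀ r)), |D z - l₀| < ε)
    (h1 : ∀ ε > 0, ∃ r > 0, ∀ᵐ z ∂(volume.restrict (ball z₁ r)), |D z - l₁| < ε)
    (hz : z₁ ∈ ball z₀ r) : |l₁ - l₀| ≤ ε := by
  apply le_of_forall_pos_le_add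
  intro ε' hε'
  obtain ⟨s, hs, h2⟩ := h1 ε' hε'
  set U := ball z₀ r ∩ ball z₁ s with hU
  have hUo : IsOpen U := isOpen_ball.inter isOpen_ball
  have hUne : U.Nonempty := ⟨z₁, hz, mem_ball_self hs⟩
  have hpos : volume U ≠ 0 := (hUo.measure_pos volume hUne).ne'
  have hne : (ae ((volume : Measure ℂ).restrict U)).NeBot := by
    rw [ae_neBot]
    intro h
    exact hpos (Measure.restrict_eq_zero.1 h)
  have e1 := ae_restrict_of_ae_restrict_of_subset (inter_subset_left : U ⊆ ball z₀ r) h0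
  have e2 := ae_restrict_of_ae_restrict_of_subset (inter_subset_right : U ⊆ ball z₁ s) h2
  obtain ⟨z, hz1, hz2⟩ := (e1.and e2).exists
  have : l₁ - l₀ = (D z - l₀) - (D z - l₁) := by ring
  rw [this]
  have := abs_sub (D z - l₀) (D z - l₁)
  linarith

/- TARGET -/
theorem cont_rep (Ω : Set ℂ) (hΩ : IsOpen Ω) (D : ℂ → ℝ)
    (h : ∀ z₀ ∈ Ω, ∃ l : ℝ, ∀ ε > 0, ∃ r > 0, ∀ᵐ z ∂(volume.restrict (ball z₀ r)), |D z - l| < ε) :
    ∃ g : ℂ → ℝ, ContinuousOn g Ω ∧ ∀ᵐ z ∂(volume.restrict Ω), g z = D z := by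
  classical
  choose l hl using h
  have hg : ∀ z (hz : z ∈ Ω), (fun z => if hz : z ∈ Ω then l z hz else 0) z = l z hz := by
    intro z hz; simp [hz]
  set g : ℂ → ℝ := fun z => if hz : z ∈ Ω then l z hz else 0 with hgdef
  refine ⟨g, ?_, ?_⟩
  · rw [Metric.continuousOn_iff]
    intro z₀ hz₀ ε hε
    obtain ⟨r, hr, h1⟩ := hl z₀ hz₀ (ε / 2) (half_pos hε)
    refine ⟨r, hr, ?_⟩
    intro z₁ hz₁ hd
    rw [hg z₁ hz₁, hg z₀ hz₀, Real.dist_eq]
    have := ess_close h1 (hl z₁ hz₁) (mem_ball.2 hd)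
    linarith
  · rw [ae_restrict_iff' hΩ.measurableSet]
    have hnull : ∀ n : ℕ, volume {z | z ∈ Ω ∧ 2 / ((n : ℝ) + 1) < |g z - D z|} = 0 := by
      intro n
      apply measure_null_of_locally_null
      rintro z₀ ⟨hz₀, _⟩
      have hpos : (0 : ℝ) < 1 / ((n : ℝ) + 1) := by positivity
      obtain ⟨r, hr, h1⟩ := hl z₀ hz₀ _ hpos
      refine ⟨{z | z ∈ Ω ∧ 2 / ((n : ℝ) + 1) < |g z - D z|} ∩ ball z₀ r,
        inter_mem self_mem_nhdsWithin (mem_nhdsWithin_of_mem_nhds (ball_mem_nhds _ hr)), ?_⟩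
      have h2 := h1
      rw [ae_restrict_iff' measurableSet_ball, ae_iff] at h2
      refine measure_mono_null ?_ h2
      rintro z ⟨⟨hz, hz2⟩, hzb⟩
      simp only [mem_setOf_eq, not_forall]
      refine ⟨hzb, ?_⟩
      intro h3
      have h4 := ess_close h1 (hl z hz) hzb
      rw [hg z hz] at hz2
      have h5 : l z hz - D z = (l z hz - l z₀ hz₀) - (D z - l z₀ hz₀) := by ring
      rw [h5] at hz2
      have h6 := abs_sub (l z hz - l z₀ hz₀) (D z - l z₀ hz₀)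
      have h7 : 2 / ((n : ℝ) + 1) = 1 / ((n : ℝ) + 1) + 1 / ((n : ℝ) + 1) := by ring
      linarith
    rw [ae_iff]
    refine measure_mono_null ?_ (measure_iUnion_null hnull)
    intro z hz
    simp only [mem_setOf_eq, not_forall] at hz
    obtain ⟨hz1, hz2⟩ := hz
    rw [mem_iUnion]
    have hpos : 0 < |g z - D z| := abs_pos.2 (sub_ne_zero.2 hz2)
    obtain ⟨n, hn⟩ := exists_nat_gt (2 / |g z - D z|)
    refine ⟨n, hz1, ?_⟩
    rw [div_lt_iff₀ (by positivity)]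
    rw [div_lt_iff₀ hpos] at hn
    nlinarith

end Pool.Agent.Helper366.IV
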