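import Mathlib

set_option autoImplicit false
open MeasureTheory Metric Set Filter Topology Complex
open scoped ContDiff ENNReal ComplexConjugate

namespace Pool.Agent.Helper366.IV

/-- `q` is continuous on `U`, `qx, qy` are in `L²` on compact subsets of `U`, and on each compact
`K ⊆ U` the function `q` is a uniform limit of functions `Q n`, which are `C²` near each point
of `K`, with partial derivatives converging in `L²(K)` to `qx, qy`. -/
structure W (U : Set ℂ) (q qx qy : ℂ → ℂ) : Prop where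
  cont : ContinuousOn q U
  memx : ∀ K : Set ℂ, IsCompact K → K ⊆ U → MemLp qx 2 (volume.restrict K)
  memy : ∀ K : Set ℂ, IsCompact K → K ⊆ U → MemLp qy 2 (volume.restrict K)
  approx : ∀ K : Set ℂ, IsCompact K → K ⊆ U → ∃ Q : ℕ → ℂ → ℂ,
    (∀ n, ∀ z ∈ K, ContDiffAt ℝ 2 (Q n) z) ∧
    TendstoUniformlyOn Q q atTop K ∧
    Tendsto (fun n => eLpNorm (fun z => fderiv ℝ (Q n) z 1 - qx z) 2 (volume.restrict K))
      atTop (𝓝 0) ∧
    Tendsto (fun n => eLpNorm (fun z => fderiv ℝ (Q n) z I - qy z) 2 (volume.restrict K))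
      atTop (𝓝 0)

/-- the Jacobian of `q` in terms of the partial derivatives -/
def Jac (qx qy : ℂ → ℂ) (z : ℂ) : ℝ := (qx z).re * (qy z).im - (qy z).re * (qx z).im

/-- quasiregularity -/
def QR (κ : ℝ) (U : Set ℂ) (qx qy : ℂ → ℂ) : Prop :=
  ∀ᵐ z ∂(volume.restrict U), ‖qx z‖ ^ 2 + ‖qy z‖ ^ 2 ≤ κ * Jac qx qy z

/-- `f_z` -/
noncomputable def dz (fx fy : ℂ → ℂ) (z : ℂ) : ℂ := (fx z - I * fy z) / 2

/-- `f_z̄` -/
noncomputable def dzb (fx fy : ℂ → ℂ) (z : ℂ) : ℂ := (fx z + I * fy z) / 2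

/-- increments of the comparison map `z ↦ F z + conj (Φ z) / conj F` -/
noncomputable def inc (Φ : ℂ → ℂ) (F z z' : ℂ) : ℂ := F * (z - z') + conj (Φ z - Φ z') / conj F

/-- local data -/
structure Loc (U : Set ℂ) (f fx fy Φ H : ℂ → ℂ) (m : ℝ) : Prop where
  hU : IsOpen U
  conv : Convex ℝ U
  w : W U f fx fy
  hΦ : ∀ z ∈ U, HasDerivAt Φ (H z) z
  hm0 : 0 < m
  hm : ∀ z ∈ U, ‖H z‖ ≤ m ^ 2
  prod : ∀ᵐ z ∂(volume.restrict U), dz fx fy z * conj (dzb fx fy z) = H z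
  le : ∀ᵐ z ∂(volume.restrict U), ‖dzb fx fy z‖ ≤ ‖dz fx fy z‖

/-- a good point -/
structure Good (f fx fy H : ℂ → ℂ) (z : ℂ) : Prop where
  prod : dz fx fy z * conj (dzb fx fy z) = H z
  le : ‖dzb fx fy z‖ ≤ ‖dz fx fy z‖
  diff : ∀ ε > 0, ∀ᶠ w in 𝓝 z,
    ‖f w - f z - (dz fx fy z * (w - z) + dzb fx fy z * conj (w - z))‖ ≤ ε * ‖w - z‖

/-- the quasiregularity constant -/
noncomputable def kap (k : ℝ) : ℝ := 2 * (1 + k ^ 2) / (1 - k ^ 2)

end Pool.Agent.Helper366.IV
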