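import Mathlib
import Pool.Agent.Helper366.IV.Defs

set_option autoImplicit false
open MeasureTheory Metric Set Filter Topology Complex
open scoped ContDiff ENNReal ComplexConjugate

namespace Pool.Agent.Helper366.IV



/-- memLp of the directional derivative -/
theorem compz_mem {U : Set ℂ} {q : ℂ → ℂ} (hq : ContinuousOn q U)
    (Θ : ℂ × ℂ → ℂ) (hΘ : ∀ z ∈ U, ContDiffAt ℝ 2 Θ (z, q z)) (e : ℂ) (qe : ℂ → ℂ)
    {K : Set ℂ} (hK : IsCompact K) (hKU : K ⊆ U) (hqe : MemLp qe 2 (volume.restrict K)) :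
    MemLp (fun z => fderiv ℝ Θ (z, q z) (e, qe z)) 2 (volume.restrict K) := by
  have hA : ContinuousOn (fun z => fderiv ℝ Θ (z, q z)) K := by
    intro z hz
    have h1 : ContinuousAt (fderiv ℝ Θ) (z, q z) :=
      (hΘ z (hKU hz)).continuousAt_fderiv (by norm_num)
    have h2 : ContinuousWithinAt (fun z => (z, q z)) K z :=
      continuousWithinAt_id.prodMk ((hq.mono hKU) z hz)
    exact ContinuousAt.comp_continuousWithinAt h1 h2
  obtain ⟨M, hM⟩ := hK.exists_bound_of_continuousOn hA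
  have hfin : IsFiniteMeasure (volume.restrict K) := ⟨by
    rw [Measure.restrict_apply_univ]; exact hK.measure_lt_top⟩
  have hAm : AEStronglyMeasurable (fun z => fderiv ℝ Θ (z, q z)) (volume.restrict K) :=
    hA.aestronglyMeasurable_of_isCompact hK hK.measurableSet
  have hsm : AEStronglyMeasurable (fun z => fderiv ℝ Θ (z, q z) (e, qe z)) (volume.restrict K) := by
    have h1 : AEStronglyMeasurable (fun z => (e, qe z)) (volume.restrict K) :=
      aestronglyMeasurable_const.prodMk hqe.1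
    exact (isBoundedBilinearMap_apply (𝕜 := ℝ) (E := ℂ × ℂ) (F := ℂ)).continuous.comp_aestronglyMeasurable
      (hAm.prodMk h1)
  have hB : MemLp (fun z => ‖e‖ + ‖qe z‖) 2 (volume.restrict K) :=
    (memLp_const ‖e‖).add hqe.norm
  refine MemLp.of_le_mul (c := M) hB hsm ?_
  rw [ae_restrict_iff' hK.measurableSet]
  refine Eventually.of_forall fun z hz => ?_
  calc ‖fderiv ℝ Θ (z, q z) (e, qe z)‖ ≤ ‖fderiv ℝ Θ (z, q z)‖ * ‖(e, qe z)‖ :=
        ContinuousLinearMap.le_opNorm _ _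
    _ ≤ M * ‖(‖e‖ + ‖qe z‖)‖ := by
        apply mul_le_mul (hM z hz) _ (norm_nonneg _) ((norm_nonneg _).trans (hM z hz))
        rw [Real.norm_of_nonneg (by positivity), Prod.norm_def]
        exact max_le (by simp) (by simp)

/-- convergence of the directional derivative -/
theorem compz_lim {q : ℂ → ℂ} (Θ : ℂ × ℂ → ℂ) (e : ℂ) (qe : ℂ → ℂ)
    {K : Set ℂ} (hK : IsCompact K) (hqe : MemLp qe 2 (volume.restrict K))
    (C : Set (ℂ × ℂ)) (hC : IsCompact C) (hCd : ∀ p ∈ C, ContDiffAt ℝ 2 Θ p)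
    (hqC : ∀ z ∈ K, (z, q z) ∈ C) (Q : ℕ → ℂ → ℂ) (hQC : ∀ n, ∀ z ∈ K, (z, Q n z) ∈ C)
    (hQd : ∀ n, ∀ z ∈ K, ContDiffAt ℝ 2 (Q n) z) (hQu : TendstoUniformlyOn Q q atTop K)
    (hQl : Tendsto (fun n => eLpNorm (fun z => fderiv ℝ (Q n) z e - qe z) 2 (volume.restrict K))
      atTop (𝓝 0)) :
    Tendsto (fun n => eLpNorm (fun z => fderiv ℝ (fun z => Θ (z, Q n z)) z e -
      fderiv ℝ Θ (z, q z) (e, qe z)) 2 (volume.restrict K)) atTop (𝓝 0) := by
  have hD : ContinuousOn (fderiv ℝ Θ) C := fun p hp =>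
    ((hCd p hp).continuousAt_fderiv (by norm_num)).continuousWithinAt
  obtain ⟨M, hM⟩ := hC.exists_bound_of_continuousOn hD
  have hUC := hC.uniformContinuousOn_of_continuous hD
  have hfin : IsFiniteMeasure (volume.restrict K) := ⟨by
    rw [Measure.restrict_apply_univ]; exact hK.measure_lt_top⟩
  have hB : MemLp (fun z => ‖e‖ + ‖qe z‖) 2 (volume.restrict K) :=
    (memLp_const ‖e‖).add hqe.norm
  set B := eLpNorm (fun z => ‖e‖ + ‖qe z‖) 2 (volume.restrict K) with hBdef
  have hBtop : B ≠ ⊤ := hB.2.ne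
  rw [ENNReal.tendsto_nhds_zero]
  intro ε hε
  obtain ⟨η, hη0, hη⟩ := ENNReal.exists_nnreal_pos_mul_lt hBtop (ENNReal.half_pos hε.ne').ne'
  -- uniform closeness
  have hev1 : ∀ᶠ n in atTop, ∀ z ∈ K,
      ‖fderiv ℝ Θ (z, Q n z) - fderiv ℝ Θ (z, q z)‖ ≤ η := by
    obtain ⟨δ, hδ, hδ'⟩ := Metric.uniformContinuousOn_iff.mp hUC η (by exact_mod_cast hη0)
    have := Metric.tendstoUniformlyOn_iff.mp hQu δ hδ
    filter_upwards [this] with n hn z hz
    have h1 := hδ' (z, Q n z) (hQC n z hz) (z, q z) (hqC z hz) (by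
      rw [Prod.dist_eq, dist_self, max_eq_right dist_nonneg, dist_comm]
      exact hn z hz)
    rw [dist_eq_norm] at h1
    exact h1.le
  have hev2 : ∀ᶠ n in atTop, ENNReal.ofReal M *
      eLpNorm (fun z => fderiv ℝ (Q n) z e - qe z) 2 (volume.restrict K) ≤ ε / 2 := by
    have h1 : Tendsto (fun n => ENNReal.ofReal M *
      eLpNorm (fun z => fderiv ℝ (Q n) z e - qe z) 2 (volume.restrict K)) atTop (𝓝 0) := by
      have := ENNReal.Tendsto.const_mul hQl (Or.inr (ENNReal.ofReal_ne_top (r := M)))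
      rwa [mul_zero] at this
    exact ENNReal.tendsto_nhds_zero.mp h1 _ (ENNReal.half_pos hε.ne')
  filter_upwards [hev1, hev2] with n hn1 hn2
  have hdQ : ContinuousOn (fun z => fderiv ℝ (Q n) z e) K := by
    intro z hz
    have h1 : ContinuousAt (fderiv ℝ (Q n)) z := (hQd n z hz).continuousAt_fderiv (by norm_num)
    exact (h1.clm_apply continuousAt_const).continuousWithinAt
  have hm1 : AEStronglyMeasurable (fun z => fderiv ℝ (Q n) z e - qe z) (volume.restrict K) :=
    (hdQ.aestronglyMeasurable_of_isCompact hK hK.measurableSet).sub hqe.1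
  have hpt : ∀ z ∈ K, ‖fderiv ℝ (fun z => Θ (z, Q n z)) z e - fderiv ℝ Θ (z, q z) (e, qe z)‖ ≤
      ‖M * ‖fderiv ℝ (Q n) z e - qe z‖ + (η : ℝ) * (‖e‖ + ‖qe z‖)‖ := by
    intro z hz
    have hM0 : 0 ≤ M := (norm_nonneg _).trans (hM _ (hqC z hz))
    have hΘd : DifferentiableAt ℝ Θ (z, Q n z) := (hCd _ (hQC n z hz)).differentiableAt (by norm_num)
    have hQd' : DifferentiableAt ℝ (Q n) z := (hQd n z hz).differentiableAt (by norm_num)
    have hpair : HasFDerivAt (fun z => (z, Q n z))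
        ((ContinuousLinearMap.id ℝ ℂ).prod (fderiv ℝ (Q n) z)) z :=
      (hasFDerivAt_id z).prodMk hQd'.hasFDerivAt
    have hcomp : HasFDerivAt (fun z => Θ (z, Q n z))
        ((fderiv ℝ Θ (z, Q n z)).comp ((ContinuousLinearMap.id ℝ ℂ).prod (fderiv ℝ (Q n) z))) z :=
      HasFDerivAt.comp z (g := Θ) hΘd.hasFDerivAt hpair
    rw [hcomp.fderiv]
    have e1 : ((fderiv ℝ Θ (z, Q n z)).comp ((ContinuousLinearMap.id ℝ ℂ).prod
        (fderiv ℝ (Q n) z))) e = fderiv ℝ Θ (z, Q n z) (e, fderiv ℝ (Q n) z e) := rfl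
    rw [e1]
    have e2 : fderiv ℝ Θ (z, Q n z) (e, fderiv ℝ (Q n) z e) - fderiv ℝ Θ (z, q z) (e, qe z) =
        fderiv ℝ Θ (z, Q n z) (0, fderiv ℝ (Q n) z e - qe z) +
        (fderiv ℝ Θ (z, Q n z) - fderiv ℝ Θ (z, q z)) (e, qe z) := by
      have e3 : ((e, fderiv ℝ (Q n) z e) : ℂ × ℂ) = (0, fderiv ℝ (Q n) z e - qe z) + (e, qe z) := by
        simp
      rw [e3, map_add, sub_apply]
      ring
    rw [e2, Real.norm_of_nonneg (by positivity)]
    refine (norm_add_le _ _).trans ?_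
    apply add_le_add
    · refine (ContinuousLinearMap.le_opNorm _ _).trans ?_
      apply mul_le_mul (hM _ (hQC n z hz)) _ (norm_nonneg _) hM0
      rw [Prod.norm_def]
      simp
    · refine (ContinuousLinearMap.le_opNorm _ _).trans ?_
      apply mul_le_mul (hn1 z hz) _ (norm_nonneg _) η.2
      rw [Prod.norm_def]
      exact max_le (by simp) (by simp)
  calc eLpNorm (fun z => fderiv ℝ (fun z => Θ (z, Q n z)) z e -
      fderiv ℝ Θ (z, q z) (e, qe z)) 2 (volume.restrict K)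
      ≤ eLpNorm (fun z => M * ‖fderiv ℝ (Q n) z e - qe z‖ + (η : ℝ) * (‖e‖ + ‖qe z‖)) 2
          (volume.restrict K) := by
        apply eLpNorm_mono_ae
        rw [ae_restrict_iff' hK.measurableSet]
        exact Eventually.of_forall hpt
    _ ≤ eLpNorm (fun z => M * ‖fderiv ℝ (Q n) z e - qe z‖) 2 (volume.restrict K) +
          eLpNorm (fun z => (η : ℝ) * (‖e‖ + ‖qe z‖)) 2 (volume.restrict K) := by
        apply eLpNorm_add_le
        · exact hm1.norm.const_mul M
        · exact hB.1.const_mul _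
        · norm_num
    _ ≤ ENNReal.ofReal M * eLpNorm (fun z => fderiv ℝ (Q n) z e - qe z) 2 (volume.restrict K) +
          η * B := by
        gcongr
        · rcases K.eq_empty_or_nonempty with h0 | ⟨z0, hz0⟩
          · rw [h0]; simp
          · have hM0 : 0 ≤ M := (norm_nonneg _).trans (hM _ (hqC z0 hz0))
            have h1 := eLpNorm_const_smul (μ := volume.restrict K) (p := 2) M
              (fun z => ‖fderiv ℝ (Q n) z e - qe z‖)
            have h2 : (M • fun z => ‖fderiv ℝ (Q n) z e - qe z‖) =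
              fun z => M * ‖fderiv ℝ (Q n) z e - qe z‖ := rfl
            rw [h2] at h1
            rw [h1, eLpNorm_norm, ← ofReal_norm, Real.norm_of_nonneg hM0]
        · have h1 := eLpNorm_const_smul (μ := volume.restrict K) (p := 2) (η : ℝ)
              (fun z => (‖e‖ + ‖qe z‖))
          have h2 : ((η : ℝ) • fun z => (‖e‖ + ‖qe z‖)) =
              fun z => (η : ℝ) * (‖e‖ + ‖qe z‖) := rfl
          rw [h2] at h1
          rw [h1, ← hBdef]
          gcongr
          rw [← ofReal_norm]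
          have h3 : ‖(η : ℝ)‖ = (η : ℝ) := Real.norm_of_nonneg η.2
          rw [h3]
          simp
    _ ≤ ε / 2 + ε / 2 := by
        gcongr
    _ = ε := ENNReal.add_halves ε

/- TARGET -/
theorem W.compz {U : Set ℂ} {q qx qy : ℂ → ℂ} (hU : IsOpen U) (h : W U q qx qy)
    (Θ : ℂ × ℂ → ℂ) (hΘ : ∀ z ∈ U, ContDiffAt ℝ 2 Θ (z, q z)) :
    W U (fun z => Θ (z, q z)) (fun z => fderiv ℝ Θ (z, q z) (1, qx z))
      (fun z => fderiv ℝ Θ (z, q z) (I, qy z)) := by
  refine ⟨?_, ?_, ?_, ?_⟩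
  · intro z hz
    have h1 : ContinuousAt Θ (z, q z) := (hΘ z hz).continuousAt
    have h2 : ContinuousWithinAt (fun z => (z, q z)) U z :=
      continuousWithinAt_id.prodMk (h.cont z hz)
    exact ContinuousAt.comp_continuousWithinAt h1 h2
  · intro K hK hKU
    exact compz_mem h.cont Θ hΘ 1 qx hK hKU (h.memx K hK hKU)
  · intro K hK hKU
    exact compz_mem h.cont Θ hΘ I qy hK hKU (h.memy K hK hKU)
  · intro K hK hKU
    obtain ⟨Q, hQd, hQu, hQx, hQy⟩ := h.approx K hK hKU
    set O : Set (ℂ × ℂ) := {p | ContDiffAt ℝ 2 Θ p} with hO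
    have hOo : IsOpen O := by
      rw [isOpen_iff_eventually]
      intro p hp
      have hp' : ContDiffAt ℝ 2 Θ p := hp
      exact hp'.eventually (by norm_num)
    set Gr : Set (ℂ × ℂ) := (fun z => (z, q z)) '' K with hGr
    have hGc : IsCompact Gr :=
      hK.image_of_continuousOn (continuousOn_id.prodMk (h.cont.mono hKU))
    have hGO : Gr ⊆ O := by
      rintro _ ⟨z, hz, rfl⟩
      exact hΘ z (hKU hz)
    obtain ⟨δ, hδ, hδO⟩ := hGc.exists_cthickening_subset_open hOo hGO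
    have hCc : IsCompact (cthickening δ Gr) := hGc.cthickening
    have hGC : ∀ z ∈ K, (z, q z) ∈ cthickening δ Gr := fun z hz =>
      self_subset_cthickening Gr ⟨z, hz, rfl⟩
    obtain ⟨n0, hn0⟩ := eventually_atTop.mp (Metric.tendstoUniformlyOn_iff.mp hQu δ hδ)
    have hQC : ∀ n, ∀ z ∈ K, (z, Q (n + n0) z) ∈ cthickening δ Gr := by
      intro n z hz
      apply mem_cthickening_of_dist_le (z, Q (n + n0) z) (z, q z) δ Gr ⟨z, hz, rfl⟩
      rw [Prod.dist_eq, dist_self, max_eq_right dist_nonneg, dist_comm]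
      exact (hn0 (n + n0) (by omega) z hz).le
    have hCd : ∀ p ∈ cthickening δ Gr, ContDiffAt ℝ 2 Θ p := fun p hp => hδO hp
    have hQu' : TendstoUniformlyOn (fun n => Q (n + n0)) q atTop K := fun u hu =>
      (tendsto_add_atTop_nat n0).eventually (hQu u hu)
    refine ⟨fun n z => Θ (z, Q (n + n0) z), ?_, ?_, ?_, ?_⟩
    · intro n z hz
      have h1 : ContDiffAt ℝ 2 (fun z => (z, Q (n + n0) z)) z :=
        contDiffAt_id.prodMk (hQd (n + n0) z hz)
      exact ContDiffAt.comp z (g := Θ) (hCd _ (hQC n z hz)) h1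
    · have hcont : ContinuousOn Θ (cthickening δ Gr) := fun p hp =>
        (hCd p hp).continuousAt.continuousWithinAt
      have hUC := hCc.uniformContinuousOn_of_continuous hcont
      rw [Metric.tendstoUniformlyOn_iff]
      intro ε hε
      obtain ⟨δ', hδ', hδ''⟩ := Metric.uniformContinuousOn_iff.mp hUC ε hε
      filter_upwards [Metric.tendstoUniformlyOn_iff.mp hQu' δ' hδ'] with n hn z hz
      apply hδ'' (z, q z) (hGC z hz) (z, Q (n + n0) z) (hQC n z hz)
      rw [Prod.dist_eq, dist_self, max_eq_right dist_nonneg]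
      exact hn z hz
    · exact compz_lim Θ 1 qx hK (h.memx K hK hKU) _ hCc hCd hGC (fun n => Q (n + n0)) hQC
        (fun n => hQd (n + n0)) hQu' (hQx.comp (tendsto_add_atTop_nat n0))
    · exact compz_lim Θ I qy hK (h.memy K hK hKU) _ hCc hCd hGC (fun n => Q (n + n0)) hQC
        (fun n => hQd (n + n0)) hQu' (hQy.comp (tendsto_add_atTop_nat n0))

end Pool.Agent.Helper366.IV
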