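import Mathlib
import Pool.Agent.Helper366.IV.Defs

set_option autoImplicit false
open MeasureTheory Metric Set Filter Topology Complex
open scoped ContDiff ENNReal ComplexConjugate

namespace Pool.Agent.Helper366.IV



theorem j1865_int_of {E : Type*} [NormedAddCommGroup E] {K : Set ℂ} (hK : IsCompact K)
    {F : ℂ → E} (hF : ContinuousOn F K) (h0 : ∀ z, z ∉ K → F z = 0) : Integrable F := by
  rw [← integrableOn_iff_integrable_of_support_subset (s := K)]
  · exact hF.integrableOn_compact hK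
  · intro z hz
    by_contra hcon
    exact hz (h0 z hcon)

theorem j1865_fin {K : Set ℂ} (hK : IsCompact K) : IsFiniteMeasure (volume.restrict K) :=
  ⟨by rw [Measure.restrict_apply_univ]; exact hK.measure_lt_top⟩

theorem j1865_mem {𝕜 : Type*} [RCLike 𝕜] {K : Set ℂ} (hK : IsCompact K) {F : ℂ → 𝕜}
    (hF : ContinuousOn F K) : MemLp F 2 (volume.restrict K) := by
  have := j1865_fin hK
  obtain ⟨C, hC⟩ := hK.exists_bound_of_continuousOn hF
  exact MemLp.of_bound (hF.aestronglyMeasurable hK.measurableSet) C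
    ((ae_restrict_iff' hK.measurableSet).2 (Eventually.of_forall hC))

theorem j1865_T2mul {𝕜 : Type*} [RCLike 𝕜] {μ : Measure ℂ} {F G : ℕ → ℂ → 𝕜} {f g : ℂ → 𝕜}
    (hf : MemLp f 2 μ) (hg : MemLp g 2 μ) (hF : ∀ n, MemLp (F n) 2 μ) (hG : ∀ n, MemLp (G n) 2 μ)
    (hFf : Tendsto (fun n => eLpNorm (fun z => F n z - f z) 2 μ) atTop (𝓝 0))
    (hGg : Tendsto (fun n => eLpNorm (fun z => G n z - g z) 2 μ) atTop (𝓝 0)) :
    Tendsto (fun n => ∫ z, F n z * G n z ∂μ) atTop (𝓝 (∫ z, f z * g z ∂μ)) := by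
  apply tendsto_integral_of_L1' (fun z => f z * g z) (hf.1.mul hg.1)
  · exact Eventually.of_forall (fun n => (hF n).integrable_mul (hG n))
  · have hb : ∀ n, eLpNorm ((fun z => F n z * G n z) - fun z => f z * g z) 1 μ ≤
        eLpNorm (fun z => F n z - f z) 2 μ * eLpNorm (fun z => G n z - g z) 2 μ +
        eLpNorm (fun z => F n z - f z) 2 μ * eLpNorm g 2 μ +
        eLpNorm f 2 μ * eLpNorm (fun z => G n z - g z) 2 μ := by
      intro n
      have m1 : AEStronglyMeasurable (fun z => F n z - f z) μ := (hF n).1.sub hf.1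
      have m2 : AEStronglyMeasurable (fun z => G n z - g z) μ := (hG n).1.sub hg.1
      have e1 : ((fun z => F n z * G n z) - fun z => f z * g z) =
          ((fun z => F n z - f z) • (fun z => G n z - g z) + (fun z => F n z - f z) • g) +
            f • (fun z => G n z - g z) := by
        ext z
        simp only [Pi.sub_apply, Pi.add_apply, Pi.smul_apply', smul_eq_mul, Pi.mul_apply]
        ring
      rw [e1]
      refine (eLpNorm_add_le ((m1.smul m2).add (m1.smul hg.1)) (hf.1.smul m2) le_rfl).trans ?_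
      apply add_le_add
      · refine (eLpNorm_add_le (m1.smul m2) (m1.smul hg.1) le_rfl).trans ?_
        exact add_le_add (eLpNorm_smul_le_mul_eLpNorm m2 m1) (eLpNorm_smul_le_mul_eLpNorm hg.1 m1)
      · exact eLpNorm_smul_le_mul_eLpNorm m2 hf.1
    have hlim : Tendsto (fun n => eLpNorm (fun z => F n z - f z) 2 μ *
        eLpNorm (fun z => G n z - g z) 2 μ +
        eLpNorm (fun z => F n z - f z) 2 μ * eLpNorm g 2 μ +
        eLpNorm f 2 μ * eLpNorm (fun z => G n z - g z) 2 μ) atTop (𝓝 0) := by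
      have l1 := ENNReal.Tendsto.mul hFf (Or.inr ENNReal.zero_ne_top) hGg
        (Or.inr ENNReal.zero_ne_top)
      have l2 := ENNReal.Tendsto.mul_const (b := eLpNorm g 2 μ) hFf (Or.inr hg.2.ne)
      have l3 := ENNReal.Tendsto.const_mul (a := eLpNorm f 2 μ) hGg (Or.inr hf.2.ne)
      have := (l1.add l2).add l3
      simpa using this
    exact tendsto_of_tendsto_of_tendsto_of_le_of_le tendsto_const_nhds hlim (fun n => zero_le) hb

theorem j1865_bmul {𝕜 : Type*} [RCLike 𝕜] {μ : Measure ℂ} {F : ℕ → ℂ → 𝕜} {f c : ℂ → 𝕜}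
    (hFf : Tendsto (fun n => eLpNorm (fun z => F n z - f z) 2 μ) atTop (𝓝 0)) (C : ℝ)
    (hc : ∀ z, ‖c z‖ ≤ C) :
    Tendsto (fun n => eLpNorm (fun z => c z * F n z - c z * f z) 2 μ) atTop (𝓝 0) := by
  have hb : ∀ n, eLpNorm (fun z => c z * F n z - c z * f z) 2 μ ≤
      ENNReal.ofReal C * eLpNorm (fun z => F n z - f z) 2 μ := by
    intro n
    apply eLpNorm_le_mul_eLpNorm_of_ae_le_mul
    refine Eventually.of_forall (fun z => ?_)
    rw [← mul_sub, norm_mul]
    exact mul_le_mul_of_nonneg_right (hc z) (norm_nonneg _)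
  have hlim := ENNReal.Tendsto.const_mul (a := ENNReal.ofReal C) hFf (Or.inr ENNReal.ofReal_ne_top)
  rw [mul_zero] at hlim
  exact tendsto_of_tendsto_of_tendsto_of_le_of_le tendsto_const_nhds hlim (fun n => zero_le) hb

theorem j1865_bmem {𝕜 : Type*} [RCLike 𝕜] {μ : Measure ℂ} {f c : ℂ → 𝕜} (hf : MemLp f 2 μ)
    (hcc : Continuous c) (C : ℝ) (hc : ∀ z, ‖c z‖ ≤ C) : MemLp (fun z => c z * f z) 2 μ := by
  refine MemLp.of_le_mul (c := C) hf (hcc.aestronglyMeasurable.mul hf.1) ?_
  refine Eventually.of_forall (fun z => ?_)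
  rw [norm_mul]
  exact mul_le_mul_of_nonneg_right (hc z) (norm_nonneg _)

theorem j1865_le {μ : Measure ℂ} {F : ℕ → ℂ → ℂ} {G : ℕ → ℂ → ℝ}
    (hF : Tendsto (fun n => eLpNorm (F n) 2 μ) atTop (𝓝 0)) (h : ∀ n z, ‖G n z‖ ≤ ‖F n z‖) :
    Tendsto (fun n => eLpNorm (G n) 2 μ) atTop (𝓝 0) :=
  tendsto_of_tendsto_of_tendsto_of_le_of_le tendsto_const_nhds hF (fun n => zero_le)
    (fun n => eLpNorm_mono (h n))

theorem j1865_unif {K : Set ℂ} (hK : IsCompact K) {Q : ℕ → ℂ → ℂ} {q : ℂ → ℂ}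
    (hu : TendstoUniformlyOn Q q atTop K) :
    Tendsto (fun n => eLpNorm (fun z => Q n z - q z) 2 (volume.restrict K)) atTop (𝓝 0) := by
  have := j1865_fin hK
  rw [ENNReal.tendsto_nhds_zero]
  intro ε hε
  obtain ⟨M, hM⟩ : ∃ M : ℝ≥0∞, M = (volume.restrict K) Set.univ ^ (2 : ℝ≥0∞).toReal⁻¹ := ⟨_, rfl⟩
  have hMt : M ≠ ⊤ := by
    rw [hM]
    exact ENNReal.rpow_ne_top_of_nonneg (by positivity) (measure_ne_top _ _)
  have hlim : Tendsto (fun δ : ℝ => M * ENNReal.ofReal δ) (𝓝[>] 0) (𝓝 0) := by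
    have h1 : Tendsto (fun δ : ℝ => ENNReal.ofReal δ) (𝓝[>] 0) (𝓝 0) := by
      have := (ENNReal.continuous_ofReal.tendsto (0 : ℝ)).mono_left
        (nhdsWithin_le_nhds (s := Set.Ioi (0 : ℝ)))
      simpa using this
    have h2 := ENNReal.Tendsto.const_mul (a := M) h1 (Or.inr hMt)
    simpa using h2
  have hev : ∀ᶠ δ : ℝ in 𝓝[>] 0, M * ENNReal.ofReal δ ≤ ε :=
    (ENNReal.tendsto_nhds_zero.1 hlim) ε hε
  obtain ⟨δ, hδ, hδ0⟩ := (hev.and self_mem_nhdsWithin).exists
  have hδ0 : 0 < δ := hδ0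
  filter_upwards [Metric.tendstoUniformlyOn_iff.1 hu δ hδ0] with n hn
  refine (eLpNorm_le_of_ae_bound (C := δ) ?_).trans (by rw [← hM]; exact hδ)
  refine (ae_restrict_iff' hK.measurableSet).2 (Eventually.of_forall ?_)
  intro z hz
  have := hn z hz
  rw [dist_comm, dist_eq_norm] at this
  exact this.le

theorem j1865_fdcont {Q : ℂ → ℂ} {K : Set ℂ} (hQ : ∀ z ∈ K, ContDiffAt ℝ 2 Q z) (v : ℂ) :
    ContinuousOn (fun z => fderiv ℝ Q z v) K := by
  intro z hz
  have h1 : ContDiffAt ℝ 1 (fderiv ℝ Q) z := (hQ z hz).fderiv_right (by norm_num)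
  have h2 : ContinuousAt (fderiv ℝ Q) z := h1.continuousAt
  exact (h2.clm_apply continuousAt_const).continuousWithinAt

theorem j1865_fd0 {E : Type*} [NormedAddCommGroup E] [NormedSpace ℝ E] {φ : ℂ → E} {z : ℂ}
    (hz : z ∉ tsupport φ) : φ z = 0 ∧ fderiv ℝ φ z = 0 := by
  refine ⟨image_eq_zero_of_notMem_tsupport hz, ?_⟩
  by_contra hcon
  exact hz (support_fderiv_subset ℝ (f := φ) hcon)

theorem j1865_weak {q qv : ℂ → ℂ} (φ : ℂ → ℂ) (hφ : ContDiff ℝ 1 φ) (hc : HasCompactSupport φ)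
    (hqc : ContinuousOn q (tsupport φ)) (hqv : MemLp qv 2 (volume.restrict (tsupport φ)))
    (Q : ℕ → ℂ → ℂ) (hQ : ∀ n, ∀ z ∈ tsupport φ, ContDiffAt ℝ 2 (Q n) z)
    (hu : TendstoUniformlyOn Q q atTop (tsupport φ)) (v : ℂ)
    (hv : Tendsto (fun n => eLpNorm (fun z => fderiv ℝ (Q n) z v - qv z) 2
      (volume.restrict (tsupport φ))) atTop (𝓝 0)) :
    ∫ z, q z * fderiv ℝ φ z v = - ∫ z, qv z * φ z := by
  have hK : IsCompact (tsupport φ) := hc
  have hφc : Continuous φ := hφ.continuous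
  have hφ'c : Continuous (fun z => fderiv ℝ φ z v) :=
    (hφ.continuous_fderiv one_ne_zero).clm_apply continuous_const
  have hz1 : ∀ (F : ℂ → ℂ) z, z ∉ tsupport φ → F z * fderiv ℝ φ z v = 0 := by
    intro F z hz; rw [(j1865_fd0 hz).2]; simp
  have hz2 : ∀ (F : ℂ → ℂ) z, z ∉ tsupport φ → F z * φ z = 0 := by
    intro F z hz; rw [(j1865_fd0 hz).1]; simp
  have hQc : ∀ n, ContinuousOn (Q n) (tsupport φ) :=
    fun n z hz => (hQ n z hz).continuousAt.continuousWithinAt
  have hA : ∀ n, ∫ z in tsupport φ, Q n z * fderiv ℝ φ z v =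
      - ∫ z in tsupport φ, fderiv ℝ (Q n) z v * φ z := by
    intro n
    rw [setIntegral_eq_integral_of_forall_compl_eq_zero (hz1 (Q n)),
      setIntegral_eq_integral_of_forall_compl_eq_zero (hz2 (fun z => fderiv ℝ (Q n) z v))]
    apply integral_mul_fderiv_eq_neg_fderiv_mul_of_integrable
    · exact j1865_int_of hK ((j1865_fdcont (hQ n) v).mul hφc.continuousOn) (hz2 _)
    · exact j1865_int_of hK ((hQc n).mul hφ'c.continuousOn) (hz1 _)
    · exact j1865_int_of hK ((hQc n).mul hφc.continuousOn) (hz2 _)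
    · intro z hz; exact (hQ n z hz).differentiableAt (by norm_num)
    · intro z _; exact hφ.differentiable (by norm_num) z
  have hself : ∀ g : ℂ → ℂ, Tendsto (fun _ : ℕ => eLpNorm (fun z => g z - g z) 2
      (volume.restrict (tsupport φ))) atTop (𝓝 0) := by
    intro g
    simp only [sub_self]
    simp
  have l1 := j1865_T2mul (j1865_mem hK hqc) (j1865_mem hK hφ'c.continuousOn)
    (fun n => j1865_mem hK (hQc n)) (fun _ => j1865_mem hK hφ'c.continuousOn)
    (j1865_unif hK hu) (hself _)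
  have l2 := j1865_T2mul hqv (j1865_mem hK hφc.continuousOn)
    (fun n => j1865_mem hK (j1865_fdcont (hQ n) v)) (fun _ => j1865_mem hK hφc.continuousOn)
    hv (hself _)
  have l3 := l2.neg
  have heq := tendsto_nhds_unique (l1.congr hA) l3
  rw [setIntegral_eq_integral_of_forall_compl_eq_zero (hz1 q),
      setIntegral_eq_integral_of_forall_compl_eq_zero (hz2 qv)] at heq
  exact heq

/- TARGET -/
theorem W.weak {U : Set ℂ} {q qx qy : ℂ → ℂ} (h : W U q qx qy) (φ : ℂ → ℂ)
    (hη : ContDiff ℝ 1 φ) (hc : HasCompactSupport φ) (hs : tsupport φ ⊆ U) :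
    ((∫ z, q z * fderiv ℝ φ z 1) = - ∫ z, qx z * φ z) ∧
      ((∫ z, q z * fderiv ℝ φ z I) = - ∫ z, qy z * φ z) := by
  have hK : IsCompact (tsupport φ) := hc
  obtain ⟨Q, hQ, hu, hx, hy⟩ := h.approx (tsupport φ) hK hs
  exact ⟨j1865_weak φ hη hc (h.cont.mono hs) (h.memx _ hK hs) Q hQ hu 1 hx,
    j1865_weak φ hη hc (h.cont.mono hs) (h.memy _ hK hs) Q hQ hu I hy⟩

theorem j1865_parts {Q : ℂ → ℂ} {η : ℂ → ℝ} (hη : ContDiff ℝ 2 η) (hc : HasCompactSupport η)
    (hQ : ∀ z ∈ tsupport η, ContDiffAt ℝ 2 Q z) (v w : ℂ) :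
    ∫ z, (fderiv ℝ Q z v).re * (η z * (fderiv ℝ Q z w).im) =
      -((∫ z, (Q z).re * (fderiv ℝ η z v * (fderiv ℝ Q z w).im)) +
        ∫ z, (Q z).re * (η z * (fderiv ℝ (fderiv ℝ Q) z v w).im)) := by
  have hK : IsCompact (tsupport η) := hc
  have hηc : Continuous η := hη.continuous
  have hη'c : Continuous (fun z => fderiv ℝ η z v) :=
    (hη.continuous_fderiv (by norm_num)).clm_apply continuous_const
  have hQc : ContinuousOn (fun z => (Q z).re) (tsupport η) :=
    Complex.continuous_re.comp_continuousOn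
      (fun z hz => (hQ z hz).continuousAt.continuousWithinAt)
  have hQv : ContinuousOn (fun z => (fderiv ℝ Q z v).re) (tsupport η) :=
    Complex.continuous_re.comp_continuousOn (j1865_fdcont hQ v)
  have hQw : ContinuousOn (fun z => (fderiv ℝ Q z w).im) (tsupport η) :=
    Complex.continuous_im.comp_continuousOn (j1865_fdcont hQ w)
  have hQ1 : ∀ z ∈ tsupport η, ContDiffAt ℝ 1 (fderiv ℝ Q) z :=
    fun z hz => (hQ z hz).fderiv_right (by norm_num)
  have hQvw : ContinuousOn (fun z => (fderiv ℝ (fderiv ℝ Q) z v w).im) (tsupport η) := by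
    apply Complex.continuous_im.comp_continuousOn
    intro z hz
    have h1 : ContDiffAt ℝ 0 (fderiv ℝ (fderiv ℝ Q)) z := (hQ1 z hz).fderiv_right (by norm_num)
    exact ((h1.continuousAt.clm_apply continuousAt_const).clm_apply
      continuousAt_const).continuousWithinAt
  have i1 : Integrable (fun z => (Q z).re * (fderiv ℝ η z v * (fderiv ℝ Q z w).im)) := by
    apply j1865_int_of hK (hQc.mul (hη'c.continuousOn.mul hQw))
    intro z hz; simp only [Pi.mul_apply]; rw [(j1865_fd0 hz).2]; simp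
  have i2 : Integrable (fun z => (Q z).re * (η z * (fderiv ℝ (fderiv ℝ Q) z v w).im)) := by
    apply j1865_int_of hK (hQc.mul (hηc.continuousOn.mul hQvw))
    intro z hz; simp only [Pi.mul_apply]; rw [(j1865_fd0 hz).1]; simp
  have i3 : Integrable (fun z => (fderiv ℝ Q z v).re * (η z * (fderiv ℝ Q z w).im)) := by
    apply j1865_int_of hK (hQv.mul (hηc.continuousOn.mul hQw))
    intro z hz; simp only [Pi.mul_apply]; rw [(j1865_fd0 hz).1]; simp
  have i4 : Integrable (fun z => (Q z).re * (η z * (fderiv ℝ Q z w).im)) := by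
    apply j1865_int_of hK (hQc.mul (hηc.continuousOn.mul hQw))
    intro z hz; simp only [Pi.mul_apply]; rw [(j1865_fd0 hz).1]; simp
  rw [← integral_add i1 i2]
  have key := integral_bilinear_hasLineDerivAt_right_eq_neg_left_of_integrable
    (μ := (volume : Measure ℂ)) (B := ContinuousLinearMap.mul ℝ ℝ) (v := v)
    (f := fun z => (Q z).re) (f' := fun z => (fderiv ℝ Q z v).re)
    (g := fun z => η z * (fderiv ℝ Q z w).im)
    (g' := fun z => fderiv ℝ η z v * (fderiv ℝ Q z w).im +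
      η z * (fderiv ℝ (fderiv ℝ Q) z v w).im) i3 ?_ i4 ?_ ?_
  · simp only [ContinuousLinearMap.mul_apply'] at key
    rw [eq_neg_iff_add_eq_zero, add_comm, ← eq_neg_iff_add_eq_zero, ← key]
    apply integral_congr_ae
    exact Eventually.of_forall (fun z => by simp only []; ring)
  · simp only [ContinuousLinearMap.mul_apply']
    refine (i1.add i2).congr (Eventually.of_forall (fun z => ?_))
    simp only [Pi.add_apply]; ring
  · intro z hz
    have hz' : z ∈ tsupport η := by
      refine closure_mono ?_ hz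
      intro x hx
      simp only [Function.mem_support] at hx ⊢
      intro h0; apply hx; rw [h0, zero_mul]
    have h1 : HasFDerivAt Q (fderiv ℝ Q z) z :=
      ((hQ z hz').differentiableAt (by norm_num)).hasFDerivAt
    have h2 : HasFDerivAt (fun z => (Q z).re) (Complex.reCLM.comp (fderiv ℝ Q z)) z :=
      Complex.reCLM.hasFDerivAt.comp z h1
    exact h2.hasLineDerivAt v
  · intro z _
    by_cases hz : z ∈ tsupport η
    · have h1 : HasFDerivAt η (fderiv ℝ η z) z :=
        (hη.differentiable (by norm_num) z).hasFDerivAt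
      have h2 : HasFDerivAt (fderiv ℝ Q) (fderiv ℝ (fderiv ℝ Q) z) z :=
        ((hQ1 z hz).differentiableAt (by norm_num)).hasFDerivAt
      have h3 : HasLineDerivAt ℝ (fun z => fderiv ℝ Q z w) (fderiv ℝ (fderiv ℝ Q) z v w) z v :=
        (h2.clm_apply (hasFDerivAt_const w z)).hasLineDerivAt v |>.congr_deriv (by simp)
      have h4 : HasLineDerivAt ℝ (fun z => (fderiv ℝ Q z w).im)
          (fderiv ℝ (fderiv ℝ Q) z v w).im z v := by
        unfold HasLineDerivAt at h3 ⊢
        exact (Complex.imCLM.hasFDerivAt.comp_hasDerivAt _ h3)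
      have h5 := h1.hasLineDerivAt v
      unfold HasLineDerivAt at h4 h5 ⊢
      have h6 := h5.fun_mul h4
      simpa using h6
    · have hz0 := j1865_fd0 hz
      have h0 : (fun z => η z * (fderiv ℝ Q z w).im) =ᶠ[𝓝 z] fun _ => 0 := by
        have : (tsupport η)ᶜ ∈ 𝓝 z := (isClosed_tsupport η).isOpen_compl.mem_nhds hz
        filter_upwards [this] with x hx
        rw [(j1865_fd0 hx).1, zero_mul]
      rw [hz0.1, hz0.2]
      have h1 : HasFDerivAt (fun z => η z * (fderiv ℝ Q z w).im) (0 : ℂ →L[ℝ] ℝ) z :=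
        (hasFDerivAt_const (0 : ℝ) z).congr_of_eventuallyEq h0
      simpa using h1.hasLineDerivAt v

/- TARGET -/
theorem W.stokes {U : Set ℂ} {q qx qy : ℂ → ℂ} (h : W U q qx qy) (η : ℂ → ℝ)
    (hη : ContDiff ℝ 2 η) (hc : HasCompactSupport η) (hs : tsupport η ⊆ U) :
    ∫ z, η z * ((qx z).re * (qy z).im - (qy z).re * (qx z).im) =
      - ∫ z, (q z).re * (fderiv ℝ η z 1 * (qy z).im - fderiv ℝ η z I * (qx z).im) := by
  have hK : IsCompact (tsupport η) := hc
  obtain ⟨Q, hQ, hu, hx, hy⟩ := h.approx (tsupport η) hK hs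
  have hηc : Continuous η := hη.continuous
  have hηvc : ∀ v : ℂ, Continuous (fun z => fderiv ℝ η z v) := fun v =>
    (hη.continuous_fderiv (by norm_num)).clm_apply continuous_const
  obtain ⟨C0, hC0⟩ := hc.exists_bound_of_continuous hηc
  have hcv : ∀ v : ℂ, ∃ C : ℝ, ∀ z, ‖fderiv ℝ η z v‖ ≤ C := by
    intro v
    have hcs : HasCompactSupport (fun z => fderiv ℝ η z v) := hc.fderiv_apply ℝ v
    exact hcs.exists_bound_of_continuous (hηvc v)
  obtain ⟨C1, hC1⟩ := hcv 1
  obtain ⟨C2, hC2⟩ := hcv I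
  have hQc : ∀ n, ContinuousOn (fun z => (Q n z).re) (tsupport η) := fun n =>
    Complex.continuous_re.comp_continuousOn
      (fun z hz => (hQ n z hz).continuousAt.continuousWithinAt)
  have hre : ∀ n v, ContinuousOn (fun z => (fderiv ℝ (Q n) z v).re) (tsupport η) := fun n v =>
    Complex.continuous_re.comp_continuousOn (j1865_fdcont (hQ n) v)
  have him : ∀ n v, ContinuousOn (fun z => (fderiv ℝ (Q n) z v).im) (tsupport η) := fun n v =>
    Complex.continuous_im.comp_continuousOn (j1865_fdcont (hQ n) v)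
  have hqre : ContinuousOn (fun z => (q z).re) (tsupport η) :=
    Complex.continuous_re.comp_continuousOn (h.cont.mono hs)
  have mqx := h.memx _ hK hs
  have mqy := h.memy _ hK hs
  have mqxr : MemLp (fun z => (qx z).re) 2 (volume.restrict (tsupport η)) := mqx.re
  have mqxi : MemLp (fun z => (qx z).im) 2 (volume.restrict (tsupport η)) := mqx.im
  have mqyr : MemLp (fun z => (qy z).re) 2 (volume.restrict (tsupport η)) := mqy.re
  have mqyi : MemLp (fun z => (qy z).im) 2 (volume.restrict (tsupport η)) := mqy.im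
  -- convergence of the factors
  have cq : Tendsto (fun n => eLpNorm (fun z => (Q n z).re - (q z).re) 2
      (volume.restrict (tsupport η))) atTop (𝓝 0) :=
    j1865_le (j1865_unif hK hu) (fun n z => by
      rw [← Complex.sub_re]; exact Complex.abs_re_le_norm _)
  have cxr : Tendsto (fun n => eLpNorm (fun z => (fderiv ℝ (Q n) z 1).re - (qx z).re) 2
      (volume.restrict (tsupport η))) atTop (𝓝 0) :=
    j1865_le hx (fun n z => by rw [← Complex.sub_re]; exact Complex.abs_re_le_norm _)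
  have cxi : Tendsto (fun n => eLpNorm (fun z => (fderiv ℝ (Q n) z 1).im - (qx z).im) 2
      (volume.restrict (tsupport η))) atTop (𝓝 0) :=
    j1865_le hx (fun n z => by rw [← Complex.sub_im]; exact Complex.abs_im_le_norm _)
  have cyr : Tendsto (fun n => eLpNorm (fun z => (fderiv ℝ (Q n) z I).re - (qy z).re) 2
      (volume.restrict (tsupport η))) atTop (𝓝 0) :=
    j1865_le hy (fun n z => by rw [← Complex.sub_re]; exact Complex.abs_re_le_norm _)
  have cyi : Tendsto (fun n => eLpNorm (fun z => (fderiv ℝ (Q n) z I).im - (qy z).im) 2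
      (volume.restrict (tsupport η))) atTop (𝓝 0) :=
    j1865_le hy (fun n z => by rw [← Complex.sub_im]; exact Complex.abs_im_le_norm _)
  -- the smooth identity
  have hA : ∀ n,
      (∫ z in tsupport η, (η z * (fderiv ℝ (Q n) z 1).re) * (fderiv ℝ (Q n) z I).im) -
      (∫ z in tsupport η, (η z * (fderiv ℝ (Q n) z I).re) * (fderiv ℝ (Q n) z 1).im) =
      -((∫ z in tsupport η, (fderiv ℝ η z 1 * (Q n z).re) * (fderiv ℝ (Q n) z I).im) -
      (∫ z in tsupport η, (fderiv ℝ η z I * (Q n z).re) * (fderiv ℝ (Q n) z 1).im)) := by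
    intro n
    have p1 := j1865_parts hη hc (hQ n) 1 I
    have p2 := j1865_parts hη hc (hQ n) I 1
    have hsym : ∫ z, (Q n z).re * (η z * (fderiv ℝ (fderiv ℝ (Q n)) z 1 I).im) =
        ∫ z, (Q n z).re * (η z * (fderiv ℝ (fderiv ℝ (Q n)) z I 1).im) := by
      apply integral_congr_ae
      refine Eventually.of_forall (fun z => ?_)
      by_cases hz : z ∈ tsupport η
      · have hsy : IsSymmSndFDerivAt ℝ (Q n) z := (hQ n z hz).isSymmSndFDerivAt (by simp)
        simp only []
        rw [hsy 1 I]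
      · simp only []
        rw [(j1865_fd0 hz).1]; simp
    rw [setIntegral_eq_integral_of_forall_compl_eq_zero
        (f := fun z => (η z * (fderiv ℝ (Q n) z 1).re) * (fderiv ℝ (Q n) z I).im)
        (fun z hz => by rw [(j1865_fd0 hz).1]; simp),
      setIntegral_eq_integral_of_forall_compl_eq_zero
        (f := fun z => (η z * (fderiv ℝ (Q n) z I).re) * (fderiv ℝ (Q n) z 1).im)
        (fun z hz => by rw [(j1865_fd0 hz).1]; simp),
      setIntegral_eq_integral_of_forall_compl_eq_zero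
        (f := fun z => (fderiv ℝ η z 1 * (Q n z).re) * (fderiv ℝ (Q n) z I).im)
        (fun z hz => by rw [(j1865_fd0 hz).2]; simp),
      setIntegral_eq_integral_of_forall_compl_eq_zero
        (f := fun z => (fderiv ℝ η z I * (Q n z).re) * (fderiv ℝ (Q n) z 1).im)
        (fun z hz => by rw [(j1865_fd0 hz).2]; simp)]
    have r1 : ∫ z, (η z * (fderiv ℝ (Q n) z 1).re) * (fderiv ℝ (Q n) z I).im =
        ∫ z, (fderiv ℝ (Q n) z 1).re * (η z * (fderiv ℝ (Q n) z I).im) := by
      congr 1; ext z; ring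
    have r2 : ∫ z, (η z * (fderiv ℝ (Q n) z I).re) * (fderiv ℝ (Q n) z 1).im =
        ∫ z, (fderiv ℝ (Q n) z I).re * (η z * (fderiv ℝ (Q n) z 1).im) := by
      congr 1; ext z; ring
    have r3 : ∫ z, (fderiv ℝ η z 1 * (Q n z).re) * (fderiv ℝ (Q n) z I).im =
        ∫ z, (Q n z).re * (fderiv ℝ η z 1 * (fderiv ℝ (Q n) z I).im) := by
      congr 1; ext z; ring
    have r4 : ∫ z, (fderiv ℝ η z I * (Q n z).re) * (fderiv ℝ (Q n) z 1).im =
        ∫ z, (Q n z).re * (fderiv ℝ η z I * (fderiv ℝ (Q n) z 1).im) := by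
      congr 1; ext z; ring
    rw [r1, r2, r3, r4, p1, p2, hsym]
    ring
  have l1 := j1865_T2mul (j1865_bmem mqxr hηc C0 hC0) mqyi
    (fun n => (j1865_mem hK (hηc.continuousOn.mul (hre n 1)))) (fun n => j1865_mem hK (him n I))
    (j1865_bmul cxr C0 hC0) cyi
  have l2 := j1865_T2mul (j1865_bmem mqyr hηc C0 hC0) mqxi
    (fun n => (j1865_mem hK (hηc.continuousOn.mul (hre n I)))) (fun n => j1865_mem hK (him n 1))
    (j1865_bmul cyr C0 hC0) cxi
  have mq := j1865_mem hK hqre
  have l3 := j1865_T2mul (j1865_bmem mq (hηvc 1) C1 hC1) mqyi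
    (fun n => (j1865_mem hK ((hηvc 1).continuousOn.mul (hQc n)))) (fun n => j1865_mem hK (him n I))
    (j1865_bmul cq C1 hC1) cyi
  have l4 := j1865_T2mul (j1865_bmem mq (hηvc I) C2 hC2) mqxi
    (fun n => (j1865_mem hK ((hηvc I).continuousOn.mul (hQc n)))) (fun n => j1865_mem hK (him n 1))
    (j1865_bmul cq C2 hC2) cxi
  have heq := tendsto_nhds_unique ((l1.sub l2).congr hA) (l3.sub l4).neg
  have I1 : Integrable (fun z => η z * (qx z).re * (qy z).im) (volume.restrict (tsupport η)) :=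
    (j1865_bmem mqxr hηc C0 hC0).integrable_mul mqyi
  have I2 : Integrable (fun z => η z * (qy z).re * (qx z).im) (volume.restrict (tsupport η)) :=
    (j1865_bmem mqyr hηc C0 hC0).integrable_mul mqxi
  have I3 : Integrable (fun z => fderiv ℝ η z 1 * (q z).re * (qy z).im)
      (volume.restrict (tsupport η)) := (j1865_bmem mq (hηvc 1) C1 hC1).integrable_mul mqyi
  have I4 : Integrable (fun z => fderiv ℝ η z I * (q z).re * (qx z).im)
      (volume.restrict (tsupport η)) := (j1865_bmem mq (hηvc I) C2 hC2).integrable_mul mqxi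
  rw [← integral_sub I1 I2, ← integral_sub I3 I4] at heq
  rw [← setIntegral_eq_integral_of_forall_compl_eq_zero (s := tsupport η)
      (f := fun z => η z * ((qx z).re * (qy z).im - (qy z).re * (qx z).im))
      (fun z hz => by rw [(j1865_fd0 hz).1]; simp),
    ← setIntegral_eq_integral_of_forall_compl_eq_zero (s := tsupport η)
      (f := fun z => (q z).re * (fderiv ℝ η z 1 * (qy z).im - fderiv ℝ η z I * (qx z).im))
      (fun z hz => by rw [(j1865_fd0 hz).2]; simp)]
  calc _ = ∫ z in tsupport η, η z * (qx z).re * (qy z).im - η z * (qy z).re * (qx z).im := by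
        congr 1; ext z; ring
    _ = _ := heq
    _ = _ := by
        congr 2; ext z; ring

end Pool.Agent.Helper366.IV
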