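import Mathlib
import Pool.Agent.Helper366.IV.Compz
import Pool.Agent.Helper366.IV.Stokes

set_option autoImplicit false
open MeasureTheory Metric Set Filter Topology Complex
open scoped ContDiff ENNReal ComplexConjugate

namespace Pool.Agent.Helper366.IV





theorem exists_cutoff : ∃ C0 : ℝ, 0 < C0 ∧ ∀ (z₀ : ℂ) (r : ℝ), 0 < r → ∃ η : ℂ → ℝ,
    ContDiff ℝ 2 η ∧ HasCompactSupport η ∧ tsupport η ⊆ closedBall z₀ (2 * r) ∧
    (∀ z, 0 ≤ η z) ∧ (∀ z, η z ≤ 1) ∧ (∀ z ∈ closedBall z₀ r, η z = 1) ∧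
    ∀ z, ‖fderiv ℝ η z‖ ≤ C0 / r := by
  let f : ContDiffBump (0 : ℂ) := ⟨1, 3 / 2, by norm_num, by norm_num⟩
  have hf : ContDiff ℝ 2 (f : ℂ → ℝ) := f.contDiff
  have hcf : Continuous (fderiv ℝ (f : ℂ → ℝ)) := hf.continuous_fderiv (by norm_num)
  obtain ⟨C1, hC1⟩ := (f.hasCompactSupport.fderiv (𝕜 := ℝ)).exists_bound_of_continuous hcf
  refine ⟨max C1 1, by positivity, fun z₀ r hr => ?_⟩
  have hr' : r ≠ 0 := hr.ne'
  let L : ℂ → ℂ := fun z => (r⁻¹ : ℝ) • (z - z₀)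
  have hL : ContDiff ℝ 2 L := by
    refine ContDiff.const_smul _ ?_
    exact contDiff_id.sub contDiff_const
  have hLd : ∀ z, HasFDerivAt L ((r⁻¹ : ℝ) • ContinuousLinearMap.id ℝ ℂ) z := by
    intro z
    exact ((hasFDerivAt_id z).sub_const z₀).const_smul (r⁻¹ : ℝ)
  have hsupp : tsupport (fun z => f (L z)) ⊆ closedBall z₀ (2 * r) := by
    apply closure_minimal _ isClosed_closedBall
    intro z hz
    have h1 : L z ∈ Function.support (f : ℂ → ℝ) := hz
    rw [f.support_eq, mem_ball, dist_zero_right] at h1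
    have h2 : ‖L z‖ = r⁻¹ * ‖z - z₀‖ := by
      simp only [L, norm_smul, Real.norm_eq_abs, abs_of_pos (inv_pos.2 hr)]
    rw [h2] at h1
    rw [mem_closedBall, dist_eq_norm]
    have h3 : ‖z - z₀‖ < r * (3 / 2) := by
      have := (inv_mul_lt_iff₀ hr).1 h1
      exact this
    linarith
  refine ⟨fun z => f (L z), hf.comp hL, ?_, hsupp, fun z => f.nonneg, fun z => f.le_one, ?_, ?_⟩
  · exact HasCompactSupport.of_support_subset_isCompact (isCompact_closedBall z₀ (2 * r))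
      (subset_closure.trans hsupp)
  · intro z hz
    apply f.one_of_mem_closedBall
    rw [mem_closedBall, dist_zero_right]
    have h2 : ‖L z‖ = r⁻¹ * ‖z - z₀‖ := by
      simp only [L, norm_smul, Real.norm_eq_abs, abs_of_pos (inv_pos.2 hr)]
    rw [h2]
    rw [mem_closedBall, dist_eq_norm] at hz
    have : r⁻¹ * ‖z - z₀‖ ≤ r⁻¹ * r := by gcongr
    rw [inv_mul_cancel₀ hr'] at this
    exact this
  · intro z
    have hd : HasFDerivAt (fun z => f (L z))
        ((fderiv ℝ (f : ℂ → ℝ) (L z)).comp ((r⁻¹ : ℝ) • ContinuousLinearMap.id ℝ ℂ)) z := by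
      have h1 : HasFDerivAt (f : ℂ → ℝ) (fderiv ℝ (f : ℂ → ℝ) (L z)) (L z) :=
        ((hf.differentiable (by norm_num)) (L z)).hasFDerivAt
      exact h1.comp z (hLd z)
    rw [hd.fderiv]
    calc ‖(fderiv ℝ (f : ℂ → ℝ) (L z)).comp ((r⁻¹ : ℝ) • ContinuousLinearMap.id ℝ ℂ)‖
        ≤ ‖fderiv ℝ (f : ℂ → ℝ) (L z)‖ * ‖(r⁻¹ : ℝ) • ContinuousLinearMap.id ℝ ℂ‖ :=
          ContinuousLinearMap.opNorm_comp_le _ _
      _ ≤ max C1 1 * r⁻¹ := by
          have h3 : ‖(r⁻¹ : ℝ) • ContinuousLinearMap.id ℝ ℂ‖ ≤ r⁻¹ := by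
            rw [norm_smul, Real.norm_eq_abs, abs_of_pos (inv_pos.2 hr)]
            have := ContinuousLinearMap.norm_id_le (𝕜 := ℝ) (E := ℂ)
            have hrp := inv_pos.2 hr
            nlinarith
          have h4 : ‖fderiv ℝ (f : ℂ → ℝ) (L z)‖ ≤ max C1 1 := (hC1 _).trans (le_max_left _ _)
          gcongr
      _ = max C1 1 / r := by rw [div_eq_mul_inv]

theorem key_abs (κ B : ℝ) (hκ : 0 < κ) (K A : Set ℂ) (hA : A ⊆ K) (hAm : MeasurableSet A)
    (hK : IsCompact K) (η E J T : ℂ → ℝ) (hηc : Continuous η) (hη0 : ∀ z, 0 ≤ η z)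
    (hη1 : ∀ z ∈ A, η z = 1)
    (hE : IntegrableOn E K) (hJ : IntegrableOn J K) (hT : IntegrableOn T K)
    (h1 : ∫ z in K, η z ^ 2 * J z = - ∫ z in K, T z)
    (h2 : ∀ᵐ z ∂(volume.restrict K), 0 ≤ E z ∧ E z ≤ κ * J z)
    (h3 : ∀ z ∈ K, - κ * T z ≤ (1 / 2) * (η z ^ 2 * E z) + B) :
    ∫ z in A, E z ≤ 2 * B * (volume K).toReal := by
  have hKm : MeasurableSet K := hK.isClosed.measurableSet
  have hη2 : ContinuousOn (fun z => η z ^ 2) K := (hηc.pow 2).continuousOn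
  have hEi : IntegrableOn (fun z => η z ^ 2 * E z) K := hE.continuousOn_mul hη2 hK
  have hJi : IntegrableOn (fun z => η z ^ 2 * J z) K := hJ.continuousOn_mul hη2 hK
  have hBi : IntegrableOn (fun _ : ℂ => B) K := by
    apply integrableOn_const
    · exact hK.measure_lt_top.ne
    · simp
  have e1 : ∫ z in A, E z ≤ ∫ z in K, η z ^ 2 * E z := by
    have e2 : ∫ z in A, E z = ∫ z in A, η z ^ 2 * E z := by
      apply setIntegral_congr_fun hAm
      intro z hz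
      simp only [hη1 z hz]; ring
    rw [e2]
    apply setIntegral_mono_set hEi
    · filter_upwards [h2] with z hz
      exact mul_nonneg (sq_nonneg _) hz.1
    · exact hA.eventuallyLE
  have e3 : ∫ z in K, η z ^ 2 * E z ≤ κ * ∫ z in K, η z ^ 2 * J z := by
    rw [← integral_const_mul]
    apply integral_mono_ae hEi (hJi.const_mul κ)
    filter_upwards [h2] with z hz
    have := mul_le_mul_of_nonneg_left hz.2 (sq_nonneg (η z))
    calc η z ^ 2 * E z ≤ η z ^ 2 * (κ * J z) := this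
      _ = κ * (η z ^ 2 * J z) := by ring
  have e4 : κ * ∫ z in K, η z ^ 2 * J z = ∫ z in K, - κ * T z := by
    rw [h1, integral_const_mul]; ring
  have e5 : ∫ z in K, - κ * T z ≤ ∫ z in K, ((1 / 2) * (η z ^ 2 * E z) + B) := by
    apply setIntegral_mono_on (hT.const_mul (-κ)) ((hEi.const_mul (1/2)).add hBi) hKm h3
  have e6 : ∫ z in K, ((1 / 2) * (η z ^ 2 * E z) + B) =
      (1 / 2) * (∫ z in K, η z ^ 2 * E z) + B * (volume K).toReal := by
    rw [integral_add (hEi.const_mul (1/2)) hBi, integral_const_mul, setIntegral_const]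
    simp [Measure.real, mul_comm]
  linarith [e1, e3, e4, e5, e6]

theorem L2_mul {K : Set ℂ} {f g : ℂ → ℝ} (hf : MemLp f 2 (volume.restrict K))
    (hg : MemLp g 2 (volume.restrict K)) : IntegrableOn (fun z => f z * g z) K :=
  hf.integrable_mul hg

theorem L2_re {K : Set ℂ} {f : ℂ → ℂ} (hf : MemLp f 2 (volume.restrict K)) :
    MemLp (fun z => (f z).re) 2 (volume.restrict K) := hf.re

theorem L2_im {K : Set ℂ} {f : ℂ → ℂ} (hf : MemLp f 2 (volume.restrict K)) :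
    MemLp (fun z => (f z).im) 2 (volume.restrict K) := hf.im

theorem L2_int {K : Set ℂ} (hK : IsCompact K) {f : ℂ → ℝ} (hf : MemLp f 2 (volume.restrict K)) :
    IntegrableOn f K := by
  haveI : IsFiniteMeasure (volume.restrict K) := ⟨by
    rw [Measure.restrict_apply_univ]; exact hK.measure_lt_top⟩
  exact hf.integrable (by norm_num)

theorem stokes_sq {U : Set ℂ} {q qx qy : ℂ → ℂ} (h : W U q qx qy) (η : ℂ → ℝ) (K : Set ℂ)
    (hη : ContDiff ℝ 2 η) (hc : HasCompactSupport η) (hs : tsupport η ⊆ K) (hKU : K ⊆ U) :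
    ∫ z in K, η z ^ 2 * ((qx z).re * (qy z).im - (qy z).re * (qx z).im) =
      - ∫ z in K, (q z).re * (2 * η z * (fderiv ℝ η z 1 * (qy z).im - fderiv ℝ η z I * (qx z).im)) := by
  have hη2 : ContDiff ℝ 2 (fun z => η z ^ 2) := hη.pow 2
  have hsup : Function.support (fun z => η z ^ 2) ⊆ Function.support η := by
    intro z hz
    simp only [Function.mem_support] at hz ⊢
    intro h0; apply hz; rw [h0]; ring
  have hts : tsupport (fun z => η z ^ 2) ⊆ tsupport η := closure_mono hsup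
  have hc2 : HasCompactSupport (fun z => η z ^ 2) := hc.mono hsup
  have := h.stokes (fun z => η z ^ 2) hη2 hc2 (hts.trans (hs.trans hKU))
  have hfd : ∀ z v, fderiv ℝ (fun z => η z ^ 2) z v = 2 * η z * fderiv ℝ η z v := by
    intro z v
    have h1 : HasFDerivAt η (fderiv ℝ η z) z := (hη.differentiable (by norm_num) z).hasFDerivAt
    have h2 := (h1.pow 2).fderiv
    rw [h2]
    simp
  rw [setIntegral_eq_integral_of_forall_compl_eq_zero, setIntegral_eq_integral_of_forall_compl_eq_zero,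
    this]
  · congr 1
    apply integral_congr_ae
    filter_upwards with z
    rw [hfd, hfd]; ring
  · intro z hz
    have : η z = 0 := by
      by_contra h0
      exact hz (hs (subset_closure h0))
    rw [this]; ring
  · intro z hz
    have : η z = 0 := by
      by_contra h0
      exact hz (hs (subset_closure h0))
    rw [this]; ring


theorem vol_ball (z₀ : ℂ) (r : ℝ) (hr : 0 < r) :
    (volume (closedBall z₀ (2 * r))).toReal = 4 * Real.pi * r ^ 2 := by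
  rw [Complex.volume_closedBall]
  rw [ENNReal.toReal_mul, ENNReal.toReal_pow, ENNReal.toReal_ofReal (by positivity)]
  simp
  ring

theorem fd_bound {η : ℂ → ℝ} {c : ℝ} {z : ℂ} (h : ‖fderiv ℝ η z‖ ≤ c) :
    (fderiv ℝ η z 1) ^ 2 ≤ c ^ 2 ∧ (fderiv ℝ η z I) ^ 2 ≤ c ^ 2 := by
  constructor
  · have h1 : |fderiv ℝ η z 1| ≤ c := by
      have := (fderiv ℝ η z).le_opNorm 1
      simp only [norm_one, mul_one, Real.norm_eq_abs] at this
      exact this.trans h
    exact sq_le_sq' (by linarith [(abs_le.1 h1).1]) (abs_le.1 h1).2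
  · have h1 : |fderiv ℝ η z I| ≤ c := by
      have := (fderiv ℝ η z).le_opNorm I
      simp only [Complex.norm_I, mul_one, Real.norm_eq_abs] at this
      exact this.trans h
    exact sq_le_sq' (by linarith [(abs_le.1 h1).1]) (abs_le.1 h1).2

/- TARGET -/
theorem W.cacc (κ : ℝ) (hκ : 0 < κ) : ∃ C : ℝ, 0 < C ∧ ∀ (U : Set ℂ) (q qx qy : ℂ → ℂ), IsOpen U →
    W U q qx qy → QR κ U qx qy → ∀ (z₀ : ℂ) (r M : ℝ), 0 < r → closedBall z₀ (2 * r) ⊆ U →
    (∀ z ∈ closedBall z₀ (2 * r), |(q z).re| ≤ M) →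
    ∫ z in closedBall z₀ r, (‖qx z‖ ^ 2 + ‖qy z‖ ^ 2) ≤ C * M ^ 2 := by
  obtain ⟨C0, hC0, hcut⟩ := exists_cutoff
  refine ⟨32 * Real.pi * κ ^ 2 * C0 ^ 2, by positivity, ?_⟩
  intro U q qx qy hU hW hQ z₀ r M hr hB hM
  obtain ⟨η, hη, hηc, hηs, hη0, hη1, hηA, hηd⟩ := hcut z₀ r hr
  set K := closedBall z₀ (2 * r) with hKdef
  have hK : IsCompact K := isCompact_closedBall _ _
  have hA : closedBall z₀ r ⊆ K := closedBall_subset_closedBall (by linarith)
  have hx := hW.memx K hK hB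
  have hy := hW.memy K hK hB
  have hqc : ContinuousOn (fun z => (q z).re) K := continuous_re.comp_continuousOn (hW.cont.mono hB)
  have hηcont : Continuous η := hη.continuous
  have hfx : Continuous (fun z => fderiv ℝ η z 1) :=
    (hη.continuous_fderiv (by norm_num)).clm_apply continuous_const
  have hfy : Continuous (fun z => fderiv ℝ η z I) :=
    (hη.continuous_fderiv (by norm_num)).clm_apply continuous_const
  have hst := stokes_sq hW η K hη hηc hηs hB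
  have hE : IntegrableOn (fun z => ‖qx z‖ ^ 2 + ‖qy z‖ ^ 2) K := by
    have h1 := L2_mul hx.norm hx.norm
    have h2 := L2_mul hy.norm hy.norm
    refine (h1.add h2).congr_fun (fun z _ => ?_) hK.measurableSet
    simp only [Pi.add_apply]; ring
  have hJ : IntegrableOn (fun z => (qx z).re * (qy z).im - (qy z).re * (qx z).im) K :=
    (L2_mul (L2_re hx) (L2_im hy)).sub (L2_mul (L2_re hy) (L2_im hx))
  have hT : IntegrableOn (fun z => (q z).re * (2 * η z * (fderiv ℝ η z 1 * (qy z).im -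
      fderiv ℝ η z I * (qx z).im))) K := by
    have h1 : IntegrableOn (fun z => fderiv ℝ η z 1 * (qy z).im) K :=
      (L2_int hK (L2_im hy)).continuousOn_mul hfx.continuousOn hK
    have h2 : IntegrableOn (fun z => fderiv ℝ η z I * (qx z).im) K :=
      (L2_int hK (L2_im hx)).continuousOn_mul hfy.continuousOn hK
    have h3 : IntegrableOn (fun z => 2 * η z * (fderiv ℝ η z 1 * (qy z).im -
      fderiv ℝ η z I * (qx z).im)) K :=
      (h1.sub h2).continuousOn_mul (continuous_const.mul hηcont).continuousOn hK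
    exact h3.continuousOn_mul hqc hK
  have h2 : ∀ᵐ z ∂(volume.restrict K), 0 ≤ ‖qx z‖ ^ 2 + ‖qy z‖ ^ 2 ∧
      ‖qx z‖ ^ 2 + ‖qy z‖ ^ 2 ≤ κ * ((qx z).re * (qy z).im - (qy z).re * (qx z).im) := by
    have := ae_restrict_of_ae_restrict_of_subset hB hQ
    filter_upwards [this] with z hz
    exact ⟨by positivity, hz⟩
  have hfin := key_abs κ (4 * κ ^ 2 * M ^ 2 * (C0 / r) ^ 2) hκ K (closedBall z₀ r) hA
    isClosed_closedBall.measurableSet hK η (fun z => ‖qx z‖ ^ 2 + ‖qy z‖ ^ 2)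
    (fun z => (qx z).re * (qy z).im - (qy z).re * (qx z).im)
    (fun z => (q z).re * (2 * η z * (fderiv ℝ η z 1 * (qy z).im - fderiv ℝ η z I * (qx z).im)))
    hηcont hη0 hηA hE hJ hT hst h2 ?_
  · refine hfin.trans (le_of_eq ?_)
    rw [hKdef, vol_ball z₀ r hr]
    field_simp
    ring
  · intro z hz
    have hm := hM z hz
    obtain ⟨ha, hb⟩ := fd_bound (hηd z)
    have hx2 : (qx z).im ^ 2 ≤ ‖qx z‖ ^ 2 := by
      rw [Complex.sq_norm, Complex.normSq_apply]; nlinarith [sq_nonneg (qx z).re]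
    have hy2 : (qy z).im ^ 2 ≤ ‖qy z‖ ^ 2 := by
      rw [Complex.sq_norm, Complex.normSq_apply]; nlinarith [sq_nonneg (qy z).re]
    have hq2 : (q z).re ^ 2 ≤ M ^ 2 := by
      rw [← sq_abs (q z).re]
      exact pow_le_pow_left₀ (abs_nonneg _) hm 2
    have hM2 : (q z).re ^ 2 * (fderiv ℝ η z 1) ^ 2 ≤ M ^ 2 * (C0 / r) ^ 2 := by gcongr
    have hM3 : (q z).re ^ 2 * (fderiv ℝ η z I) ^ 2 ≤ M ^ 2 * (C0 / r) ^ 2 := by gcongr
    set a := fderiv ℝ η z 1
    set b := fderiv ℝ η z I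
    set u := (q z).re
    set e := η z
    set s := (qx z).im
    set t := (qy z).im
    have k1 : - κ * (u * (2 * e * (a * t))) ≤ (1 / 2) * (e ^ 2 * t ^ 2) + 2 * κ ^ 2 * (u ^ 2 * a ^ 2) := by
      nlinarith [sq_nonneg (e * t + 2 * κ * u * a)]
    have k2 : κ * (u * (2 * e * (b * s))) ≤ (1 / 2) * (e ^ 2 * s ^ 2) + 2 * κ ^ 2 * (u ^ 2 * b ^ 2) := by
      nlinarith [sq_nonneg (e * s - 2 * κ * u * b)]
    have k3 : 2 * κ ^ 2 * (u ^ 2 * a ^ 2) ≤ 2 * κ ^ 2 * (M ^ 2 * (C0 / r) ^ 2) := by gcongr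
    have k4 : 2 * κ ^ 2 * (u ^ 2 * b ^ 2) ≤ 2 * κ ^ 2 * (M ^ 2 * (C0 / r) ^ 2) := by gcongr
    have k5 : e ^ 2 * s ^ 2 ≤ e ^ 2 * ‖qx z‖ ^ 2 := by gcongr
    have k6 : e ^ 2 * t ^ 2 ≤ e ^ 2 * ‖qy z‖ ^ 2 := by gcongr
    have k7 : - κ * (u * (2 * e * (a * t - b * s))) =
      - κ * (u * (2 * e * (a * t))) + κ * (u * (2 * e * (b * s))) := by ring
    rw [k7]
    nlinarith [k1, k2, k3, k4, k5, k6]

theorem W.mono67 {U V : Set ℂ} {q qx qy : ℂ → ℂ} (h : W U q qx qy) (hV : V ⊆ U) : W V q qx qy :=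
  ⟨h.cont.mono hV, fun K hK hKV => h.memx K hK (hKV.trans hV),
    fun K hK hKV => h.memy K hK (hKV.trans hV), fun K hK hKV => h.approx K hK (hKV.trans hV)⟩

/-- the test map -/
noncomputable def TH (p : ℂ × ℂ) : ℂ := ((-(p.2.re)⁻¹ : ℝ) : ℂ) + ((p.2.im : ℝ) : ℂ) * I

theorem TH_re (p : ℂ × ℂ) : (TH p).re = -(p.2.re)⁻¹ := by
  unfold TH; simp only [add_re, ofReal_re, mul_re, I_re, ofReal_im, I_im]; ring

theorem TH_contDiffAt (p : ℂ × ℂ) (hp : p.2.re ≠ 0) : ContDiffAt ℝ 2 TH p := by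
  have h1 : ContDiffAt ℝ 2 (fun p : ℂ × ℂ => p.2.re) p :=
    (Complex.reCLM.comp (ContinuousLinearMap.snd ℝ ℂ ℂ)).contDiff.contDiffAt
  have h2 : ContDiffAt ℝ 2 (fun p : ℂ × ℂ => p.2.im) p :=
    (Complex.imCLM.comp (ContinuousLinearMap.snd ℝ ℂ ℂ)).contDiff.contDiffAt
  have h3 : ContDiffAt ℝ 2 (fun p : ℂ × ℂ => ((-(p.2.re)⁻¹ : ℝ) : ℂ)) p :=
    Complex.ofRealCLM.contDiff.contDiffAt.comp p (h1.inv hp).neg
  have h4 : ContDiffAt ℝ 2 (fun p : ℂ × ℂ => ((p.2.im : ℝ) : ℂ)) p :=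
    Complex.ofRealCLM.contDiff.contDiffAt.comp p h2
  exact h3.add (h4.mul contDiffAt_const)

theorem TH_fderiv (p v : ℂ × ℂ) (hp : p.2.re ≠ 0) :
    fderiv ℝ TH p v = ((v.2.re / p.2.re ^ 2 : ℝ) : ℂ) + ((v.2.im : ℝ) : ℂ) * I := by
  have h1 : HasFDerivAt (fun p : ℂ × ℂ => p.2.re)
      (Complex.reCLM.comp (ContinuousLinearMap.snd ℝ ℂ ℂ)) p :=
    (Complex.reCLM.comp (ContinuousLinearMap.snd ℝ ℂ ℂ)).hasFDerivAt
  have h2 : HasFDerivAt (fun p : ℂ × ℂ => p.2.im)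
      (Complex.imCLM.comp (ContinuousLinearMap.snd ℝ ℂ ℂ)) p :=
    (Complex.imCLM.comp (ContinuousLinearMap.snd ℝ ℂ ℂ)).hasFDerivAt
  have h3 := (hasDerivAt_inv hp).neg.comp_hasFDerivAt p h1
  have h4 := Complex.ofRealCLM.hasFDerivAt.comp p h3
  have h5 := (Complex.ofRealCLM.hasFDerivAt.comp p h2).mul_const I
  have h6 := (h4.add h5).fderiv
  have h7 : TH = (fun p : ℂ × ℂ => ((-(p.2.re)⁻¹ : ℝ) : ℂ)) + (fun p : ℂ × ℂ => ((p.2.im : ℝ) : ℂ) * I) := by
    funext p; rfl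
  rw [h7]
  erw [h6]
  simp
  ring


/- TARGET -/
theorem W.logcacc (κ : ℝ) (hκ : 0 < κ) : ∃ C : ℝ, 0 < C ∧ ∀ (U : Set ℂ) (q qx qy : ℂ → ℂ), IsOpen U →
    W U q qx qy → QR κ U qx qy → ∀ (z₀ : ℂ) (r : ℝ), 0 < r → closedBall z₀ (2 * r) ⊆ U →
    (∀ z ∈ closedBall z₀ (2 * r), 0 < (q z).re) →
    ∫ z in closedBall z₀ r, (‖qx z‖ ^ 2 + ‖qy z‖ ^ 2) / (q z).re ^ 2 ≤ C := by
  obtain ⟨C0, hC0, hcut⟩ := exists_cutoff
  refine ⟨32 * Real.pi * κ ^ 2 * C0 ^ 2, by positivity, ?_⟩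
  intro U q qx qy hU hW hQ z₀ r hr hB hpos
  obtain ⟨η, hη, hηc, hηs, hη0, hη1, hηA, hηd⟩ := hcut z₀ r hr
  set K := closedBall z₀ (2 * r) with hKdef
  have hK : IsCompact K := isCompact_closedBall _ _
  have hA : closedBall z₀ r ⊆ K := closedBall_subset_closedBall (by linarith)
  have hx := hW.memx K hK hB
  have hy := hW.memy K hK hB
  have hqc : ContinuousOn (fun z => (q z).re) K := continuous_re.comp_continuousOn (hW.cont.mono hB)
  have hqinv : ContinuousOn (fun z => ((q z).re)⁻¹) K := hqc.inv₀ (fun z hz => (hpos z hz).ne')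
  have hqinv2 : ContinuousOn (fun z => ((q z).re ^ 2)⁻¹) K :=
    (hqc.pow 2).inv₀ (fun z hz => pow_ne_zero 2 (hpos z hz).ne')
  have hηcont : Continuous η := hη.continuous
  have hfx : Continuous (fun z => fderiv ℝ η z 1) :=
    (hη.continuous_fderiv (by norm_num)).clm_apply continuous_const
  have hfy : Continuous (fun z => fderiv ℝ η z I) :=
    (hη.continuous_fderiv (by norm_num)).clm_apply continuous_const
  have hU' : IsOpen (U ∩ (fun z => (q z).re) ⁻¹' Ioi 0) :=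
    (continuous_re.comp_continuousOn hW.cont).isOpen_inter_preimage hU isOpen_Ioi
  have hKU' : K ⊆ U ∩ (fun z => (q z).re) ⁻¹' Ioi 0 := fun z hz => ⟨hB hz, hpos z hz⟩
  have hW' := (hW.mono67 (inter_subset_left (s := U) (t := (fun z => (q z).re) ⁻¹' Ioi 0))).compz
    hU' TH (fun z hz => TH_contDiffAt (z, q z) (ne_of_gt hz.2))
  have hst0 := stokes_sq hW' η K hη hηc hηs hKU'
  have hst : ∫ z in K, η z ^ 2 * (((qx z).re * (qy z).im - (qy z).re * (qx z).im) /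
      (q z).re ^ 2) = - ∫ z in K, (-((q z).re)⁻¹) * (2 * η z * (fderiv ℝ η z 1 * (qy z).im -
      fderiv ℝ η z I * (qx z).im)) := by
    have hL : ∫ z in K, η z ^ 2 * (((qx z).re * (qy z).im - (qy z).re * (qx z).im) /
      (q z).re ^ 2) = ∫ z in K, η z ^ 2 * ((fderiv ℝ TH (z, q z) (1, qx z)).re *
        (fderiv ℝ TH (z, q z) (I, qy z)).im - (fderiv ℝ TH (z, q z) (I, qy z)).re *
        (fderiv ℝ TH (z, q z) (1, qx z)).im) := by
      apply setIntegral_congr_fun hK.measurableSet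
      intro z hz
      have hne : ((z, q z) : ℂ × ℂ).2.re ≠ 0 := (hpos z hz).ne'
      have hne' : (q z).re ≠ 0 := hne
      simp only [TH_fderiv _ _ hne, add_re, add_im, ofReal_re, ofReal_im, mul_re, mul_im, I_re, I_im]
      field_simp
      ring
    have hR : ∫ z in K, (-((q z).re)⁻¹) * (2 * η z * (fderiv ℝ η z 1 * (qy z).im -
      fderiv ℝ η z I * (qx z).im)) = ∫ z in K, (TH (z, q z)).re * (2 * η z * (fderiv ℝ η z 1 *
        (fderiv ℝ TH (z, q z) (I, qy z)).im - fderiv ℝ η z I *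
        (fderiv ℝ TH (z, q z) (1, qx z)).im)) := by
      apply setIntegral_congr_fun hK.measurableSet
      intro z hz
      have hne : ((z, q z) : ℂ × ℂ).2.re ≠ 0 := (hpos z hz).ne'
      simp only [TH_fderiv _ _ hne, TH_re, add_re, add_im, ofReal_re, ofReal_im, mul_re, mul_im,
        I_re, I_im]
      ring
    rw [hL, hR]
    exact hst0
  have hE0 : IntegrableOn (fun z => ‖qx z‖ ^ 2 + ‖qy z‖ ^ 2) K := by
    have h1 := L2_mul hx.norm hx.norm
    have h2 := L2_mul hy.norm hy.norm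
    refine (h1.add h2).congr_fun (fun z _ => ?_) hK.measurableSet
    simp only [Pi.add_apply]; ring
  have hE : IntegrableOn (fun z => (‖qx z‖ ^ 2 + ‖qy z‖ ^ 2) / (q z).re ^ 2) K := by
    simp only [div_eq_mul_inv]
    exact hE0.mul_continuousOn hqinv2 hK
  have hJ0 : IntegrableOn (fun z => (qx z).re * (qy z).im - (qy z).re * (qx z).im) K :=
    (L2_mul (L2_re hx) (L2_im hy)).sub (L2_mul (L2_re hy) (L2_im hx))
  have hJ : IntegrableOn (fun z => ((qx z).re * (qy z).im - (qy z).re * (qx z).im) /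
      (q z).re ^ 2) K := by
    simp only [div_eq_mul_inv]
    exact hJ0.mul_continuousOn hqinv2 hK
  have hT : IntegrableOn (fun z => (-((q z).re)⁻¹) * (2 * η z * (fderiv ℝ η z 1 * (qy z).im -
      fderiv ℝ η z I * (qx z).im))) K := by
    have h1 : IntegrableOn (fun z => fderiv ℝ η z 1 * (qy z).im) K :=
      (L2_int hK (L2_im hy)).continuousOn_mul hfx.continuousOn hK
    have h2 : IntegrableOn (fun z => fderiv ℝ η z I * (qx z).im) K :=
      (L2_int hK (L2_im hx)).continuousOn_mul hfy.continuousOn hK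
    have h3 : IntegrableOn (fun z => 2 * η z * (fderiv ℝ η z 1 * (qy z).im -
      fderiv ℝ η z I * (qx z).im)) K :=
      (h1.sub h2).continuousOn_mul (continuous_const.mul hηcont).continuousOn hK
    exact h3.continuousOn_mul hqinv.neg hK
  have hKm : MeasurableSet K := hK.measurableSet
  have h2 : ∀ᵐ z ∂(volume.restrict K), 0 ≤ (‖qx z‖ ^ 2 + ‖qy z‖ ^ 2) / (q z).re ^ 2 ∧
      (‖qx z‖ ^ 2 + ‖qy z‖ ^ 2) / (q z).re ^ 2 ≤
        κ * (((qx z).re * (qy z).im - (qy z).re * (qx z).im) / (q z).re ^ 2) := by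
    have := ae_restrict_of_ae_restrict_of_subset hB hQ
    filter_upwards [this] with z hz
    refine ⟨by positivity, ?_⟩
    rw [← mul_div_assoc]
    exact div_le_div_of_nonneg_right hz (sq_nonneg _)
  have hfin := key_abs κ (4 * κ ^ 2 * (C0 / r) ^ 2) hκ K (closedBall z₀ r) hA
    isClosed_closedBall.measurableSet hK η (fun z => (‖qx z‖ ^ 2 + ‖qy z‖ ^ 2) / (q z).re ^ 2)
    (fun z => ((qx z).re * (qy z).im - (qy z).re * (qx z).im) / (q z).re ^ 2)
    (fun z => (-((q z).re)⁻¹) * (2 * η z * (fderiv ℝ η z 1 * (qy z).im - fderiv ℝ η z I * (qx z).im)))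
    hηcont hη0 hηA hE hJ hT hst h2 ?_
  · refine hfin.trans (le_of_eq ?_)
    rw [hKdef, vol_ball z₀ r hr]
    field_simp
    ring
  · intro z hz
    obtain ⟨ha, hb⟩ := fd_bound (hηd z)
    have hx2 : (qx z).im ^ 2 ≤ ‖qx z‖ ^ 2 := by
      rw [Complex.sq_norm, Complex.normSq_apply]; nlinarith [sq_nonneg (qx z).re]
    have hy2 : (qy z).im ^ 2 ≤ ‖qy z‖ ^ 2 := by
      rw [Complex.sq_norm, Complex.normSq_apply]; nlinarith [sq_nonneg (qy z).re]
    have hdiv : (‖qx z‖ ^ 2 + ‖qy z‖ ^ 2) / (q z).re ^ 2 =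
      ‖qx z‖ ^ 2 * ((q z).re)⁻¹ ^ 2 + ‖qy z‖ ^ 2 * ((q z).re)⁻¹ ^ 2 := by
      rw [div_eq_mul_inv, inv_pow]; ring
    simp only [hdiv]
    set a := fderiv ℝ η z 1
    set b := fderiv ℝ η z I
    set w := ((q z).re)⁻¹
    set e := η z
    set s := (qx z).im
    set t := (qy z).im
    have k1 : κ * (w * (2 * e * (a * t))) ≤ (1 / 2) * (e ^ 2 * (t ^ 2 * w ^ 2)) + 2 * κ ^ 2 * a ^ 2 := by
      nlinarith [sq_nonneg (e * t * w - 2 * κ * a)]
    have k2 : - κ * (w * (2 * e * (b * s))) ≤ (1 / 2) * (e ^ 2 * (s ^ 2 * w ^ 2)) + 2 * κ ^ 2 * b ^ 2 := by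
      nlinarith [sq_nonneg (e * s * w + 2 * κ * b)]
    have k3 : 2 * κ ^ 2 * a ^ 2 ≤ 2 * κ ^ 2 * (C0 / r) ^ 2 := by gcongr
    have k4 : 2 * κ ^ 2 * b ^ 2 ≤ 2 * κ ^ 2 * (C0 / r) ^ 2 := by gcongr
    have k5 : e ^ 2 * (s ^ 2 * w ^ 2) ≤ e ^ 2 * (‖qx z‖ ^ 2 * w ^ 2) := by gcongr
    have k6 : e ^ 2 * (t ^ 2 * w ^ 2) ≤ e ^ 2 * (‖qy z‖ ^ 2 * w ^ 2) := by gcongr
    have k7 : - κ * (-w * (2 * e * (a * t - b * s))) =
      κ * (w * (2 * e * (a * t))) + - κ * (w * (2 * e * (b * s))) := by ring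
    rw [k7]
    nlinarith [k1, k2, k3, k4, k5, k6]

end Pool.Agent.Helper366.IV
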