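import Mathlib
import Pool.Agent.Helper366.IV.Defs

set_option autoImplicit false
open MeasureTheory Metric Set Filter Topology Complex
open scoped ContDiff ENNReal ComplexConjugate

namespace Pool.Agent.Helper366.IV



lemma fderiv_split (Q : ℂ → ℂ) (p ζ : ℂ) :
    fderiv ℝ Q p ζ = (ζ.re : ℂ) * fderiv ℝ Q p 1 + (ζ.im : ℂ) * fderiv ℝ Q p I := by
  have h : ζ = ζ.re • (1 : ℂ) + ζ.im • I := by
    simp [Complex.re_add_im]
  conv_lhs => rw [h]
  rw [map_add, map_smul, map_smul, Complex.real_smul, Complex.real_smul]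

lemma seg_est (Q : ℂ → ℂ) (a ζ : ℂ) (h : ∀ t ∈ Icc (0 : ℝ) 1, ContDiffAt ℝ 2 Q (a + t • ζ)) :
    ‖Q (a + ζ) - Q a‖ₑ ≤ ∫⁻ t in Icc (0 : ℝ) 1, ‖fderiv ℝ Q (a + t • ζ) ζ‖ₑ := by
  have hder : ∀ t ∈ uIcc (0 : ℝ) 1, HasDerivAt (fun t : ℝ => Q (a + t • ζ))
      (fderiv ℝ Q (a + t • ζ) ζ) t := by
    intro t ht
    rw [uIcc_of_le zero_le_one] at ht
    have h1 : HasFDerivAt Q (fderiv ℝ Q (a + t • ζ)) (a + t • ζ) :=
      ((h t ht).differentiableAt (by norm_num)).hasFDerivAt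
    have h2 : HasDerivAt (fun t : ℝ => a + t • ζ) ζ t := by
      simpa using ((hasDerivAt_id t).smul_const ζ).const_add a
    exact h1.comp_hasDerivAt t h2
  have hcont : ContinuousOn (fun t : ℝ => fderiv ℝ Q (a + t • ζ) ζ) (uIcc (0 : ℝ) 1) := by
    rw [uIcc_of_le zero_le_one]
    intro t ht
    have h1 : ContinuousAt (fderiv ℝ Q) (a + t • ζ) :=
      ((h t ht).fderiv_right (m := 1) (by norm_num)).continuousAt
    have h2 : ContinuousAt (fun t : ℝ => a + t • ζ) t := by fun_prop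
    have h3 : ContinuousAt (fun t : ℝ => fderiv ℝ Q (a + t • ζ)) t :=
      ContinuousAt.comp (g := fderiv ℝ Q) (f := fun t : ℝ => a + t • ζ) h1 h2
    exact (h3.clm_apply continuousAt_const).continuousWithinAt
  have hint : IntervalIntegrable (fun t : ℝ => fderiv ℝ Q (a + t • ζ) ζ) volume 0 1 :=
    hcont.intervalIntegrable
  have e := intervalIntegral.integral_eq_sub_of_hasDerivAt hder hint
  simp only [one_smul, zero_smul, add_zero] at e
  rw [← e, intervalIntegral.integral_of_le zero_le_one, ← integral_Icc_eq_integral_Ioc]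
  exact enorm_integral_le_lintegral_enorm _

lemma ball_est (Q qx qy : ℂ → ℂ) (z z₀ ζ : ℂ) (r δ B : ℝ) (K : Set ℂ)
    (hK : ∀ p ∈ K, ContDiffAt ℝ 2 Q p) (hKr : K ⊆ ball z₀ r)
    (hseg : ∀ t ∈ Icc (0 : ℝ) 1, ∀ w ∈ ball (0 : ℂ) δ, z + w + t • ζ ∈ K)
    (hb : ∀ᵐ z ∂(volume.restrict (ball z₀ r)), ‖(ζ.re : ℂ) * qx z + (ζ.im : ℂ) * qy z‖ ≤ B) :
    ∫⁻ w in ball (0 : ℂ) δ, ‖Q (z + w + ζ) - Q (z + w)‖ₑ ≤
      ENNReal.ofReal B * volume (ball (0 : ℂ) δ) +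
        ∫⁻ p in K, ‖fderiv ℝ Q p ζ - ((ζ.re : ℂ) * qx p + (ζ.im : ℂ) * qy p)‖ₑ := by
  have hmeas : Measurable (fun p => fderiv ℝ Q p ζ) := measurable_fderiv_apply_const ℝ Q ζ
  have h1 : ∫⁻ w in ball (0 : ℂ) δ, ‖Q (z + w + ζ) - Q (z + w)‖ₑ ≤
      ∫⁻ w in ball (0 : ℂ) δ, ∫⁻ t in Icc (0 : ℝ) 1, ‖fderiv ℝ Q (z + w + t • ζ) ζ‖ₑ := by
    apply setLIntegral_mono' measurableSet_ball
    intro w hw
    exact seg_est Q (z + w) ζ (fun t ht => hK _ (hseg t ht w hw))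
  refine h1.trans ?_
  rw [lintegral_lintegral_swap (by
    apply Measurable.aemeasurable
    apply Measurable.enorm
    exact hmeas.comp (by fun_prop))]
  have h2 : ∀ t ∈ Icc (0 : ℝ) 1, ∫⁻ w in ball (0 : ℂ) δ, ‖fderiv ℝ Q (z + w + t • ζ) ζ‖ₑ ≤
      ENNReal.ofReal B * volume (ball (0 : ℂ) δ) +
        ∫⁻ p in K, ‖fderiv ℝ Q p ζ - ((ζ.re : ℂ) * qx p + (ζ.im : ℂ) * qy p)‖ₑ := by
    intro t ht
    set c : ℂ := z + t • ζ with hc
    have e1 : ∫⁻ w in ball (0 : ℂ) δ, ‖fderiv ℝ Q (z + w + t • ζ) ζ‖ₑ =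
        ∫⁻ p in ball c δ, ‖fderiv ℝ Q p ζ‖ₑ := by
      rw [← lintegral_indicator measurableSet_ball, ← lintegral_indicator measurableSet_ball,
        ← lintegral_add_left_eq_self (fun p => (ball c δ).indicator
          (fun p => ‖fderiv ℝ Q p ζ‖ₑ) p) c]
      apply lintegral_congr
      intro w
      by_cases hw : w ∈ ball (0 : ℂ) δ
      · have hw' : c + w ∈ ball c δ := by simpa using hw
        rw [indicator_of_mem hw, indicator_of_mem hw']
        congr 3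
        rw [hc]; ring
      · have hw' : c + w ∉ ball c δ := by simpa using hw
        rw [indicator_of_notMem hw, indicator_of_notMem hw']
    rw [e1]
    have hsub : ball c δ ⊆ K := by
      intro p hp
      have : p - c ∈ ball (0 : ℂ) δ := by simpa [dist_eq_norm] using hp
      have := hseg t ht _ this
      rwa [show z + (p - c) + t • ζ = p by rw [hc]; ring] at this
    have hae : ∀ᵐ p ∂(volume.restrict (ball c δ)), ‖fderiv ℝ Q p ζ‖ₑ ≤
        ENNReal.ofReal B + ‖fderiv ℝ Q p ζ - ((ζ.re : ℂ) * qx p + (ζ.im : ℂ) * qy p)‖ₑ := by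
      filter_upwards [ae_restrict_of_ae_restrict_of_subset (hsub.trans hKr) hb] with p hp
      have h3 : ‖(ζ.re : ℂ) * qx p + (ζ.im : ℂ) * qy p‖ₑ ≤ ENNReal.ofReal B := by
        rw [← ofReal_norm]
        exact ENNReal.ofReal_le_ofReal hp
      calc ‖fderiv ℝ Q p ζ‖ₑ = ‖((ζ.re : ℂ) * qx p + (ζ.im : ℂ) * qy p) +
            (fderiv ℝ Q p ζ - ((ζ.re : ℂ) * qx p + (ζ.im : ℂ) * qy p))‖ₑ := by
              congr 1; ring
        _ ≤ _ := enorm_add_le _ _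
        _ ≤ _ := add_le_add_left h3 _
    calc ∫⁻ p in ball c δ, ‖fderiv ℝ Q p ζ‖ₑ ≤ ∫⁻ p in ball c δ, (ENNReal.ofReal B +
          ‖fderiv ℝ Q p ζ - ((ζ.re : ℂ) * qx p + (ζ.im : ℂ) * qy p)‖ₑ) := lintegral_mono_ae hae
      _ = ENNReal.ofReal B * volume (ball c δ) +
          ∫⁻ p in ball c δ, ‖fderiv ℝ Q p ζ - ((ζ.re : ℂ) * qx p + (ζ.im : ℂ) * qy p)‖ₑ := by
          rw [lintegral_add_left measurable_const, setLIntegral_const]
      _ ≤ _ := by
          rw [Measure.addHaar_ball_center]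
          gcongr
  calc _ ≤ ∫⁻ t in Icc (0 : ℝ) 1, (ENNReal.ofReal B * volume (ball (0 : ℂ) δ) +
        ∫⁻ p in K, ‖fderiv ℝ Q p ζ - ((ζ.re : ℂ) * qx p + (ζ.im : ℂ) * qy p)‖ₑ) :=
        setLIntegral_mono' measurableSet_Icc h2
    _ = _ := by
        rw [setLIntegral_const]
        simp



lemma err_tendsto (K : Set ℂ) (hKc : IsCompact K) (Q : ℕ → ℂ → ℂ) (qx qy : ℂ → ℂ) (ζ : ℂ)
    (mx : MemLp qx 2 (volume.restrict K)) (my : MemLp qy 2 (volume.restrict K))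
    (h1 : Tendsto (fun n => eLpNorm (fun z => fderiv ℝ (Q n) z 1 - qx z) 2 (volume.restrict K))
      atTop (𝓝 0))
    (h2 : Tendsto (fun n => eLpNorm (fun z => fderiv ℝ (Q n) z I - qy z) 2 (volume.restrict K))
      atTop (𝓝 0)) :
    Tendsto (fun n => ∫⁻ p in K, ‖fderiv ℝ (Q n) p ζ - ((ζ.re : ℂ) * qx p + (ζ.im : ℂ) * qy p)‖ₑ)
      atTop (𝓝 0) := by
  have hfin : volume K < ⊤ := hKc.measure_lt_top
  set μ := volume.restrict K with hμ
  have hμfin : IsFiniteMeasure μ := ⟨by rw [hμ, Measure.restrict_apply_univ]; exact hfin⟩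
  set c := μ univ ^ (1 / (1 : ℝ≥0∞).toReal - 1 / (2 : ℝ≥0∞).toReal) with hc
  have hcfin : c ≠ ⊤ := by
    rw [hc]
    exact ENNReal.rpow_ne_top_of_nonneg (by norm_num) (measure_ne_top μ univ)
  have key : ∀ n, ∫⁻ p in K, ‖fderiv ℝ (Q n) p ζ - ((ζ.re : ℂ) * qx p + (ζ.im : ℂ) * qy p)‖ₑ ≤
      ‖(ζ.re : ℂ)‖ₑ * (eLpNorm (fun z => fderiv ℝ (Q n) z 1 - qx z) 2 μ * c) +
      ‖(ζ.im : ℂ)‖ₑ * (eLpNorm (fun z => fderiv ℝ (Q n) z I - qy z) 2 μ * c) := by
    intro n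
    have hm1 : AEStronglyMeasurable (fun z => fderiv ℝ (Q n) z 1 - qx z) μ :=
      (measurable_fderiv_apply_const ℝ (Q n) 1).aestronglyMeasurable.sub mx.1
    have hm2 : AEStronglyMeasurable (fun z => fderiv ℝ (Q n) z I - qy z) μ :=
      (measurable_fderiv_apply_const ℝ (Q n) I).aestronglyMeasurable.sub my.1
    have a1 := eLpNorm_le_eLpNorm_mul_rpow_measure_univ (p := 1) (q := 2) (by norm_num) hm1
    have a2 := eLpNorm_le_eLpNorm_mul_rpow_measure_univ (p := 1) (q := 2) (by norm_num) hm2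
    rw [eLpNorm_one_eq_lintegral_enorm] at a1 a2
    calc ∫⁻ p in K, ‖fderiv ℝ (Q n) p ζ - ((ζ.re : ℂ) * qx p + (ζ.im : ℂ) * qy p)‖ₑ
        ≤ ∫⁻ p, (‖(ζ.re : ℂ)‖ₑ * ‖fderiv ℝ (Q n) p 1 - qx p‖ₑ +
          ‖(ζ.im : ℂ)‖ₑ * ‖fderiv ℝ (Q n) p I - qy p‖ₑ) ∂μ := by
          apply lintegral_mono
          intro p
          simp only
          rw [fderiv_split, ← enorm_mul, ← enorm_mul]
          refine le_trans (le_of_eq ?_) (enorm_add_le _ _)
          congr 1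
          ring
      _ = ‖(ζ.re : ℂ)‖ₑ * (∫⁻ p, ‖fderiv ℝ (Q n) p 1 - qx p‖ₑ ∂μ) +
          ‖(ζ.im : ℂ)‖ₑ * (∫⁻ p, ‖fderiv ℝ (Q n) p I - qy p‖ₑ ∂μ) := by
          rw [lintegral_add_left' (hm1.enorm.const_mul _), lintegral_const_mul'' _ hm1.enorm,
            lintegral_const_mul'' _ hm2.enorm]
      _ ≤ _ := by gcongr
  have hlim : Tendsto (fun n =>
      ‖(ζ.re : ℂ)‖ₑ * (eLpNorm (fun z => fderiv ℝ (Q n) z 1 - qx z) 2 μ * c) +
      ‖(ζ.im : ℂ)‖ₑ * (eLpNorm (fun z => fderiv ℝ (Q n) z I - qy z) 2 μ * c)) atTop (𝓝 0) := by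
    have b1 := ENNReal.Tendsto.mul_const (b := c) h1 (Or.inr hcfin)
    have b2 := ENNReal.Tendsto.mul_const (b := c) h2 (Or.inr hcfin)
    rw [zero_mul] at b1 b2
    have c1 := ENNReal.Tendsto.const_mul (a := ‖(ζ.re : ℂ)‖ₑ) b1 (Or.inr enorm_ne_top)
    have c2 := ENNReal.Tendsto.const_mul (a := ‖(ζ.im : ℂ)‖ₑ) b2 (Or.inr enorm_ne_top)
    rw [mul_zero] at c1 c2
    simpa using c1.add c2
  exact tendsto_of_tendsto_of_tendsto_of_le_of_le tendsto_const_nhds hlim (fun _ => bot_le) key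

/- TARGET -/
theorem W.lip {U : Set ℂ} {q qx qy : ℂ → ℂ} (h : W U q qx qy) (z₀ : ℂ) (r : ℝ)
    (hB : ball z₀ r ⊆ U) (ζ : ℂ) (B : ℝ)
    (hb : ∀ᵐ z ∂(volume.restrict (ball z₀ r)), ‖(ζ.re : ℂ) * qx z + (ζ.im : ℂ) * qy z‖ ≤ B)
    (z : ℂ) (hz : z ∈ ball z₀ r) (hz' : z + ζ ∈ ball z₀ r) : ‖q (z + ζ) - q z‖ ≤ B := by
  by_contra hcon
  push Not at hcon
  have hrpos : 0 < r := (dist_nonneg).trans_lt (mem_ball.1 hz)
  -- B is nonnegative
  have hB0 : 0 ≤ B := by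
    by_contra hneg
    push Not at hneg
    have : ∀ᵐ z ∂(volume.restrict (ball z₀ r)), False := by
      filter_upwards [hb] with p hp
      exact absurd (norm_nonneg _) (by linarith)
    rw [Filter.eventually_false_iff_eq_bot, ae_eq_bot, Measure.restrict_eq_zero] at this
    exact (measure_ball_pos volume z₀ hrpos).ne' this
  set ρ := max (dist z z₀) (dist (z + ζ) z₀) with hρ
  have hρr : ρ < r := max_lt hz hz'
  set δ₀ := (r - ρ) / 2 with hδ₀
  have hδ₀pos : 0 < δ₀ := by rw [hδ₀]; linarith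
  set K := closedBall z₀ (ρ + δ₀) with hK
  have hKc : IsCompact K := isCompact_closedBall _ _
  have hKr : K ⊆ ball z₀ r := closedBall_subset_ball (by rw [hδ₀]; linarith)
  obtain ⟨Q, hQ1, hQ2, hQ3, hQ4⟩ := h.approx K hKc (hKr.trans hB)
  -- continuity gives a lower bound nearby
  set η := (‖q (z + ζ) - q z‖ - B) / 3 with hη
  have hηpos : 0 < η := by rw [hη]; linarith
  have hcU : ∀ p ∈ ball z₀ r, ContinuousAt q p := fun p hp =>
    (h.cont.mono hB).continuousAt (isOpen_ball.mem_nhds hp)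
  have hcw : ContinuousAt (fun w : ℂ => ‖q (z + w + ζ) - q (z + w)‖) 0 := by
    apply ContinuousAt.norm
    apply ContinuousAt.sub
    · apply ContinuousAt.comp (g := q) (f := fun w : ℂ => z + w + ζ)
      · simp only [add_zero]; exact hcU _ hz'
      · fun_prop
    · apply ContinuousAt.comp (g := q) (f := fun w : ℂ => z + w)
      · simp only [add_zero]; exact hcU _ hz
      · fun_prop
  have hev : ∀ᶠ w in 𝓝 (0 : ℂ), B + 2 * η < ‖q (z + w + ζ) - q (z + w)‖ := by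
    apply hcw.eventually (lt_mem_nhds _)
    simp only [add_zero]
    rw [hη]; linarith
  obtain ⟨δ₁, hδ₁pos, hδ₁⟩ := Metric.eventually_nhds_iff_ball.1 hev
  set δ := min δ₀ δ₁ with hδ
  have hδpos : 0 < δ := lt_min hδ₀pos hδ₁pos
  have hseg : ∀ t ∈ Icc (0 : ℝ) 1, ∀ w ∈ ball (0 : ℂ) δ, z + w + t • ζ ∈ K := by
    intro t ht w hw
    have h1 : z + t • ζ ∈ closedBall z₀ ρ := by
      have hconv := convex_closedBall z₀ ρ
      have m1 : z ∈ closedBall z₀ ρ := mem_closedBall.2 (le_max_left _ _)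
      have m2 : z + ζ ∈ closedBall z₀ ρ := mem_closedBall.2 (le_max_right _ _)
      exact hconv.add_smul_mem m1 m2 ht
    rw [hK, mem_closedBall]
    have h2 : dist (z + w + t • ζ) (z + t • ζ) < δ := by
      rw [dist_eq_norm, show z + w + t • ζ - (z + t • ζ) = w by ring]
      simpa using hw
    calc dist (z + w + t • ζ) z₀ ≤ dist (z + w + t • ζ) (z + t • ζ) + dist (z + t • ζ) z₀ :=
          dist_triangle _ _ _
      _ ≤ δ₀ + ρ := add_le_add (h2.le.trans (min_le_left _ _)) (mem_closedBall.1 h1)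
      _ = _ := by ring
  have hm0 : volume (ball (0 : ℂ) δ) ≠ 0 := (measure_ball_pos volume _ hδpos).ne'
  have hmt : volume (ball (0 : ℂ) δ) ≠ ⊤ := measure_ball_lt_top.ne
  -- lower bound for large n
  have hlow : ∀ᶠ n in atTop, ENNReal.ofReal (B + η) * volume (ball (0 : ℂ) δ) ≤
      ∫⁻ w in ball (0 : ℂ) δ, ‖Q n (z + w + ζ) - Q n (z + w)‖ₑ := by
    have hu := Metric.tendstoUniformlyOn_iff.1 hQ2 (η / 2) (by positivity)
    filter_upwards [hu] with n hn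
    rw [← setLIntegral_const]
    apply setLIntegral_mono' measurableSet_ball
    intro w hw
    have m1 : z + w + ζ ∈ K := by
      have := hseg 1 ⟨zero_le_one, le_rfl⟩ w hw
      rwa [one_smul] at this
    have m2 : z + w ∈ K := by
      have := hseg 0 ⟨le_rfl, zero_le_one⟩ w hw
      rwa [zero_smul, add_zero] at this
    have n1 := hn _ m1
    have n2 := hn _ m2
    have n3 := hδ₁ w (ball_subset_ball (min_le_right _ _) hw)
    rw [dist_eq_norm] at n1 n2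
    rw [← ofReal_norm]
    apply ENNReal.ofReal_le_ofReal
    have n4 : ‖q (z + w + ζ) - q (z + w)‖ ≤ ‖q (z + w + ζ) - Q n (z + w + ζ)‖ +
        ‖Q n (z + w + ζ) - Q n (z + w)‖ + ‖q (z + w) - Q n (z + w)‖ := by
      have : q (z + w + ζ) - q (z + w) = (q (z + w + ζ) - Q n (z + w + ζ)) +
        (Q n (z + w + ζ) - Q n (z + w)) - (q (z + w) - Q n (z + w)) := by ring
      rw [this]
      exact (norm_sub_le _ _).trans (add_le_add_left (norm_add_le _ _) _)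
    linarith
  have herr := err_tendsto K hKc Q qx qy ζ (h.memx K hKc (hKr.trans hB)) (h.memy K hKc (hKr.trans hB))
    hQ3 hQ4
  have hfin : ENNReal.ofReal (B + η) * volume (ball (0 : ℂ) δ) ≤
      ENNReal.ofReal B * volume (ball (0 : ℂ) δ) := by
    have hlim : Tendsto (fun n => ENNReal.ofReal B * volume (ball (0 : ℂ) δ) +
        ∫⁻ p in K, ‖fderiv ℝ (Q n) p ζ - ((ζ.re : ℂ) * qx p + (ζ.im : ℂ) * qy p)‖ₑ) atTop
        (𝓝 (ENNReal.ofReal B * volume (ball (0 : ℂ) δ) + 0)) :=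
      tendsto_const_nhds.add herr
    rw [add_zero] at hlim
    apply ge_of_tendsto hlim
    filter_upwards [hlow] with n hn
    exact hn.trans (ball_est (Q n) qx qy z z₀ ζ r δ B K (hQ1 n) hKr hseg hb)
  rw [ENNReal.mul_le_mul_iff_left hm0 hmt, ENNReal.ofReal_le_ofReal_iff hB0] at hfin
  linarith

/- TARGET -/
theorem W.const_ball {U : Set ℂ} {q qx qy : ℂ → ℂ} (h : W U q qx qy) (z₀ : ℂ) (r : ℝ)
    (hB : ball z₀ r ⊆ U) (hx : ∀ᵐ z ∂(volume.restrict (ball z₀ r)), qx z = 0)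
    (hy : ∀ᵐ z ∂(volume.restrict (ball z₀ r)), qy z = 0) :
    ∀ z ∈ ball z₀ r, q z = q z₀ := by
  intro z hz
  have hrpos : 0 < r := (dist_nonneg).trans_lt (mem_ball.1 hz)
  have h1 := h.lip z₀ r hB (z₀ - z) 0 (by
    filter_upwards [hx, hy] with p hp1 hp2
    rw [hp1, hp2]; simp) z hz (by
    rw [add_sub_cancel]; exact mem_ball_self hrpos)
  rw [add_sub_cancel] at h1
  have h2 : q z₀ - q z = 0 := norm_le_zero_iff.1 h1
  exact (sub_eq_zero.1 h2).symm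

end Pool.Agent.Helper366.IV
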