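import Mathlib
import Pool.Agent.Helper366.IV.Compz
import Pool.Agent.Helper366.IV.Stokes
import Pool.Agent.Helper366.IV.Lip

set_option autoImplicit false
open MeasureTheory Metric Set Filter Topology Complex
open scoped ContDiff ENNReal ComplexConjugate

namespace Pool.Agent.Helper366.IV





/-- the smooth step `θ(t) = exp(-1/(t-a))` for `t > a`, zero otherwise -/
noncomputable def th (a t : ℝ) : ℝ := expNegInvGlue (t - a)

theorem th_hasDerivAt (a t : ℝ) :
    HasDerivAt (th a) (((t - a)⁻¹) ^ 2 * expNegInvGlue (t - a)) t := by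
  have h := expNegInvGlue.hasDerivAt_polynomial_eval_inv_mul 1 (t - a)
  have h2 := h.comp t ((hasDerivAt_id t).sub_const a)
  simp only [Polynomial.eval_one, one_mul, Polynomial.derivative_one, sub_zero, mul_one,
    Polynomial.eval_pow, Polynomial.eval_X] at h2
  exact h2

theorem th_contDiff (a : ℝ) : ContDiff ℝ 2 (th a) :=
  expNegInvGlue.contDiff.comp (contDiff_id.sub contDiff_const)

theorem th_zero {a t : ℝ} (h : t ≤ a) : th a t = 0 :=
  expNegInvGlue.zero_of_nonpos (by linarith)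

/-- the map `(z, w) ↦ θ(Re w) + i Im w` -/
noncomputable def Th (a : ℝ) (p : ℂ × ℂ) : ℂ := (th a p.2.re : ℂ) + (p.2.im : ℂ) * I

theorem Th_hasFDerivAt (a : ℝ) (p : ℂ × ℂ) : HasFDerivAt (Th a)
    (((Complex.ofRealCLM.comp ((((p.2.re - a)⁻¹) ^ 2 * expNegInvGlue (p.2.re - a)) •
      (Complex.reCLM.comp (ContinuousLinearMap.snd ℝ ℂ ℂ)))) +
      (ContinuousLinearMap.mul ℝ ℂ).flip I ∘L (Complex.ofRealCLM.comp
        (Complex.imCLM.comp (ContinuousLinearMap.snd ℝ ℂ ℂ))) : ℂ × ℂ →L[ℝ] ℂ)) p := by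
  unfold Th
  apply HasFDerivAt.add
  · apply Complex.ofRealCLM.hasFDerivAt.comp p
    exact (th_hasDerivAt a p.2.re).comp_hasFDerivAt p
      (Complex.reCLM.comp (ContinuousLinearMap.snd ℝ ℂ ℂ)).hasFDerivAt
  · exact (((ContinuousLinearMap.mul ℝ ℂ).flip I ∘L (Complex.ofRealCLM.comp
        (Complex.imCLM.comp (ContinuousLinearMap.snd ℝ ℂ ℂ))))).hasFDerivAt

theorem Th_fderiv (a : ℝ) (p v : ℂ × ℂ) : fderiv ℝ (Th a) p v =
    ((((p.2.re - a)⁻¹) ^ 2 * expNegInvGlue (p.2.re - a) * v.2.re : ℝ) : ℂ) + (v.2.im : ℂ) * I := by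
  rw [(Th_hasFDerivAt a p).fderiv]
  simp [mul_comm]

theorem Th_re (a : ℝ) (p v : ℂ × ℂ) : (fderiv ℝ (Th a) p v).re =
    ((p.2.re - a)⁻¹) ^ 2 * expNegInvGlue (p.2.re - a) * v.2.re := by
  rw [Th_fderiv, Complex.add_re, Complex.ofReal_re, Complex.re_ofReal_mul, Complex.I_re, mul_zero,
    add_zero]

theorem Th_im (a : ℝ) (p v : ℂ × ℂ) : (fderiv ℝ (Th a) p v).im = v.2.im := by
  rw [Th_fderiv, Complex.add_im, Complex.ofReal_im, Complex.im_ofReal_mul, Complex.I_im, mul_one,
    zero_add]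

theorem Th_contDiff (a : ℝ) : ContDiff ℝ 2 (Th a) := by
  unfold Th
  apply ContDiff.add
  · exact Complex.ofRealCLM.contDiff.comp ((th_contDiff a).comp
      (Complex.reCLM.contDiff.comp contDiff_snd))
  · exact (Complex.ofRealCLM.contDiff.comp (Complex.imCLM.contDiff.comp contDiff_snd)).mul
      contDiff_const

/- TARGET -/
theorem W.max {U : Set ℂ} {q qx qy : ℂ → ℂ} {κ : ℝ} (hκ : 0 < κ) (hU : IsOpen U) (h : W U q qx qy)
    (hQ : QR κ U qx qy) (z₀ : ℂ) (ρ : ℝ) (hρ : 0 < ρ) (hB : closedBall z₀ ρ ⊆ U) :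
    ∀ z ∈ closedBall z₀ ρ, ∃ b ∈ sphere z₀ ρ, (q z).re ≤ (q b).re := by
  by_contra hcon
  push Not at hcon
  obtain ⟨z1, hz1, hz1b⟩ := hcon
  have hSne : (sphere z₀ ρ).Nonempty := NormedSpace.sphere_nonempty.mpr hρ.le
  have hqB : ContinuousOn q (closedBall z₀ ρ) := h.cont.mono hB
  have hreB : ContinuousOn (fun z => (q z).re) (closedBall z₀ ρ) :=
    Complex.continuous_re.comp_continuousOn hqB
  obtain ⟨b, hb, hbmax⟩ := (isCompact_sphere z₀ ρ).exists_isMaxOn hSne
    (hreB.mono sphere_subset_closedBall)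
  have hMz1 : (q b).re < (q z1).re := hz1b b hb
  obtain ⟨a, ha1, ha2⟩ := exists_between hMz1
  -- the compact set K1
  obtain ⟨K1, hK1⟩ : ∃ K1 : Set ℂ, K1 = closedBall z₀ ρ ∩ (fun z => (q z).re) ⁻¹' (Ici a) := ⟨_, rfl⟩
  have hK1c : IsCompact K1 := by
    rw [hK1]
    exact (isCompact_closedBall z₀ ρ).of_isClosed_subset
      (hreB.preimage_isClosed_of_isClosed isClosed_closedBall isClosed_Ici) inter_subset_left
  have hz1K : z1 ∈ K1 := by
    rw [hK1]; exact ⟨hz1, ha2.le⟩
  obtain ⟨z2, hz2, hz2max⟩ := hK1c.exists_isMaxOn ⟨z1, hz1K⟩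
    (continuous_id.dist (continuous_const (y := z₀))).continuousOn
  have hz2ρ : dist z2 z₀ < ρ := by
    have hz2' := hz2
    rw [hK1] at hz2'
    refine lt_of_le_of_ne hz2'.1 (fun e => ?_)
    have h1 := hbmax (show z2 ∈ sphere z₀ ρ from e)
    have h2 : a ≤ (q z2).re := hz2'.2
    have h3 : (q z2).re ≤ (q b).re := h1
    linarith
  obtain ⟨r1, hr1, hr1'⟩ := exists_between hz2ρ
  obtain ⟨r2, hr2, hr2'⟩ := exists_between hr1'
  have hr1pos : 0 < r1 := lt_of_le_of_lt dist_nonneg hr1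
  let η : ContDiffBump z₀ := ⟨r1, r2, hr1pos, hr2⟩
  have hK1r : K1 ⊆ ball z₀ r1 := fun z hz => lt_of_le_of_lt (hz2max hz) hr1
  have hη1 : ∀ z ∈ ball z₀ r1, η z = 1 := fun z hz =>
    η.one_of_mem_closedBall (ball_subset_closedBall hz)
  have hηd : ∀ z ∈ ball z₀ r1, fderiv ℝ η z = 0 := by
    intro z hz
    have : (η : ℂ → ℝ) =ᶠ[𝓝 z] fun _ => (1 : ℝ) := by
      filter_upwards [isOpen_ball.mem_nhds hz] with w hw using hη1 w hw
    rw [this.fderiv_eq]
    simp
  have hηs : tsupport η = closedBall z₀ r2 := η.tsupport_eq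
  have hηU : tsupport η ⊆ U := by
    rw [hηs]; exact (closedBall_subset_closedBall hr2'.le).trans hB
  have hηc : HasCompactSupport η := η.hasCompactSupport
  have hηsm : ContDiff ℝ 2 η := η.contDiff
  -- the composed map
  have hW := h.compz hU (Th a) (fun z _ => (Th_contDiff a).contDiffAt)
  have hst := hW.stokes η hηsm hηc hηU
  -- right hand side vanishes
  have hrhs : ∀ z, (Th a (z, q z)).re * (fderiv ℝ η z 1 * (fderiv ℝ (Th a) (z, q z) (I, qy z)).im -
      fderiv ℝ η z I * (fderiv ℝ (Th a) (z, q z) (1, qx z)).im) = 0 := by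
    intro z
    by_cases hz : z ∈ tsupport η
    · by_cases hzr : z ∈ ball z₀ r1
      · rw [hηd z hzr]; simp
      · have hzB : z ∈ closedBall z₀ ρ := by
          rw [hηs] at hz; exact closedBall_subset_closedBall hr2'.le hz
        have hzK : z ∉ K1 := fun hz' => hzr (hK1r hz')
        have hlt : (q z).re < a := by
          by_contra h'
          push Not at h'
          exact hzK (by rw [hK1]; exact ⟨hzB, h'⟩)
        have : (Th a (z, q z)).re = 0 := by
          simp [Th, th_zero hlt.le]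
        rw [this, zero_mul]
    · have : fderiv ℝ η z = 0 := by
        have h1 : z ∉ tsupport (fderiv ℝ η) := fun h' => hz (tsupport_fderiv_subset ℝ h')
        exact image_eq_zero_of_notMem_tsupport h1
      rw [this]; simp
  rw [integral_congr_ae (Filter.Eventually.of_forall hrhs)] at hst
  simp only [integral_zero, neg_zero] at hst
  -- left hand side
  have hlhs : ∀ z, η z * ((fderiv ℝ (Th a) (z, q z) (1, qx z)).re *
      (fderiv ℝ (Th a) (z, q z) (I, qy z)).im - (fderiv ℝ (Th a) (z, q z) (I, qy z)).re *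
      (fderiv ℝ (Th a) (z, q z) (1, qx z)).im) =
      η z * ((((q z).re - a)⁻¹) ^ 2 * expNegInvGlue ((q z).re - a) * Jac qx qy z) := by
    intro z
    rw [Th_re, Th_re, Th_im, Th_im]
    simp only [Jac]
    ring
  -- integrability
  have hint : Integrable (fun z => η z * ((fderiv ℝ (Th a) (z, q z) (1, qx z)).re *
      (fderiv ℝ (Th a) (z, q z) (I, qy z)).im - (fderiv ℝ (Th a) (z, q z) (I, qy z)).re *
      (fderiv ℝ (Th a) (z, q z) (1, qx z)).im)) := by
    have hKc : IsCompact (tsupport η) := hηc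
    have mx := hW.memx _ hKc hηU
    have my := hW.memy _ hKc hηU
    have i1 := mx.re.integrable_mul my.im
    have i2 := my.re.integrable_mul mx.im
    have i3 := i1.sub i2
    have i4 : IntegrableOn (fun z => η z * ((fderiv ℝ (Th a) (z, q z) (1, qx z)).re *
      (fderiv ℝ (Th a) (z, q z) (I, qy z)).im - (fderiv ℝ (Th a) (z, q z) (I, qy z)).re *
      (fderiv ℝ (Th a) (z, q z) (1, qx z)).im)) (tsupport η) := by
      refine Integrable.bdd_mul (c := 1) i3 η.continuous.aestronglyMeasurable ?_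
      refine Filter.Eventually.of_forall fun z => ?_
      rw [Real.norm_eq_abs, abs_of_nonneg η.nonneg]
      exact η.le_one
    rw [integrableOn_iff_integrable_of_support_subset] at i4
    · exact i4
    · intro z hz
      rw [Function.mem_support] at hz
      apply subset_tsupport
      rw [Function.mem_support]
      intro h0
      exact hz (by rw [h0, zero_mul])
  -- nonnegativity
  have hQ' := (ae_restrict_iff' hU.measurableSet).mp hQ
  have hnn : 0 ≤ᵐ[volume] (fun z => η z * ((fderiv ℝ (Th a) (z, q z) (1, qx z)).re *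
      (fderiv ℝ (Th a) (z, q z) (I, qy z)).im - (fderiv ℝ (Th a) (z, q z) (I, qy z)).re *
      (fderiv ℝ (Th a) (z, q z) (1, qx z)).im)) := by
    filter_upwards [hQ'] with z hz
    rw [hlhs]
    by_cases hzU : z ∈ U
    · have h1 := hz hzU
      have h2 : 0 ≤ Jac qx qy z := by
        by_contra hneg
        push Not at hneg
        nlinarith [sq_nonneg ‖qx z‖, sq_nonneg ‖qy z‖, mul_neg_of_pos_of_neg hκ hneg]
      exact mul_nonneg η.nonneg (mul_nonneg (mul_nonneg (sq_nonneg _) (expNegInvGlue.nonneg _)) h2)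
    · have : η z = 0 := by
        by_contra h0
        exact hzU (hηU (subset_tsupport _ h0))
      rw [this, zero_mul]
      exact le_refl _
  have hzero := (integral_eq_zero_iff_of_nonneg_ae hnn hint).mp hst
  -- the open set V
  obtain ⟨V, hV⟩ : ∃ V : Set ℂ, V = ball z₀ ρ ∩ (fun z => (q z).re) ⁻¹' (Ioi a) := ⟨_, rfl⟩
  have hVo : IsOpen V := by
    rw [hV]
    exact (hreB.mono ball_subset_closedBall).isOpen_inter_preimage isOpen_ball isOpen_Ioi
  have hVz : ∀ᵐ z ∂(volume : Measure ℂ), z ∈ V → qx z = 0 ∧ qy z = 0 := by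
    filter_upwards [hzero, hQ'] with z hz hzQ hzV
    rw [hV] at hzV
    have hzB : z ∈ closedBall z₀ ρ := ball_subset_closedBall hzV.1
    have hza : a < (q z).re := hzV.2
    have hzK : z ∈ K1 := by rw [hK1]; exact ⟨hzB, hza.le⟩
    have h1 : η z = 1 := hη1 z (hK1r hzK)
    rw [hlhs, h1, one_mul] at hz
    have h2 : 0 < (((q z).re - a)⁻¹) ^ 2 * expNegInvGlue ((q z).re - a) := by
      have : 0 < (q z).re - a := by linarith
      exact mul_pos (by positivity) (expNegInvGlue.pos_of_pos this)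
    have h3 : Jac qx qy z = 0 := (mul_eq_zero.mp hz).resolve_left h2.ne'
    have h4 := hzQ (hB hzB)
    rw [h3, mul_zero] at h4
    constructor
    · have : ‖qx z‖ = 0 := by nlinarith [norm_nonneg (qx z), sq_nonneg ‖qy z‖]
      exact norm_eq_zero.mp this
    · have : ‖qy z‖ = 0 := by nlinarith [norm_nonneg (qy z), sq_nonneg ‖qx z‖]
      exact norm_eq_zero.mp this
  -- locally constant on V
  have hloc : ∀ z ∈ V, ∀ᶠ w in 𝓝 z, q w = q z := by
    intro z hz
    obtain ⟨r, hr, hrV⟩ := Metric.isOpen_iff.mp hVo z hz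
    have hVU : V ⊆ U := by
      rw [hV]; exact (inter_subset_left.trans ball_subset_closedBall).trans hB
    have hc := h.const_ball z r (hrV.trans hVU)
      ((ae_restrict_iff' measurableSet_ball).mpr (by
        filter_upwards [hVz] with w hw hwB using (hw (hrV hwB)).1))
      ((ae_restrict_iff' measurableSet_ball).mpr (by
        filter_upwards [hVz] with w hw hwB using (hw (hrV hwB)).2))
    filter_upwards [ball_mem_nhds z hr] with w hw using hc w hw
  -- clopen argument
  have hz1ball : z1 ∈ ball z₀ ρ := by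
    have := hK1r hz1K
    exact ball_subset_ball hr1'.le this
  obtain ⟨S, hS⟩ : ∃ S : Set ℂ, S = {z | z ∈ ball z₀ ρ ∧ q z = q z1} := ⟨_, rfl⟩
  have hSo : IsOpen S := by
    rw [isOpen_iff_mem_nhds]
    intro z hz
    rw [hS] at hz
    have hzV : z ∈ V := by
      rw [hV]
      refine ⟨hz.1, ?_⟩
      show a < (q z).re
      rw [hz.2]; exact ha2
    filter_upwards [hloc z hzV, isOpen_ball.mem_nhds hz.1] with w hw hwB
    rw [hS]
    exact ⟨hwB, hw.trans hz.2⟩
  have hsub : ball z₀ ρ ⊆ S := by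
    refine (convex_ball z₀ ρ).isPreconnected.subset_of_closure_inter_subset hSo
      ⟨z1, hz1ball, by rw [hS]; exact ⟨hz1ball, rfl⟩⟩ ?_
    rintro z ⟨hzc, hzB⟩
    rw [hS]
    refine ⟨hzB, ?_⟩
    have hqz : ContinuousAt q z := hqB.continuousAt
      (Filter.mem_of_superset (isOpen_ball.mem_nhds hzB) ball_subset_closedBall)
    by_contra hne
    have hev : ∀ᶠ w in 𝓝 z, q w ≠ q z1 := hqz.eventually_ne hne
    have hfr := mem_closure_iff_frequently.mp hzc
    obtain ⟨w, hw1, hw2⟩ := (hfr.and_eventually hev).exists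
    rw [hS] at hw1
    exact hw2 hw1.2
  have heq : EqOn q (fun _ => q z1) (ball z₀ ρ) := by
    intro z hz
    have := hsub hz
    rw [hS] at this
    exact this.2
  have heq2 : EqOn q (fun _ => q z1) (closedBall z₀ ρ) :=
    heq.of_subset_closure hqB continuousOn_const ball_subset_closedBall
      (by rw [closure_ball z₀ hρ.ne'])
  have := heq2 (sphere_subset_closedBall hb)
  rw [this] at hMz1
  exact lt_irrefl _ hMz1

end Pool.Agent.Helper366.IV
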