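import Mathlib

set_option autoImplicit false
open MeasureTheory Metric Set Filter Topology Complex
open scoped ContDiff ENNReal ComplexConjugate

namespace Pool.Agent.Helper366.IV

lemma circ_step (g : ℂ → ℝ) (z₀ : ℂ) (r : ℝ) (hr : 0 < r)
    (hg : ∀ z ∈ closedBall z₀ (2 * r), ContDiffAt ℝ 1 g z) (m ρ : ℝ) (hρ : ρ ∈ Ioo r (2 * r))
    (h : ∃ a ∈ sphere z₀ ρ, ∃ b ∈ sphere z₀ ρ, m ≤ g a - g b) :
    m ≤ ∫ θ in (-Real.pi)..Real.pi, ρ * ‖fderiv ℝ g (circleMap z₀ ρ θ)‖ := by
  obtain ⟨a, ha, b, hb, hm⟩ := h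
  have hρ0 : 0 < ρ := hr.trans hρ.1
  have hsurj : ∀ z ∈ sphere z₀ ρ, ∃ θ ∈ Ioc (-Real.pi) Real.pi, circleMap z₀ ρ θ = z := by
    intro z hz
    refine ⟨Complex.arg (z - z₀), Complex.arg_mem_Ioc _, ?_⟩
    have h1 := Complex.norm_mul_exp_arg_mul_I (z - z₀)
    rw [mem_sphere_iff_norm] at hz
    rw [hz] at h1
    simp only [circleMap]
    rw [h1]; ring
  obtain ⟨s, hs, rfl⟩ := hsurj a ha
  obtain ⟨t, ht, rfl⟩ := hsurj b hb
  have hin : ∀ θ : ℝ, circleMap z₀ ρ θ ∈ closedBall z₀ (2 * r) := by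
    intro θ
    rw [mem_closedBall_iff_norm]
    have : ‖circleMap z₀ ρ θ - z₀‖ = ρ := by
      have := circleMap_mem_sphere z₀ hρ0.le θ
      rwa [mem_sphere_iff_norm] at this
    rw [this]; exact hρ.2.le
  have hder : ∀ θ : ℝ, HasDerivAt (fun θ => g (circleMap z₀ ρ θ))
      (fderiv ℝ g (circleMap z₀ ρ θ) (circleMap 0 ρ θ * I)) θ := by
    intro θ
    have h1 := (hg _ (hin θ)).differentiableAt one_ne_zero
    exact h1.hasFDerivAt.comp_hasDerivAt θ (hasDerivAt_circleMap z₀ ρ θ)
  have hcf : Continuous (fun θ : ℝ => fderiv ℝ g (circleMap z₀ ρ θ)) := by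
    rw [continuous_iff_continuousAt]
    intro θ
    have h1 := (hg _ (hin θ)).fderiv_right (m := 0) (by norm_num)
    exact ContinuousAt.comp (f := fun θ => circleMap z₀ ρ θ) h1.continuousAt
      (continuous_circleMap z₀ ρ).continuousAt
  have hcd : Continuous (fun θ : ℝ => fderiv ℝ g (circleMap z₀ ρ θ) (circleMap 0 ρ θ * I)) :=
    hcf.clm_apply ((continuous_circleMap 0 ρ).mul continuous_const)
  have hftc := intervalIntegral.integral_eq_sub_of_hasDerivAt (a := t) (b := s)
    (fun x _ => hder x) (hcd.intervalIntegrable t s)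
  have hle : ∀ θ : ℝ, ‖fderiv ℝ g (circleMap z₀ ρ θ) (circleMap 0 ρ θ * I)‖ ≤
      ρ * ‖fderiv ℝ g (circleMap z₀ ρ θ)‖ := by
    intro θ
    refine (ContinuousLinearMap.le_opNorm _ _).trans ?_
    rw [norm_mul, Complex.norm_I, mul_one, norm_circleMap_zero, abs_of_pos hρ0, mul_comm]
  have hci : Continuous (fun θ : ℝ => ρ * ‖fderiv ℝ g (circleMap z₀ ρ θ)‖) :=
    continuous_const.mul hcf.norm
  have hpi : -Real.pi ≤ Real.pi := by linarith [Real.pi_pos]
  calc m ≤ g (circleMap z₀ ρ s) - g (circleMap z₀ ρ t) := hm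
    _ = ∫ θ in t..s, fderiv ℝ g (circleMap z₀ ρ θ) (circleMap 0 ρ θ * I) := hftc.symm
    _ ≤ ‖∫ θ in t..s, fderiv ℝ g (circleMap z₀ ρ θ) (circleMap 0 ρ θ * I)‖ := le_abs_self _
    _ ≤ ∫ θ in uIoc t s, ‖fderiv ℝ g (circleMap z₀ ρ θ) (circleMap 0 ρ θ * I)‖ :=
        intervalIntegral.norm_integral_le_integral_norm_uIoc
    _ ≤ ∫ θ in uIoc t s, ρ * ‖fderiv ℝ g (circleMap z₀ ρ θ)‖ := by
        apply setIntegral_mono
        · exact hcd.norm.integrableOn_uIoc
        · exact hci.integrableOn_uIoc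
        · exact hle
    _ ≤ ∫ θ in Ioc (-Real.pi) Real.pi, ρ * ‖fderiv ℝ g (circleMap z₀ ρ θ)‖ := by
        apply setIntegral_mono_set
        · exact hci.integrableOn_Ioc
        · exact Eventually.of_forall (fun θ => by positivity)
        · apply LE.le.eventuallyLE
          intro θ hθ
          rw [uIoc, mem_Ioc] at hθ
          constructor
          · exact lt_of_le_of_lt (le_min ht.1.le hs.1.le) hθ.1
          · exact hθ.2.trans (max_le ht.2 hs.2)
    _ = _ := by rw [intervalIntegral.integral_of_le hpi]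

/- TARGET -/
theorem osc_smooth (g : ℂ → ℝ) (z₀ : ℂ) (r : ℝ) (hr : 0 < r)
    (hg : ∀ z ∈ closedBall z₀ (2 * r), ContDiffAt ℝ 1 g z) (m : ℝ)
    (h : ∀ ρ ∈ Ioo r (2 * r), ∃ a ∈ sphere z₀ ρ, ∃ b ∈ sphere z₀ ρ, m ≤ g a - g b) :
    r * m ≤ ∫ z in closedBall z₀ (2 * r), ‖fderiv ℝ g z‖ := by
  have hpi : -Real.pi ≤ Real.pi := by linarith [Real.pi_pos]
  set F : ℂ → ℝ := fun z => ‖fderiv ℝ g (z₀ + z)‖ with hF
  have hcF : ∀ z ∈ closedBall (0 : ℂ) (2 * r), ContinuousAt F z := by
    intro z hz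
    have h0 : z₀ + z ∈ closedBall z₀ (2 * r) := by
      rw [mem_closedBall_iff_norm, add_sub_cancel_left]
      simpa using hz
    have h1 := ((hg _ h0).fderiv_right (m := 0) (by norm_num)).continuousAt
    exact (ContinuousAt.comp (f := fun z : ℂ => z₀ + z) h1 (by fun_prop)).norm
  have hcFon : ContinuousOn F (closedBall 0 (2 * r)) := fun z hz => (hcF z hz).continuousWithinAt
  set f : ℂ → ℝ := ({z : ℂ | r < ‖z‖ ∧ ‖z‖ < 2 * r}).indicator F with hf
  have hmeas : MeasurableSet {z : ℂ | r < ‖z‖ ∧ ‖z‖ < 2 * r} := by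
    apply MeasurableSet.inter
    · exact (isOpen_lt continuous_const continuous_norm).measurableSet
    · exact (isOpen_lt continuous_norm continuous_const).measurableSet
  -- translation
  have e1 : ∫ z in closedBall z₀ (2 * r), ‖fderiv ℝ g z‖ = ∫ z in closedBall (0 : ℂ) (2 * r), F z := by
    have h1 := (measurePreserving_add_left (volume : Measure ℂ) z₀).setIntegral_preimage_emb
      (measurableEmbedding_addLeft z₀) (fun z => ‖fderiv ℝ g z‖) (closedBall z₀ (2 * r))
    rw [← h1]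
    congr 2
    ext z
    simp
  have hint : IntegrableOn F (closedBall (0 : ℂ) (2 * r)) :=
    hcFon.integrableOn_compact (isCompact_closedBall _ _)
  have e2 : ∫ z, f z ≤ ∫ z in closedBall (0 : ℂ) (2 * r), F z := by
    rw [hf, integral_indicator hmeas]
    apply setIntegral_mono_set hint
    · exact Eventually.of_forall (fun z => norm_nonneg _)
    · apply LE.le.eventuallyLE
      intro z hz
      rw [mem_closedBall_zero_iff]; exact hz.2.le
  rw [e1]
  refine le_trans ?_ e2
  rw [← Complex.integral_comp_polarCoord_symm]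
  set H : ℝ × ℝ → ℝ := fun p => p.1 * F (Complex.polarCoord.symm p) with hH
  have hsymm : ∀ p : ℝ × ℝ, Complex.polarCoord.symm p = circleMap 0 p.1 p.2 := by
    intro p
    rw [Complex.polarCoord_symm_apply, circleMap, zero_add, Complex.exp_mul_I]
    push_cast; ring
  have hnorm : ∀ p : ℝ × ℝ, 0 < p.1 → ‖Complex.polarCoord.symm p‖ = p.1 := by
    intro p hp
    rw [hsymm, norm_circleMap_zero, abs_of_pos hp]
  have htar : polarCoord.target = Ioi (0 : ℝ) ×ˢ Ioo (-Real.pi) Real.pi := rfl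
  have hmt : MeasurableSet polarCoord.target := by rw [htar]; exact measurableSet_Ioi.prod measurableSet_Ioo
  have e3 : ∫ p in polarCoord.target, p.1 • f (Complex.polarCoord.symm p) =
      ∫ p in Ioo r (2 * r) ×ˢ Ioo (-Real.pi) Real.pi, H p := by
    have hsub : Ioo r (2 * r) ×ˢ Ioo (-Real.pi) Real.pi ⊆ polarCoord.target := by
      rw [htar]
      exact prod_mono (fun x hx => hr.trans hx.1) subset_rfl
    rw [setIntegral_eq_of_subset_of_forall_sdiff_eq_zero hmt hsub]
    · apply setIntegral_congr_fun (measurableSet_Ioo.prod measurableSet_Ioo)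
      intro p hp
      have hp0 : 0 < p.1 := hr.trans hp.1.1
      have : Complex.polarCoord.symm p ∈ {z : ℂ | r < ‖z‖ ∧ ‖z‖ < 2 * r} := by
        rw [mem_ofPred_eq, hnorm p hp0]; exact hp.1
      simp only [hf, hH, indicator_of_mem this, smul_eq_mul]
    · intro p hp
      have hp0 : 0 < p.1 := by
        have := hp.1
        rw [htar] at this
        exact this.1
      have : Complex.polarCoord.symm p ∉ {z : ℂ | r < ‖z‖ ∧ ‖z‖ < 2 * r} := by
        rw [mem_ofPred_eq, hnorm p hp0]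
        intro h2
        apply hp.2
        have h3 := hp.1
        rw [htar] at h3
        exact ⟨h2, h3.2⟩
      simp only [hf, indicator_of_notMem this, smul_zero]
  rw [e3]
  have hHc : ContinuousOn H (Icc r (2 * r) ×ˢ Icc (-Real.pi) Real.pi) := by
    intro p hp
    have hp0 : 0 < p.1 := lt_of_lt_of_le hr hp.1.1
    have h1 : Complex.polarCoord.symm p ∈ closedBall (0 : ℂ) (2 * r) := by
      rw [mem_closedBall_zero_iff, hnorm p hp0]; exact hp.1.2
    have h2 : ContinuousAt (fun p : ℝ × ℝ => (Complex.polarCoord.symm p)) p := by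
      have : (fun p : ℝ × ℝ => (Complex.polarCoord.symm p)) =
          fun p : ℝ × ℝ => (p.1 : ℂ) * (Real.cos p.2 + Real.sin p.2 * Complex.I) := by
        ext p; exact Complex.polarCoord_symm_apply p
      rw [this]
      fun_prop
    have h3 : ContinuousAt (fun p : ℝ × ℝ => F (Complex.polarCoord.symm p)) p :=
      ContinuousAt.comp (g := F) (f := fun p : ℝ × ℝ => (Complex.polarCoord.symm p)) (hcF _ h1) h2
    exact (continuousAt_fst.mul h3).continuousWithinAt
  have hHi : IntegrableOn H (Ioo r (2 * r) ×ˢ Ioo (-Real.pi) Real.pi)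
      ((volume : Measure ℝ).prod (volume : Measure ℝ)) := by
    rw [← Measure.volume_eq_prod]
    exact (hHc.integrableOn_compact (isCompact_Icc.prod isCompact_Icc)).mono_set
      (prod_mono Ioo_subset_Icc_self Ioo_subset_Icc_self)
  rw [Measure.volume_eq_prod, setIntegral_prod H hHi]
  have hconst : r * m = ∫ ρ in Ioo r (2 * r), m := by
    rw [setIntegral_const]
    simp only [Measure.real, Real.volume_Ioo, smul_eq_mul]
    rw [ENNReal.toReal_ofReal (by linarith)]
    ring
  rw [hconst]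
  apply setIntegral_mono_on
  · exact integrableOn_const (by simp)
  · rw [IntegrableOn, ← Measure.prod_restrict] at hHi
    exact hHi.integral_prod_left
  · exact measurableSet_Ioo
  · intro ρ hρ
    have h1 := circ_step g z₀ r hr hg m ρ hρ (h ρ hρ)
    refine h1.trans (le_of_eq ?_)
    rw [intervalIntegral.integral_of_le hpi, integral_Ioc_eq_integral_Ioo]
    apply setIntegral_congr_fun measurableSet_Ioo
    intro θ _
    simp only [hH, hF, hsymm]
    congr 3
    simp [circleMap]

end Pool.Agent.Helper366.IV
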