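import Mathlib
import Pool.Agent.Helper366.IV.Defs
import Pool.Agent.Helper366.IV.OscS

set_option autoImplicit false
open MeasureTheory Metric Set Filter Topology Complex
open scoped ContDiff ENNReal ComplexConjugate

namespace Pool.Agent.Helper366.IV



theorem norm_fderiv_re_le {Q : ℂ → ℂ} {w : ℂ} (h : DifferentiableAt ℝ Q w) :
    ‖fderiv ℝ (fun z => (Q z).re) w‖ ≤
      Real.sqrt (‖fderiv ℝ Q w 1‖ ^ 2 + ‖fderiv ℝ Q w I‖ ^ 2) := by
  have h1 : HasFDerivAt (fun z => (Q z).re) (reCLM.comp (fderiv ℝ Q w)) w :=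
    reCLM.hasFDerivAt.comp w h.hasFDerivAt
  rw [h1.fderiv]
  apply ContinuousLinearMap.opNorm_le_bound _ (Real.sqrt_nonneg _)
  intro v
  have hv : v = (v.re : ℝ) • (1 : ℂ) + (v.im : ℝ) • I := by
    apply Complex.ext <;> simp
  set a := fderiv ℝ Q w 1 with ha
  set b := fderiv ℝ Q w I with hb
  have h2 : (reCLM.comp (fderiv ℝ Q w)) v = v.re * a.re + v.im * b.re := by
    conv_lhs => rw [hv]
    rw [map_add, map_smul, map_smul]
    simp [ha, hb]
  rw [h2, Real.norm_eq_abs]
  have ha2 : a.re ^ 2 ≤ ‖a‖ ^ 2 := by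
    have := Complex.abs_re_le_norm a
    have h0 := abs_nonneg a.re
    rw [← sq_abs a.re]
    gcongr
  have hb2 : b.re ^ 2 ≤ ‖b‖ ^ 2 := by
    have := Complex.abs_re_le_norm b
    have h0 := abs_nonneg b.re
    rw [← sq_abs b.re]
    gcongr
  have hv2 : ‖v‖ ^ 2 = v.re ^ 2 + v.im ^ 2 := by
    rw [← Complex.normSq_eq_norm_sq, Complex.normSq_apply]
    ring
  apply abs_le_of_sq_le_sq _ (by positivity)
  rw [mul_pow, Real.sq_sqrt (by positivity), hv2]
  have h3 : (v.re * a.re + v.im * b.re) ^ 2 ≤ (a.re ^ 2 + b.re ^ 2) * (v.re ^ 2 + v.im ^ 2) := by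
    nlinarith [sq_nonneg (v.re * b.re - v.im * a.re)]
  refine h3.trans ?_
  gcongr

theorem sqrt_tri (a b c d : ℂ) :
    Real.sqrt (‖a‖ ^ 2 + ‖b‖ ^ 2) ≤ Real.sqrt (‖c‖ ^ 2 + ‖d‖ ^ 2) + (‖a - c‖ + ‖b - d‖) := by
  set s := Real.sqrt (‖c‖ ^ 2 + ‖d‖ ^ 2) with hs
  have hs0 : 0 ≤ s := Real.sqrt_nonneg _
  have hs2 : s ^ 2 = ‖c‖ ^ 2 + ‖d‖ ^ 2 := Real.sq_sqrt (by positivity)
  have hc : ‖c‖ ≤ s := Real.le_sqrt_of_sq_le (by nlinarith [sq_nonneg ‖d‖])
  have hd : ‖d‖ ≤ s := Real.le_sqrt_of_sq_le (by nlinarith [sq_nonneg ‖c‖])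
  have h1 : ‖a‖ ≤ ‖c‖ + ‖a - c‖ := by
    have := norm_add_le c (a - c)
    simpa using this
  have h2 : ‖b‖ ≤ ‖d‖ + ‖b - d‖ := by
    have := norm_add_le d (b - d)
    simpa using this
  rw [Real.sqrt_le_left (by positivity)]
  have e1 := norm_nonneg (a - c)
  have e2 := norm_nonneg (b - d)
  have e3 := norm_nonneg c
  have e4 := norm_nonneg d
  have e5 := norm_nonneg a
  have e6 := norm_nonneg b
  have f1 : ‖a‖ ^ 2 ≤ (‖c‖ + ‖a - c‖) ^ 2 := by gcongr
  have f2 : ‖b‖ ^ 2 ≤ (‖d‖ + ‖b - d‖) ^ 2 := by gcongr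
  nlinarith [mul_nonneg e1 e2, mul_nonneg e1 (sub_nonneg.mpr hc), mul_nonneg e2 (sub_nonneg.mpr hd)]

theorem fderiv_contOn {Q : ℂ → ℂ} {K : Set ℂ} (h : ∀ z ∈ K, ContDiffAt ℝ 2 Q z) (v : ℂ) :
    ContinuousOn (fun z => fderiv ℝ Q z v) K := by
  intro z hz
  have h1 : ContDiffAt ℝ 1 (fderiv ℝ Q) z := (h z hz).fderiv_right (by norm_num)
  have h2 : ContinuousAt (fun z => fderiv ℝ Q z v) z :=
    h1.continuousAt.clm_apply continuousAt_const
  exact h2.continuousWithinAt

theorem int_norm_tendsto {K : Set ℂ} (hK : IsCompact K) (f : ℕ → ℂ → ℂ)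
    (hf : ∀ n, AEStronglyMeasurable (f n) (volume.restrict K))
    (h : Tendsto (fun n => eLpNorm (f n) 2 (volume.restrict K)) atTop (𝓝 0)) :
    Tendsto (fun n => ∫ z in K, ‖f n z‖) atTop (𝓝 0) := by
  have hfin : (volume.restrict K) univ ≠ ⊤ := by
    rw [Measure.restrict_apply_univ]
    exact hK.measure_lt_top.ne
  have h1 : Tendsto (fun n => eLpNorm (f n) 1 (volume.restrict K)) atTop (𝓝 0) := by
    have h2 : ∀ n, eLpNorm (f n) 1 (volume.restrict K) ≤
        eLpNorm (f n) 2 (volume.restrict K) * (volume.restrict K) univ ^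
          (1 / (1 : ℝ≥0∞).toReal - 1 / (2 : ℝ≥0∞).toReal) := fun n =>
      eLpNorm_le_eLpNorm_mul_rpow_measure_univ (by norm_num) (hf n)
    have h3 : Tendsto (fun n => eLpNorm (f n) 2 (volume.restrict K) * (volume.restrict K) univ ^
          (1 / (1 : ℝ≥0∞).toReal - 1 / (2 : ℝ≥0∞).toReal)) atTop (𝓝 0) := by
      have := ENNReal.Tendsto.mul_const h (b := (volume.restrict K) univ ^
          (1 / (1 : ℝ≥0∞).toReal - 1 / (2 : ℝ≥0∞).toReal)) (Or.inr (by
            apply ENNReal.rpow_ne_top_of_nonneg _ hfin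
            norm_num))
      simpa using this
    exact tendsto_of_tendsto_of_tendsto_of_le_of_le tendsto_const_nhds h3 (fun n => zero_le) h2
  have h4 : ∀ n, ∫ z in K, ‖f n z‖ = (eLpNorm (f n) 1 (volume.restrict K)).toReal := by
    intro n
    rw [integral_norm_eq_lintegral_enorm (hf n), eLpNorm_one_eq_lintegral_enorm]
  simp_rw [h4]
  have := (ENNReal.tendsto_toReal ENNReal.zero_ne_top).comp h1
  simpa [Function.comp_def] using this

/- TARGET -/
theorem W.osc {U : Set ℂ} {q qx qy : ℂ → ℂ} (h : W U q qx qy) (z₀ : ℂ) (r : ℝ) (hr : 0 < r)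
    (hB : closedBall z₀ (2 * r) ⊆ U)
    (hmax : ∀ ρ ∈ Ioo r (2 * r), ∀ z ∈ closedBall z₀ ρ,
      (∃ b ∈ sphere z₀ ρ, (q z).re ≤ (q b).re) ∧ (∃ a ∈ sphere z₀ ρ, (q a).re ≤ (q z).re)) :
    ∀ z ∈ closedBall z₀ r, ∀ z' ∈ closedBall z₀ r,
      (q z).re - (q z').re ≤
        4 * Real.sqrt (∫ w in closedBall z₀ (2 * r), (‖qx w‖ ^ 2 + ‖qy w‖ ^ 2)) := by
  intro z hz z' hz'
  set K := closedBall z₀ (2 * r) with hK
  have hKc : IsCompact K := isCompact_closedBall _ _
  have hKm : MeasurableSet K := measurableSet_closedBall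
  haveI hfinm : IsFiniteMeasure (volume.restrict K) := ⟨by
    rw [Measure.restrict_apply_univ]; exact hKc.measure_lt_top⟩
  obtain ⟨Q, hQ2, hQu, hQx, hQy⟩ := h.approx K hKc hB
  have hx2 := h.memx K hKc hB
  have hy2 := h.memy K hKc hB
  have hx1 : Integrable qx (volume.restrict K) := hx2.integrable (by norm_num)
  have hy1 : Integrable qy (volume.restrict K) := hy2.integrable (by norm_num)
  have hxs : Integrable (fun w => ‖qx w‖ ^ 2) (volume.restrict K) := hx2.integrable_norm_pow (by norm_num)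
  have hys : Integrable (fun w => ‖qy w‖ ^ 2) (volume.restrict K) := hy2.integrable_norm_pow (by norm_num)
  set s : ℂ → ℝ := fun w => Real.sqrt (‖qx w‖ ^ 2 + ‖qy w‖ ^ 2) with hs
  have hs2 : ∀ w, s w ^ 2 = ‖qx w‖ ^ 2 + ‖qy w‖ ^ 2 := fun w => Real.sq_sqrt (by positivity)
  have hsm : AEStronglyMeasurable s (volume.restrict K) := by
    apply (Real.continuous_sqrt.comp_aestronglyMeasurable _)
    exact (hx1.1.norm.pow 2).add (hy1.1.norm.pow 2)
  have hsint : Integrable s (volume.restrict K) := by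
    apply Integrable.mono' (g := fun w => ‖qx w‖ + ‖qy w‖) (hx1.norm.add hy1.norm) hsm
    refine Eventually.of_forall fun w => ?_
    rw [Real.norm_of_nonneg (Real.sqrt_nonneg _)]
    rw [Real.sqrt_le_left (by positivity)]
    nlinarith [mul_nonneg (norm_nonneg (qx w)) (norm_nonneg (qy w))]
  set m := (q z).re - (q z').re with hm
  -- approximation errors
  have hax : ∀ n, ContinuousOn (fun w => fderiv ℝ (Q n) w 1) K := fun n => fderiv_contOn (hQ2 n) 1
  have hay : ∀ n, ContinuousOn (fun w => fderiv ℝ (Q n) w I) K := fun n => fderiv_contOn (hQ2 n) I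
  have hfx : ∀ n, AEStronglyMeasurable (fun w => fderiv ℝ (Q n) w 1 - qx w) (volume.restrict K) :=
    fun n => ((hax n).aestronglyMeasurable hKm).sub hx1.1
  have hfy : ∀ n, AEStronglyMeasurable (fun w => fderiv ℝ (Q n) w I - qy w) (volume.restrict K) :=
    fun n => ((hay n).aestronglyMeasurable hKm).sub hy1.1
  have tx := int_norm_tendsto hKc _ hfx hQx
  have ty := int_norm_tendsto hKc _ hfy hQy
  have hix : ∀ n, Integrable (fun w => ‖fderiv ℝ (Q n) w 1 - qx w‖) (volume.restrict K) := fun n =>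
    (((hax n).integrableOn_compact hKc).sub hx1).norm
  have hiy : ∀ n, Integrable (fun w => ‖fderiv ℝ (Q n) w I - qy w‖) (volume.restrict K) := fun n =>
    (((hay n).integrableOn_compact hKc).sub hy1).norm
  -- the main inequality
  have key : ∀ δ : ℝ, 0 < δ → r * (m - 2 * δ) ≤ ∫ w in K, s w := by
    intro δ hδ
    have hev : ∀ᶠ n in atTop, r * (m - 2 * δ) ≤ (∫ w in K, s w) +
        ((∫ w in K, ‖fderiv ℝ (Q n) w 1 - qx w‖) + ∫ w in K, ‖fderiv ℝ (Q n) w I - qy w‖) := by
      filter_upwards [(Metric.tendstoUniformlyOn_iff.1 hQu) δ hδ] with n hn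
      have hre : ∀ w ∈ K, |(Q n w).re - (q w).re| ≤ δ := by
        intro w hw
        have h1 := hn w hw
        rw [dist_eq_norm] at h1
        have h2 := Complex.abs_re_le_norm (q w - Q n w)
        rw [Complex.sub_re, abs_sub_comm] at h2
        linarith
      have hosc := osc_smooth (fun w => (Q n w).re) z₀ r hr
        (fun w hw => by
          have h1 : ContDiffAt ℝ 1 (Q n) w := (hQ2 n w hw).of_le (by norm_num)
          exact (reCLM.contDiff.contDiffAt (x := Q n w)).comp w h1) (m - 2 * δ)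
        (by
          intro ρ hρ
          have hzρ : z ∈ closedBall z₀ ρ := closedBall_subset_closedBall hρ.1.le hz
          have hz'ρ : z' ∈ closedBall z₀ ρ := closedBall_subset_closedBall hρ.1.le hz'
          obtain ⟨b, hb, hb2⟩ := (hmax ρ hρ z hzρ).1
          obtain ⟨a, ha, ha2⟩ := (hmax ρ hρ z' hz'ρ).2
          refine ⟨b, hb, a, ha, ?_⟩
          have hbK : b ∈ K := closedBall_subset_closedBall hρ.2.le (sphere_subset_closedBall hb)
          have haK : a ∈ K := closedBall_subset_closedBall hρ.2.le (sphere_subset_closedBall ha)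
          have e1 := abs_le.1 (hre b hbK)
          have e2 := abs_le.1 (hre a haK)
          linarith [e1.1, e2.2])
      refine hosc.trans ?_
      have hxy : Integrable (fun w => ‖fderiv ℝ (Q n) w 1 - qx w‖ + ‖fderiv ℝ (Q n) w I - qy w‖)
        (volume.restrict K) := (hix n).add (hiy n)
      rw [← integral_add (hix n) (hiy n), ← integral_add hsint hxy]
      have hbound : ∀ w ∈ K, ‖fderiv ℝ (fun z => (Q n z).re) w‖ ≤
          s w + (‖fderiv ℝ (Q n) w 1 - qx w‖ + ‖fderiv ℝ (Q n) w I - qy w‖) := by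
        intro w hw
        have hd : DifferentiableAt ℝ (Q n) w := (hQ2 n w hw).differentiableAt (by norm_num)
        exact (norm_fderiv_re_le hd).trans (sqrt_tri _ _ _ _)
      apply integral_mono_of_nonneg (Eventually.of_forall fun w => norm_nonneg _)
        (hsint.add ((hix n).add (hiy n)))
      rw [EventuallyLE, ae_restrict_iff' hKm]
      exact Eventually.of_forall hbound
    have hlim : Tendsto (fun n => (∫ w in K, s w) +
        ((∫ w in K, ‖fderiv ℝ (Q n) w 1 - qx w‖) + ∫ w in K, ‖fderiv ℝ (Q n) w I - qy w‖))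
        atTop (𝓝 ((∫ w in K, s w) + (0 + 0))) := tendsto_const_nhds.add (tx.add ty)
    rw [add_zero, add_zero] at hlim
    exact ge_of_tendsto hlim hev
  have key2 : r * m ≤ ∫ w in K, s w := by
    apply le_of_forall_pos_le_add
    intro ε hε
    have := key (ε / (2 * r)) (by positivity)
    have e : r * (m - 2 * (ε / (2 * r))) = r * m - ε := by
      field_simp
    linarith
  -- Cauchy-Schwarz
  set E := ∫ w in K, (‖qx w‖ ^ 2 + ‖qy w‖ ^ 2) with hE
  set I1 := ∫ w in K, s w with hI1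
  have hE0 : 0 ≤ E := integral_nonneg fun w => by positivity
  have hV : (volume K).toReal = 4 * Real.pi * r ^ 2 := by
    rw [hK, Complex.volume_closedBall, ENNReal.toReal_mul, ENNReal.toReal_pow,
      ENNReal.toReal_ofReal (by positivity)]
    simp only [ENNReal.coe_toReal, NNReal.coe_real_pi]
    ring
  have hVpos : 0 < (volume K).toReal := by rw [hV]; positivity
  have hCS : I1 ^ 2 ≤ (volume K).toReal * E := by
    set c := I1 / (volume K).toReal with hc
    have h0 : 0 ≤ ∫ w in K, (s w - c) ^ 2 := integral_nonneg fun w => sq_nonneg _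
    have h1 : ∫ w in K, (s w - c) ^ 2 = E - 2 * c * I1 + c ^ 2 * (volume K).toReal := by
      have e1 : ∀ w, (s w - c) ^ 2 = ((‖qx w‖ ^ 2 + ‖qy w‖ ^ 2) - 2 * c * s w) + c ^ 2 := by
        intro w
        rw [← hs2 w]
        ring
      simp_rw [e1]
      have i1 : Integrable (fun w => ‖qx w‖ ^ 2 + ‖qy w‖ ^ 2) (volume.restrict K) := hxs.add hys
      have i2 : Integrable (fun w => 2 * c * s w) (volume.restrict K) := hsint.const_mul (2 * c)
      have i3 : Integrable (fun w => (‖qx w‖ ^ 2 + ‖qy w‖ ^ 2) - 2 * c * s w)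
        (volume.restrict K) := i1.sub i2
      rw [integral_add i3 (integrable_const _),
        integral_sub i1 i2, integral_const_mul, integral_const,
        measureReal_def, Measure.restrict_apply_univ, smul_eq_mul]
      ring
    rw [h1] at h0
    have h2 : c * (volume K).toReal = I1 := by rw [hc]; field_simp
    nlinarith
  have hfinal : I1 ≤ 4 * r * Real.sqrt E := by
    apply le_of_sq_le_sq _ (by positivity)
    rw [mul_pow, Real.sq_sqrt hE0]
    refine hCS.trans ?_
    rw [hV]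
    have hpi := Real.pi_le_four
    have hr2 : 0 ≤ r ^ 2 * E := by positivity
    nlinarith
  have h5 : r * m ≤ r * (4 * Real.sqrt E) := by linarith
  exact le_of_mul_le_mul_left h5 hr

end Pool.Agent.Helper366.IV
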