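import Mathlib
import Pool.Agent.Helper366.IV.Compz
import Pool.Agent.Helper366.IV.Max
import Pool.Agent.Helper366.IV.Cacc
import Pool.Agent.Helper366.IV.Osc

set_option autoImplicit false
open MeasureTheory Metric Set Filter Topology Complex
open scoped ContDiff ENNReal ComplexConjugate

namespace Pool.Agent.Helper366.IV







theorem W.mono69 {U V : Set ℂ} {q qx qy : ℂ → ℂ} (h : W U q qx qy) (hV : V ⊆ U) : W V q qx qy :=
  ⟨h.cont.mono hV, fun K hK hKV => h.memx K hK (hKV.trans hV), fun K hK hKV => h.memy K hK (hKV.trans hV),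
    fun K hK hKV => h.approx K hK (hKV.trans hV)⟩

theorem W.lin {U : Set ℂ} {q qx qy : ℂ → ℂ} (hU : IsOpen U) (h : W U q qx qy) (a b : ℂ) :
    W U (fun z => a * q z + b) (fun z => a * qx z) (fun z => a * qy z) := by
  have hd : ∀ p v : ℂ × ℂ, fderiv ℝ (fun p : ℂ × ℂ => a * p.2 + b) p v = a * v.2 := by
    intro p v
    have h1 : HasFDerivAt (fun p : ℂ × ℂ => a * p.2 + b)
        ((ContinuousLinearMap.mul ℝ ℂ a).comp (ContinuousLinearMap.snd ℝ ℂ ℂ)) p := by
      have h2 : HasFDerivAt (fun p : ℂ × ℂ => p.2) (ContinuousLinearMap.snd ℝ ℂ ℂ) p :=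
        hasFDerivAt_snd
      exact (((ContinuousLinearMap.mul ℝ ℂ a).hasFDerivAt).comp p h2).add_const b
    rw [h1.fderiv]
    rfl
  have h1 := W.compz hU h (fun p : ℂ × ℂ => a * p.2 + b) (fun z _ => by fun_prop)
  simp only [hd] at h1
  exact h1

theorem QR.lin {U : Set ℂ} {qx qy : ℂ → ℂ} {κ : ℝ} (h : QR κ U qx qy) (a : ℂ) (ha : ‖a‖ = 1) :
    QR κ U (fun z => a * qx z) (fun z => a * qy z) := by
  unfold QR at h ⊢
  filter_upwards [h] with z hz
  rw [norm_mul, norm_mul, ha, one_mul, one_mul]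
  have h1 : Jac (fun z => a * qx z) (fun z => a * qy z) z = ‖a‖ ^ 2 * Jac qx qy z := by
    rw [← Complex.normSq_eq_norm_sq, Complex.normSq_apply]
    simp only [Jac, Complex.mul_re, Complex.mul_im]
    ring
  rw [h1, ha, one_pow, one_mul]
  exact hz

theorem W.intg {U : Set ℂ} {q qx qy : ℂ → ℂ} (h : W U q qx qy) {K : Set ℂ} (hK : IsCompact K)
    (hKU : K ⊆ U) : IntegrableOn (fun z => ‖qx z‖ ^ 2 + ‖qy z‖ ^ 2) K := by
  have h1 := (h.memx K hK hKU).norm.integrable_sq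
  have h2 := (h.memy K hK hKU).norm.integrable_sq
  exact h1.add h2

/-- two-sided maximum principle -/
theorem W.max2 {U : Set ℂ} {q qx qy : ℂ → ℂ} {κ : ℝ} (hκ : 0 < κ) (hU : IsOpen U) (h : W U q qx qy)
    (hQ : QR κ U qx qy) (z₀ : ℂ) (ρ : ℝ) (hρ : 0 < ρ) (hB : closedBall z₀ ρ ⊆ U) :
    ∀ z ∈ closedBall z₀ ρ, (∃ b ∈ sphere z₀ ρ, (q z).re ≤ (q b).re) ∧
      (∃ a ∈ sphere z₀ ρ, (q a).re ≤ (q z).re) := by
  intro z hz
  refine ⟨W.max hκ hU h hQ z₀ ρ hρ hB z hz, ?_⟩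
  obtain ⟨a, ha, h1⟩ := W.max hκ hU (W.lin hU h (-1) 0) (QR.lin hQ (-1) (by simp)) z₀ ρ hρ hB z hz
  refine ⟨a, ha, ?_⟩
  simp at h1
  exact h1

/- TARGET -/
theorem harnack (κ : ℝ) (hκ : 0 < κ) : ∃ C : ℝ, 0 < C ∧ ∀ (U : Set ℂ) (q qx qy : ℂ → ℂ), IsOpen U →
    W U q qx qy → QR κ U qx qy → ∀ (z₀ : ℂ) (r δ : ℝ), 0 < r → 0 < δ →
    closedBall z₀ (4 * r) ⊆ U → q z₀ = 0 → (∀ z ∈ closedBall z₀ (4 * r), -δ < (q z).re) →
    ∀ z ∈ closedBall z₀ (r / 4), ‖q z‖ ≤ C * δ := by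
  obtain ⟨c1, hc1, H1⟩ := W.logcacc κ hκ
  obtain ⟨c2, hc2, H2⟩ := W.cacc κ hκ
  set A : ℝ := Real.exp (4 * Real.sqrt c1) + 1 with hA
  have hA0 : 0 < A := by positivity
  refine ⟨A + 4 * Real.sqrt c2 * A, by positivity, ?_⟩
  intro U q qx qy hU hW hQ z₀ r δ hr hδ hB hq0 hlow
  -- the set where the real part is large
  set U1 : Set ℂ := {z | z ∈ U ∧ -δ < (q z).re} with hU1
  have hU1sub : U1 ⊆ U := fun z hz => hz.1
  have hU1o : IsOpen U1 := by
    have h1 : ContinuousOn (fun z => (q z).re) U := Complex.continuous_re.comp_continuousOn hW.cont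
    have h2 := h1.isOpen_inter_preimage hU (isOpen_Ioi (a := -δ))
    have h3 : U1 = U ∩ (fun z => (q z).re) ⁻¹' Ioi (-δ) := by
      ext z
      simp [hU1]
    rw [h3]
    exact h2
  have hB1 : closedBall z₀ (4 * r) ⊆ U1 := fun z hz => ⟨hB hz, hlow z hz⟩
  have hW1 : W U1 q qx qy := hW.mono69 hU1sub
  have hQ1 : QR κ U1 qx qy := ae_mono (Measure.restrict_mono hU1sub le_rfl) hQ
  have hB2 : closedBall z₀ (2 * r) ⊆ U1 :=
    (closedBall_subset_closedBall (by linarith)).trans hB1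
  have hpos : ∀ z ∈ U1, 0 < (q z).re + δ := fun z hz => by
    have := hz.2
    linarith
  -- logarithmic Caccioppoli
  have E1 : ∫ z in closedBall z₀ (2 * r), (‖qx z‖ ^ 2 + ‖qy z‖ ^ 2) / ((q z).re + δ) ^ 2 ≤ c1 := by
    have h1 := H1 U1 (fun z => 1 * q z + (δ : ℂ)) (fun z => 1 * qx z) (fun z => 1 * qy z) hU1o
      (W.lin hU1o hW1 1 δ) (QR.lin hQ1 1 (by simp)) z₀ (2 * r) (by linarith)
      (by
        have : 2 * (2 * r) = 4 * r := by ring
        rw [this]
        exact hB1)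
      (by
        intro z hz
        have h2 : 2 * (2 * r) = 4 * r := by ring
        rw [h2] at hz
        have := hpos z (hB1 hz)
        simpa using this)
    simpa using h1
  -- the logarithm
  set Θ : ℂ × ℂ → ℂ := fun p => ((Real.log (p.2.re + δ) : ℝ) : ℂ) with hΘ
  have hΘd : ∀ z ∈ U1, HasFDerivAt Θ ((((q z).re + δ)⁻¹ : ℝ) •
      (Complex.ofRealCLM.comp (Complex.reCLM.comp (ContinuousLinearMap.snd ℝ ℂ ℂ)))) (z, q z) := by
    intro z hz
    have h1 : HasFDerivAt (fun p : ℂ × ℂ => p.2.re + δ)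
        (Complex.reCLM.comp (ContinuousLinearMap.snd ℝ ℂ ℂ)) (z, q z) :=
      ((Complex.reCLM.comp (ContinuousLinearMap.snd ℝ ℂ ℂ)).hasFDerivAt).add_const δ
    have h2 := h1.log (ne_of_gt (hpos z hz))
    have h3 := (Complex.ofRealCLM.hasFDerivAt (x := Real.log ((q z).re + δ))).comp (z, q z) h2
    have h4 : (Complex.ofRealCLM.comp ((((q z).re + δ)⁻¹ : ℝ) •
        (Complex.reCLM.comp (ContinuousLinearMap.snd ℝ ℂ ℂ))) : ℂ × ℂ →L[ℝ] ℂ) =
        (((q z).re + δ)⁻¹ : ℝ) •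
      (Complex.ofRealCLM.comp (Complex.reCLM.comp (ContinuousLinearMap.snd ℝ ℂ ℂ))) := by
      apply ContinuousLinearMap.ext
      intro v
      simp
    rw [← h4]
    exact h3
  have hΘc : ∀ z ∈ U1, ContDiffAt ℝ 2 Θ (z, q z) := by
    intro z hz
    have h1 : ContDiffAt ℝ 2 (fun p : ℂ × ℂ => p.2.re + δ) (z, q z) := by
      have : ContDiff ℝ 2 (fun p : ℂ × ℂ => Complex.reCLM p.2 + δ) := by fun_prop
      exact this.contDiffAt
    have h2 := h1.log (ne_of_gt (hpos z hz))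
    exact (Complex.ofRealCLM.contDiff.contDiffAt).comp (z, q z) h2
  have hWL := W.compz hU1o hW1 Θ hΘc
  set Lx : ℂ → ℂ := fun z => fderiv ℝ Θ (z, q z) (1, qx z) with hLx
  set Ly : ℂ → ℂ := fun z => fderiv ℝ Θ (z, q z) (I, qy z) with hLy
  have hLxn : ∀ z ∈ U1, ‖Lx z‖ ^ 2 + ‖Ly z‖ ^ 2 ≤ (‖qx z‖ ^ 2 + ‖qy z‖ ^ 2) / ((q z).re + δ) ^ 2 := by
    intro z hz
    have hp := hpos z hz
    have e1 : Lx z = ((((q z).re + δ)⁻¹ * (qx z).re : ℝ) : ℂ) := by
      rw [hLx]
      simp only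
      rw [(hΘd z hz).fderiv]
      simp
    have e2 : Ly z = ((((q z).re + δ)⁻¹ * (qy z).re : ℝ) : ℂ) := by
      rw [hLy]
      simp only
      rw [(hΘd z hz).fderiv]
      simp
    rw [e1, e2, Complex.norm_real, Complex.norm_real, norm_mul, norm_mul, mul_pow, mul_pow,
      norm_inv, Real.norm_of_nonneg hp.le, ← mul_add, inv_pow, div_eq_inv_mul]
    apply mul_le_mul_of_nonneg_left _ (by positivity)
    apply add_le_add
    · exact pow_le_pow_left₀ (norm_nonneg _) (Complex.abs_re_le_norm _) 2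
    · exact pow_le_pow_left₀ (norm_nonneg _) (Complex.abs_re_le_norm _) 2
  -- integrability of the weighted density
  have hint : IntegrableOn (fun z => (‖qx z‖ ^ 2 + ‖qy z‖ ^ 2) / ((q z).re + δ) ^ 2)
      (closedBall z₀ (2 * r)) := by
    have hKc : IsCompact (closedBall z₀ (2 * r)) := isCompact_closedBall _ _
    have h1 := hW1.intg hKc hB2
    have h2 : ContinuousOn (fun z => (((q z).re + δ) ^ 2)⁻¹) (closedBall z₀ (2 * r)) := by
      have h3 : ContinuousOn (fun z => (q z).re) (closedBall z₀ (2 * r)) :=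
        Complex.continuous_re.comp_continuousOn (hW1.cont.mono hB2)
      refine ContinuousOn.inv₀ ((h3.add continuousOn_const).pow 2) ?_
      intro z hz
      exact pow_ne_zero 2 (ne_of_gt (hpos z (hB2 hz)))
    have h4 := h1.mul_continuousOn h2 hKc
    refine h4.congr_fun (fun z _ => ?_) measurableSet_closedBall
    simp only [div_eq_mul_inv]
  have E2 : ∫ w in closedBall z₀ (2 * r), (‖Lx w‖ ^ 2 + ‖Ly w‖ ^ 2) ≤ c1 := by
    refine le_trans ?_ E1
    refine integral_mono_of_nonneg (Eventually.of_forall (fun w => by positivity)) hint ?_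
    refine (ae_restrict_iff' measurableSet_closedBall).2 (Eventually.of_forall (fun w hw => ?_))
    exact hLxn w (hB2 hw)
  have hosc := W.osc hWL z₀ r hr hB2 (by
    intro ρ hρ z hz
    have hρ0 : 0 < ρ := hr.trans hρ.1
    have hBρ : closedBall z₀ ρ ⊆ U1 :=
      (closedBall_subset_closedBall hρ.2.le).trans hB2
    obtain ⟨⟨b, hb, h1⟩, ⟨a, ha, h2⟩⟩ := W.max2 hκ hU1o hW1 hQ1 z₀ ρ hρ0 hBρ z hz
    refine ⟨⟨b, hb, ?_⟩, ⟨a, ha, ?_⟩⟩
    · simp only [hΘ, Complex.ofReal_re]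
      exact Real.log_le_log (hpos z (hBρ hz)) (by linarith)
    · simp only [hΘ, Complex.ofReal_re]
      exact Real.log_le_log (hpos a (hBρ (sphere_subset_closedBall ha))) (by linarith))
  have hz0r : z₀ ∈ closedBall z₀ r := mem_closedBall_self hr.le
  have hup : ∀ z ∈ closedBall z₀ r, |(q z).re| ≤ A * δ := by
    intro z hz
    have hzU : z ∈ U1 := hB1 (closedBall_subset_closedBall (by linarith) hz)
    have h1 := hosc z hz z₀ hz0r
    simp only [hΘ, Complex.ofReal_re, hq0, Complex.zero_re, zero_add] at h1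
    have h2 : Real.sqrt (∫ w in closedBall z₀ (2 * r), (‖Lx w‖ ^ 2 + ‖Ly w‖ ^ 2)) ≤ Real.sqrt c1 :=
      Real.sqrt_le_sqrt E2
    have h3 : Real.log ((q z).re + δ) ≤ 4 * Real.sqrt c1 + Real.log δ := by linarith
    have h4 : (q z).re + δ ≤ Real.exp (4 * Real.sqrt c1) * δ := by
      have h5 := Real.exp_le_exp.2 h3
      rw [Real.exp_log (hpos z hzU), Real.exp_add, Real.exp_log hδ] at h5
      exact h5
    rw [abs_le]
    constructor
    · have h6 := hzU.2
      have h7 : δ ≤ A * δ := by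
        have h8 : 1 ≤ A := by
          rw [hA]
          linarith [Real.exp_pos (4 * Real.sqrt c1)]
        nlinarith
      linarith
    · rw [hA]
      linarith
  -- Caccioppoli
  have E3 := H2 U q qx qy hU hW hQ z₀ (r / 2) (A * δ) (by linarith)
    ((closedBall_subset_closedBall (by linarith)).trans hB)
    (by
      intro z hz
      apply hup z
      have : 2 * (r / 2) = r := by ring
      rwa [this] at hz)
  have hWi := W.lin hU hW (-I) 0
  have hQi : QR κ U (fun z => -I * qx z) (fun z => -I * qy z) := QR.lin hQ (-I) (by simp)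
  have hosc2 := W.osc hWi z₀ (r / 4) (by linarith)
    ((closedBall_subset_closedBall (by linarith)).trans hB) (by
      intro ρ hρ z hz
      have hρ0 : 0 < ρ := lt_trans (by linarith) hρ.1
      have h1 := hρ.2
      have hBρ : closedBall z₀ ρ ⊆ U :=
        (closedBall_subset_closedBall (by linarith)).trans hB
      exact W.max2 hκ hU hWi hQi z₀ ρ hρ0 hBρ z hz)
  have hz0r4 : z₀ ∈ closedBall z₀ (r / 4) := mem_closedBall_self (by linarith)
  intro z hz
  have hint2 : ∫ w in closedBall z₀ (2 * (r / 4)), (‖-I * qx w‖ ^ 2 + ‖-I * qy w‖ ^ 2) ≤ c2 * (A * δ) ^ 2 := by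
    have h1 : 2 * (r / 4) = r / 2 := by ring
    rw [h1]
    simpa using E3
  have hs : Real.sqrt (∫ w in closedBall z₀ (2 * (r / 4)), (‖-I * qx w‖ ^ 2 + ‖-I * qy w‖ ^ 2)) ≤
      Real.sqrt c2 * (A * δ) := by
    refine (Real.sqrt_le_sqrt hint2).trans (le_of_eq ?_)
    rw [Real.sqrt_mul hc2.le, Real.sqrt_sq (by positivity)]
  have him : |(q z).im| ≤ 4 * (Real.sqrt c2 * (A * δ)) := by
    have h1 := hosc2 z hz z₀ hz0r4
    have h2 := hosc2 z₀ hz0r4 z hz
    simp [hq0] at h1 h2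
    rw [abs_le]
    simp at hs
    constructor <;> linarith
  have hre := hup z (closedBall_subset_closedBall (by linarith) hz)
  calc ‖q z‖ ≤ |(q z).re| + |(q z).im| := Complex.norm_le_abs_re_add_abs_im _
    _ ≤ A * δ + 4 * (Real.sqrt c2 * (A * δ)) := add_le_add hre him
    _ = (A + 4 * Real.sqrt c2 * A) * δ := by ring

end Pool.Agent.Helper366.IV
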