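import Pool.Agent.Helper366.IV.Defs

set_option autoImplicit false
open MeasureTheory Metric Set Filter Topology Complex
open scoped ContDiff ENNReal ComplexConjugate

namespace Pool.Agent.Helper366.IV

theorem conj_div_self {F : ℂ} : conj F = (starRingEnd ℂ) F := rfl

/-- general square of the norm: `|F a + conj b / conj F|²`. -/
theorem lin_normSq (F a b : ℂ) (hF : F ≠ 0) :
    ‖F * a + conj b / conj F‖ ^ 2 = ‖F‖ ^ 2 * ‖a‖ ^ 2 + ‖b‖ ^ 2 / ‖F‖ ^ 2 + 2 * (a * b).re := by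
  have h1 : ‖F * a + conj b / conj F‖ ^ 2 =
      ‖F * a‖ ^ 2 + ‖conj b / conj F‖ ^ 2 + 2 * (F * a * conj (conj b / conj F)).re := by
    rw [← Complex.normSq_eq_norm_sq, ← Complex.normSq_eq_norm_sq, ← Complex.normSq_eq_norm_sq,
      Complex.normSq_add]
  rw [h1]
  have h2 : F * a * conj (conj b / conj F) = a * b := by
    rw [map_div₀, Complex.conj_conj, Complex.conj_conj]
    field_simp
  rw [h2, norm_mul, norm_div, RCLike.norm_conj, RCLike.norm_conj, mul_pow, div_pow]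

theorem inc_normSq (Φ : ℂ → ℂ) (F z z' : ℂ) (hF : F ≠ 0) :
    ‖inc Φ F z z'‖ ^ 2 = ‖F‖ ^ 2 * ‖z - z'‖ ^ 2 + ‖Φ z - Φ z'‖ ^ 2 / ‖F‖ ^ 2 +
      2 * ((z - z') * (Φ z - Φ z')).re := lin_normSq _ _ _ hF

theorem inc_norm_eq (Φ : ℂ → ℂ) (F F' z z' : ℂ) (hF : F ≠ 0) (h : ‖F‖ = ‖F'‖) :
    ‖inc Φ F z z'‖ = ‖inc Φ F' z z'‖ := by
  have hF' : F' ≠ 0 := by
    rw [← norm_ne_zero_iff, ← h]; exact norm_ne_zero_iff.mpr hF
  have : ‖inc Φ F z z'‖ ^ 2 = ‖inc Φ F' z z'‖ ^ 2 := by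
    rw [inc_normSq _ _ _ _ hF, inc_normSq _ _ _ _ hF', h]
  exact (pow_left_inj₀ (norm_nonneg _) (norm_nonneg _) two_ne_zero).mp this

theorem inc_phase (Φ : ℂ → ℂ) (F u z z' : ℂ) (hu : ‖u‖ = 1) :
    inc Φ (F * u) z z' = u * inc Φ F z z' := by
  have hu' : conj u = u⁻¹ := by
    rw [Complex.inv_def, Complex.normSq_eq_norm_sq, hu]; simp
  have hu0 : u ≠ 0 := by rw [← norm_ne_zero_iff, hu]; norm_num
  unfold inc
  rw [map_mul, hu']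
  by_cases hF : F = 0
  · subst hF; simp
  · have : conj F ≠ 0 := by simpa using hF
    field_simp

/-- bounds on `inc`. -/
theorem inc_lower (Φ : ℂ → ℂ) (F z z' : ℂ) (m : ℝ) (hΦ : ‖Φ z - Φ z'‖ ≤ m ^ 2 * ‖z - z'‖)
    (hF : F ≠ 0) : (‖F‖ - m ^ 2 / ‖F‖) * ‖z - z'‖ ≤ ‖inc Φ F z z'‖ := by
  have hp : 0 < ‖F‖ := norm_pos_iff.mpr hF
  have h1 : ‖F * (z - z')‖ ≤ ‖inc Φ F z z'‖ + ‖conj (Φ z - Φ z') / conj F‖ := by
    have : F * (z - z') = inc Φ F z z' - conj (Φ z - Φ z') / conj F := by unfold inc; ring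
    rw [this]; exact norm_sub_le _ _
  rw [norm_mul, norm_div, RCLike.norm_conj, RCLike.norm_conj] at h1
  have h2 : ‖Φ z - Φ z'‖ / ‖F‖ ≤ m ^ 2 * ‖z - z'‖ / ‖F‖ := by gcongr
  have : (‖F‖ - m ^ 2 / ‖F‖) * ‖z - z'‖ = ‖F‖ * ‖z - z'‖ - m ^ 2 * ‖z - z'‖ / ‖F‖ := by ring
  rw [this]; linarith

theorem inc_upper (Φ : ℂ → ℂ) (F z z' : ℂ) (m : ℝ) (hΦ : ‖Φ z - Φ z'‖ ≤ m ^ 2 * ‖z - z'‖)
    (hF : F ≠ 0) : ‖inc Φ F z z'‖ ≤ (‖F‖ + m ^ 2 / ‖F‖) * ‖z - z'‖ := by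
  have hp : 0 < ‖F‖ := norm_pos_iff.mpr hF
  have h1 : ‖inc Φ F z z'‖ ≤ ‖F * (z - z')‖ + ‖conj (Φ z - Φ z') / conj F‖ := norm_add_le _ _
  rw [norm_mul, norm_div, RCLike.norm_conj, RCLike.norm_conj] at h1
  have h2 : ‖Φ z - Φ z'‖ / ‖F‖ ≤ m ^ 2 * ‖z - z'‖ / ‖F‖ := by gcongr
  have : (‖F‖ + m ^ 2 / ‖F‖) * ‖z - z'‖ = ‖F‖ * ‖z - z'‖ + m ^ 2 * ‖z - z'‖ / ‖F‖ := by ring
  rw [this]; linarith

/-- the gap estimate -/
theorem lin_gap (R R' m : ℝ) (a b : ℂ) (hm : 0 < m) (h1 : m ≤ R) (h2 : R ≤ R')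
    (hb : ‖b‖ ≤ m ^ 2 * ‖a‖) :
    (R' - R) * (1 - m ^ 2 / R ^ 2) * ‖a‖ ≤
      ‖(R' : ℂ) * a + conj b / conj (R' : ℂ)‖ - ‖(R : ℂ) * a + conj b / conj (R : ℂ)‖ := by
  have hR : 0 < R := hm.trans_le h1
  have hR' : 0 < R' := hR.trans_le h2
  rcases eq_or_ne a 0 with ha | ha
  · subst ha
    have : b = 0 := by simpa using hb
    subst this; simp
  have ha' : 0 < ‖a‖ := norm_pos_iff.mpr ha
  set N' := ‖(R' : ℂ) * a + conj b / conj (R' : ℂ)‖ with hN'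
  set N := ‖(R : ℂ) * a + conj b / conj (R : ℂ)‖ with hN
  have e' : N' ^ 2 = R' ^ 2 * ‖a‖ ^ 2 + ‖b‖ ^ 2 / R' ^ 2 + 2 * (a * b).re := by
    rw [hN', lin_normSq _ _ _ (by exact_mod_cast hR'.ne')]; simp
  have e : N ^ 2 = R ^ 2 * ‖a‖ ^ 2 + ‖b‖ ^ 2 / R ^ 2 + 2 * (a * b).re := by
    rw [hN, lin_normSq _ _ _ (by exact_mod_cast hR.ne')]; simp
  have u' : N' ≤ (R' + m ^ 2 / R') * ‖a‖ := by
    have : N' ≤ ‖(R' : ℂ) * a‖ + ‖conj b / conj (R' : ℂ)‖ := norm_add_le _ _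
    rw [norm_mul, norm_div, RCLike.norm_conj, RCLike.norm_conj, Complex.norm_real,
      Real.norm_of_nonneg hR'.le] at this
    have h3 : ‖b‖ / R' ≤ m ^ 2 * ‖a‖ / R' := by gcongr
    have : (R' + m ^ 2 / R') * ‖a‖ = R' * ‖a‖ + m ^ 2 * ‖a‖ / R' := by ring
    rw [this]; linarith
  have u : N ≤ (R + m ^ 2 / R) * ‖a‖ := by
    have : N ≤ ‖(R : ℂ) * a‖ + ‖conj b / conj (R : ℂ)‖ := norm_add_le _ _
    rw [norm_mul, norm_div, RCLike.norm_conj, RCLike.norm_conj, Complex.norm_real,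
      Real.norm_of_nonneg hR.le] at this
    have h3 : ‖b‖ / R ≤ m ^ 2 * ‖a‖ / R := by gcongr
    have : (R + m ^ 2 / R) * ‖a‖ = R * ‖a‖ + m ^ 2 * ‖a‖ / R := by ring
    rw [this]; linarith
  -- N'^2 - N^2 = (R'^2 - R^2) (‖a‖^2 - ‖b‖^2/(R^2 R'^2))
  have d : N' ^ 2 - N ^ 2 = (R' ^ 2 - R ^ 2) * (‖a‖ ^ 2 - ‖b‖ ^ 2 / (R ^ 2 * R' ^ 2)) := by
    rw [e, e']; field_simp; ring
  have hb2 : ‖b‖ ^ 2 ≤ m ^ 4 * ‖a‖ ^ 2 := by
    have := pow_le_pow_left₀ (norm_nonneg b) hb 2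
    nlinarith [this]
  have hk : m ^ 2 / (R * R') ≤ 1 := by
    rw [div_le_one (by positivity)]; nlinarith
  have d2 : (R' ^ 2 - R ^ 2) * (‖a‖ ^ 2 * (1 - (m ^ 2 / (R * R')) ^ 2)) ≤ N' ^ 2 - N ^ 2 := by
    rw [d]
    have h3 : ‖b‖ ^ 2 / (R ^ 2 * R' ^ 2) ≤ m ^ 4 * ‖a‖ ^ 2 / (R ^ 2 * R' ^ 2) := by gcongr
    have h4 : ‖a‖ ^ 2 * (1 - (m ^ 2 / (R * R')) ^ 2) = ‖a‖ ^ 2 - m ^ 4 * ‖a‖ ^ 2 / (R ^ 2 * R' ^ 2) := by
      field_simp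
    rw [h4]
    apply mul_le_mul_of_nonneg_left _ (by nlinarith)
    linarith
  have s : N' + N ≤ (R' + R) * (1 + m ^ 2 / (R * R')) * ‖a‖ := by
    have : (R' + R) * (1 + m ^ 2 / (R * R')) * ‖a‖ = (R' + m ^ 2 / R') * ‖a‖ + (R + m ^ 2 / R) * ‖a‖ := by
      field_simp; ring
    rw [this]; linarith
  have hNN : 0 ≤ N' + N := by positivity
  -- (N' - N)(N' + N) ≥ ..., with X = (R'-R)(1 - m²/(RR')) ‖a‖
  set X := (R' - R) * (1 - m ^ 2 / (R * R')) * ‖a‖ with hX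
  have hX0 : 0 ≤ X := by
    rw [hX]; apply mul_nonneg (mul_nonneg (by linarith) (by linarith)) ha'.le
  have key : X * ((R' + R) * (1 + m ^ 2 / (R * R')) * ‖a‖) ≤ N' ^ 2 - N ^ 2 := by
    refine le_trans (le_of_eq ?_) d2
    rw [hX]; ring
  have fin : X ≤ N' - N := by
    by_contra hcon
    push Not at hcon
    have h5 : N' ^ 2 - N ^ 2 = (N' - N) * (N' + N) := by ring
    have h6 : (N' - N) * (N' + N) ≤ X * (N' + N) := by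
      apply mul_le_mul_of_nonneg_right hcon.le hNN
    have h7 : X * (N' + N) ≤ X * ((R' + R) * (1 + m ^ 2 / (R * R')) * ‖a‖) :=
      mul_le_mul_of_nonneg_left s hX0
    have h8 : (N' - N) * (N' + N) = X * (N' + N) := by linarith
    have h9 : N' + N = 0 := by
      by_contra h
      exact hcon.ne (mul_right_cancel₀ h h8)
    have h10 : N' = 0 := by have := norm_nonneg ((R' : ℂ) * a + conj b / conj (R' : ℂ)); have := norm_nonneg ((R : ℂ) * a + conj b / conj (R : ℂ)); linarith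
    have h11 : N = 0 := by linarith
    rw [h10, h11] at key hcon
    have hX1 : 0 < X := by linarith
    have h12 : 0 < (R' + R) * (1 + m ^ 2 / (R * R')) * ‖a‖ := by positivity
    have h13 := mul_pos hX1 h12
    norm_num at key
    linarith
  refine le_trans ?_ fin
  rw [hX]
  apply mul_le_mul_of_nonneg_right _ ha'.le
  apply mul_le_mul_of_nonneg_left _ (by linarith)
  have : m ^ 2 / (R * R') ≤ m ^ 2 / R ^ 2 := by
    apply div_le_div_of_nonneg_left (by positivity) (by positivity)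
    rw [sq]; exact mul_le_mul_of_nonneg_left h2 hR.le
  linarith

theorem inc_gap (Φ : ℂ → ℂ) (R R' m : ℝ) (z z' : ℂ) (hm : 0 < m) (h1 : m ≤ R) (h2 : R ≤ R')
    (hb : ‖Φ z - Φ z'‖ ≤ m ^ 2 * ‖z - z'‖) :
    (R' - R) * (1 - m ^ 2 / R ^ 2) * ‖z - z'‖ ≤ ‖inc Φ R' z z'‖ - ‖inc Φ R z z'‖ :=
  lin_gap R R' m _ _ hm h1 h2 hb

theorem inc_mono (Φ : ℂ → ℂ) (R R' m : ℝ) (z z' : ℂ) (hm : 0 < m) (h1 : m ≤ R) (h2 : R ≤ R')
    (hb : ‖Φ z - Φ z'‖ ≤ m ^ 2 * ‖z - z'‖) :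
    ‖inc Φ R z z'‖ ≤ ‖inc Φ R' z z'‖ := by
  have h := inc_gap Φ R R' m z z' hm h1 h2 hb
  have : 0 ≤ (R' - R) * (1 - m ^ 2 / R ^ 2) * ‖z - z'‖ := by
    have : m ^ 2 / R ^ 2 ≤ 1 := by
      rw [div_le_one (by nlinarith)]; nlinarith
    apply mul_nonneg (mul_nonneg (by linarith) (by linarith)) (norm_nonneg _)
  linarith

/-- existence of a phase -/
theorem exists_phase (Φ : ℂ → ℂ) (R m : ℝ) (z z' w : ℂ) (hm : 0 < m) (h1 : m < R) (hz : z ≠ z')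
    (hb : ‖Φ z - Φ z'‖ ≤ m ^ 2 * ‖z - z'‖) (hw : ‖w‖ = ‖inc Φ R z z'‖) :
    ∃ F : ℂ, ‖F‖ = R ∧ w = inc Φ F z z' := by
  have hR : 0 < R := hm.trans h1
  have hpos : 0 < ‖inc Φ R z z'‖ := by
    have h := inc_lower Φ (R : ℂ) z z' m hb (by exact_mod_cast hR.ne')
    rw [Complex.norm_real, Real.norm_of_nonneg hR.le] at h
    have h2 : 0 < ‖z - z'‖ := norm_pos_iff.mpr (sub_ne_zero.mpr hz)
    have h3 : 0 < R - m ^ 2 / R := by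
      rw [sub_pos, div_lt_iff₀ hR]; nlinarith
    have := mul_pos h3 h2
    linarith
  have hne : inc Φ R z z' ≠ 0 := norm_pos_iff.mp hpos
  refine ⟨R * (w / inc Φ R z z'), ?_, ?_⟩
  · rw [norm_mul, norm_div, hw, div_self hpos.ne', mul_one, Complex.norm_real,
      Real.norm_of_nonneg hR.le]
  · rw [inc_phase _ _ _ _ _ (by rw [norm_div, hw, div_self hpos.ne'])]
    field_simp

end Pool.Agent.Helper366.IV
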