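import Pool.Agent.Helper366.IV.Compz
import Pool.Agent.Helper366.IV.Inc

set_option autoImplicit false
open MeasureTheory Metric Set Filter Topology Complex
open scoped ContDiff ENNReal ComplexConjugate

namespace Pool.Agent.Helper366.IV

theorem W.mono {U V : Set ℂ} {q qx qy : ℂ → ℂ} (h : W U q qx qy) (hV : V ⊆ U) : W V q qx qy where
  cont := h.cont.mono hV
  memx K hK hKV := h.memx K hK (hKV.trans hV)
  memy K hK hKV := h.memy K hK (hKV.trans hV)
  approx K hK hKV := h.approx K hK (hKV.trans hV)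

theorem W.congr {U : Set ℂ} {q qx qy q' qx' qy' : ℂ → ℂ} (h : W U q qx qy)
    (h0 : ∀ z ∈ U, q z = q' z) (h1 : ∀ z ∈ U, qx z = qx' z) (h2 : ∀ z ∈ U, qy z = qy' z) :
    W U q' qx' qy' where
  cont := h.cont.congr fun z hz => (h0 z hz).symm
  memx K hK hKV := (h.memx K hK hKV).ae_eq
    ((ae_restrict_iff' hK.measurableSet).mpr (ae_of_all _ fun z hz => h1 z (hKV hz)))
  memy K hK hKV := (h.memy K hK hKV).ae_eq
    ((ae_restrict_iff' hK.measurableSet).mpr (ae_of_all _ fun z hz => h2 z (hKV hz)))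
  approx K hK hKV := by
    obtain ⟨Q, hQ, hu, hx, hy⟩ := h.approx K hK hKV
    refine ⟨Q, hQ, hu.congr_right fun z hz => h0 z (hKV hz), ?_, ?_⟩
    · refine hx.congr fun n => eLpNorm_congr_ae ?_
      filter_upwards [ae_restrict_mem hK.measurableSet] with z hz
      rw [h1 z (hKV hz)]
    · refine hy.congr fun n => eLpNorm_congr_ae ?_
      filter_upwards [ae_restrict_mem hK.measurableSet] with z hz
      rw [h2 z (hKV hz)]

/-- adding a `C²` function (real differentiable) -/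
theorem W.add {U : Set ℂ} {q qx qy : ℂ → ℂ} (hU : IsOpen U) (h : W U q qx qy) (g gx gy : ℂ → ℂ)
    (hg : ∀ z ∈ U, ContDiffAt ℝ 2 g z) (h1 : ∀ z ∈ U, fderiv ℝ g z 1 = gx z)
    (h2 : ∀ z ∈ U, fderiv ℝ g z I = gy z) :
    W U (fun z => q z + g z) (fun z => qx z + gx z) (fun z => qy z + gy z) := by
  have hΘ : ∀ z ∈ U, ContDiffAt ℝ 2 (fun p : ℂ × ℂ => p.2 + g p.1) (z, q z) := fun z hz =>
    contDiffAt_snd.add ((hg z hz).comp (z, q z) contDiffAt_fst)
  have hd : ∀ z ∈ U, ∀ a b : ℂ, fderiv ℝ (fun p : ℂ × ℂ => p.2 + g p.1) (z, q z) (a, b) =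
      b + fderiv ℝ g z a := by
    intro z hz a b
    have hgd : HasFDerivAt g (fderiv ℝ g z) z :=
      ((hg z hz).differentiableAt (by norm_num)).hasFDerivAt
    have h3 : HasFDerivAt (fun p : ℂ × ℂ => p.2 + g p.1)
        (ContinuousLinearMap.snd ℝ ℂ ℂ + (fderiv ℝ g z).comp (ContinuousLinearMap.fst ℝ ℂ ℂ))
        (z, q z) := by
      apply HasFDerivAt.add
      · exact hasFDerivAt_snd
      · exact HasFDerivAt.comp (z, q z) hgd hasFDerivAt_fst
    rw [h3.fderiv]; rfl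
  refine (W.compz hU h _ hΘ).congr (fun z _ => rfl) (fun z hz => ?_) (fun z hz => ?_)
  · rw [hd z hz, h1 z hz]
  · rw [hd z hz, h2 z hz]

/-- the comparison map -/
noncomputable def cmp (Φ : ℂ → ℂ) (F z : ℂ) : ℂ := F * z + conj (Φ z) / conj F

theorem inc_eq_cmp (Φ : ℂ → ℂ) (F z z' : ℂ) : inc Φ F z z' = cmp Φ F z - cmp Φ F z' := by
  unfold inc cmp; rw [map_sub]; ring

theorem cmp_contDiffAt {U : Set ℂ} {Φ H : ℂ → ℂ} (hU : IsOpen U)
    (hΦ : ∀ z ∈ U, HasDerivAt Φ (H z) z) (F : ℂ) (z : ℂ) (hz : z ∈ U) :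
    ContDiffAt ℝ 2 (cmp Φ F) z := by
  have h1 : ContDiffAt ℂ 2 Φ z := by
    have : DifferentiableOn ℂ Φ U := fun w hw => (hΦ w hw).differentiableAt.differentiableWithinAt
    exact (this.analyticAt (hU.mem_nhds hz)).contDiffAt
  have h2 : ContDiffAt ℝ 2 Φ z := h1.restrict_scalars ℝ
  unfold cmp
  have h3 : ContDiffAt ℝ 2 (fun z => conj (Φ z)) z :=
    (Complex.conjCLE.contDiff.contDiffAt).comp z h2
  exact (contDiffAt_const.mul contDiffAt_id).add (h3.div_const _)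

theorem cmp_fderiv {U : Set ℂ} {Φ H : ℂ → ℂ} (hΦ : ∀ z ∈ U, HasDerivAt Φ (H z) z) (F : ℂ) (z : ℂ)
    (hz : z ∈ U) (v : ℂ) :
    HasFDerivAt (cmp Φ F) ((fderiv ℝ (cmp Φ F) z)) z ∧
    fderiv ℝ (cmp Φ F) z v = F * v + conj (H z * v) / conj F := by
  have h1 : HasFDerivAt Φ ((ContinuousLinearMap.toSpanSingleton ℂ (H z)).restrictScalars ℝ) z :=
    ((hΦ z hz).hasFDerivAt).restrictScalars ℝ
  have h3 : HasFDerivAt (fun z => conj (Φ z)) ((Complex.conjCLE : ℂ →L[ℝ] ℂ).comp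
      ((ContinuousLinearMap.toSpanSingleton ℂ (H z)).restrictScalars ℝ)) z :=
    (Complex.conjCLE.hasFDerivAt).comp z h1
  have h4 : HasFDerivAt (fun z => F * z) (F • (ContinuousLinearMap.id ℝ ℂ)) z := by
    have := (hasFDerivAt_id (𝕜 := ℝ) z).const_mul F
    simpa using this
  have h5 : HasFDerivAt (cmp Φ F) (F • (ContinuousLinearMap.id ℝ ℂ) +
      (conj F)⁻¹ • ((Complex.conjCLE : ℂ →L[ℝ] ℂ).comp
      ((ContinuousLinearMap.toSpanSingleton ℂ (H z)).restrictScalars ℝ))) z := by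
    exact h4.add (h3.mul_const ((conj F)⁻¹))
  refine ⟨by rw [h5.fderiv]; exact h5, ?_⟩
  rw [h5.fderiv]
  simp [div_eq_mul_inv, mul_comm]

theorem jac_identity (a b : ℂ) :
    a.re * b.im - b.re * a.im = (‖a - I * b‖ ^ 2 - ‖a + I * b‖ ^ 2) / 4 ∧
    ‖a‖ ^ 2 + ‖b‖ ^ 2 = (‖a - I * b‖ ^ 2 + ‖a + I * b‖ ^ 2) / 2 := by
  simp only [← Complex.normSq_eq_norm_sq, Complex.normSq_apply]
  simp
  constructor <;> ring

theorem qr_of_beltrami (k : ℝ) (hk0 : 0 ≤ k) (hk : k < 1) (a b : ℂ)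
    (h : ‖a + I * b‖ ≤ k * ‖a - I * b‖) :
    ‖a‖ ^ 2 + ‖b‖ ^ 2 ≤ kap k * (a.re * b.im - b.re * a.im) := by
  obtain ⟨h1, h2⟩ := jac_identity a b
  rw [h1, h2]
  unfold kap
  have hk2 : 0 < 1 - k ^ 2 := by nlinarith
  have h3 : ‖a + I * b‖ ^ 2 ≤ k ^ 2 * ‖a - I * b‖ ^ 2 := by
    have := pow_le_pow_left₀ (norm_nonneg _) h 2
    rwa [mul_pow] at this
  rw [div_mul_eq_mul_div, le_div_iff₀ hk2]
  nlinarith [sq_nonneg ‖a - I * b‖]

theorem kap_pos (k : ℝ) (hk0 : 0 ≤ k) (hk : k < 1) : 0 < kap k := by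
  unfold kap
  have hk2 : 0 < 1 - k ^ 2 := by nlinarith
  positivity

theorem beltrami_alg (F G h F' : ℂ) (m : ℝ) (hm : 0 < m) (hp : F * conj G = h) (hle : ‖G‖ ≤ ‖F‖)
    (hh : ‖h‖ ≤ m ^ 2) (hF' : m ≤ ‖F'‖) :
    ‖G - conj h / conj F'‖ ≤ (m / ‖F'‖) * ‖F - F'‖ := by
  have hF'0 : 0 < ‖F'‖ := hm.trans_le hF'
  have hF'1 : F' ≠ 0 := norm_pos_iff.mp hF'0
  rcases eq_or_ne F 0 with hF | hF
  · subst hF
    have hG : G = 0 := by simpa using hle
    subst hG
    have : h = 0 := by rw [← hp]; simp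
    subst this
    simp
    positivity
  · have hFc : conj F ≠ 0 := by simpa using hF
    have hF'c : conj F' ≠ 0 := by simpa using hF'1
    have hG : G = conj h / conj F := by
      rw [← hp, map_mul, Complex.conj_conj, mul_div_cancel_left₀ _ hFc]
    have e : G - conj h / conj F' = conj (h * (F' - F) / (F * F')) := by
      rw [hG]
      simp only [map_div₀, map_mul, map_sub]
      field_simp
    rw [e, RCLike.norm_conj, norm_div, norm_mul, norm_mul, norm_sub_rev F' F]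
    have hFn : 0 < ‖F‖ := norm_pos_iff.mpr hF
    have h1 : ‖h‖ = ‖F‖ * ‖G‖ := by rw [← hp, norm_mul, RCLike.norm_conj]
    -- ‖h‖ ≤ ‖F‖ m
    have h2 : ‖h‖ ≤ ‖F‖ * m := by
      have h3 : ‖h‖ ^ 2 ≤ (‖F‖ * m) ^ 2 := by
        have h4 : ‖h‖ ≤ ‖F‖ ^ 2 := by rw [h1, sq]; gcongr
        calc ‖h‖ ^ 2 = ‖h‖ * ‖h‖ := sq _
          _ ≤ ‖F‖ ^ 2 * m ^ 2 := mul_le_mul h4 hh (norm_nonneg _) (by positivity)
          _ = _ := by ring
      exact (pow_le_pow_iff_left₀ (norm_nonneg _) (by positivity) two_ne_zero).mp h3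
    rw [div_mul_eq_mul_div, div_le_div_iff₀ (by positivity) hF'0]
    calc ‖h‖ * ‖F - F'‖ * ‖F'‖ ≤ (‖F‖ * m) * ‖F - F'‖ * ‖F'‖ := by gcongr
      _ = m * ‖F - F'‖ * (‖F‖ * ‖F'‖) := by ring

theorem Loc.sub {U : Set ℂ} {f fx fy Φ H : ℂ → ℂ} {m : ℝ} (L : Loc U f fx fy Φ H m) (F w₀ : ℂ)
    (hF : m < ‖F‖) :
    W U (fun z => f z - (F * z + conj (Φ z) / conj F) - w₀)
      (fun z => fx z - (F + conj (H z) / conj F)) (fun z => fy z - I * (F - conj (H z) / conj F)) ∧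
    QR (kap (m / ‖F‖)) U (fun z => fx z - (F + conj (H z) / conj F))
      (fun z => fy z - I * (F - conj (H z) / conj F)) := by
  have hFp : 0 < ‖F‖ := L.hm0.trans hF
  have hF0 : F ≠ 0 := norm_pos_iff.mp hFp
  constructor
  · have h1 := L.w.add L.hU (fun z => - cmp Φ F z - w₀)
      (fun z => -(F + conj (H z) / conj F)) (fun z => -(I * (F - conj (H z) / conj F)))
      (fun z hz => ((cmp_contDiffAt L.hU L.hΦ F z hz).neg).sub contDiffAt_const) ?_ ?_
    · refine h1.congr (fun z _ => ?_) (fun z _ => ?_) (fun z _ => ?_)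
      · unfold cmp; ring
      · ring
      · ring
    · intro z hz
      obtain ⟨ha, hb⟩ := cmp_fderiv L.hΦ F z hz 1
      have : HasFDerivAt (fun z => - cmp Φ F z - w₀) (-(fderiv ℝ (cmp Φ F) z)) z :=
        (ha.neg).sub_const _
      rw [this.fderiv, neg_apply, hb]
      simp
    · intro z hz
      obtain ⟨ha, hb⟩ := cmp_fderiv L.hΦ F z hz I
      have : HasFDerivAt (fun z => - cmp Φ F z - w₀) (-(fderiv ℝ (cmp Φ F) z)) z :=
        (ha.neg).sub_const _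
      rw [this.fderiv, neg_apply, hb]
      simp
      ring
  · unfold QR
    filter_upwards [L.prod, L.le, ae_restrict_mem L.hU.measurableSet] with z hp hle hz
    have hk1 : m / ‖F‖ < 1 := (div_lt_one hFp).mpr hF
    have hk0 : 0 ≤ m / ‖F‖ := div_nonneg L.hm0.le hFp.le
    have key := beltrami_alg _ _ _ F m L.hm0 hp hle (L.hm z hz) hF.le
    refine qr_of_beltrami _ hk0 hk1 _ _ ?_
    have e1 : fx z - (F + conj (H z) / conj F) + I * (fy z - I * (F - conj (H z) / conj F)) =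
        2 * (dzb fx fy z - conj (H z) / conj F) := by
      unfold dzb
      ring_nf
      rw [Complex.I_sq]; ring
    have e2 : fx z - (F + conj (H z) / conj F) - I * (fy z - I * (F - conj (H z) / conj F)) =
        2 * (dz fx fy z - F) := by
      unfold dz
      ring_nf
      rw [Complex.I_sq]; ring
    rw [e1, e2, norm_mul, norm_mul]
    have : ‖(2 : ℂ)‖ = 2 := by norm_num
    rw [this]
    linarith

end Pool.Agent.Helper366.IV
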