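import Mathlib
import Pool.Agent.Helper366.IV.Compz
import Pool.Agent.Helper366.IV.Harn
import Pool.Agent.Helper366.IV.Sub

set_option autoImplicit false
open MeasureTheory Metric Set Filter Topology Complex
open scoped ContDiff ENNReal ComplexConjugate

namespace Pool.Agent.Helper366.IV





theorem core_ineq (b p l : ℂ) (e K : ℝ) (h : ‖b - p‖ ≤ ‖b - l‖ + e) (he : 0 ≤ e)
    (hK : ‖b - l‖ ≤ K) : -(‖l‖ ^ 2 + 2 * e * K + e ^ 2) / 2 ≤ (conj b * (p - l)).re := by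
  have h1 : ‖b - p‖ ^ 2 ≤ ‖b - l‖ ^ 2 + 2 * e * K + e ^ 2 := by
    have h0 := norm_nonneg (b - p)
    have h0' := norm_nonneg (b - l)
    have h2 : ‖b - p‖ ^ 2 ≤ (‖b - l‖ + e) ^ 2 := by gcongr
    nlinarith
  have hn : ∀ z : ℂ, ‖z‖ ^ 2 = z.re ^ 2 + z.im ^ 2 := by
    intro z
    rw [← Complex.normSq_eq_norm_sq, Complex.normSq_apply]
    ring
  rw [hn, hn] at h1
  rw [hn]
  simp only [Complex.sub_re, Complex.sub_im, Complex.mul_re, Complex.conj_re, Complex.conj_im] at h1 ⊢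
  nlinarith [sq_nonneg p.re, sq_nonneg p.im]

theorem Jac_mul (c a b : ℂ → ℂ) (z : ℂ) :
    Jac (fun z => c z * a z) (fun z => c z * b z) z = ‖c z‖ ^ 2 * Jac a b z := by
  have hn : ‖c z‖ ^ 2 = (c z).re ^ 2 + (c z).im ^ 2 := by
    rw [← Complex.normSq_eq_norm_sq, Complex.normSq_apply]
    ring
  rw [hn]
  unfold Jac
  simp only [Complex.mul_re, Complex.mul_im]
  ring

theorem W.mulc {U : Set ℂ} {q qx qy : ℂ → ℂ} (hU : IsOpen U) (h : W U q qx qy) (c : ℂ) :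
    W U (fun z => c * q z) (fun z => c * qx z) (fun z => c * qy z) := by
  have hd : ∀ p v : ℂ × ℂ, fderiv ℝ (fun p : ℂ × ℂ => c * p.2) p v = c * v.2 := by
    intro p v
    have h1 : HasFDerivAt (fun p : ℂ × ℂ => c * p.2)
        (c • (ContinuousLinearMap.snd ℝ ℂ ℂ)) p := by
      exact (ContinuousLinearMap.snd ℝ ℂ ℂ).hasFDerivAt.const_mul c
    rw [h1.fderiv]
    simp
  have hW := h.compz hU (fun p : ℂ × ℂ => c * p.2) (fun z _ => by
    have : ContDiff ℝ 2 (fun p : ℂ × ℂ => c * p.2) := by fun_prop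
    exact this.contDiffAt)
  simp only [hd] at hW
  exact hW

theorem QR.mulc {κ : ℝ} {U : Set ℂ} {qx qy : ℂ → ℂ} (h : QR κ U qx qy) (c : ℂ) (hc : ‖c‖ = 1) :
    QR κ U (fun z => c * qx z) (fun z => c * qy z) := by
  unfold QR at h ⊢
  filter_upwards [h] with z hz
  rw [Jac_mul (fun _ => c) qx qy z, norm_mul, norm_mul, hc]
  simpa using hz

theorem kap_pos13 {k : ℝ} (h0 : 0 ≤ k) (h1 : k < 1) : 0 < kap k := by
  unfold kap
  have : k ^ 2 < 1 := by nlinarith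
  apply div_pos <;> nlinarith [sq_nonneg k]

/- TARGET -/
set_option maxHeartbeats 1000000 in
theorem Loc.close {U : Set ℂ} {f fx fy Φ H : ℂ → ℂ} {m : ℝ} (L : Loc U f fx fy Φ H m)
    (z₀ : ℂ) (hz₀ : z₀ ∈ U) (c : ℝ) (hc : m < c)
    (p1 : ∀ ε > 0, ∃ r > 0, ball z₀ r ⊆ U ∧ ∀ z ∈ ball z₀ r, ∀ z' ∈ ball z₀ r,
      ‖f z - f z'‖ ≤ ‖(c : ℂ) * (z - z') + conj (H z₀ * (z - z')) / (c : ℂ)‖ + ε * ‖z - z'‖)
    (p2 : ∀ s > 0, closedBall z₀ s ⊆ U → ∃ z ∈ sphere z₀ s, ‖inc Φ c z z₀‖ ≤ ‖f z - f z₀‖) :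
    ∀ ε > 0, ∀ r₀ > 0, ∃ r, 0 < r ∧ r < r₀ ∧ ∃ F : ℂ, ‖F‖ = c ∧
      ∀ z ∈ closedBall z₀ r, ‖f z - f z₀ - inc Φ F z z₀‖ ≤ ε * r := by
  intro ε hε r₀ hr₀
  have hm0 := L.hm0
  have hc0 : 0 < c := hm0.trans hc
  have hcC : (c : ℂ) ≠ 0 := by exact_mod_cast hc0.ne'
  have hh₀ : ‖H z₀‖ ≤ m ^ 2 := L.hm z₀ hz₀
  set Lc : ℂ → ℂ := fun ζ => (c : ℂ) * ζ + conj (H z₀ * ζ) / (c : ℂ) with hLc
  set σ : ℝ := c - m ^ 2 / c with hσ
  set Λ : ℝ := c + m ^ 2 / c with hΛ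
  have hσ0 : 0 < σ := by
    rw [hσ, sub_pos, div_lt_iff₀ hc0]
    nlinarith
  have hΛ0 : 0 < Λ := by positivity
  have hσΛ : σ ≤ Λ := by
    rw [hσ, hΛ]
    have : 0 ≤ m ^ 2 / c := by positivity
    linarith
  have hterm : ∀ ζ : ℂ, ‖conj (H z₀ * ζ) / (c : ℂ)‖ ≤ m ^ 2 / c * ‖ζ‖ := by
    intro ζ
    rw [norm_div, RCLike.norm_conj, norm_mul, Complex.norm_real, Real.norm_of_nonneg hc0.le,
      div_mul_eq_mul_div]
    gcongr
  have hcn : ∀ ζ : ℂ, ‖(c : ℂ) * ζ‖ = c * ‖ζ‖ := by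
    intro ζ
    rw [norm_mul, Complex.norm_real, Real.norm_of_nonneg hc0.le]
  have hLup : ∀ ζ : ℂ, ‖Lc ζ‖ ≤ Λ * ‖ζ‖ := by
    intro ζ
    have h1 := norm_add_le ((c : ℂ) * ζ) (conj (H z₀ * ζ) / (c : ℂ))
    have h2 := hterm ζ
    rw [hcn] at h1
    rw [hΛ, add_mul]
    simp only [hLc]
    linarith
  have hLlo : ∀ ζ : ℂ, σ * ‖ζ‖ ≤ ‖Lc ζ‖ := by
    intro ζ
    have h1 := norm_sub_le_norm_add ((c : ℂ) * ζ) (conj (H z₀ * ζ) / (c : ℂ))
    have h2 := hterm ζ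
    rw [hcn] at h1
    rw [hσ, sub_mul]
    simp only [hLc]
    linarith
  have hLsub : ∀ x y : ℂ, Lc (x - y) = Lc x - Lc y := by
    intro x y
    simp only [hLc, mul_sub, map_sub, sub_div]
    ring
  have hk0 : 0 ≤ m / c := by positivity
  have hk1 : m / c < 1 := by rw [div_lt_one hc0]; exact hc
  obtain ⟨C, hC, hH⟩ := harnack (kap (m / c)) (kap_pos13 hk0 hk1)
  -- choose θ
  obtain ⟨θ, hθ0, hθ1, hθ2⟩ : ∃ θ : ℝ, 0 < θ ∧ θ < 1 / 2 ∧ 16 * C * Λ ^ 2 * θ / σ ≤ ε / 2 := by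
    refine ⟨min (1 / 4) (ε * σ / (32 * C * Λ ^ 2)), by positivity, ?_, ?_⟩
    · exact lt_of_le_of_lt (min_le_left _ _) (by norm_num)
    · have h1 := min_le_right (1 / 4 : ℝ) (ε * σ / (32 * C * Λ ^ 2))
      have h2 : 16 * C * Λ ^ 2 * min (1 / 4 : ℝ) (ε * σ / (32 * C * Λ ^ 2)) ≤
          16 * C * Λ ^ 2 * (ε * σ / (32 * C * Λ ^ 2)) := by gcongr
      rw [div_le_iff₀ hσ0]
      refine h2.trans (le_of_eq ?_)
      field_simp
      ring
  obtain ⟨ε', hε0, hε1, hε2⟩ : ∃ ε' : ℝ, 0 < ε' ∧ ε' < σ / 2 ∧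
      16 * C * (12 * Λ / σ + 2) * ε' / θ ≤ ε / 2 := by
    refine ⟨min (σ / 4) (ε * θ / (32 * C * (12 * Λ / σ + 2))), by positivity, ?_, ?_⟩
    · exact lt_of_le_of_lt (min_le_left _ _) (by linarith)
    · have h1 := min_le_right (σ / 4) (ε * θ / (32 * C * (12 * Λ / σ + 2)))
      have hq : 0 < 12 * Λ / σ + 2 := by positivity
      have h2 : 16 * C * (12 * Λ / σ + 2) * min (σ / 4) (ε * θ / (32 * C * (12 * Λ / σ + 2))) ≤
          16 * C * (12 * Λ / σ + 2) * (ε * θ / (32 * C * (12 * Λ / σ + 2))) := by gcongr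
      rw [div_le_iff₀ hθ0]
      refine h2.trans (le_of_eq ?_)
      generalize 12 * Λ / σ + 2 = y at hq
      field_simp
      ring
  obtain ⟨r₁, hr₁, -, hp1⟩ := p1 ε' hε0
  have hder := (L.hΦ z₀ hz₀)
  obtain ⟨r₂, hr₂, hΦ2⟩ : ∃ r₂ > 0, ∀ z ∈ ball z₀ r₂,
      ‖Φ z - Φ z₀ - H z₀ * (z - z₀)‖ ≤ c * ε' * ‖z - z₀‖ := by
    have h1 := hder.hasFDerivAt.isLittleO
    have h2 := h1.def (show 0 < c * ε' by positivity)
    obtain ⟨r, hr, hr2⟩ := Metric.eventually_nhds_iff_ball.1 h2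
    refine ⟨r, hr, fun z hz => ?_⟩
    have h3 := hr2 z hz
    simp only [ContinuousLinearMap.toSpanSingleton_apply, smul_eq_mul] at h3
    rw [mul_comm (z - z₀)] at h3
    exact h3
  obtain ⟨r₃, hr₃, hr₃U⟩ := Metric.isOpen_iff.1 L.hU z₀ hz₀
  -- choose s
  obtain ⟨s, hs0, hs1, hs2, hs3, hs4⟩ : ∃ s : ℝ, 0 < s ∧ s < r₀ ∧ s < r₁ ∧ s < r₂ ∧ s < r₃ := by
    refine ⟨min (min r₀ r₁) (min r₂ r₃) / 2, by positivity, ?_, ?_, ?_, ?_⟩
    all_goals
      have e1 := min_le_left (min r₀ r₁) (min r₂ r₃)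
      have e2 := min_le_right (min r₀ r₁) (min r₂ r₃)
      have e3 := min_le_left r₀ r₁
      have e4 := min_le_right r₀ r₁
      have e5 := min_le_left r₂ r₃
      have e6 := min_le_right r₂ r₃
      have e7 : 0 < min (min r₀ r₁) (min r₂ r₃) := by positivity
      linarith
  have hsU : closedBall z₀ s ⊆ U := (closedBall_subset_ball hs4).trans hr₃U
  obtain ⟨z1, hz1, hp2⟩ := p2 s hs0 hsU
  set h := z1 - z₀ with hh
  have hhs : ‖h‖ = s := by
    rw [hh, ← dist_eq_norm]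
    exact hz1
  set a := f z1 - f z₀ with ha
  -- comparison of inc with Lc
  have hinc : ∀ z ∈ ball z₀ r₂, ‖inc Φ c z z₀ - Lc (z - z₀)‖ ≤ ε' * ‖z - z₀‖ := by
    intro z hz
    have h1 : inc Φ c z z₀ - Lc (z - z₀) = conj (Φ z - Φ z₀ - H z₀ * (z - z₀)) / (c : ℂ) := by
      simp only [inc, hLc, Complex.conj_ofReal, map_sub, map_mul]
      ring
    rw [h1, norm_div, RCLike.norm_conj, Complex.norm_real, Real.norm_of_nonneg hc0.le,
      div_le_iff₀ hc0]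
    refine (hΦ2 z hz).trans (le_of_eq ?_)
    ring
  have hz1b1 : z1 ∈ ball z₀ r₁ := by rw [mem_ball, dist_eq_norm, ← hh, hhs]; exact hs2
  have hz1b2 : z1 ∈ ball z₀ r₂ := by rw [mem_ball, dist_eq_norm, ← hh, hhs]; exact hs3
  have hz₀b1 : z₀ ∈ ball z₀ r₁ := mem_ball_self hr₁
  have halo : ‖Lc h‖ - ε' * s ≤ ‖a‖ := by
    have h1 := hinc z1 hz1b2
    rw [← hh, hhs] at h1
    have h2 := norm_sub_norm_le (Lc h) (inc Φ c z1 z₀)
    rw [norm_sub_rev] at h1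
    linarith
  have haup : ‖a‖ ≤ ‖Lc h‖ + ε' * s := by
    have h1 := hp1 z1 hz1b1 z₀ hz₀b1
    rw [← hh, hhs] at h1
    exact h1
  have hLh : σ * s ≤ ‖Lc h‖ := by rw [← hhs]; exact hLlo h
  have hLh0 : 0 < ‖Lc h‖ := lt_of_lt_of_le (by positivity) hLh
  have hLhne : Lc h ≠ 0 := norm_pos_iff.1 hLh0
  have ha0 : 0 < ‖a‖ := by nlinarith
  have hane : a ≠ 0 := norm_pos_iff.1 ha0
  have haC : ((‖a‖ : ℝ) : ℂ) ≠ 0 := by exact_mod_cast ha0.ne'
  have hLC : ((‖Lc h‖ : ℝ) : ℂ) ≠ 0 := by exact_mod_cast hLh0.ne'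
  set u : ℂ := (a / (‖a‖ : ℝ)) / (Lc h / (‖Lc h‖ : ℝ)) with hu
  have hu1 : ‖u‖ = 1 := by
    rw [hu, norm_div, norm_div, norm_div, Complex.norm_real, Complex.norm_real, norm_norm, norm_norm,
      div_self ha0.ne', div_self hLh0.ne', div_one]
  have huc : conj u * u = 1 := by
    rw [← Complex.normSq_eq_conj_mul_self, Complex.normSq_eq_norm_sq, hu1]
    norm_num
  have hune : conj u ≠ 0 := left_ne_zero_of_mul_eq_one huc
  set F : ℂ := c * u with hF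
  have hFn : ‖F‖ = c := by
    rw [hF, norm_mul, hu1, Complex.norm_real, Real.norm_of_nonneg hc0.le, mul_one]
  have hFc : conj F = c * conj u := by rw [hF, map_mul, Complex.conj_ofReal]
  have hFcne : conj F ≠ 0 := by rw [hFc]; exact mul_ne_zero hcC hune
  have hdivF : ∀ x : ℂ, x / conj F = u * (x / c) := by
    intro x
    rw [hFc, div_eq_iff (mul_ne_zero hcC hune)]
    calc x = (conj u * u) * x := by rw [huc, one_mul]
      _ = u * (x / c) * (c * conj u) := by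
        field_simp
  have hLF : ∀ ζ : ℂ, F * ζ + conj (H z₀ * ζ) / conj F = u * Lc ζ := by
    intro ζ
    rw [hdivF, hF]
    simp only [hLc]
    ring
  have hincF : ∀ z : ℂ, inc Φ F z z₀ = u * inc Φ c z z₀ := by
    intro z
    simp only [inc]
    rw [hdivF, hF, Complex.conj_ofReal]
    ring
  set b : ℂ := u * Lc h with hb
  have hbn : ‖b‖ = ‖Lc h‖ := by rw [hb, norm_mul, hu1, one_mul]
  have hb0 : 0 < ‖b‖ := by rw [hbn]; exact hLh0
  have hba : b = ((‖Lc h‖ / ‖a‖ : ℝ) : ℂ) * a := by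
    rw [hb, hu]
    push_cast
    field_simp
  have hab : ‖a - b‖ ≤ ε' * s := by
    have h1 : a - b = ((1 - ‖Lc h‖ / ‖a‖ : ℝ) : ℂ) * a := by
      rw [hba]
      push_cast
      ring
    rw [h1, norm_mul, Complex.norm_real, Real.norm_eq_abs]
    have h2 : |1 - ‖Lc h‖ / ‖a‖| * ‖a‖ = |‖a‖ - ‖Lc h‖| := by
      have : |(1 - ‖Lc h‖ / ‖a‖) * ‖a‖| = |1 - ‖Lc h‖ / ‖a‖| * ‖a‖ := by
        rw [abs_mul, abs_of_pos ha0]
      rw [← this]
      congr 1
      field_simp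
    rw [h2, abs_le]
    constructor <;> linarith
  -- the map q
  set v : ℂ := b / (‖b‖ : ℝ) with hv
  have hbC : ((‖b‖ : ℝ) : ℂ) ≠ 0 := by exact_mod_cast hb0.ne'
  have hv1 : ‖v‖ = 1 := by
    rw [hv, norm_div, Complex.norm_real, norm_norm, div_self hb0.ne']
  set w₀ : ℂ := f z₀ - (F * z₀ + conj (Φ z₀) / conj F) with hw₀
  obtain ⟨hW, hQR⟩ := L.sub F w₀ (by rw [hFn]; exact hc)
  rw [hFn] at hQR
  have hW' := hW.mulc L.hU (conj v)
  have hQR' := hQR.mulc (conj v) (by rw [RCLike.norm_conj, hv1])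
  have hqeq : ∀ z, f z - (F * z + conj (Φ z) / conj F) - w₀ = f z - f z₀ - inc Φ F z z₀ := by
    intro z
    rw [hw₀]
    simp only [inc, map_sub, sub_div]
    ring
  have hθs : 0 < θ * s := by positivity
  have hθs1 : θ * s ≤ s := by nlinarith
  -- lower bound of the real part
  have hre : ∀ z ∈ closedBall z₀ (θ * s),
      -(((Λ ^ 2 * θ ^ 2 + 12 * Λ * ε') / σ + 2 * ε') * s) <
        (conj v * (f z - (F * z + conj (Φ z) / conj F) - w₀)).re := by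
    intro z hz
    rw [hqeq]
    set w := z - z₀ with hw
    have hwn : ‖w‖ ≤ θ * s := by rw [hw, ← dist_eq_norm]; exact hz
    have hzb1 : z ∈ ball z₀ r₁ := by
      rw [mem_ball, dist_eq_norm, ← hw]
      linarith
    have hzb2 : z ∈ ball z₀ r₂ := by
      rw [mem_ball, dist_eq_norm, ← hw]
      linarith
    set p := f z - f z₀ with hp
    set l := u * Lc w with hl
    have hln : ‖l‖ ≤ Λ * (θ * s) := by
      rw [hl, norm_mul, hu1, one_mul]
      exact (hLup w).trans (by gcongr)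
    have hhw : ‖h - w‖ ≤ (1 + θ) * s := by
      have := norm_sub_le h w
      rw [hhs] at this
      linarith
    have hbl : ‖b - l‖ = ‖Lc (h - w)‖ := by
      rw [hb, hl, ← mul_sub, norm_mul, hu1, one_mul, hLsub h w]
    have hbl2 : ‖b - l‖ ≤ 2 * Λ * s := by
      rw [hbl]
      refine (hLup _).trans ?_
      have h1 : Λ * ‖h - w‖ ≤ Λ * ((1 + θ) * s) := by gcongr
      have h2 : Λ * ((1 + θ) * s) ≤ Λ * (2 * s) :=
        mul_le_mul_of_nonneg_left (mul_le_mul_of_nonneg_right (by linarith) hs0.le) hΛ0.le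
      linarith
    have hap : ‖a - p‖ ≤ ‖b - l‖ + 2 * (ε' * s) := by
      have h1 := hp1 z1 hz1b1 z hzb1
      have h2 : z1 - z = h - w := by rw [hh, hw]; ring
      have h3 : f z1 - f z = a - p := by rw [ha, hp]; ring
      rw [h2, h3] at h1
      rw [hbl]
      have h4 : ε' * ‖h - w‖ ≤ 2 * (ε' * s) := by
        have h5 : ε' * ‖h - w‖ ≤ ε' * ((1 + θ) * s) := mul_le_mul_of_nonneg_left hhw hε0.le
        have h6 : ε' * ((1 + θ) * s) ≤ ε' * (2 * s) :=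
          mul_le_mul_of_nonneg_left (mul_le_mul_of_nonneg_right (by linarith) hs0.le) hε0.le
        linarith
      exact h1.trans (by simp only [hLc]; linarith)
    have hbp : ‖b - p‖ ≤ ‖b - l‖ + 3 * (ε' * s) := by
      have h1 : ‖b - p‖ ≤ ‖b - a‖ + ‖a - p‖ := by
        have := norm_add_le (b - a) (a - p)
        simpa using this
      rw [norm_sub_rev b a] at h1
      linarith
    have hcore := core_ineq b p l (3 * (ε' * s)) (2 * Λ * s) hbp (by positivity) hbl2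
    have hl2 : ‖l‖ ^ 2 ≤ (Λ * (θ * s)) ^ 2 := by gcongr
    have hεΛ : ε' ≤ Λ := by linarith
    set Y : ℝ := (Λ ^ 2 * θ ^ 2 / 2 + 11 * Λ * ε') * s ^ 2 with hY
    have hY0 : 0 ≤ Y := by positivity
    have hcore2 : -Y ≤ (conj b * (p - l)).re := by
      refine le_trans ?_ hcore
      have h9 : ε' ^ 2 * s ^ 2 ≤ Λ * ε' * s ^ 2 := by
        have : ε' ^ 2 ≤ Λ * ε' := by
          rw [sq]; exact mul_le_mul_of_nonneg_right hεΛ hε0.le
        exact mul_le_mul_of_nonneg_right this (sq_nonneg s)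
      have h10 : 0 ≤ Λ * ε' * s ^ 2 := by positivity
      have e1 : (Λ * (θ * s)) ^ 2 = Λ ^ 2 * θ ^ 2 * s ^ 2 := by ring
      have e2 : 2 * (3 * (ε' * s)) * (2 * Λ * s) = 12 * (Λ * ε' * s ^ 2) := by ring
      have e3 : (3 * (ε' * s)) ^ 2 = 9 * (ε' ^ 2 * s ^ 2) := by ring
      rw [e1] at hl2
      rw [e2, e3, hY]
      linarith
    have hvre : (conj v * (p - l)).re = (conj b * (p - l)).re / ‖b‖ := by
      rw [hv, map_div₀, Complex.conj_ofReal, div_mul_eq_mul_div, Complex.div_ofReal_re]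
    have hbσ : σ * s ≤ ‖b‖ := by rw [hbn]; exact hLh
    have hvlo : -(Y / (σ * s)) ≤ (conj v * (p - l)).re := by
      rw [hvre]
      have h1 : -Y / ‖b‖ ≤ (conj b * (p - l)).re / ‖b‖ := by gcongr
      have h2 : Y / ‖b‖ ≤ Y / (σ * s) := by gcongr
      have h3 : -Y / ‖b‖ = -(Y / ‖b‖) := neg_div _ _
      linarith
    have hincl : ‖l - inc Φ F z z₀‖ ≤ ε' * s := by
      rw [hincF, hl, ← mul_sub, norm_mul, hu1, one_mul, norm_sub_rev]
      refine (hinc z hzb2).trans ?_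
      rw [← hw]
      have : ‖w‖ ≤ s := hwn.trans hθs1
      gcongr
    have hdec : conj v * (p - inc Φ F z z₀) = conj v * (p - l) + conj v * (l - inc Φ F z z₀) := by
      ring
    rw [hdec, Complex.add_re]
    have hsmall : -(ε' * s) ≤ (conj v * (l - inc Φ F z z₀)).re := by
      have h1 := Complex.abs_re_le_norm (conj v * (l - inc Φ F z z₀))
      rw [norm_mul, RCLike.norm_conj, hv1, one_mul] at h1
      have h2 := (abs_le.1 h1).1
      linarith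
    have hYeq : Y / (σ * s) = (Λ ^ 2 * θ ^ 2 / 2 + 11 * Λ * ε') / σ * s := by
      rw [hY]
      field_simp
    have hlt : (Λ ^ 2 * θ ^ 2 / 2 + 11 * Λ * ε') / σ < (Λ ^ 2 * θ ^ 2 + 12 * Λ * ε') / σ := by
      apply div_lt_div_of_pos_right _ hσ0
      have : 0 < Λ * ε' := by positivity
      have : 0 < Λ ^ 2 * θ ^ 2 := by positivity
      linarith
    have hlt2 : (Λ ^ 2 * θ ^ 2 / 2 + 11 * Λ * ε') / σ * s <
        (Λ ^ 2 * θ ^ 2 + 12 * Λ * ε') / σ * s := mul_lt_mul_of_pos_right hlt hs0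
    rw [hYeq] at hvlo
    have hεs : 0 < ε' * s := by positivity
    rw [add_mul]
    linarith
  have hδ0 : 0 < ((Λ ^ 2 * θ ^ 2 + 12 * Λ * ε') / σ + 2 * ε') * s := by positivity
  have hq0 : conj v * (f z₀ - (F * z₀ + conj (Φ z₀) / conj F) - w₀) = 0 := by
    rw [hw₀]
    simp
  have hball : closedBall z₀ (4 * (θ * s / 4)) ⊆ U := by
    rw [show 4 * (θ * s / 4) = θ * s by ring]
    exact (closedBall_subset_closedBall hθs1).trans hsU
  have hfin := hH U _ _ _ L.hU hW' hQR' z₀ (θ * s / 4)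
    (((Λ ^ 2 * θ ^ 2 + 12 * Λ * ε') / σ + 2 * ε') * s) (by positivity) hδ0 hball hq0
    (by
      intro z hz
      rw [show 4 * (θ * s / 4) = θ * s by ring] at hz
      exact hre z hz)
  refine ⟨θ * s / 4 / 4, by positivity, ?_, F, hFn, ?_⟩
  · nlinarith
  · intro z hz
    have h1 := hfin z hz
    rw [norm_mul, RCLike.norm_conj, hv1, one_mul, hqeq] at h1
    refine h1.trans ?_
    have h2 : C * (((Λ ^ 2 * θ ^ 2 + 12 * Λ * ε') / σ + 2 * ε') * s) =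
        (16 * C * Λ ^ 2 * θ / σ + 16 * C * (12 * Λ / σ + 2) * ε' / θ) * (θ * s / 4 / 4) := by
      field_simp
      ring
    rw [h2]
    gcongr
    linarith

end Pool.Agent.Helper366.IV
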