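import Mathlib

set_option autoImplicit false
open MeasureTheory Metric Set Filter Topology Complex
open scoped ContDiff ENNReal ComplexConjugate

namespace Pool.Agent.Helper366.IV

/- TARGET -/
theorem lebesgue_L2 (f : ℂ → ℂ) (hf : MemLp f 2 volume) :
    ∀ᵐ z, Tendsto (fun r : ℝ => (∫ w in closedBall z r, ‖f w - f z‖ ^ 2) / r ^ 2)
      (𝓝[>] 0) (𝓝 0) := by
  have hfloc : LocallyIntegrable f volume := hf.locallyIntegrable (by norm_num)
  have hsq : Integrable (fun w => ‖f w‖ ^ 2) volume := hf.integrable_norm_pow (by norm_num)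
  have hsqloc : LocallyIntegrable (fun w => ‖f w‖ ^ 2) volume := hsq.locallyIntegrable
  filter_upwards [IsUnifLocDoublingMeasure.ae_tendsto_average volume hfloc 1,
    IsUnifLocDoublingMeasure.ae_tendsto_average volume hsqloc 1] with z h1 h2
  have hid : Tendsto (fun r : ℝ => r) (𝓝[>] 0) (𝓝[>] 0) := tendsto_id
  have hmem : ∀ᶠ r : ℝ in 𝓝[>] 0, z ∈ closedBall z (1 * r) := by
    filter_upwards [self_mem_nhdsWithin] with r hr
    rw [one_mul]
    exact mem_closedBall_self (le_of_lt hr)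
  have h3 := h1 (fun _ : ℝ => z) (fun r => r) hid hmem
  have h4 := h2 (fun _ : ℝ => z) (fun r => r) hid hmem
  have h5 : Tendsto (fun r : ℝ => Real.pi * ((⨍ y in closedBall z r, ‖f y‖ ^ 2) -
      2 * inner ℝ (f z) (⨍ y in closedBall z r, f y) + ‖f z‖ ^ 2)) (𝓝[>] 0)
      (𝓝 (Real.pi * (‖f z‖ ^ 2 - 2 * inner ℝ (f z) (f z) + ‖f z‖ ^ 2))) :=
    ((h4.sub ((Filter.Tendsto.inner tendsto_const_nhds h3).const_mul 2)).add_const _).const_mul _
  have h6 : Real.pi * (‖f z‖ ^ 2 - 2 * inner ℝ (f z) (f z) + ‖f z‖ ^ 2) = 0 := by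
    rw [real_inner_self_eq_norm_sq]; ring
  rw [h6] at h5
  refine h5.congr' ?_
  filter_upwards [self_mem_nhdsWithin] with r hr
  have hr0 : (0:ℝ) < r := hr
  have hvol : (volume : Measure ℂ).real (closedBall z r) = Real.pi * r ^ 2 := by
    rw [measureReal_def, Complex.volume_closedBall, ENNReal.toReal_mul, ENNReal.toReal_pow,
      ENNReal.toReal_ofReal hr0.le]
    simp [mul_comm]
  have hint1 : IntegrableOn (fun w => ‖f w‖ ^ 2) (closedBall z r) := hsq.integrableOn
  have hint2 : IntegrableOn f (closedBall z r) :=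
    hfloc.integrableOn_isCompact (isCompact_closedBall z r)
  have hfin : volume (closedBall z r) ≠ ⊤ := measure_closedBall_lt_top.ne
  have hint3 : IntegrableOn (fun w => inner ℝ (f z) (f w)) (closedBall z r) :=
    Integrable.const_inner _ hint2
  have h7 : ∫ w in closedBall z r, ‖f w - f z‖ ^ 2 = (∫ w in closedBall z r, ‖f w‖ ^ 2) -
      2 * inner ℝ (f z) (∫ w in closedBall z r, f w) + Real.pi * r ^ 2 * ‖f z‖ ^ 2 := by
    have e1 : ∀ w, ‖f w - f z‖ ^ 2 = (‖f w‖ ^ 2 - 2 * inner ℝ (f z) (f w)) + ‖f z‖ ^ 2 := by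
      intro w
      rw [norm_sub_sq_real, real_inner_comm]
    simp only [e1]
    have hint4 : IntegrableOn (fun w => ‖f w‖ ^ 2 - 2 * inner ℝ (f z) (f w)) (closedBall z r) :=
      hint1.sub (hint3.const_mul 2)
    rw [integral_add hint4 (integrableOn_const hfin),
      integral_sub hint1 (hint3.const_mul 2), integral_const_mul, integral_inner hint2,
      setIntegral_const, hvol, smul_eq_mul]
  rw [h7, setAverage_eq, setAverage_eq, hvol, inner_smul_right, smul_eq_mul]
  have hpi := Real.pi_pos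
  field_simp

end Pool.Agent.Helper366.IV
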