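import Mathlib
import Pool.Agent.Helper366.IV.Leb
import Pool.Agent.Helper366.IV.Compz
import Pool.Agent.Helper366.IV.Osc
import Pool.Agent.Helper366.IV.Max
import Pool.Agent.Helper366.IV.Sub

set_option autoImplicit false
open MeasureTheory Metric Set Filter Topology Complex
open scoped ContDiff ENNReal ComplexConjugate

namespace Pool.Agent.Helper366.IV








theorem W.mono02 {U V : Set ℂ} {q qx qy : ℂ → ℂ} (h : W U q qx qy) (hVU : V ⊆ U) : W V q qx qy :=
  ⟨h.cont.mono hVU, fun K hK hKV => h.memx K hK (hKV.trans hVU),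
    fun K hK hKV => h.memy K hK (hKV.trans hVU), fun K hK hKV => h.approx K hK (hKV.trans hVU)⟩

theorem W.smulc {U : Set ℂ} {q qx qy : ℂ → ℂ} (hU : IsOpen U) (h : W U q qx qy) (c : ℂ) :
    W U (fun z => c * q z) (fun z => c * qx z) (fun z => c * qy z) := by
  have hd : ∀ p : ℂ × ℂ, HasFDerivAt (fun p : ℂ × ℂ => c * p.2)
      (c • (ContinuousLinearMap.snd ℝ ℂ ℂ)) p := fun p =>
    (ContinuousLinearMap.snd ℝ ℂ ℂ).hasFDerivAt.const_mul c
  have h1 := h.compz hU (fun p : ℂ × ℂ => c * p.2) (fun z hz => by fun_prop)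
  have e1 : (fun z => fderiv ℝ (fun p : ℂ × ℂ => c * p.2) (z, q z) (1, qx z)) =
      fun z => c * qx z := by
    funext z
    rw [(hd _).fderiv]; simp
  have e2 : (fun z => fderiv ℝ (fun p : ℂ × ℂ => c * p.2) (z, q z) (I, qy z)) =
      fun z => c * qy z := by
    funext z
    rw [(hd _).fderiv]; simp
  rw [e1, e2] at h1
  exact h1

theorem QR.smulc {U : Set ℂ} {qx qy : ℂ → ℂ} {κ : ℝ} (h : QR κ U qx qy) (c : ℂ) (hc : ‖c‖ = 1) :
    QR κ U (fun z => c * qx z) (fun z => c * qy z) := by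
  have hc2 : c.re ^ 2 + c.im ^ 2 = 1 := by
    have := Complex.sq_norm c
    rw [hc, Complex.normSq_apply] at this
    nlinarith
  filter_upwards [h] with z hz
  have hJ : Jac (fun z => c * qx z) (fun z => c * qy z) z = Jac qx qy z := by
    simp only [Jac, Complex.mul_re, Complex.mul_im]
    have : ∀ a b x y : ℝ, (c.re * a - c.im * b) * (c.re * y + c.im * x) -
      (c.re * x - c.im * y) * (c.re * b + c.im * a) = (c.re ^ 2 + c.im ^ 2) * (a * y - x * b) := by
      intros; ring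
    rw [this, hc2, one_mul]
  rw [hJ]
  simpa [norm_mul, hc] using hz

theorem W.oscRe {U : Set ℂ} {q qx qy : ℂ → ℂ} {κ : ℝ} (hκ : 0 < κ) (hU : IsOpen U)
    (h : W U q qx qy) (hQ : QR κ U qx qy) (z₀ : ℂ) (r : ℝ) (hr : 0 < r)
    (hB : closedBall z₀ (2 * r) ⊆ U) :
    ∀ z ∈ closedBall z₀ r, ∀ z' ∈ closedBall z₀ r, |(q z - q z').re| ≤
      4 * Real.sqrt (∫ w in closedBall z₀ (2 * r), (‖qx w‖ ^ 2 + ‖qy w‖ ^ 2)) := by
  have hm : W U (fun z => (-1 : ℂ) * q z) (fun z => (-1 : ℂ) * qx z) (fun z => (-1 : ℂ) * qy z) :=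
    h.smulc hU (-1)
  have hQm : QR κ U (fun z => (-1 : ℂ) * qx z) (fun z => (-1 : ℂ) * qy z) :=
    hQ.smulc (-1) (by simp)
  have hosc := h.osc z₀ r hr hB (by
    intro ρ hρ z hz
    have hρ0 : 0 < ρ := lt_trans hr hρ.1
    have hBρ : closedBall z₀ ρ ⊆ U := (closedBall_subset_closedBall hρ.2.le).trans hB
    refine ⟨h.max hκ hU hQ z₀ ρ hρ0 hBρ z hz, ?_⟩
    obtain ⟨b, hb, hb'⟩ := hm.max hκ hU hQm z₀ ρ hρ0 hBρ z hz
    refine ⟨b, hb, ?_⟩
    simp at hb'
    exact hb')
  intro z hz z' hz'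
  rw [abs_le]
  have h1 := hosc z hz z' hz'
  have h2 := hosc z' hz' z hz
  simp only [Complex.sub_re]
  constructor <;> linarith

theorem W.oscN {U : Set ℂ} {q qx qy : ℂ → ℂ} {κ : ℝ} (hκ : 0 < κ) (hU : IsOpen U)
    (h : W U q qx qy) (hQ : QR κ U qx qy) (z₀ : ℂ) (r : ℝ) (hr : 0 < r)
    (hB : closedBall z₀ (2 * r) ⊆ U) :
    ∀ z ∈ closedBall z₀ r, ∀ z' ∈ closedBall z₀ r, ‖q z - q z'‖ ≤
      8 * Real.sqrt (∫ w in closedBall z₀ (2 * r), (‖qx w‖ ^ 2 + ‖qy w‖ ^ 2)) := by
  intro z hz z' hz'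
  have h1 := h.oscRe hκ hU hQ z₀ r hr hB z hz z' hz'
  have h2 := (h.smulc hU (-I)).oscRe hκ hU (hQ.smulc (-I) (by simp)) z₀ r hr hB z hz z' hz'
  have e : (fun w => ‖(-I) * qx w‖ ^ 2 + ‖(-I) * qy w‖ ^ 2) =
      fun w => (‖qx w‖ ^ 2 + ‖qy w‖ ^ 2) := by
    funext w; simp
  rw [e] at h2
  have e2 : (-I * q z - -I * q z').re = (q z - q z').im := by simp; ring
  rw [e2] at h2
  have := Complex.norm_le_abs_re_add_abs_im (q z - q z')
  linarith

/-- choice of `F'` -/
theorem exists_F' (F G h : ℂ) (hh : F * conj G = h) (hG : ‖G‖ ≤ ‖F‖) (t : ℝ) (ht : 0 < t) :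
    ∃ F' : ℂ, ‖F'‖ = ‖F‖ + t ∧ ‖F' - F‖ = t ∧ ‖h‖ ≤ ‖F‖ ^ 2 ∧
      ‖G - conj h / conj F'‖ ≤ t := by
  obtain ⟨F', h1, h2⟩ : ∃ F' : ℂ, ‖F'‖ = ‖F‖ + t ∧ ‖F' - F‖ = t := by
    by_cases hF : F = 0
    · refine ⟨t, ?_, ?_⟩ <;> simp [hF, abs_of_pos ht]
    · have hF0 : 0 < ‖F‖ := norm_pos_iff.2 hF
      refine ⟨F * ((1 + t / ‖F‖ : ℝ) : ℂ), ?_, ?_⟩
      · rw [norm_mul, Complex.norm_real, Real.norm_of_nonneg (by positivity)]
        field_simp
      · have : F * ((1 + t / ‖F‖ : ℝ) : ℂ) - F = F * ((t / ‖F‖ : ℝ) : ℂ) := by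
          push_cast; ring
        rw [this, norm_mul, Complex.norm_real, Real.norm_of_nonneg (by positivity)]
        field_simp
  have hF'0 : 0 < ‖F'‖ := by rw [h1]; positivity
  have hF'ne : conj F' ≠ 0 := by
    rw [Ne, map_eq_zero]; exact norm_pos_iff.1 hF'0
  refine ⟨F', h1, h2, ?_, ?_⟩
  · rw [← hh, norm_mul, Complex.norm_conj]
    nlinarith [norm_nonneg F]
  · have e : G - conj h / conj F' = G * (conj F' - conj F) / conj F' := by
      rw [← hh, map_mul, Complex.conj_conj]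
      field_simp
    rw [e, norm_div, norm_mul, ← map_sub, Complex.norm_conj, Complex.norm_conj, h2,
      div_le_iff₀ hF'0]
    nlinarith [norm_nonneg G]


theorem int_bound {gx gy qx qy : ℂ → ℂ} (hgx : MemLp gx 2 volume) (hgy : MemLp gy 2 volume)
    (z : ℂ) (t r : ℝ) (ht : 0 < t) (hr : 0 < r)
    (hx : (∫ w in closedBall z (2*r), ‖gx w - gx z‖ ^ 2) ≤ t^2 * (2*r)^2)
    (hy : (∫ w in closedBall z (2*r), ‖gy w - gy z‖ ^ 2) ≤ t^2 * (2*r)^2)
    (hqx : ∀ w ∈ closedBall z (2*r), ‖qx w‖ ≤ ‖gx w - gx z‖ + 3 * t)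
    (hqy : ∀ w ∈ closedBall z (2*r), ‖qy w‖ ≤ ‖gy w - gy z‖ + 3 * t) :
    Real.sqrt (∫ w in closedBall z (2*r), (‖qx w‖^2 + ‖qy w‖^2)) ≤ 25 * t * r := by
  have hint : ∀ g : ℂ → ℂ, MemLp g 2 volume →
      Integrable (fun w => ‖g w - g z‖ ^ 2) (volume.restrict (closedBall z (2*r))) := by
    intro g hg
    have hfin : IsFiniteMeasure (volume.restrict (closedBall z (2*r))) :=
      ⟨by rw [Measure.restrict_apply_univ]; exact measure_closedBall_lt_top⟩
    have h1 : MemLp (fun w => g w - g z) 2 (volume.restrict (closedBall z (2*r))) :=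
      (hg.restrict _).sub (memLp_const _)
    exact h1.integrable_norm_pow (by norm_num)
  rw [Real.sqrt_le_iff]
  refine ⟨by positivity, ?_⟩
  have hg : Integrable (fun w => 2 * ‖gx w - gx z‖ ^ 2 + 2 * ‖gy w - gy z‖ ^ 2 + 36 * t ^ 2)
      (volume.restrict (closedBall z (2*r))) := by
    have hfin : IsFiniteMeasure (volume.restrict (closedBall z (2*r))) :=
      ⟨by rw [Measure.restrict_apply_univ]; exact measure_closedBall_lt_top⟩
    exact (((hint gx hgx).const_mul 2).add ((hint gy hgy).const_mul 2)).add (integrable_const _)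
  have hle : (∫ w in closedBall z (2*r), (‖qx w‖^2 + ‖qy w‖^2)) ≤
      ∫ w in closedBall z (2*r), (2 * ‖gx w - gx z‖ ^ 2 + 2 * ‖gy w - gy z‖ ^ 2 + 36 * t ^ 2) := by
    refine integral_mono_of_nonneg (ae_of_all _ fun w => by positivity) hg ?_
    rw [EventuallyLE, ae_restrict_iff' measurableSet_closedBall]
    refine ae_of_all _ fun w hw => ?_
    have h1 := hqx w hw
    have h2 := hqy w hw
    have h3 := norm_nonneg (qx w)
    have h4 := norm_nonneg (qy w)
    have h5 : ‖qx w‖ ^ 2 ≤ (‖gx w - gx z‖ + 3 * t) ^ 2 := by gcongr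
    have h6 : ‖qy w‖ ^ 2 ≤ (‖gy w - gy z‖ + 3 * t) ^ 2 := by gcongr
    nlinarith [sq_nonneg (‖gx w - gx z‖ - 3 * t), sq_nonneg (‖gy w - gy z‖ - 3 * t)]
  have heq : (∫ w in closedBall z (2*r),
      (2 * ‖gx w - gx z‖ ^ 2 + 2 * ‖gy w - gy z‖ ^ 2 + 36 * t ^ 2)) =
      2 * (∫ w in closedBall z (2*r), ‖gx w - gx z‖ ^ 2) +
      2 * (∫ w in closedBall z (2*r), ‖gy w - gy z‖ ^ 2) +
      (Real.pi * (2 * r) ^ 2) * (36 * t ^ 2) := by
    have hfin : IsFiniteMeasure (volume.restrict (closedBall z (2*r))) :=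
      ⟨by rw [Measure.restrict_apply_univ]; exact measure_closedBall_lt_top⟩
    have e1 : (∫ w in closedBall z (2*r),
        (2 * ‖gx w - gx z‖ ^ 2 + 2 * ‖gy w - gy z‖ ^ 2 + 36 * t ^ 2)) =
        (∫ w in closedBall z (2*r), (2 * ‖gx w - gx z‖ ^ 2 + 2 * ‖gy w - gy z‖ ^ 2)) +
        ∫ w in closedBall z (2*r), (36 * t ^ 2) :=
      integral_add (((hint gx hgx).const_mul 2).add ((hint gy hgy).const_mul 2))
        (integrable_const _)
    have e2 : (∫ w in closedBall z (2*r), (2 * ‖gx w - gx z‖ ^ 2 + 2 * ‖gy w - gy z‖ ^ 2)) =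
        (∫ w in closedBall z (2*r), 2 * ‖gx w - gx z‖ ^ 2) +
        ∫ w in closedBall z (2*r), 2 * ‖gy w - gy z‖ ^ 2 :=
      integral_add ((hint gx hgx).const_mul 2) ((hint gy hgy).const_mul 2)
    rw [e1, e2, integral_const_mul, integral_const_mul, setIntegral_const, smul_eq_mul]
    congr 2
    rw [Measure.real, Complex.volume_closedBall]
    simp only [ENNReal.toReal_mul, ENNReal.toReal_pow, ENNReal.toReal_ofReal (by positivity : (0:ℝ) ≤ 2 * r)]
    simp
    ring
  rw [heq] at hle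
  have hpi := Real.pi_le_four
  have h7 : (Real.pi * (2 * r) ^ 2) * (36 * t ^ 2) ≤ (4 * (2 * r) ^ 2) * (36 * t ^ 2) := by gcongr
  nlinarith [sq_nonneg (t * r)]

theorem good_point {U : Set ℂ} {f fx fy Φ H : ℂ → ℂ} {m : ℝ} (L : Loc U f fx fy Φ H m)
    (c : ℂ) (R : ℝ) (hK : closedBall c R ⊆ U) (z : ℂ) (hz : z ∈ ball c R)
    (hprod : dz fx fy z * conj (dzb fx fy z) = H z) (hle : ‖dzb fx fy z‖ ≤ ‖dz fx fy z‖)
    (hLx : Tendsto (fun r : ℝ => (∫ w in closedBall z r,
      ‖(closedBall c R).indicator fx w - (closedBall c R).indicator fx z‖ ^ 2) / r ^ 2)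
      (𝓝[>] 0) (𝓝 0))
    (hLy : Tendsto (fun r : ℝ => (∫ w in closedBall z r,
      ‖(closedBall c R).indicator fy w - (closedBall c R).indicator fy z‖ ^ 2) / r ^ 2)
      (𝓝[>] 0) (𝓝 0)) : Good f fx fy H z := by
  refine ⟨hprod, hle, ?_⟩
  intro ε hε
  set F := dz fx fy z with hF
  set G := dzb fx fy z with hG
  have hfx : fx z = F + G := by rw [hF, hG, dz, dzb]; ring
  have hfy : fy z = I * (F - G) := by
    rw [hF, hG, dz, dzb]
    have : I * ((fx z - I * fy z) / 2 - (fx z + I * fy z) / 2) = -(I * I) * fy z := by ring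
    rw [this, Complex.I_mul_I]; ring
  set t := ε / 203 with ht
  have ht0 : 0 < t := by positivity
  obtain ⟨F', h1, h2, h3, h4⟩ := exists_F' F G (H z) hprod hle t ht0
  have hF'0 : 0 < ‖F'‖ := by rw [h1]; positivity
  have hF'ne : conj F' ≠ 0 := by
    rw [Ne, map_eq_zero]; exact norm_pos_iff.1 hF'0
  have hzU : z ∈ U := hK (ball_subset_closedBall hz)
  -- m'
  have hs1 : √‖H z‖ < ‖F'‖ := by
    have : √‖H z‖ ≤ ‖F‖ := Real.sqrt_le_iff.2 ⟨norm_nonneg _, h3⟩
    linarith
  have hs0 := Real.sqrt_nonneg ‖H z‖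
  set m' := (√‖H z‖ + ‖F'‖) / 2 with hm'
  have hm'0 : 0 < m' := by rw [hm']; linarith
  have hm'F : m' < ‖F'‖ := by rw [hm']; linarith
  have hHm' : ‖H z‖ < m' ^ 2 := by
    rw [← Real.sqrt_lt' hm'0, hm']; linarith
  -- continuity of H
  have hΦd : DifferentiableOn ℂ Φ U := fun w hw => (L.hΦ w hw).differentiableAt.differentiableWithinAt
  have hHc : ContinuousAt H z := by
    have h5 : ContinuousAt (deriv Φ) z :=
      (hΦd.deriv L.hU).continuousOn.continuousAt (L.hU.mem_nhds hzU)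
    refine h5.congr ?_
    filter_upwards [L.hU.mem_nhds hzU] with w hw
    exact (L.hΦ w hw).deriv
  have ev1 : ∀ᶠ w in 𝓝 z, w ∈ ball c R ∧ ‖H w‖ < m' ^ 2 ∧ ‖H w - H z‖ < t * ‖F'‖ := by
    refine Eventually.and (isOpen_ball.mem_nhds hz) (Eventually.and ?_ ?_)
    · exact (hHc.norm).eventually (gt_mem_nhds hHm')
    · have : ContinuousAt (fun w => ‖H w - H z‖) z := (hHc.sub continuousAt_const).norm
      refine Tendsto.eventually_lt_const ?_ this
      simp only [sub_self, norm_zero]; positivity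
  obtain ⟨r0, hr0, hr0'⟩ := Metric.eventually_nhds_iff_ball.1 ev1
  have ev2 : ∀ g : ℂ → ℂ, Tendsto (fun r : ℝ => (∫ w in closedBall z r, ‖g w - g z‖ ^ 2) / r ^ 2)
      (𝓝[>] 0) (𝓝 0) → ∃ r1 > 0, ∀ r : ℝ, 0 < r → r < r1 →
      (∫ w in closedBall z r, ‖g w - g z‖ ^ 2) ≤ t ^ 2 * r ^ 2 := by
    intro g hg
    have h7 := hg.eventually_lt_const (show (0:ℝ) < t ^ 2 by positivity)
    rw [eventually_nhdsWithin_iff] at h7
    obtain ⟨r1, hr1, hr1'⟩ := Metric.eventually_nhds_iff_ball.1 h7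
    refine ⟨r1, hr1, fun r hr hrr => ?_⟩
    have h8 := hr1' r (by simp [abs_of_pos hr, hrr]) hr
    rw [div_lt_iff₀ (by positivity)] at h8
    exact h8.le
  obtain ⟨r1, hr1, hr1'⟩ := ev2 _ hLx
  obtain ⟨r2, hr2, hr2'⟩ := ev2 _ hLy
  have ev3 : ∀ᶠ w in 𝓝 z, ‖Φ w - Φ z - (w - z) * H z‖ ≤ t * ‖F'‖ * ‖w - z‖ := by
    have h9 := (hasDerivAt_iff_isLittleO.1 (L.hΦ z hzU)).def (show 0 < t * ‖F'‖ by positivity)
    simpa [smul_eq_mul] using h9
  have ev4 : ∀ᶠ w in 𝓝 z, dist w z < min r0 (min r1 r2) / 2 :=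
    Metric.eventually_nhds_iff_ball.2 ⟨_, by positivity, fun w hw => hw⟩
  -- local data on the ball
  have hVU : ball z r0 ⊆ U := fun w hw => hK (ball_subset_closedBall (hr0' w hw).1)
  have L' : Loc (ball z r0) f fx fy Φ H m' :=
    { hU := isOpen_ball
      conv := convex_ball z r0
      w := L.w.mono02 hVU
      hΦ := fun w hw => L.hΦ w (hVU hw)
      hm0 := hm'0
      hm := fun w hw => (hr0' w hw).2.1.le
      prod := ae_restrict_of_ae_restrict_of_subset hVU L.prod
      le := ae_restrict_of_ae_restrict_of_subset hVU L.le }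
  obtain ⟨hW, hQ⟩ := L'.sub F' (f z - (F' * z + conj (Φ z) / conj F')) hm'F
  have hkap : 0 < kap (m' / ‖F'‖) := by
    have h10 : m' / ‖F'‖ < 1 := (div_lt_one hF'0).2 hm'F
    have h11 : 0 < m' / ‖F'‖ := by positivity
    rw [kap]
    apply div_pos (by positivity)
    nlinarith
  have hmx : MemLp ((closedBall c R).indicator fx) 2 volume :=
    (memLp_indicator_iff_restrict measurableSet_closedBall).2
      (L.w.memx _ (isCompact_closedBall c R) hK)
  have hmy : MemLp ((closedBall c R).indicator fy) 2 volume :=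
    (memLp_indicator_iff_restrict measurableSet_closedBall).2
      (L.w.memy _ (isCompact_closedBall c R) hK)
  filter_upwards [ev3, ev4] with w hw3 hw4
  by_cases hwz : w = z
  · subst hwz; simp
  set r := ‖w - z‖ with hr
  have hrpos : 0 < r := norm_pos_iff.2 (sub_ne_zero.2 hwz)
  have hrd : dist w z = r := dist_eq_norm w z
  rw [hrd] at hw4
  have hr_0 : 2 * r < r0 := by
    have := min_le_left r0 (min r1 r2); linarith
  have hr_1 : 2 * r < r1 := by
    have := min_le_right r0 (min r1 r2); have := min_le_left r1 r2; linarith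
  have hr_2 : 2 * r < r2 := by
    have := min_le_right r0 (min r1 r2); have := min_le_right r1 r2; linarith
  have hBV : closedBall z (2 * r) ⊆ ball z r0 := closedBall_subset_ball hr_0
  have hosc := hW.oscN hkap isOpen_ball hQ z r hrpos hBV w (by rw [mem_closedBall, hrd]) z
    (mem_closedBall_self hrpos.le)
  have hib := int_bound (qx := fun z => fx z - (F' + conj (H z) / conj F'))
    (qy := fun z => fy z - I * (F' - conj (H z) / conj F')) hmx hmy z t r ht0 hrpos
    (hr1' (2 * r) (by positivity) hr_1) (hr2' (2 * r) (by positivity) hr_2) (by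
      intro w' hw'
      have hw'V := hr0' w' (hBV hw')
      rw [indicator_of_mem (ball_subset_closedBall hw'V.1),
        indicator_of_mem (ball_subset_closedBall hz)]
      have e : fx w' - (F' + conj (H w') / conj F') = (fx w' - fx z) +
          ((F - F') + (G - conj (H z) / conj F') - conj (H w' - H z) / conj F') := by
        rw [hfx, map_sub]; ring
      rw [e]
      refine (norm_add_le _ _).trans ?_
      gcongr
      refine (norm_sub_le _ _).trans ?_
      have h12 : ‖conj (H w' - H z) / conj F'‖ ≤ t := by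
        rw [norm_div, Complex.norm_conj, Complex.norm_conj, div_le_iff₀ hF'0]
        exact hw'V.2.2.le
      have h13 := norm_add_le (F - F') (G - conj (H z) / conj F')
      rw [norm_sub_rev F F', h2] at h13
      linarith) (by
      intro w' hw'
      have hw'V := hr0' w' (hBV hw')
      rw [indicator_of_mem (ball_subset_closedBall hw'V.1),
        indicator_of_mem (ball_subset_closedBall hz)]
      have e : fy w' - I * (F' - conj (H w') / conj F') = (fy w' - fy z) +
          I * ((F - F') - (G - conj (H z) / conj F') + conj (H w' - H z) / conj F') := by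
        rw [hfy, map_sub]; ring
      rw [e]
      refine (norm_add_le _ _).trans ?_
      gcongr
      rw [norm_mul, Complex.norm_I, one_mul]
      refine (norm_add_le _ _).trans ?_
      have h12 : ‖conj (H w' - H z) / conj F'‖ ≤ t := by
        rw [norm_div, Complex.norm_conj, Complex.norm_conj, div_le_iff₀ hF'0]
        exact hw'V.2.2.le
      have h13 := norm_sub_le (F - F') (G - conj (H z) / conj F')
      rw [norm_sub_rev F F', h2] at h13
      linarith)
  set Sq := √(∫ w in closedBall z (2 * r), (‖fx w - (F' + conj (H w) / conj F')‖ ^ 2 +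
    ‖fy w - I * (F' - conj (H w) / conj F')‖ ^ 2)) with hSq
  have e : f w - f z - (F * (w - z) + G * conj (w - z)) =
      ((f w - (F' * w + conj (Φ w) / conj F') - (f z - (F' * z + conj (Φ z) / conj F'))) -
      (f z - (F' * z + conj (Φ z) / conj F') - (f z - (F' * z + conj (Φ z) / conj F')))) +
      ((F' - F) * (w - z) + (conj (Φ w - Φ z - (w - z) * H z) / conj F' -
      (G - conj (H z) / conj F') * conj (w - z))) := by
    simp only [map_sub, map_mul]; ring
  rw [e]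
  refine (norm_add_le _ _).trans ?_
  have h14 : ‖(F' - F) * (w - z)‖ = t * r := by rw [norm_mul, h2]
  have h15 : ‖conj (Φ w - Φ z - (w - z) * H z) / conj F'‖ ≤ t * r := by
    rw [norm_div, Complex.norm_conj, Complex.norm_conj, div_le_iff₀ hF'0]
    calc _ ≤ _ := hw3
      _ = _ := by ring
  have h16 : ‖(G - conj (H z) / conj F') * conj (w - z)‖ ≤ t * r := by
    rw [norm_mul, Complex.norm_conj]
    gcongr
  have h17 := norm_add_le ((F' - F) * (w - z)) (conj (Φ w - Φ z - (w - z) * H z) / conj F' -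
      (G - conj (H z) / conj F') * conj (w - z))
  have h18 := norm_sub_le (conj (Φ w - Φ z - (w - z) * H z) / conj F')
      ((G - conj (H z) / conj F') * conj (w - z))
  have h19 : ε = 203 * t := by rw [ht]; ring
  rw [h19]
  nlinarith

/- TARGET -/
theorem Loc.good {U : Set ℂ} {f fx fy Φ H : ℂ → ℂ} {m : ℝ} (L : Loc U f fx fy Φ H m) :
    ∀ᵐ z ∂(volume.restrict U), Good f fx fy H z := by
  rw [ae_restrict_iff' L.hU.measurableSet]
  have hprod := (ae_restrict_iff' L.hU.measurableSet).1 L.prod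
  have hle := (ae_restrict_iff' L.hU.measurableSet).1 L.le
  rw [ae_iff]
  refine measure_null_of_locally_null _ fun x hx => ?_
  have hx' : x ∈ U := by
    by_contra h
    exact hx (fun h' => absurd h' h)
  obtain ⟨R, hR, hRU⟩ := Metric.nhds_basis_closedBall.mem_iff.1 (L.hU.mem_nhds hx')
  refine ⟨ball x R ∩ {z | ¬ (z ∈ U → Good f fx fy H z)}, ?_, ?_⟩
  · exact inter_mem (mem_nhdsWithin_of_mem_nhds (ball_mem_nhds x hR)) self_mem_nhdsWithin
  have hmx : MemLp ((closedBall x R).indicator fx) 2 volume :=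
    (memLp_indicator_iff_restrict measurableSet_closedBall).2
      (L.w.memx _ (isCompact_closedBall x R) hRU)
  have hmy : MemLp ((closedBall x R).indicator fy) 2 volume :=
    (memLp_indicator_iff_restrict measurableSet_closedBall).2
      (L.w.memy _ (isCompact_closedBall x R) hRU)
  have key : ∀ᵐ z, z ∈ ball x R → Good f fx fy H z := by
    filter_upwards [hprod, hle, lebesgue_L2 _ hmx, lebesgue_L2 _ hmy] with z h1 h2 h3 h4 hz
    have hzU := hRU (ball_subset_closedBall hz)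
    exact good_point L x R hRU z hz (h1 hzU) (h2 hzU) h3 h4
  rw [ae_iff] at key
  refine measure_mono_null ?_ key
  rintro z ⟨h1, h2⟩ h3
  exact h2 fun _ => h3 h1

end Pool.Agent.Helper366.IV
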