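import Mathlib
import Pool.Agent.Helper366.IV.Compz
import Pool.Agent.Helper366.IV.Stokes
import Pool.Agent.Helper366.IV.Lip

set_option autoImplicit false
open MeasureTheory Metric Set Filter Topology Complex
open scoped ContDiff ENNReal ComplexConjugate

namespace Pool.Agent.Helper366.IV






/-- profile function -/
theorem j1901_profile (t₁ t₂ : ℝ) (h1 : 0 < t₁) :
    ∃ (β k : ℝ → ℝ) (c : ℝ), ContDiff ℝ 2 β ∧ (∀ t, k t = β t + t * deriv β t) ∧
      (∀ t, 0 ≤ k t) ∧ (∀ t, t₁ < t → t < t₂ → 0 < k t) ∧ ∀ t, t₂ ≤ t → β t = c / t := by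
  let k : ℝ → ℝ := fun s => expNegInvGlue (s - t₁) * expNegInvGlue (t₂ - s)
  have hk : ContDiff ℝ ∞ k :=
    (expNegInvGlue.contDiff.comp (contDiff_id.sub contDiff_const)).mul
      (expNegInvGlue.contDiff.comp (contDiff_const.sub contDiff_id))
  have hk0 : ∀ s, s ≤ t₁ → k s = 0 := fun s hs => by
    simp only [k]
    rw [expNegInvGlue.zero_of_nonpos (by linarith), zero_mul]
  have hk2 : ∀ s, t₂ ≤ s → k s = 0 := fun s hs => by
    simp only [k]
    rw [expNegInvGlue.zero_of_nonpos (x := t₂ - s) (by linarith), mul_zero]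
  let τ : ℝ → ℝ := fun t => ∫ s in t₁..t, k s
  have hτd : ∀ t, HasDerivAt τ (k t) t := fun t =>
    (hk.continuous.integral_hasStrictDerivAt t₁ t).hasDerivAt
  have hτ : ContDiff ℝ ∞ τ := by
    rw [contDiff_infty_iff_deriv]
    refine ⟨fun t => (hτd t).differentiableAt, ?_⟩
    have : deriv τ = k := funext fun t => (hτd t).deriv
    rw [this]
    exact hk
  have hτ0 : ∀ t, t ≤ t₁ → τ t = 0 := fun t ht => by
    simp only [τ]
    rw [intervalIntegral.integral_symm, neg_eq_zero]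
    apply intervalIntegral.integral_zero_ae
    refine Filter.Eventually.of_forall fun s hs => ?_
    rw [uIoc_of_le ht] at hs
    exact hk0 s hs.2
  have hτ2 : ∀ t, t₂ ≤ t → τ t = τ t₂ := fun t ht => by
    have h3 : (∫ s in t₁..t₂, k s) + ∫ s in t₂..t, k s = ∫ s in t₁..t, k s :=
      intervalIntegral.integral_add_adjacent_intervals (hk.continuous.intervalIntegrable _ _)
        (hk.continuous.intervalIntegrable _ _)
    have h4 : ∫ s in t₂..t, k s = 0 := by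
      apply intervalIntegral.integral_zero_ae
      refine Filter.Eventually.of_forall fun s hs => ?_
      rw [uIoc_of_le ht] at hs
      exact hk2 s hs.1.le
    simp only [τ]
    rw [← h3, h4, add_zero]
  let β : ℝ → ℝ := fun t => τ t / t
  have hβ0 : ∀ t, t < t₁ → β =ᶠ[𝓝 t] fun _ => 0 := fun t ht => by
    filter_upwards [Iio_mem_nhds ht] with s hs
    simp only [β]
    rw [hτ0 s (le_of_lt hs), zero_div]
  refine ⟨β, k, τ t₂, ?_, ?_, ?_, ?_, ?_⟩
  · rw [contDiff_iff_contDiffAt]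
    intro t
    rcases lt_or_ge t t₁ with ht | ht
    · exact contDiffAt_const.congr_of_eventuallyEq (hβ0 t ht)
    · have ht0 : t ≠ 0 := by linarith
      exact (contDiff_infty.1 hτ 2).contDiffAt.div contDiffAt_id ht0
  · intro t
    rcases lt_or_ge t t₁ with ht | ht
    · rw [(hβ0 t ht).deriv_eq, (hβ0 t ht).eq_of_nhds, hk0 t ht.le]
      simp
    · have ht0 : t ≠ 0 := by linarith
      have h5 : HasDerivAt β ((k t * t - τ t * 1) / t ^ 2) t :=
        (hτd t).div (hasDerivAt_id t) ht0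
      rw [h5.deriv]
      simp only [β]
      field_simp
      ring
  · intro t
    exact mul_nonneg (expNegInvGlue.nonneg _) (expNegInvGlue.nonneg _)
  · intro t ht1 ht2
    exact mul_pos (expNegInvGlue.pos_of_pos (by linarith)) (expNegInvGlue.pos_of_pos (by linarith))
  · intro t ht
    simp only [β]
    rw [hτ2 t ht]

/-- derivative along a line -/
theorem j1901_fd_path {Θ : ℂ × ℂ → ℂ} {p v : ℂ × ℂ} (h : DifferentiableAt ℝ Θ p) {d : ℂ}
    (hd : HasDerivAt (fun s : ℝ => Θ (p + s • v)) d 0) : fderiv ℝ Θ p v = d :=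
  HasDerivAt.unique (h.hasFDerivAt.hasLineDerivAt v) hd

/-- first comparison map -/
noncomputable def j1901A (β : ℝ → ℝ) (p : ℂ × ℂ) : ℂ :=
  ((β (p.2.re * p.2.re + p.2.im * p.2.im) * p.2.re : ℝ) : ℂ) + ((p.2.im : ℝ) : ℂ) * I

/-- second comparison map -/
noncomputable def j1901B (β : ℝ → ℝ) (p : ℂ × ℂ) : ℂ :=
  ((-(β (p.2.re * p.2.re + p.2.im * p.2.im) * p.2.im) : ℝ) : ℂ) + ((p.2.re : ℝ) : ℂ) * I

theorem j1901_base {β : ℝ → ℝ} (hβ : ContDiff ℝ 2 β) :
    ContDiff ℝ 2 (fun p : ℂ × ℂ => p.2.re) ∧ ContDiff ℝ 2 (fun p : ℂ × ℂ => p.2.im) ∧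
      ContDiff ℝ 2 (fun p : ℂ × ℂ => β (p.2.re * p.2.re + p.2.im * p.2.im)) := by
  have h1 : ContDiff ℝ 2 (fun p : ℂ × ℂ => p.2.re) := reCLM.contDiff.comp contDiff_snd
  have h2 : ContDiff ℝ 2 (fun p : ℂ × ℂ => p.2.im) := imCLM.contDiff.comp contDiff_snd
  exact ⟨h1, h2, hβ.comp ((h1.mul h1).add (h2.mul h2))⟩

theorem j1901_A_cd {β : ℝ → ℝ} (hβ : ContDiff ℝ 2 β) : ContDiff ℝ 2 (j1901A β) := by
  obtain ⟨h1, h2, h3⟩ := j1901_base hβ
  exact (ofRealCLM.contDiff.comp (h3.mul h1)).add ((ofRealCLM.contDiff.comp h2).mul contDiff_const)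

theorem j1901_B_cd {β : ℝ → ℝ} (hβ : ContDiff ℝ 2 β) : ContDiff ℝ 2 (j1901B β) := by
  obtain ⟨h1, h2, h3⟩ := j1901_base hβ
  exact (ofRealCLM.contDiff.comp (h3.mul h2).neg).add
    ((ofRealCLM.contDiff.comp h1).mul contDiff_const)

theorem j1901_line (w a : ℂ) :
    HasDerivAt (fun s : ℝ => (w + s • a).re) a.re 0 ∧
    HasDerivAt (fun s : ℝ => (w + s • a).im) a.im 0 := by
  have h : HasDerivAt (fun s : ℝ => w + s • a) a 0 := by
    simpa using ((hasDerivAt_id (0:ℝ)).smul_const a).const_add w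
  exact ⟨reCLM.hasFDerivAt.comp_hasDerivAt (0:ℝ) h, imCLM.hasFDerivAt.comp_hasDerivAt (0:ℝ) h⟩

theorem j1901_linesq {β : ℝ → ℝ} (hβ : ContDiff ℝ 2 β) (w a : ℂ) :
    HasDerivAt (fun s : ℝ => β ((w + s • a).re * (w + s • a).re + (w + s • a).im * (w + s • a).im))
      (deriv β (w.re * w.re + w.im * w.im) * (2 * (w.re * a.re + w.im * a.im))) 0 := by
  obtain ⟨h1, h2⟩ := j1901_line w a
  have h3 := (h1.mul h1).add (h2.mul h2)
  have h4 : HasDerivAt β (deriv β (w.re * w.re + w.im * w.im))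
      (((fun s : ℝ => (w + s • a).re * (w + s • a).re + (w + s • a).im * (w + s • a).im)) 0) := by
    have := (hβ.differentiable (by norm_num)) (w.re * w.re + w.im * w.im)
    simpa using this.hasDerivAt
  have h5 := h4.comp (0:ℝ) h3
  refine h5.congr_deriv ?_
  simp
  left
  ring

theorem j1901_A_fd {β : ℝ → ℝ} (hβ : ContDiff ℝ 2 β) (z w e a : ℂ) :
    fderiv ℝ (j1901A β) (z, w) (e, a) =
      ((deriv β (w.re * w.re + w.im * w.im) * (2 * (w.re * a.re + w.im * a.im)) * w.re +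
        β (w.re * w.re + w.im * w.im) * a.re : ℝ) : ℂ) + ((a.im : ℝ) : ℂ) * I := by
  apply j1901_fd_path ((j1901_A_cd hβ).differentiable (by norm_num) _)
  obtain ⟨h1, h2⟩ := j1901_line w a
  have h3 := (j1901_linesq hβ w a).mul h1
  have h4 := h3.ofReal_comp.add (h2.ofReal_comp.mul_const I)
  refine h4.congr_deriv ?_
  simp

theorem j1901_B_fd {β : ℝ → ℝ} (hβ : ContDiff ℝ 2 β) (z w e a : ℂ) :
    fderiv ℝ (j1901B β) (z, w) (e, a) =
      ((-(deriv β (w.re * w.re + w.im * w.im) * (2 * (w.re * a.re + w.im * a.im)) * w.im +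
        β (w.re * w.re + w.im * w.im) * a.im) : ℝ) : ℂ) + ((a.re : ℝ) : ℂ) * I := by
  apply j1901_fd_path ((j1901_B_cd hβ).differentiable (by norm_num) _)
  obtain ⟨h1, h2⟩ := j1901_line w a
  have h3 := ((j1901_linesq hβ w a).mul h2).neg
  have h4 := h3.ofReal_comp.add (h1.ofReal_comp.mul_const I)
  refine h4.congr_deriv ?_
  simp


theorem j1901_mono {U V : Set ℂ} {q qx qy : ℂ → ℂ} (h : W U q qx qy) (hV : V ⊆ U) :
    W V q qx qy :=
  ⟨h.cont.mono hV, fun K hK hKV => h.memx K hK (hKV.trans hV),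
    fun K hK hKV => h.memy K hK (hKV.trans hV), fun K hK hKV => h.approx K hK (hKV.trans hV)⟩

theorem j1901_int0 {E : Type*} [NormedAddCommGroup E] {K : Set ℂ} {f : ℂ → E}
    (hf : IntegrableOn f K) (h0 : ∀ z, z ∉ K → f z = 0) : Integrable f := by
  rw [← integrableOn_iff_integrable_of_support_subset (s := K)]
  · exact hf
  · intro z hz
    by_contra hzK
    exact hz (h0 z hzK)

theorem j1901_int {K : Set ℂ} (hK : IsCompact K) {f φ : ℂ → ℂ}
    (hf : MemLp f 2 (volume.restrict K)) (hφ : ContinuousOn φ K) (h0 : ∀ z, z ∉ K → φ z = 0) :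
    Integrable (fun z => φ z * f z) := by
  have h1 : IntegrableOn f K := by
    have : IsFiniteMeasure (volume.restrict K) :=
      ⟨by rw [Measure.restrict_apply_univ]; exact hK.measure_lt_top⟩
    exact hf.integrable (by norm_num)
  exact j1901_int0 (h1.continuousOn_mul hφ hK) (fun z hz => by rw [h0 z hz, zero_mul])

theorem j1901_intR {K : Set ℂ} (hK : IsCompact K) {f φ : ℂ → ℝ}
    (hf : IntegrableOn f K) (hφ : ContinuousOn φ K) (h0 : ∀ z, z ∉ K → φ z = 0) :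
    Integrable (fun z => φ z * f z) :=
  j1901_int0 (hf.continuousOn_mul hφ hK) (fun z hz => by rw [h0 z hz, zero_mul])

/-- integrability of the left side of Stokes -/
theorem j1901_intL {U : Set ℂ} {q qx qy : ℂ → ℂ} (h : W U q qx qy) {K : Set ℂ}
    (hK : IsCompact K) (hKU : K ⊆ U) {η : ℂ → ℝ} (hη : Continuous η)
    (h0 : ∀ z, z ∉ K → η z = 0) :
    Integrable (fun z => η z * ((qx z).re * (qy z).im - (qy z).re * (qx z).im)) := by
  apply j1901_intR hK _ hη.continuousOn h0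
  have hx := h.memx K hK hKU
  have hy := h.memy K hK hKU
  exact (MemLp.integrable_mul hx.re hy.im).sub (MemLp.integrable_mul hy.re hx.im)

/-- integrability of the right side of Stokes -/
theorem j1901_intRt {U : Set ℂ} {q qx qy : ℂ → ℂ} (h : W U q qx qy) {K : Set ℂ}
    (hK : IsCompact K) (hKU : K ⊆ U) {φ ψ : ℂ → ℝ} (hφ : Continuous φ) (hψ : Continuous ψ)
    (h0 : ∀ z, z ∉ K → φ z = 0) (h0' : ∀ z, z ∉ K → ψ z = 0) :
    Integrable (fun z => (q z).re * (φ z * (qy z).im - ψ z * (qx z).im)) := by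
  have : IsFiniteMeasure (volume.restrict K) :=
    ⟨by rw [Measure.restrict_apply_univ]; exact hK.measure_lt_top⟩
  have hx : IntegrableOn (fun z => (qx z).im) K :=
    (h.memx K hK hKU).im.integrable (by norm_num)
  have hy : IntegrableOn (fun z => (qy z).im) K :=
    (h.memy K hK hKU).im.integrable (by norm_num)
  have hq : ContinuousOn (fun z => (q z).re) K :=
    continuous_re.comp_continuousOn (h.cont.mono hKU)
  apply j1901_int0 (K := K)
  · exact ((hy.continuousOn_mul hφ.continuousOn hK).sub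
      (hx.continuousOn_mul hψ.continuousOn hK)).continuousOn_mul hq hK
  · intro z hz
    rw [h0 z hz, h0' z hz]
    simp

theorem j1901_cd1 {χ : ℂ → ℝ} (hχ : ContDiff ℝ 3 χ) (v : ℂ) :
    ContDiff ℝ 1 (fun z => ((fderiv ℝ χ z v : ℝ) : ℂ)) := by
  have h1 : ContDiff ℝ 1 (fderiv ℝ χ) := hχ.fderiv_right (by norm_num)
  exact ofRealCLM.contDiff.comp (h1.clm_apply contDiff_const)

theorem j1901_fd1 {χ : ℂ → ℝ} (hχ : ContDiff ℝ 3 χ) (v w z : ℂ) :
    fderiv ℝ (fun z => ((fderiv ℝ χ z v : ℝ) : ℂ)) z w =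
      ((fderiv ℝ (fderiv ℝ χ) z w v : ℝ) : ℂ) := by
  have h1 : ContDiff ℝ 1 (fderiv ℝ χ) := hχ.fderiv_right (by norm_num)
  have h2 : HasFDerivAt (fderiv ℝ χ) (fderiv ℝ (fderiv ℝ χ) z) z :=
    (h1.differentiable (by norm_num) z).hasFDerivAt
  have h3 := h2.clm_apply (hasFDerivAt_const v z)
  have h4 := ofRealCLM.hasFDerivAt.comp z h3
  have h5 : HasFDerivAt (fun z => ((fderiv ℝ χ z v : ℝ) : ℂ)) _ z := h4
  rw [h5.fderiv]
  simp

theorem j1901_symm {χ : ℂ → ℝ} (hχ : ContDiff ℝ 3 χ) (v w z : ℂ) :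
    fderiv ℝ (fderiv ℝ χ) z w v = fderiv ℝ (fderiv ℝ χ) z v w := by
  have : IsSymmSndFDerivAt ℝ χ z := hχ.contDiffAt.isSymmSndFDerivAt (by simp; norm_num)
  exact this w v

theorem j1901_tsup {E : Type*} [Zero E] {K : Set ℂ} (hK : IsCompact K) {φ : ℂ → E}
    (h0 : ∀ z, z ∉ K → φ z = 0) : HasCompactSupport φ ∧ tsupport φ ⊆ K := by
  refine ⟨HasCompactSupport.intro hK h0, closure_minimal ?_ hK.isClosed⟩
  intro z hz
  by_contra hzK
  exact hz (h0 z hzK)

theorem j1901_open {U : Set ℂ} {q : ℂ → ℂ} (hU : IsOpen U) (hq : ContinuousOn q U) (z₁ α : ℂ)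
    (hα : α ≠ 0) : IsOpen {z | z ∈ U ∧ z ≠ z₁ ∧ q z / (α * (z - z₁)) ∈ slitPlane} := by
  have h1 : IsOpen (U ∩ {z₁}ᶜ) := hU.inter isOpen_compl_singleton
  have h2 : ContinuousOn (fun z => q z / (α * (z - z₁))) (U ∩ {z₁}ᶜ) := by
    apply (hq.mono inter_subset_left).div (by fun_prop)
    intro z hz
    exact mul_ne_zero hα (sub_ne_zero.2 hz.2)
  have h3 := h2.isOpen_inter_preimage h1 isOpen_slitPlane
  convert h3 using 1
  ext z
  simp only [mem_inter_iff, mem_preimage, mem_compl_iff, mem_singleton_iff, Set.mem_ofPred_eq]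
  tauto

theorem j1901_log {U : Set ℂ} {q qx qy : ℂ → ℂ} (hU : IsOpen U) (h : W U q qx qy) (z₁ α : ℂ)
    (hα : α ≠ 0) (K : Set ℂ) (hK : IsCompact K) (hKU : K ⊆ U)
    (hKs : ∀ z ∈ K, z ≠ z₁ ∧ q z / (α * (z - z₁)) ∈ slitPlane)
    (χ : ℂ → ℝ) (hχ : ContDiff ℝ 3 χ) (h0 : ∀ z, z ∉ K → fderiv ℝ χ z = 0) :
    Integrable (fun z => ((fderiv ℝ χ z 1 : ℝ) : ℂ) * (qy z / q z - I / (z - z₁))) ∧
    Integrable (fun z => ((fderiv ℝ χ z I : ℝ) : ℂ) * (qx z / q z - 1 / (z - z₁))) ∧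
    ∫ z, ((fderiv ℝ χ z 1 : ℝ) : ℂ) * (qy z / q z - I / (z - z₁)) =
      ∫ z, ((fderiv ℝ χ z I : ℝ) : ℂ) * (qx z / q z - 1 / (z - z₁)) := by
  set O : Set ℂ := {z | z ∈ U ∧ z ≠ z₁ ∧ q z / (α * (z - z₁)) ∈ slitPlane} with hO
  have hOo : IsOpen O := j1901_open hU h.cont z₁ α hα
  have hKO : K ⊆ O := fun z hz => ⟨hKU hz, hKs z hz⟩
  have hWO : W O q qx qy := j1901_mono h (fun z hz => hz.1)
  set Θ : ℂ × ℂ → ℂ := fun p => log (p.2 / (α * (p.1 - z₁))) with hΘ
  have hcd : ∀ z ∈ O, ContDiffAt ℝ 2 Θ (z, q z) := by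
    intro z hz
    have h1 : ContDiffAt ℂ 2 (fun p : ℂ × ℂ => p.2 / (α * (p.1 - z₁))) (z, q z) := by
      apply ContDiffAt.div contDiffAt_snd
      · exact contDiffAt_const.mul (contDiffAt_fst.sub contDiffAt_const)
      · exact mul_ne_zero hα (sub_ne_zero.2 hz.2.1)
    have h2 := ContDiffAt.comp (𝕜 := ℂ) (g := log) (n := 2) (z, q z) (contDiffAt_log hz.2.2) h1
    exact h2.restrict_scalars ℝ
  have hfd : ∀ z ∈ O, ∀ e a : ℂ, fderiv ℝ Θ (z, q z) (e, a) = a / q z - e / (z - z₁) := by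
    intro z hz e a
    apply j1901_fd_path ((hcd z hz).differentiableAt (by norm_num))
    have hq0 : q z ≠ 0 := by
      intro h0
      have := hz.2.2
      rw [h0, zero_div] at this
      exact zero_notMem_slitPlane this
    have hz0 : z - z₁ ≠ 0 := sub_ne_zero.2 hz.2.1
    have p1 : HasDerivAt (fun s : ℝ => q z + s • a) a 0 := by
      simpa using ((hasDerivAt_id (0:ℝ)).smul_const a).const_add (q z)
    have p2 : HasDerivAt (fun s : ℝ => α * (z + s • e - z₁)) (α * e) 0 := by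
      have : HasDerivAt (fun s : ℝ => z + s • e) e 0 := by
        simpa using ((hasDerivAt_id (0:ℝ)).smul_const e).const_add z
      exact (this.sub_const z₁).const_mul α
    have p3 := p1.div p2 (by simpa using ⟨hα, hz0⟩)
    have p4 := p3.clog_real (by simpa using hz.2.2)
    refine p4.congr_deriv ?_
    simp
    field_simp
  have hW := W.compz hOo hWO Θ hcd
  have t1 := j1901_tsup hK (φ := fun z => ((fderiv ℝ χ z 1 : ℝ) : ℂ))
    (fun z hz => by rw [h0 z hz]; simp)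
  have t2 := j1901_tsup hK (φ := fun z => ((fderiv ℝ χ z I : ℝ) : ℂ))
    (fun z hz => by rw [h0 z hz]; simp)
  have w1 := (hW.weak _ (j1901_cd1 hχ 1) t1.1 (t1.2.trans hKO)).2
  have w2 := (hW.weak _ (j1901_cd1 hχ I) t2.1 (t2.2.trans hKO)).1
  have e1 : (fun z => fderiv ℝ Θ (z, q z) (I, qy z) * ((fderiv ℝ χ z 1 : ℝ) : ℂ)) =
      (fun z => ((fderiv ℝ χ z 1 : ℝ) : ℂ) * (qy z / q z - I / (z - z₁))) := by
    funext z
    by_cases hz : z ∈ K
    · rw [hfd z (hKO hz)]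
      ring
    · rw [h0 z hz]
      simp
  have e2 : (fun z => fderiv ℝ Θ (z, q z) (1, qx z) * ((fderiv ℝ χ z I : ℝ) : ℂ)) =
      (fun z => ((fderiv ℝ χ z I : ℝ) : ℂ) * (qx z / q z - 1 / (z - z₁))) := by
    funext z
    by_cases hz : z ∈ K
    · rw [hfd z (hKO hz)]
      ring
    · rw [h0 z hz]
      simp
  have i1 : Integrable (fun z => ((fderiv ℝ χ z 1 : ℝ) : ℂ) * fderiv ℝ Θ (z, q z) (I, qy z)) :=
    j1901_int hK (hW.memy K hK hKO) (j1901_cd1 hχ 1).continuous.continuousOn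
      (fun z hz => by rw [h0 z hz]; simp)
  have i2 : Integrable (fun z => ((fderiv ℝ χ z I : ℝ) : ℂ) * fderiv ℝ Θ (z, q z) (1, qx z)) :=
    j1901_int hK (hW.memx K hK hKO) (j1901_cd1 hχ I).continuous.continuousOn
      (fun z hz => by rw [h0 z hz]; simp)
  rw [← e1, ← e2]
  refine ⟨by simpa only [mul_comm] using i1, by simpa only [mul_comm] using i2, ?_⟩
  have e3 : (∫ z, Θ (z, q z) * fderiv ℝ (fun z => ((fderiv ℝ χ z 1 : ℝ) : ℂ)) z I) =
      ∫ z, Θ (z, q z) * fderiv ℝ (fun z => ((fderiv ℝ χ z I : ℝ) : ℂ)) z 1 := by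
    congr 1
    funext z
    rw [j1901_fd1 hχ, j1901_fd1 hχ, j1901_symm hχ]
  have := w1.symm.trans (e3.trans w2)
  exact neg_injective this

theorem j1901_inv {U : Set ℂ} {q qx qy : ℂ → ℂ} (hU : IsOpen U) (h : W U q qx qy) (z₁ : ℂ)
    (K : Set ℂ) (hK : IsCompact K) (hKU : K ⊆ U) (hz : z₁ ∉ K)
    (η : ℂ → ℝ) (hη : ContDiff ℝ 3 η) (h0 : ∀ z, z ∉ K → η z = 0) :
    Integrable (fun z => ((fderiv ℝ η z 1 : ℝ) : ℂ) * (1 / (z - z₁))) ∧
    Integrable (fun z => ((fderiv ℝ η z I : ℝ) : ℂ) * (1 / (z - z₁))) ∧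
    I * ∫ z, ((fderiv ℝ η z 1 : ℝ) : ℂ) * (1 / (z - z₁)) =
      ∫ z, ((fderiv ℝ η z I : ℝ) : ℂ) * (1 / (z - z₁)) := by
  set O : Set ℂ := U ∩ {z₁}ᶜ with hO
  have hOo : IsOpen O := hU.inter isOpen_compl_singleton
  have hne : ∀ z ∈ K, z ≠ z₁ := fun z hzK he => hz (he ▸ hzK)
  have hKO : K ⊆ O := fun z hz => ⟨hKU hz, hne z hz⟩
  have hWO : W O q qx qy := j1901_mono h (fun z hz => hz.1)
  set Θ : ℂ × ℂ → ℂ := fun p => 1 / (p.1 - z₁) with hΘ
  have hcd : ∀ z ∈ O, ContDiffAt ℝ 2 Θ (z, q z) := by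
    intro z hz
    have h1 : ContDiffAt ℂ 2 Θ (z, q z) := by
      apply ContDiffAt.div contDiffAt_const
      · exact (contDiffAt_fst.sub contDiffAt_const)
      · exact (sub_ne_zero.2 hz.2)
    exact h1.restrict_scalars ℝ
  have hfd : ∀ z ∈ O, ∀ e a : ℂ, fderiv ℝ Θ (z, q z) (e, a) = - e / (z - z₁) ^ 2 := by
    intro z hz e a
    apply j1901_fd_path ((hcd z hz).differentiableAt (by norm_num))
    have hz0 : z - z₁ ≠ 0 := sub_ne_zero.2 hz.2
    have p2 : HasDerivAt (fun s : ℝ => (z + s • e - z₁)) e 0 := by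
      have : HasDerivAt (fun s : ℝ => z + s • e) e 0 := by
        simpa using ((hasDerivAt_id (0:ℝ)).smul_const e).const_add z
      exact (this.sub_const z₁)
    have p3 := (hasDerivAt_const (0:ℝ) (1:ℂ)).div p2 (by simpa using hz0)
    refine p3.congr_deriv ?_
    simp
  have hW := W.compz hOo hWO Θ hcd
  have hcη : ContDiff ℝ 1 (fun z => ((η z : ℝ) : ℂ)) :=
    ofRealCLM.contDiff.comp (hη.of_le (by norm_num))
  have t1 := j1901_tsup hK (φ := fun z => ((η z : ℝ) : ℂ)) (fun z hz => by rw [h0 z hz]; simp)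
  have w := hW.weak _ hcη t1.1 (t1.2.trans hKO)
  have hfη : ∀ z v, fderiv ℝ (fun z => ((η z : ℝ) : ℂ)) z v = ((fderiv ℝ η z v : ℝ) : ℂ) := by
    intro z v
    have h2 : HasFDerivAt η (fderiv ℝ η z) z := (hη.differentiable (by norm_num) z).hasFDerivAt
    have h4 := ofRealCLM.hasFDerivAt.comp z h2
    have h5 : HasFDerivAt (fun z => ((η z : ℝ) : ℂ)) _ z := h4
    rw [h5.fderiv]
    simp
  have hd0 : ∀ z, z ∉ K → fderiv ℝ η z = 0 := by
    intro z hz
    have : η =ᶠ[𝓝 z] fun _ => 0 := by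
      filter_upwards [hK.isClosed.isOpen_compl.mem_nhds hz] with y hy
      exact h0 y hy
    rw [this.fderiv_eq]
    simp
  have hcv : ContinuousOn (fun z => 1 / (z - z₁)) K := by
    apply continuousOn_const.div (by fun_prop)
    intro z hz
    exact sub_ne_zero.2 (hne z hz)
  have hint : ∀ v : ℂ, Integrable (fun z => ((fderiv ℝ η z v : ℝ) : ℂ) * (1 / (z - z₁))) := by
    intro v
    apply j1901_int0 (K := K)
    · exact ((j1901_cd1 hη v).continuous.continuousOn.mul hcv).integrableOn_compact hK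
    · intro z hz
      rw [hd0 z hz]
      simp
  refine ⟨hint 1, hint I, ?_⟩
  have w1 := w.1
  have w2 := w.2
  simp only [hfη] at w1 w2
  have e1 : (∫ z, ((fderiv ℝ η z 1 : ℝ) : ℂ) * (1 / (z - z₁))) =
      ∫ z, Θ (z, q z) * ((fderiv ℝ η z 1 : ℝ) : ℂ) := by
    congr 1
    funext z
    simp only [Θ]
    ring
  have e2 : (∫ z, ((fderiv ℝ η z I : ℝ) : ℂ) * (1 / (z - z₁))) =
      ∫ z, Θ (z, q z) * ((fderiv ℝ η z I : ℝ) : ℂ) := by
    congr 1
    funext z
    simp only [Θ]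
    ring
  rw [e1, e2, w1, w2, mul_neg, ← integral_const_mul]
  congr 2
  funext z
  by_cases hz : z ∈ K
  · rw [hfd z (hKO hz), hfd z (hKO hz)]
    ring
  · rw [h0 z hz]
    simp


theorem j1901_bump {c : ℂ} (f : ContDiffBump c) (z : ℂ)
    (h : z ∉ closedBall c f.rOut \ ball c f.rIn) : fderiv ℝ f z = 0 := by
  by_cases h1 : z ∈ ball c f.rIn
  · have h2 := f.eventuallyEq_one_of_mem_ball h1
    rw [h2.fderiv_eq]
    exact fderiv_const_apply _
  · have h3 : z ∉ closedBall c f.rOut := fun h3 => h ⟨h3, h1⟩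
    have h4 : (f : ℂ → ℝ) =ᶠ[𝓝 z] fun _ => 0 := by
      filter_upwards [isClosed_closedBall.isOpen_compl.mem_nhds h3] with y hy
      apply f.zero_of_le_dist
      rw [mem_compl_iff, mem_closedBall, not_le] at hy
      exact hy.le
    rw [h4.fderiv_eq]
    exact fderiv_const_apply _

/-- geometric data for the contradiction argument -/
theorem j1901_path {q : ℂ → ℂ} {U : Set ℂ} (hU : IsOpen U) (hq : ContinuousOn q U) (c₀ : ℂ)
    (ρ₀ : ℝ) (hB : closedBall c₀ ρ₀ ⊆ U) (z₁ z₂ : ℂ) (h2 : z₂ ∈ ball c₀ ρ₀) (hne : z₂ ≠ z₁)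
    (hq0 : q z₂ = 0) (r₁ : ℝ) (hr₁ : r₁ < dist z₂ z₁) (t₁ t₂ : ℝ) (ht₁ : 0 < t₁) (ht : t₁ < t₂)
    (hS : ∀ z ∈ sphere c₀ ρ₀, t₂ ≤ (q z).re * (q z).re + (q z).im * (q z).im)
    (hV : ∀ z ∈ ball c₀ ρ₀, r₁ < dist z z₁ → t₁ < (q z).re * (q z).re + (q z).im * (q z).im →
      (q z).re * (q z).re + (q z).im * (q z).im < t₂ → ∀ᶠ y in 𝓝 z, q y = q z) : False := by
  set N : ℂ → ℝ := fun z => (q z).re * (q z).re + (q z).im * (q z).im with hN
  have hNc : ContinuousOn N U :=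
    ((continuous_re.comp_continuousOn hq).mul (continuous_re.comp_continuousOn hq)).add
      ((continuous_im.comp_continuousOn hq).mul (continuous_im.comp_continuousOn hq))
  set γ : ℝ → ℂ := fun s => z₂ + s • (z₂ - z₁) with hγ
  have hγc : Continuous γ := by fun_prop
  have hd : 0 < dist z₂ z₁ := dist_pos.2 hne
  -- the exit time
  set S := 2 * ρ₀ / dist z₂ z₁ with hS'
  have hρ : 0 < ρ₀ := pos_of_mem_ball h2
  have hS0 : 0 ≤ S := by positivity
  have hex : ∃ s₁ ∈ Icc 0 S, dist (γ s₁) c₀ = ρ₀ := by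
    have h3 : ContinuousOn (fun s => dist (γ s) c₀) (Icc 0 S) :=
      (hγc.dist continuous_const).continuousOn
    apply intermediate_value_Icc hS0 h3
    constructor
    · simp only [γ, zero_smul, add_zero]
      exact (mem_ball.1 h2).le
    · have h4 : dist (γ S) z₂ = 2 * ρ₀ := by
        simp only [γ, dist_eq_norm, add_sub_cancel_left, norm_smul, Real.norm_eq_abs,
          abs_of_nonneg hS0]
        rw [← dist_eq_norm, hS']
        field_simp
      have h5 := dist_triangle_right (γ S) z₂ c₀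
      have h6 := mem_ball.1 h2
      linarith
  obtain ⟨s₁, hs₁, hs₁'⟩ := hex
  have hγB : ∀ s ∈ Icc 0 s₁, γ s ∈ closedBall c₀ ρ₀ := by
    intro s hs
    rcases hs₁.1.eq_or_lt with h0 | h0
    · have : s = s₁ := le_antisymm hs.2 (h0 ▸ hs.1)
      rw [this, mem_closedBall, hs₁']
    · have hconv := convex_closedBall c₀ ρ₀
      have hseg := hconv (ball_subset_closedBall h2)
        (show γ s₁ ∈ closedBall c₀ ρ₀ by rw [mem_closedBall, hs₁'])
        (a := 1 - s / s₁) (b := s / s₁) (by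
          rw [sub_nonneg, div_le_one h0]
          exact hs.2) (by exact div_nonneg hs.1 h0.le) (by ring)
      convert hseg using 1
      simp only [γ, smul_add, smul_smul, div_mul_cancel₀ _ h0.ne']
      module
  have hγr : ∀ s : ℝ, 0 ≤ s → r₁ < dist (γ s) z₁ := by
    intro s hs
    have h3 : γ s - z₁ = (1 + s) • (z₂ - z₁) := by
      simp only [γ]
      module
    rw [dist_eq_norm, h3, norm_smul, Real.norm_eq_abs, abs_of_nonneg (by linarith),
      ← dist_eq_norm]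
    nlinarith
  set c' := (t₁ + t₂) / 2 with hc'
  have key : Icc 0 s₁ ⊆ {s | N (γ s) ≤ c'} := by
    apply IsClosed.Icc_subset_of_forall_exists_gt
    · have h3 : ContinuousOn (fun s => N (γ s)) (Icc 0 s₁) :=
        hNc.comp hγc.continuousOn (fun s hs => hB (hγB s hs))
      have h4 := h3.preimage_isClosed_of_isClosed isClosed_Icc (isClosed_Iic (a := c'))
      rw [inter_comm]
      exact h4
    · show N (γ 0) ≤ c'
      simp only [γ, zero_smul, add_zero, N, hq0]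
      simp
      linarith
    · intro x hx y hy
      have hxN : N (γ x) ≤ c' := hx.1
      have hx2 : γ x ∈ ball c₀ ρ₀ := by
        have h3 := hγB x ⟨hx.2.1, hx.2.2.le⟩
        rw [mem_closedBall] at h3
        rw [mem_ball]
        refine lt_of_le_of_ne h3 fun h4 => ?_
        have h5 := hS (γ x) h4
        have : N (γ x) = (q (γ x)).re * (q (γ x)).re + (q (γ x)).im * (q (γ x)).im := rfl
        linarith
      have hev : ∀ᶠ s in 𝓝 x, N (γ s) ≤ c' := by
        rcases hxN.lt_or_eq with h3 | h3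
        · have h4 : ContinuousAt (fun s => N (γ s)) x := by
            apply ContinuousAt.comp (g := N)
            · exact hNc.continuousAt (hU.mem_nhds (hB (ball_subset_closedBall hx2)))
            · exact hγc.continuousAt
          exact (h4.eventually (gt_mem_nhds h3)).mono fun s hs => hs.le
        · have h4 := hV (γ x) hx2 (hγr x hx.2.1) (by
            show t₁ < N (γ x)
            linarith) (by
            show N (γ x) < t₂
            linarith)
          have h5 := hγc.continuousAt.eventually h4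
          filter_upwards [h5] with s hs
          have h6 : N (γ s) = N (γ x) := by
            simp only [N, hs]
          linarith
      have h7 : ∀ᶠ s in 𝓝[>] x, N (γ s) ≤ c' := hev.filter_mono nhdsWithin_le_nhds
      have h8 : ∀ᶠ s in 𝓝[>] x, s ∈ Ioc x y := Ioc_mem_nhdsGT hy
      obtain ⟨s, hs⟩ := (h7.and h8).exists
      exact ⟨s, hs⟩
  have h9 : N (γ s₁) ≤ c' := key ⟨hs₁.1, le_rfl⟩
  have h10 : t₂ ≤ N (γ s₁) := hS (γ s₁) hs₁'
  linarith


theorem j1901_sum {F1 F2 F3 F4 F5 F6 : ℂ → ℂ} (G : ℂ → ℂ)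
    (hG : G = fun z => ((F1 z - F2 z) - (F3 z - F4 z)) + (I * F5 z - F6 z))
    (i1 : Integrable F1) (i2 : Integrable F2) (i3 : Integrable F3) (i4 : Integrable F4)
    (i5 : Integrable F5) (i6 : Integrable F6) (e1 : ∫ z, F1 z = ∫ z, F2 z)
    (e2 : ∫ z, F3 z = ∫ z, F4 z) (e3 : I * ∫ z, F5 z = ∫ z, F6 z) : ∫ z, (G z).im = 0 := by
  have j1 : Integrable (fun z => F1 z - F2 z) := i1.sub i2
  have j2 : Integrable (fun z => F3 z - F4 z) := i3.sub i4
  have j3 : Integrable (fun z => (F1 z - F2 z) - (F3 z - F4 z)) := j1.sub j2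
  have j5 : Integrable (fun z => I * F5 z) := i5.const_mul I
  have j4 : Integrable (fun z => I * F5 z - F6 z) := j5.sub i6
  have hGi : Integrable G := by
    rw [hG]
    exact j3.add j4
  have hG0 : ∫ z, G z = 0 := by
    rw [hG, integral_add j3 j4, integral_sub j1 j2, integral_sub i1 i2, integral_sub i3 i4,
      integral_sub j5 i6, integral_const_mul, e1, e2, e3]
    ring
  have := integral_im hGi
  rw [hG0] at this
  simpa using this

theorem j1901_lc {U : Set ℂ} {q qx qy : ℂ → ℂ} {κ : ℝ} (hU : IsOpen U) (h : W U q qx qy) (c₀ : ℂ)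
    (ρ₀ : ℝ) (hB : closedBall c₀ ρ₀ ⊆ U) (z₁ : ℂ) (r₁ t₁ t₂ : ℝ) (k : ℝ → ℝ)
    (hkpos : ∀ t, t₁ < t → t < t₂ → 0 < k t)
    (hQ' : ∀ᵐ z, z ∈ U → ‖qx z‖ ^ 2 + ‖qy z‖ ^ 2 ≤ κ * Jac qx qy z) (η : ℂ → ℝ)
    (hη : ∀ y ∈ ball c₀ ρ₀, r₁ < dist y z₁ →
      (q y).re * (q y).re + (q y).im * (q y).im < t₂ → η y = 1)
    (hzero : (fun z => η z * (2 * k ((q z).re * (q z).re + (q z).im * (q z).im) * Jac qx qy z))
      =ᵐ[volume] 0) :
    ∀ z ∈ ball c₀ ρ₀, r₁ < dist z z₁ → t₁ < (q z).re * (q z).re + (q z).im * (q z).im →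
      (q z).re * (q z).re + (q z).im * (q z).im < t₂ → ∀ᶠ y in 𝓝 z, q y = q z := by
  intro z hz hzr hz1 hz2
  set N : ℂ → ℝ := fun z => (q z).re * (q z).re + (q z).im * (q z).im with hN
  have hNc : ContinuousOn N U :=
    ((continuous_re.comp_continuousOn h.cont).mul (continuous_re.comp_continuousOn h.cont)).add
      ((continuous_im.comp_continuousOn h.cont).mul (continuous_im.comp_continuousOn h.cont))
  have hNz : ContinuousAt N z := hNc.continuousAt (hU.mem_nhds (hB (ball_subset_closedBall hz)))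
  have hev : ∀ᶠ y in 𝓝 z, (y ∈ ball c₀ ρ₀ ∧ r₁ < dist y z₁) ∧ t₁ < N y ∧ N y < t₂ := by
    refine Filter.Eventually.and (Filter.Eventually.and (isOpen_ball.mem_nhds hz) ?_)
      (Filter.Eventually.and ?_ ?_)
    · have : ContinuousAt (fun y => dist y z₁) z := by fun_prop
      exact this.eventually (lt_mem_nhds hzr)
    · exact hNz.eventually (lt_mem_nhds hz1)
    · exact hNz.eventually (gt_mem_nhds hz2)
  obtain ⟨r, hr0, hr⟩ := Metric.eventually_nhds_iff_ball.1 hev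
  have hJ : ∀ᵐ y, y ∈ ball z r → qx y = 0 ∧ qy y = 0 := by
    filter_upwards [hzero, hQ'] with y hy1 hy2 hyr
    obtain ⟨⟨hyB, hyr⟩, hyN1, hyN2⟩ := hr y hyr
    have hηy : η y = 1 := hη y hyB hyr hyN2
    rw [hηy, one_mul] at hy1
    have hkp := hkpos (N y) hyN1 hyN2
    have hJ0 : Jac qx qy y = 0 := by
      rcases mul_eq_zero.1 hy1 with h5 | h5
      · exfalso
        have h55 : 2 * k (N y) = 0 := h5
        linarith
      · exact h5
    have h6 := hy2 (hB (ball_subset_closedBall hyB))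
    rw [hJ0, mul_zero] at h6
    have h7 : ‖qx y‖ ^ 2 = 0 := le_antisymm (by linarith [sq_nonneg ‖qy y‖]) (sq_nonneg _)
    have h8 : ‖qy y‖ ^ 2 = 0 := le_antisymm (by linarith [sq_nonneg ‖qx y‖]) (sq_nonneg _)
    exact ⟨norm_eq_zero.1 (pow_eq_zero_iff (two_ne_zero) |>.1 h7),
      norm_eq_zero.1 (pow_eq_zero_iff (two_ne_zero) |>.1 h8)⟩
  have hcb := h.const_ball z r (fun y hy => hB (ball_subset_closedBall (hr y hy).1.1))
    ((ae_restrict_iff' measurableSet_ball).2 (hJ.mono fun y hy hyr => (hy hyr).1))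
    ((ae_restrict_iff' measurableSet_ball).2 (hJ.mono fun y hy hyr => (hy hyr).2))
  exact Filter.eventually_of_mem (ball_mem_nhds z hr0) hcb

/- TARGET -/
theorem inj {U : Set ℂ} {q qx qy : ℂ → ℂ} {κ : ℝ} (hκ : 0 < κ) (hU : IsOpen U) (h : W U q qx qy)
    (hQ : QR κ U qx qy) (c₀ : ℂ) (ρ₀ : ℝ) (hB : closedBall c₀ ρ₀ ⊆ U) (z₁ : ℂ)
    (h1 : z₁ ∈ ball c₀ ρ₀) (α : ℂ) (hα : α ≠ 0)
    (hS : ∀ z ∈ sphere c₀ ρ₀, q z / (α * (z - z₁)) ∈ slitPlane) (α₁ : ℂ) (hα₁ : α₁ ≠ 0)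
    (h0 : ∀ᶠ z in 𝓝[≠] z₁, q z / (α₁ * (z - z₁)) ∈ slitPlane) :
    ∀ z ∈ ball c₀ ρ₀, z ≠ z₁ → q z ≠ 0 := by
  intro z₂ hz₂ hne hq0
  have hρ : 0 < ρ₀ := pos_of_mem_ball h1
  set T : Set ℂ := {z | z ∈ U ∧ z ≠ z₁ ∧ q z / (α * (z - z₁)) ∈ slitPlane} with hT
  have hTo : IsOpen T := j1901_open hU h.cont z₁ α hα
  have hST : ∀ z ∈ sphere c₀ ρ₀, z ∈ T := by
    intro z hz
    refine ⟨hB (sphere_subset_closedBall hz), ?_, hS z hz⟩
    rintro rfl
    rw [mem_sphere] at hz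
    rw [mem_ball] at h1
    linarith
  have hK0 : IsCompact (closedBall c₀ ρ₀ \ T) := (isCompact_closedBall _ _).diff hTo
  have hz1K : z₁ ∈ closedBall c₀ ρ₀ \ T := ⟨ball_subset_closedBall h1, fun hT1 => hT1.2.1 rfl⟩
  have hz2K : z₂ ∈ closedBall c₀ ρ₀ \ T := by
    refine ⟨ball_subset_closedBall hz₂, fun hT1 => ?_⟩
    have := hT1.2.2
    rw [hq0, zero_div] at this
    exact zero_notMem_slitPlane this
  obtain ⟨m, hm, hmax⟩ := hK0.exists_isMaxOn ⟨z₁, hz1K⟩ (f := fun z => dist z c₀)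
    (by fun_prop)
  have hmρ : dist m c₀ < ρ₀ := by
    refine lt_of_le_of_ne (mem_closedBall.1 hm.1) fun he => hm.2 (hST m he)
  have hmax' : ∀ z ∈ closedBall c₀ ρ₀ \ T, dist z c₀ ≤ dist m c₀ := fun z hz => hmax hz
  have hm0 : 0 ≤ dist m c₀ := dist_nonneg
  obtain ⟨rI, hrI1, hrI2⟩ := exists_between hmρ
  obtain ⟨rO, hrO1, hrO2⟩ := exists_between hrI2
  have hrI0 : 0 < rI := by linarith
  have hz1I : dist z₁ c₀ < rI := (hmax' z₁ hz1K).trans_lt hrI1
  set A₀ : Set ℂ := closedBall c₀ ρ₀ \ ball c₀ rI with hA₀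
  have hA₀c : IsCompact A₀ := (isCompact_closedBall _ _).diff isOpen_ball
  have hA₀T : ∀ z ∈ A₀, z ∈ T := by
    intro z hz
    by_contra hzT
    have := hmax' z ⟨hz.1, hzT⟩
    apply hz.2
    rw [mem_ball]
    linarith
  -- the small radius
  rw [eventually_nhdsWithin_iff, Metric.eventually_nhds_iff] at h0
  obtain ⟨ε, hε, h0⟩ := h0
  have hd : 0 < dist z₂ z₁ := dist_pos.2 hne
  obtain ⟨r₁, hr₁0, hr₁⟩ := exists_between (show (0:ℝ) < min (min ε (rI - dist z₁ c₀)) (dist z₂ z₁) from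
    lt_min (lt_min hε (by linarith)) hd)
  rw [lt_min_iff, lt_min_iff] at hr₁
  obtain ⟨⟨hr₁ε, hr₁I⟩, hr₁d⟩ := hr₁
  have hsmall : closedBall z₁ r₁ ⊆ ball c₀ rI := by
    intro z hz
    rw [mem_closedBall] at hz
    rw [mem_ball]
    have := dist_triangle z z₁ c₀
    linarith
  set A₁ : Set ℂ := closedBall z₁ r₁ \ ball z₁ (r₁ / 2) with hA₁
  have hA₁c : IsCompact A₁ := (isCompact_closedBall _ _).diff isOpen_ball
  have hA₁s : ∀ z ∈ A₁, z ≠ z₁ ∧ q z / (α₁ * (z - z₁)) ∈ slitPlane := by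
    intro z hz
    have hzne : z ≠ z₁ := by
      rintro rfl
      exact hz.2 (mem_ball_self (by linarith))
    exact ⟨hzne, h0 (lt_of_le_of_lt (mem_closedBall.1 hz.1) hr₁ε) hzne⟩
  have hIρ : ball c₀ rI ⊆ closedBall c₀ ρ₀ := fun z hz => by
    rw [mem_ball] at hz
    rw [mem_closedBall]
    linarith
  have hA₀U : A₀ ⊆ U := fun z hz => hB hz.1
  have hA₁U : A₁ ⊆ U := fun z hz => hB (hIρ (hsmall hz.1))
  set N : ℂ → ℝ := fun z => (q z).re * (q z).re + (q z).im * (q z).im with hN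
  have hNc : ContinuousOn N U :=
    ((continuous_re.comp_continuousOn h.cont).mul (continuous_re.comp_continuousOn h.cont)).add
      ((continuous_im.comp_continuousOn h.cont).mul (continuous_im.comp_continuousOn h.cont))
  have hNn : ∀ z, N z = normSq (q z) := fun z => by simp only [N, normSq_apply]
  have hKc : IsCompact (A₀ ∪ A₁) := hA₀c.union hA₁c
  have hKU : A₀ ∪ A₁ ⊆ U := union_subset hA₀U hA₁U
  have hKne : (A₀ ∪ A₁).Nonempty := by
    refine ⟨z₁ + (r₁ : ℂ), Or.inr ⟨?_, ?_⟩⟩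
    · rw [mem_closedBall, dist_eq_norm, add_sub_cancel_left, norm_real, Real.norm_eq_abs,
        abs_of_pos hr₁0]
    · rw [mem_ball, dist_eq_norm, add_sub_cancel_left, norm_real, Real.norm_eq_abs,
        abs_of_pos hr₁0]
      linarith
  obtain ⟨m2, hm2, hmin⟩ := hKc.exists_isMinOn hKne (hNc.mono hKU)
  have hdiv0 : ∀ {a b : ℂ}, a / b ∈ slitPlane → a ≠ 0 := by
    rintro a b hab rfl
    rw [zero_div] at hab
    exact zero_notMem_slitPlane hab
  have hKq : ∀ z ∈ A₀ ∪ A₁, q z ≠ 0 := by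
    rintro z (hz | hz)
    · exact hdiv0 (hA₀T z hz).2.2
    · exact hdiv0 (hA₁s z hz).2
  set t₂ := N m2 with ht₂
  have ht₂0 : 0 < t₂ := by
    rw [ht₂, hNn]
    exact normSq_pos.2 (hKq m2 hm2)
  have hKN : ∀ z ∈ A₀ ∪ A₁, t₂ ≤ N z := fun z hz => hmin hz
  obtain ⟨t₁, ht₁0, ht₁⟩ := exists_between ht₂0
  obtain ⟨β, k, c, hβ, hk, hk0, hkpos, hβc⟩ := j1901_profile t₁ t₂ ht₁0
  -- bumps
  let ηS : ContDiffBump c₀ := ⟨rI, rO, hrI0, hrO1⟩
  let ηZ : ContDiffBump z₁ := ⟨r₁ / 2, r₁, by linarith, by linarith⟩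
  have hSd : ∀ z, z ∉ A₀ → fderiv ℝ ηS z = 0 := by
    intro z hz
    apply j1901_bump
    intro hz2
    apply hz
    refine ⟨?_, hz2.2⟩
    have h3 : dist z c₀ ≤ rO := hz2.1
    rw [mem_closedBall]
    linarith
  have hZd : ∀ z, z ∉ A₁ → fderiv ℝ ηZ z = 0 := fun z hz => j1901_bump ηZ z hz
  set η : ℂ → ℝ := fun z => ηS z - ηZ z with hη
  have hηcd : ContDiff ℝ 3 η := (ηS.contDiff (n := 3)).sub (ηZ.contDiff (n := 3))
  have hηc : Continuous η := hηcd.continuous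
  have hηd : ∀ z, fderiv ℝ η z = fderiv ℝ ηS z - fderiv ℝ ηZ z := by
    intro z
    exact fderiv_sub ((ηS.contDiff (n := 1)).differentiable (by norm_num) z)
      ((ηZ.contDiff (n := 1)).differentiable (by norm_num) z)
  have hS1 : ∀ z ∈ ball c₀ rI, ηS z = 1 := fun z hz =>
    ηS.one_of_mem_closedBall (ball_subset_closedBall hz)
  have hZ0 : ∀ z, z ∉ closedBall z₁ r₁ → ηZ z = 0 := fun z hz => by
    apply ηZ.zero_of_le_dist
    rw [mem_closedBall, not_le] at hz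
    exact hz.le
  have hη0 : ∀ z, 0 ≤ η z := by
    intro z
    simp only [η]
    by_cases hz : z ∈ closedBall z₁ r₁
    · rw [hS1 z (hsmall hz)]
      linarith [ηZ.le_one (x := z)]
    · rw [hZ0 z hz, sub_zero]
      exact ηS.nonneg
  set Kη : Set ℂ := closedBall c₀ rO \ ball z₁ (r₁ / 2) with hKη
  have hKηc : IsCompact Kη := (isCompact_closedBall _ _).diff isOpen_ball
  have hKηU : Kη ⊆ U := by
    intro z hz
    apply hB
    have := mem_closedBall.1 hz.1
    rw [mem_closedBall]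
    linarith
  have hη00 : ∀ z, z ∉ Kη → η z = 0 := by
    intro z hz
    simp only [η]
    by_cases hz1 : z ∈ ball z₁ (r₁ / 2)
    · rw [hS1 z (hsmall (ball_subset_closedBall (ball_subset_ball (by linarith) hz1))),
        ηZ.one_of_mem_closedBall (ball_subset_closedBall hz1), sub_self]
    · have hz2 : z ∉ closedBall c₀ rO := fun h2 => hz ⟨h2, hz1⟩
      rw [mem_closedBall, not_le] at hz2
      have h3 : ηS z = 0 := ηS.zero_of_le_dist hz2.le
      have h4 : z ∉ closedBall z₁ r₁ := by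
        intro h4
        have := mem_ball.1 (hsmall h4)
        linarith
      rw [h3, hZ0 z h4, sub_self]
  have hηd0 : ∀ z, z ∉ A₀ ∪ A₁ → fderiv ℝ η z = 0 := by
    intro z hz
    rw [hηd z, hSd z (fun h5 => hz (Or.inl h5)), hZd z (fun h5 => hz (Or.inr h5)), sub_zero]
  -- the three closed forms
  obtain ⟨iS1, iS2, eS⟩ := j1901_log hU h z₁ α hα A₀ hA₀c hA₀U (fun z hz => (hA₀T z hz).2)
    ηS (ηS.contDiff (n := 3)) hSd
  obtain ⟨iZ1, iZ2, eZ⟩ := j1901_log hU h z₁ α₁ hα₁ A₁ hA₁c hA₁U hA₁s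
    ηZ (ηZ.contDiff (n := 3)) hZd
  obtain ⟨iV1, iV2, eV⟩ := j1901_inv hU h z₁ Kη hKηc hKηU
    (fun hz => hz.2 (mem_ball_self (by linarith))) η hηcd hη00
  set G : ℂ → ℂ := fun z => ((fderiv ℝ η z 1 : ℝ) : ℂ) * (qy z / q z) -
    ((fderiv ℝ η z I : ℝ) : ℂ) * (qx z / q z) with hG
  have hGeq : G = fun z => ((((fderiv ℝ ηS z 1 : ℝ) : ℂ) * (qy z / q z - I / (z - z₁)) -
      ((fderiv ℝ ηS z I : ℝ) : ℂ) * (qx z / q z - 1 / (z - z₁))) -
      (((fderiv ℝ ηZ z 1 : ℝ) : ℂ) * (qy z / q z - I / (z - z₁)) -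
      ((fderiv ℝ ηZ z I : ℝ) : ℂ) * (qx z / q z - 1 / (z - z₁)))) +
      (I * (((fderiv ℝ η z 1 : ℝ) : ℂ) * (1 / (z - z₁))) -
        ((fderiv ℝ η z I : ℝ) : ℂ) * (1 / (z - z₁))) := by
    funext z
    simp only [G, hηd z, sub_apply, ofReal_sub]
    ring
  have hGim : ∫ z, (G z).im = 0 :=
    j1901_sum G hGeq iS1 iS2 iZ1 iZ2 iV1 iV2 eS eZ eV
  -- Stokes
  have hWA := W.compz hU h (j1901A β) (fun z _ => (j1901_A_cd hβ).contDiffAt)
  have hWB := W.compz hU h (j1901B β) (fun z _ => (j1901_B_cd hβ).contDiffAt)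
  have hts := j1901_tsup hKηc hη00
  have hη2 : ContDiff ℝ 2 η := hηcd.of_le (by norm_num)
  have sA := hWA.stokes η hη2 hts.1 (hts.2.trans hKηU)
  have sB := hWB.stokes η hη2 hts.1 (hts.2.trans hKηU)
  have iLA := j1901_intL hWA hKηc hKηU hηc hη00
  have iLB := j1901_intL hWB hKηc hKηU hηc hη00
  have hdc : ∀ v : ℂ, Continuous (fun z => fderiv ℝ η z v) := fun v =>
    (hηcd.continuous_fderiv (by norm_num)).clm_apply continuous_const
  have iRA := j1901_intRt hWA hKc hKU (hdc 1) (hdc I)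
    (fun z hz => by rw [hηd0 z hz]; simp) (fun z hz => by rw [hηd0 z hz]; simp)
  have iRB := j1901_intRt hWB hKc hKU (hdc 1) (hdc I)
    (fun z hz => by rw [hηd0 z hz]; simp) (fun z hz => by rw [hηd0 z hz]; simp)
  have hsum := congrArg₂ (· + ·) sA sB
  beta_reduce at hsum
  rw [← integral_add iLA iLB, ← neg_add, ← integral_add iRA iRB] at hsum
  have hL : ∀ z, η z * ((fderiv ℝ (j1901A β) (z, q z) (1, qx z)).re *
      (fderiv ℝ (j1901A β) (z, q z) (I, qy z)).im -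
      (fderiv ℝ (j1901A β) (z, q z) (I, qy z)).re *
      (fderiv ℝ (j1901A β) (z, q z) (1, qx z)).im) +
      η z * ((fderiv ℝ (j1901B β) (z, q z) (1, qx z)).re *
      (fderiv ℝ (j1901B β) (z, q z) (I, qy z)).im -
      (fderiv ℝ (j1901B β) (z, q z) (I, qy z)).re *
      (fderiv ℝ (j1901B β) (z, q z) (1, qx z)).im) =
      η z * (2 * k (N z) * Jac qx qy z) := by
    intro z
    rw [j1901_A_fd hβ, j1901_A_fd hβ, j1901_B_fd hβ, j1901_B_fd hβ, hk (N z)]
    simp only [add_re, add_im, mul_re, mul_im, ofReal_re, ofReal_im, I_re, I_im, Jac, N]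
    ring
  have hR : ∀ z, (j1901A β (z, q z)).re * (fderiv ℝ η z 1 *
      (fderiv ℝ (j1901A β) (z, q z) (I, qy z)).im -
      fderiv ℝ η z I * (fderiv ℝ (j1901A β) (z, q z) (1, qx z)).im) +
      (j1901B β (z, q z)).re * (fderiv ℝ η z 1 *
      (fderiv ℝ (j1901B β) (z, q z) (I, qy z)).im -
      fderiv ℝ η z I * (fderiv ℝ (j1901B β) (z, q z) (1, qx z)).im) =
      c * (G z).im := by
    intro z
    rw [j1901_A_fd hβ, j1901_A_fd hβ, j1901_B_fd hβ, j1901_B_fd hβ]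
    by_cases hz : z ∈ A₀ ∪ A₁
    · have hNz := hKN z hz
      have hNz0 : N z ≠ 0 := by linarith
      have hb := hβc (N z) hNz
      simp only [N] at hb hNz0
      simp only [add_re, add_im, mul_re, mul_im, ofReal_re, ofReal_im, I_re, I_im, j1901A, j1901B,
        G, sub_im, Complex.div_im, Complex.div_re, normSq_apply, hb]
      field_simp
      ring
    · rw [hηd0 z hz]
      simp only [G, hηd0 z hz]
      simp
  simp only [hL, hR] at hsum
  rw [integral_const_mul, hGim, mul_zero, neg_zero] at hsum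
  have hLi : Integrable (fun z => η z * (2 * k (N z) * Jac qx qy z)) := by
    have := iLA.add iLB
    refine this.congr (Filter.Eventually.of_forall fun z => ?_)
    exact hL z
  have hQ' : ∀ᵐ z, z ∈ U → ‖qx z‖ ^ 2 + ‖qy z‖ ^ 2 ≤ κ * Jac qx qy z :=
    (ae_restrict_iff' hU.measurableSet).1 hQ
  have hnn : 0 ≤ᵐ[volume] (fun z => η z * (2 * k (N z) * Jac qx qy z)) := by
    filter_upwards [hQ'] with z hz
    by_cases hzU : z ∈ U
    · have h3 := hz hzU
      have h4 : 0 ≤ Jac qx qy z := by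
        by_contra h5
        push Not at h5
        nlinarith [sq_nonneg ‖qx z‖, sq_nonneg ‖qy z‖]
      exact mul_nonneg (hη0 z) (mul_nonneg (mul_nonneg zero_le_two (hk0 _)) h4)
    · have h5 : η z = 0 := hη00 z (fun h6 => hzU (hKηU h6))
      simp [h5]
  have hzero := (integral_eq_zero_iff_of_nonneg_ae hnn hLi).1 hsum
  have hV := j1901_lc hU h c₀ ρ₀ hB z₁ r₁ t₁ t₂ k hkpos hQ' η (by
    intro y hy1 hy2 hy3
    have hyI : y ∈ ball c₀ rI := by
      by_contra hyI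
      have := hKN y (Or.inl ⟨ball_subset_closedBall hy1, hyI⟩)
      simp only [N] at this
      linarith
    simp only [η]
    rw [hS1 y hyI, hZ0 y (by rw [mem_closedBall, not_le]; exact hy2), sub_zero]) hzero
  refine j1901_path hU h.cont c₀ ρ₀ hB z₁ z₂ hz₂ hne hq0 r₁ hr₁d t₁ t₂ ht₁0 ht₁ ?_ hV
  intro z hz
  refine hKN z (Or.inl ⟨sphere_subset_closedBall hz, ?_⟩)
  rw [mem_sphere] at hz
  rw [mem_ball, hz]
  linarith

end Pool.Agent.Helper366.IV
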