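import Pool.Agent.Helper366.IV.Sub
import Pool.Agent.Helper366.IV.Inj

set_option autoImplicit false
open MeasureTheory Metric Set Filter Topology Complex
open scoped ContDiff ENNReal ComplexConjugate

namespace Pool.Agent.Helper366.IV

theorem slit_mul {a b : ℂ} (ha : 0 < a.re) (hb : 0 < b.re) : a * b ∈ slitPlane := by
  rw [Complex.mem_slitPlane_iff]
  by_cases h : (a * b).im = 0
  · left
    rw [Complex.mul_re]
    rw [Complex.mul_im] at h
    -- a.re b.im = - a.im b.re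
    have h1 : a.im * b.re = - (a.re * b.im) := by linarith
    have h2 : (a.re * b.re - a.im * b.im) * b.re = a.re * (b.re ^ 2 + b.im ^ 2) := by
      have : a.im * b.im * b.re = -(a.re * b.im) * b.im := by
        rw [← h1]; ring
      nlinarith
    have h3 : 0 < a.re * (b.re ^ 2 + b.im ^ 2) := by positivity
    rw [← h2] at h3
    exact (pos_iff_pos_of_mul_pos h3).mpr hb
  · right; exact h

theorem re_pos_of_norm {a : ℂ} (h : ‖a - 1‖ < 1) : 0 < a.re := by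
  have := Complex.abs_re_le_norm (a - 1)
  rw [Complex.sub_re, Complex.one_re] at this
  have := abs_lt.mp (this.trans_lt h)
  linarith

theorem slit_of_norm {a : ℂ} (h : ‖a - 1‖ < 1) : a ∈ slitPlane :=
  Or.inl (re_pos_of_norm h)

theorem Loc.phi_lip {U : Set ℂ} {f fx fy Φ H : ℂ → ℂ} {m : ℝ} (L : Loc U f fx fy Φ H m)
    (z z' : ℂ) (hz : z ∈ U) (hz' : z' ∈ U) : ‖Φ z - Φ z'‖ ≤ m ^ 2 * ‖z - z'‖ :=
  L.conv.norm_image_sub_le_of_norm_hasDerivWithin_le
    (fun w hw => (L.hΦ w hw).hasDerivWithinAt) L.hm hz' hz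

theorem Loc.contOn_phi {U : Set ℂ} {f fx fy Φ H : ℂ → ℂ} {m : ℝ} (L : Loc U f fx fy Φ H m) :
    ContinuousOn Φ U := fun z hz => (L.hΦ z hz).continuousAt.continuousWithinAt

theorem Loc.contOn_inc {U : Set ℂ} {f fx fy Φ H : ℂ → ℂ} {m : ℝ} (L : Loc U f fx fy Φ H m)
    (F z' : ℂ) : ContinuousOn (fun z => inc Φ F z z') U := by
  unfold inc
  apply ContinuousOn.add
  · fun_prop
  · apply ContinuousOn.div_const
    exact Complex.continuous_conj.comp_continuousOn (L.contOn_phi.sub continuousOn_const)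

theorem phi_little {Φ : ℂ → ℂ} {h z' : ℂ} (hΦ : HasDerivAt Φ h z') (ε : ℝ) (hε : 0 < ε) :
    ∀ᶠ z in 𝓝 z', ‖Φ z - Φ z' - h * (z - z')‖ ≤ ε * ‖z - z'‖ := by
  have := (hasDerivAt_iff_isLittleO.mp hΦ).def hε
  filter_upwards [this] with z hz
  simpa [smul_eq_mul, mul_comm] using hz

theorem Loc.core {U : Set ℂ} {f fx fy Φ H : ℂ → ℂ} {m : ℝ} (L : Loc U f fx fy Φ H m)
    (z' : ℂ) (hg : Good f fx fy H z') (c : ℂ) (ρ : ℝ) (hB : closedBall c ρ ⊆ U)
    (hz' : z' ∈ ball c ρ) (F : ℂ) (hF : m < ‖F‖) (hne : ‖F‖ ≠ ‖dz fx fy z'‖) (α : ℂ) (hα : α ≠ 0)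
    (hS : ∀ z ∈ sphere c ρ, (f z - f z' - inc Φ F z z') / (α * (z - z')) ∈ slitPlane) :
    ∀ z ∈ ball c ρ, z ≠ z' → f z - f z' ≠ inc Φ F z z' := by
  have hz'U : z' ∈ U := hB (ball_subset_closedBall hz')
  have hFp : 0 < ‖F‖ := L.hm0.trans hF
  have hF0 : F ≠ 0 := norm_pos_iff.mp hFp
  set k := m / ‖F‖ with hk
  have hk0 : 0 ≤ k := div_nonneg L.hm0.le hFp.le
  have hk1 : k < 1 := (div_lt_one hFp).mpr hF
  obtain ⟨hW, hQ⟩ := L.sub F (f z' - cmp Φ F z') hF
  have hα₁ : dz fx fy z' - F ≠ 0 := by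
    intro h
    apply hne
    rw [sub_eq_zero.mp h]
  have hα₁p : 0 < ‖dz fx fy z' - F‖ := norm_pos_iff.mpr hα₁
  have hq : ∀ z, f z - (F * z + conj (Φ z) / conj F) - (f z' - cmp Φ F z') =
      f z - f z' - inc Φ F z z' := by
    intro z; rw [inc_eq_cmp]; unfold cmp; ring
  have key := inj (kap_pos k hk0 hk1) L.hU hW hQ c ρ hB z' hz' α hα
    (fun z hz => by rw [hq]; exact hS z hz) (dz fx fy z' - F) hα₁ ?_
  · intro z hz hzz' h
    apply key z hz hzz'
    rw [hq, h, sub_self]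
  · -- near z'
    have halg := beltrami_alg _ _ _ F m L.hm0 hg.prod hg.le (L.hm z' hz'U) hF.le
    set A := dz fx fy z' - F with hA
    have hε : 0 < (1 - k) * ‖A‖ / 4 := by have : 0 < 1 - k := by linarith
                                          positivity
    have h1 := hg.diff _ hε
    have h2 := phi_little (L.hΦ z' hz'U) ((1 - k) * ‖A‖ / 4 * ‖F‖) (by positivity)
    filter_upwards [h1.filter_mono nhdsWithin_le_nhds, h2.filter_mono nhdsWithin_le_nhds,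
      self_mem_nhdsWithin] with z e1 e2 hzz'
    have hζ : z - z' ≠ 0 := sub_ne_zero.mpr hzz'
    have hζp : 0 < ‖z - z'‖ := norm_pos_iff.mpr hζ
    rw [hq]
    apply slit_of_norm
    have e3 : (f z - f z' - inc Φ F z z') / (A * (z - z')) - 1 =
        ((f z - f z' - (dz fx fy z' * (z - z') + dzb fx fy z' * conj (z - z'))) -
          conj (Φ z - Φ z' - H z' * (z - z')) / conj F +
          (dzb fx fy z' - conj (H z') / conj F) * conj (z - z')) / (A * (z - z')) := by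
      rw [div_sub_one (mul_ne_zero hα₁ hζ)]
      congr 1
      unfold inc
      rw [hA, map_sub (starRingEnd ℂ) (Φ z - Φ z') (H z' * (z - z')), map_mul]
      ring
    rw [e3, norm_div, norm_mul, div_lt_one (by positivity)]
    calc _ ≤ ‖f z - f z' - (dz fx fy z' * (z - z') + dzb fx fy z' * conj (z - z'))‖ +
          ‖conj (Φ z - Φ z' - H z' * (z - z')) / conj F‖ +
          ‖(dzb fx fy z' - conj (H z') / conj F) * conj (z - z')‖ := by
            refine (norm_add_le _ _).trans ?_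
            gcongr
            exact norm_sub_le _ _
      _ ≤ (1 - k) * ‖A‖ / 4 * ‖z - z'‖ + (1 - k) * ‖A‖ / 4 * ‖z - z'‖ + k * ‖A‖ * ‖z - z'‖ := by
            gcongr
            · rw [norm_div, RCLike.norm_conj, RCLike.norm_conj, div_le_iff₀ hFp]
              calc _ ≤ _ := e2
                _ = _ := by ring
            · rw [norm_mul, RCLike.norm_conj]
              gcongr
      _ < ‖A‖ * ‖z - z'‖ := by
            have : 0 < (1 - k) * ‖A‖ * ‖z - z'‖ := by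
              have : 0 < 1 - k := by linarith
              positivity
            nlinarith

/-- exit point and intermediate values -/
theorem exists_mid {G : ℂ → ℝ} {c z' z₂ : ℂ} {ρ : ℝ} (hG : ContinuousOn G (closedBall c ρ))
    (hz2 : z₂ ∈ ball c ρ) (hne : z₂ ≠ z') (h1 : 0 < G z₂) (h2 : ∀ z ∈ sphere c ρ, G z < 0) :
    ∃ z₃ ∈ ball c ρ, z₃ ≠ z' ∧ G z₃ = 0 := by
  set γ : ℝ → ℂ := fun t => z₂ + (t : ℂ) * (z₂ - z') with hγ
  have hγc : Continuous γ := by fun_prop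
  have hd : 0 < ‖z₂ - z'‖ := norm_pos_iff.mpr (sub_ne_zero.mpr hne)
  -- exit
  obtain ⟨T, hT0, hT⟩ : ∃ T : ℝ, 0 ≤ T ∧ ρ ≤ ‖γ T - c‖ := by
    refine ⟨(ρ + ‖z₂ - c‖) / ‖z₂ - z'‖, ?_, ?_⟩
    · have : 0 < ρ := pos_of_mem_ball hz2
      positivity
    · have e : γ ((ρ + ‖z₂ - c‖) / ‖z₂ - z'‖) - c =
          (((ρ + ‖z₂ - c‖) / ‖z₂ - z'‖ : ℝ) : ℂ) * (z₂ - z') - (c - z₂) := by
        simp only [hγ]; ring
      rw [e]
      have h3 := norm_sub_norm_le ((((ρ + ‖z₂ - c‖) / ‖z₂ - z'‖ : ℝ) : ℂ) * (z₂ - z')) (c - z₂)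
      have h4 : ‖(((ρ + ‖z₂ - c‖) / ‖z₂ - z'‖ : ℝ) : ℂ) * (z₂ - z')‖ = ρ + ‖z₂ - c‖ := by
        rw [norm_mul, Complex.norm_real, Real.norm_of_nonneg]
        · field_simp
        · have : 0 < ρ := pos_of_mem_ball hz2
          positivity
      rw [h4, norm_sub_rev c z₂] at h3
      linarith
  have hn : ContinuousOn (fun t => ‖γ t - c‖) (Icc 0 T) := by
    apply Continuous.continuousOn; fun_prop
  have hmem : ρ ∈ Icc (‖γ 0 - c‖) (‖γ T - c‖) := by
    refine ⟨?_, hT⟩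
    have : γ 0 = z₂ := by simp [hγ]
    rw [this]; exact (mem_ball_iff_norm.mp hz2).le
  obtain ⟨t₁, ht₁, ht₁'⟩ := intermediate_value_Icc hT0 hn hmem
  have hsph : γ t₁ ∈ sphere c ρ := mem_sphere_iff_norm.mpr ht₁'
  have hin : ∀ t ∈ Icc (0 : ℝ) t₁, γ t ∈ closedBall c ρ := by
    intro t ht
    rcases eq_or_lt_of_le ht₁.1 with h0 | h0
    · have : t = t₁ := by rcases ht with ⟨a, b⟩; linarith
      rw [this]; exact sphere_subset_closedBall hsph
    · have hconv := convex_closedBall c ρ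
      have := hconv (ball_subset_closedBall hz2) (sphere_subset_closedBall hsph)
        (a := 1 - t / t₁) (b := t / t₁)
        (by rw [sub_nonneg, div_le_one h0]; exact ht.2) (div_nonneg ht.1 h0.le) (by ring)
      convert this using 1
      simp only [hγ, Complex.real_smul]
      push_cast
      have : (t₁ : ℂ) ≠ 0 := by exact_mod_cast h0.ne'
      field_simp
      ring
  have hGγ : ContinuousOn (fun t => G (γ t)) (Icc 0 t₁) :=
    hG.comp hγc.continuousOn hin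
  have hmem2 : (0 : ℝ) ∈ Icc (G (γ t₁)) (G (γ 0)) := by
    refine ⟨(h2 _ hsph).le, ?_⟩
    have : γ 0 = z₂ := by simp [hγ]
    rw [this]; exact h1.le
  obtain ⟨t, ht, ht'⟩ := intermediate_value_Icc' ht₁.1 hGγ hmem2
  refine ⟨γ t, ?_, ?_, ht'⟩
  · have h5 := hin t ht
    rcases eq_or_lt_of_le (mem_closedBall.mp h5) with h6 | h6
    · exact absurd ht' (h2 _ (mem_sphere.mpr h6)).ne
    · exact mem_ball.mpr h6
  · intro h
    have h7 : γ t - z' = ((1 + t : ℝ) : ℂ) * (z₂ - z') := by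
      simp only [hγ]; push_cast; ring
    rw [h, sub_self] at h7
    have h8 : ((1 + t : ℝ) : ℂ) ≠ 0 := by
      have : (0 : ℝ) < 1 + t := by linarith [ht.1]
      exact_mod_cast this.ne'
    exact (mul_ne_zero h8 (sub_ne_zero.mpr hne)) h7.symm

theorem Loc.mp {U : Set ℂ} {f fx fy Φ H : ℂ → ℂ} {m : ℝ} (L : Loc U f fx fy Φ H m)
    (z' : ℂ) (hg : Good f fx fy H z') (c : ℂ) (ρ R : ℝ) (hB : closedBall c ρ ⊆ U)
    (hz' : z' ∈ ball c ρ) (hR : m < R)
    (hs : ∀ z ∈ sphere c ρ, ‖f z - f z'‖ < ‖inc Φ R z z'‖) :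
    ∀ z ∈ ball c ρ, ‖f z - f z'‖ ≤ ‖inc Φ R z z'‖ := by
  have hz'U : z' ∈ U := hB (ball_subset_closedBall hz')
  by_contra hcon
  push Not at hcon
  obtain ⟨z₂, hz₂, hlt⟩ := hcon
  have hne : z₂ ≠ z' := by
    rintro rfl
    simp [inc] at hlt
  have hz₂U : z₂ ∈ U := hB (ball_subset_closedBall hz₂)
  have hRp : 0 < R := L.hm0.trans hR
  -- choose R₃
  obtain ⟨R₃, hR₃, hlt₃, hne₃⟩ : ∃ R₃ : ℝ, R < R₃ ∧ ‖inc Φ R₃ z₂ z'‖ < ‖f z₂ - f z'‖ ∧
      R₃ ≠ ‖dz fx fy z'‖ := by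
    have hc : ContinuousAt (fun r : ℝ => ‖inc Φ (r : ℂ) z₂ z'‖) R := by
      unfold inc
      apply ContinuousAt.norm
      apply ContinuousAt.add
      · fun_prop
      · apply ContinuousAt.div continuousAt_const
        · exact (Complex.continuous_conj.comp Complex.continuous_ofReal).continuousAt
        · simpa using hRp.ne'
    have h1 : ∀ᶠ r : ℝ in 𝓝[>] R, ‖inc Φ (r : ℂ) z₂ z'‖ < ‖f z₂ - f z'‖ :=
      (hc.eventually (gt_mem_nhds hlt)).filter_mono nhdsWithin_le_nhds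
    have h2 : ∀ᶠ r : ℝ in 𝓝[>] R, r ≠ ‖dz fx fy z'‖ := by
      rcases eq_or_ne R ‖dz fx fy z'‖ with h | h
      · rw [← h]
        filter_upwards [self_mem_nhdsWithin] with r hr
        exact ne_of_gt hr
      · exact (eventually_ne_nhds h).filter_mono nhdsWithin_le_nhds
    obtain ⟨R₃, a, b, d⟩ := (h1.and (h2.and self_mem_nhdsWithin)).exists
    exact ⟨R₃, d, a, b⟩
  have hm3 : m < R₃ := hR.trans hR₃
  -- intermediate point
  obtain ⟨z₃, hz₃, hz₃', hG⟩ := exists_mid (G := fun z => ‖f z - f z'‖ - ‖inc Φ R₃ z z'‖)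
    (c := c) (ρ := ρ) (z' := z') (z₂ := z₂)
    (((L.w.cont.mono hB).sub continuousOn_const).norm.sub ((L.contOn_inc _ _).mono hB).norm)
    hz₂ hne (by simpa using hlt₃) (fun z hz => by
      have h1 := hs z hz
      have h2 := inc_mono Φ R R₃ m z z' L.hm0 hR.le hR₃.le
        (L.phi_lip z z' (hB (sphere_subset_closedBall hz)) hz'U)
      linarith)
  have hz₃U : z₃ ∈ U := hB (ball_subset_closedBall hz₃)
  obtain ⟨F, hFn, hFe⟩ := exists_phase Φ R₃ m z₃ z' (f z₃ - f z') L.hm0 hm3 hz₃'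
    (L.phi_lip z₃ z' hz₃U hz'U) (by linarith)
  have hFp : 0 < ‖F‖ := by rw [hFn]; linarith
  have hF0 : F ≠ 0 := norm_pos_iff.mp hFp
  refine L.core z' hg c ρ hB hz' F (by rw [hFn]; exact hm3) (by rw [hFn]; exact hne₃) (-F)
    (neg_ne_zero.mpr hF0) ?_ z₃ hz₃ hz₃' hFe
  intro z hz
  have hzU : z ∈ U := hB (sphere_subset_closedBall hz)
  have hzz' : z ≠ z' := by
    rintro rfl
    rw [mem_ball] at hz'; rw [mem_sphere] at hz; linarith
  have hζ : z - z' ≠ 0 := sub_ne_zero.mpr hzz'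
  have hζp : 0 < ‖z - z'‖ := norm_pos_iff.mpr hζ
  have hlip := L.phi_lip z z' hzU hz'U
  have hincp : ‖f z - f z'‖ < ‖inc Φ F z z'‖ := by
    have h1 := hs z hz
    have h2 := inc_mono Φ R R₃ m z z' L.hm0 hR.le hR₃.le hlip
    have h3 : ‖inc Φ F z z'‖ = ‖inc Φ R₃ z z'‖ := by
      apply inc_norm_eq _ _ _ _ _ hF0
      rw [hFn, Complex.norm_real, Real.norm_of_nonneg (by linarith)]
    rw [h3]; linarith
  have hinc0 : inc Φ F z z' ≠ 0 := by
    rw [← norm_pos_iff]; exact (norm_nonneg _).trans_lt hincp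
  have e : (f z - f z' - inc Φ F z z') / (-F * (z - z')) =
      (inc Φ F z z' / (F * (z - z'))) * (1 - (f z - f z') / inc Φ F z z') := by
    field_simp
    ring
  rw [e]
  apply slit_mul
  · apply re_pos_of_norm
    have e2 : inc Φ F z z' / (F * (z - z')) - 1 = conj (Φ z - Φ z') / (conj F * (F * (z - z'))) := by
      unfold inc
      have : conj F ≠ 0 := by simpa using hF0
      field_simp
      ring
    rw [e2, norm_div, norm_mul, norm_mul, RCLike.norm_conj, RCLike.norm_conj,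
      div_lt_one (by positivity)]
    calc ‖Φ z - Φ z'‖ ≤ m ^ 2 * ‖z - z'‖ := hlip
      _ < ‖F‖ ^ 2 * ‖z - z'‖ := by
        apply mul_lt_mul_of_pos_right _ hζp
        rw [hFn]
        apply pow_lt_pow_left₀ hm3 L.hm0.le (by norm_num)
      _ = _ := by ring
  · apply re_pos_of_norm
    rw [show (1 - (f z - f z') / inc Φ F z z') - 1 = - ((f z - f z') / inc Φ F z z') by ring,
      norm_neg, norm_div, div_lt_one ((norm_nonneg _).trans_lt hincp)]
    exact hincp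

theorem Good.near {f fx fy H Φ : ℂ → ℂ} {z' : ℂ} (hg : Good f fx fy H z') (R : ℝ)
    (hR : ‖dz fx fy z'‖ < R) (hΦ : HasDerivAt Φ (H z') z') :
    ∀ᶠ t : ℝ in 𝓝[>] 0, ‖f (z' + t) - f z'‖ < ‖inc Φ R (z' + t) z'‖ := by
  set F := dz fx fy z' with hF
  set G := dzb fx fy z' with hG
  set h := H z' with hh
  have hRp : 0 < R := (norm_nonneg _).trans_lt hR
  have hGR : ‖G‖ < R := hg.le.trans_lt hR
  -- ‖F + G‖ < ‖R + conj h / R‖
  have hlt : ‖F + G‖ < ‖(R : ℂ) + conj h / R‖ := by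
    have h1 : ‖F + G‖ ^ 2 = ‖F‖ ^ 2 + ‖G‖ ^ 2 + 2 * h.re := by
      rw [← Complex.normSq_eq_norm_sq, ← Complex.normSq_eq_norm_sq, ← Complex.normSq_eq_norm_sq,
        Complex.normSq_add, hg.prod]
    have h2 : ‖(R : ℂ) + conj h / R‖ ^ 2 = R ^ 2 + ‖h‖ ^ 2 / R ^ 2 + 2 * h.re := by
      have := lin_normSq (R : ℂ) 1 h (by exact_mod_cast hRp.ne')
      simpa [abs_of_pos hRp] using this
    have h3 : ‖h‖ = ‖F‖ * ‖G‖ := by rw [hh, ← hg.prod, norm_mul, RCLike.norm_conj]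
    have h4 : ‖F + G‖ ^ 2 < ‖(R : ℂ) + conj h / R‖ ^ 2 := by
      rw [h1, h2, h3]
      have h5 : 0 < (R ^ 2 - ‖F‖ ^ 2) * (R ^ 2 - ‖G‖ ^ 2) := by
        apply mul_pos
        · have := pow_lt_pow_left₀ hR (norm_nonneg _) two_ne_zero; linarith
        · have := pow_lt_pow_left₀ hGR (norm_nonneg _) two_ne_zero; linarith
      have h6 : (‖F‖ * ‖G‖) ^ 2 / R ^ 2 - (‖F‖ ^ 2 + ‖G‖ ^ 2 - R ^ 2) =
          ((R ^ 2 - ‖F‖ ^ 2) * (R ^ 2 - ‖G‖ ^ 2)) / R ^ 2 := by
        field_simp; ring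
      have h7 : 0 < ((R ^ 2 - ‖F‖ ^ 2) * (R ^ 2 - ‖G‖ ^ 2)) / R ^ 2 := by positivity
      linarith
    exact (pow_lt_pow_iff_left₀ (norm_nonneg _) (norm_nonneg _) two_ne_zero).mp h4
  set d := ‖(R : ℂ) + conj h / R‖ - ‖F + G‖ with hd
  have hdp : 0 < d := by rw [hd]; linarith
  have e1 := hg.diff (d / 4) (by positivity)
  have e2 := phi_little hΦ (d / 4 * R) (by positivity)
  have htend : Tendsto (fun t : ℝ => z' + (t : ℂ)) (𝓝[>] 0) (𝓝 z') := by
    have : Tendsto (fun t : ℝ => z' + (t : ℂ)) (𝓝 0) (𝓝 (z' + ((0 : ℝ) : ℂ))) := by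
      apply Continuous.tendsto; fun_prop
    simp only [ofReal_zero, add_zero] at this
    exact this.mono_left nhdsWithin_le_nhds
  filter_upwards [htend.eventually e1, htend.eventually e2, self_mem_nhdsWithin] with t a1 a2 ht
  have ht : (0 : ℝ) < t := ht
  have es : z' + (t : ℂ) - z' = t := by ring
  rw [es] at a1 a2
  have hn : ‖(t : ℂ)‖ = t := by rw [Complex.norm_real, Real.norm_of_nonneg ht.le]
  rw [hn] at a1 a2
  rw [Complex.conj_ofReal] at a1
  have b1 : ‖f (z' + t) - f z'‖ ≤ ‖F + G‖ * t + d / 4 * t := by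
    have : f (z' + t) - f z' = (f (z' + t) - f z' - (F * t + G * t)) + (F + G) * t := by ring
    rw [this]
    refine (norm_add_le _ _).trans ?_
    rw [norm_mul, hn]; linarith
  have b2 : ‖(R : ℂ) + conj h / R‖ * t - d / 4 * t ≤ ‖inc Φ R (z' + t) z'‖ := by
    have e : ((R : ℂ) + conj h / R) * t = inc Φ R (z' + t) z' -
        conj (Φ (z' + t) - Φ z' - h * t) / R := by
      unfold inc
      rw [es, map_sub (starRingEnd ℂ) (Φ (z' + ↑t) - Φ z') (h * ↑t), map_mul, Complex.conj_ofReal,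
        Complex.conj_ofReal]
      ring
    have h8 : ‖((R : ℂ) + conj h / R) * t‖ ≤ ‖inc Φ R (z' + t) z'‖ +
        ‖conj (Φ (z' + t) - Φ z' - h * t) / (R : ℂ)‖ := by
      rw [e]; exact norm_sub_le _ _
    rw [norm_mul, hn, norm_div, RCLike.norm_conj, Complex.norm_real,
      Real.norm_of_nonneg hRp.le] at h8
    have h9 : ‖Φ (z' + t) - Φ z' - h * t‖ / R ≤ d / 4 * t := by
      rw [div_le_iff₀ hRp]; linarith
    linarith
  have : d * t = (‖(R : ℂ) + conj h / R‖ - ‖F + G‖) * t := by rw [hd]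
  have hdt : 0 < d * t := by positivity
  nlinarith

theorem Loc.lower {U : Set ℂ} {f fx fy Φ H : ℂ → ℂ} {m : ℝ} (L : Loc U f fx fy Φ H m)
    (z' : ℂ) (hg : Good f fx fy H z') (c : ℂ) (ρ R : ℝ) (hB : closedBall c ρ ⊆ U)
    (hz' : z' ∈ ball c ρ) (hR : m < R) (F : ℂ) (hF : R < ‖F‖)
    (hs : ∀ z ∈ sphere c ρ, ‖f z - f z' - inc Φ F z z'‖ <
      (1 - m ^ 2 / R ^ 2) * (‖F‖ - R) * ‖z - z'‖) :
    R ≤ ‖dz fx fy z'‖ := by
  by_contra hcon
  push Not at hcon
  have hz'U : z' ∈ U := hB (ball_subset_closedBall hz')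
  have hRp : 0 < R := L.hm0.trans hR
  have hFp : 0 < ‖F‖ := hRp.trans hF
  have hF0 : F ≠ 0 := norm_pos_iff.mp hFp
  -- starting point
  obtain ⟨z₂, hz₂, hne, hlt⟩ : ∃ z₂ ∈ ball c ρ, z₂ ≠ z' ∧ ‖f z₂ - f z'‖ < ‖inc Φ R z₂ z'‖ := by
    have h1 := hg.near R hcon (L.hΦ z' hz'U)
    have htend : Tendsto (fun t : ℝ => z' + (t : ℂ)) (𝓝[>] 0) (𝓝 z') := by
      have : Tendsto (fun t : ℝ => z' + (t : ℂ)) (𝓝 0) (𝓝 (z' + ((0 : ℝ) : ℂ))) := by
        apply Continuous.tendsto; fun_prop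
      simp only [ofReal_zero, add_zero] at this
      exact this.mono_left nhdsWithin_le_nhds
    have h2 := htend.eventually (isOpen_ball.mem_nhds hz')
    obtain ⟨t, a, b, d⟩ := (h1.and (h2.and self_mem_nhdsWithin)).exists
    have d : (0 : ℝ) < t := d
    refine ⟨z' + t, b, ?_, a⟩
    intro h
    have : (t : ℂ) = 0 := by simpa using h
    exact d.ne' (by exact_mod_cast this)
  have hgapS : ∀ z ∈ sphere c ρ, ‖inc Φ R z z'‖ < ‖f z - f z'‖ := by
    intro z hz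
    have hzU : z ∈ U := hB (sphere_subset_closedBall hz)
    have h1 := hs z hz
    have h2 := inc_gap Φ R ‖F‖ m z z' L.hm0 hR.le hF.le (L.phi_lip z z' hzU hz'U)
    have h3 : ‖inc Φ F z z'‖ = ‖inc Φ (‖F‖ : ℂ) z z'‖ := by
      apply inc_norm_eq _ _ _ _ _ hF0
      rw [Complex.norm_real, Real.norm_of_nonneg hFp.le]
    have h4 : ‖inc Φ F z z'‖ ≤ ‖f z - f z'‖ + ‖f z - f z' - inc Φ F z z'‖ := by
      have : inc Φ F z z' = (f z - f z') - (f z - f z' - inc Φ F z z') := by ring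
      calc ‖inc Φ F z z'‖ = ‖(f z - f z') - (f z - f z' - inc Φ F z z')‖ := by rw [← this]
        _ ≤ _ := norm_sub_le _ _
    have h5 : (1 - m ^ 2 / R ^ 2) * (‖F‖ - R) * ‖z - z'‖ =
      (‖F‖ - R) * (1 - m ^ 2 / R ^ 2) * ‖z - z'‖ := by ring
    linarith
  obtain ⟨z₃, hz₃, hz₃', hG⟩ := exists_mid (G := fun z => ‖inc Φ R z z'‖ - ‖f z - f z'‖)
    (c := c) (ρ := ρ) (z' := z') (z₂ := z₂)
    (((L.contOn_inc _ _).mono hB).norm.sub ((L.w.cont.mono hB).sub continuousOn_const).norm)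
    hz₂ hne (by simpa using hlt) (fun z hz => by
      have h1 := hgapS z hz
      linarith)
  have hz₃U : z₃ ∈ U := hB (ball_subset_closedBall hz₃)
  obtain ⟨F', hFn, hFe⟩ := exists_phase Φ R m z₃ z' (f z₃ - f z') L.hm0 hR hz₃'
    (L.phi_lip z₃ z' hz₃U hz'U) (by linarith)
  have hF'p : 0 < ‖F'‖ := by rw [hFn]; linarith
  have hF'0 : F' ≠ 0 := norm_pos_iff.mp hF'p
  have hdiff : ‖F‖ - R ≤ ‖F - F'‖ := by
    have := norm_sub_norm_le F F'
    rw [hFn] at this; exact this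
  have hα : F - F' ≠ 0 := by
    rw [← norm_pos_iff]; linarith
  refine L.core z' hg c ρ hB hz' F' (by rw [hFn]; exact hR) (by rw [hFn]; exact hcon.ne') (F - F')
    hα ?_ z₃ hz₃ hz₃' hFe
  intro z hz
  have hzU : z ∈ U := hB (sphere_subset_closedBall hz)
  have hzz' : z ≠ z' := by
    rintro rfl
    rw [mem_ball] at hz'; rw [mem_sphere] at hz; linarith
  have hζ : z - z' ≠ 0 := sub_ne_zero.mpr hzz'
  have hζp : 0 < ‖z - z'‖ := norm_pos_iff.mpr hζ
  have hlip := L.phi_lip z z' hzU hz'U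
  apply slit_of_norm
  have hFc : conj F ≠ 0 := by simpa using hF0
  have hF'c : conj F' ≠ 0 := by simpa using hF'0
  have e : (f z - f z' - inc Φ F' z z') / ((F - F') * (z - z')) - 1 =
      (f z - f z' - inc Φ F z z') / ((F - F') * (z - z')) -
      (conj (Φ z - Φ z') * conj (F - F') / (conj F * conj F')) / ((F - F') * (z - z')) := by
    rw [div_sub_one (mul_ne_zero hα hζ), ← sub_div]
    congr 1
    unfold inc
    rw [map_sub (starRingEnd ℂ) F F']
    field_simp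
    ring
  rw [e]
  have hαp : 0 < ‖F - F'‖ := norm_pos_iff.mpr hα
  have b1 : ‖(f z - f z' - inc Φ F z z') / ((F - F') * (z - z'))‖ < 1 - m ^ 2 / R ^ 2 := by
    rw [norm_div, norm_mul, div_lt_iff₀ (by positivity)]
    refine (hs z hz).trans_le ?_
    have : 0 ≤ 1 - m ^ 2 / R ^ 2 := by
      rw [sub_nonneg, div_le_one (by positivity)]
      exact pow_le_pow_left₀ L.hm0.le hR.le 2
    rw [mul_assoc]
    gcongr
  have b2 : ‖(conj (Φ z - Φ z') * conj (F - F') / (conj F * conj F')) / ((F - F') * (z - z'))‖ ≤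
      m ^ 2 / R ^ 2 := by
    rw [norm_div, norm_div, norm_mul, norm_mul, norm_mul, RCLike.norm_conj, RCLike.norm_conj,
      RCLike.norm_conj, RCLike.norm_conj, hFn, div_div, div_le_div_iff₀ (by positivity) (by positivity)]
    calc ‖Φ z - Φ z'‖ * ‖F - F'‖ * R ^ 2 ≤ m ^ 2 * ‖z - z'‖ * ‖F - F'‖ * (R * ‖F‖) := by
          gcongr
          nlinarith
      _ = _ := by ring
  calc _ ≤ _ := norm_sub_le _ _
    _ < 1 := by linarith

end Pool.Agent.Helper366.IV
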