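import Mathlib
import Pool.Agent.Helper366.IV.GoodPt
import Pool.Agent.Helper366.IV.Mp

set_option autoImplicit false
open MeasureTheory Metric Set Filter Topology Complex
open scoped ContDiff ENNReal ComplexConjugate

namespace Pool.Agent.Helper366.IV




/- TARGET -/
theorem Good.le_of_inc {f fx fy H Φ : ℂ → ℂ} {z' : ℂ} (hg : Good f fx fy H z') (m R : ℝ)
    (hm : 0 < m) (hR : m ≤ R) (hH : ‖H z'‖ ≤ m ^ 2) (hΦ : HasDerivAt Φ (H z') z')
    (h : ∀ᶠ z in 𝓝 z', ‖f z - f z'‖ ≤ ‖inc Φ R z z'‖) : ‖dz fx fy z'‖ ≤ R := by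
  have hR0 : 0 < R := hm.trans_le hR
  set F := dz fx fy z' with hF
  set G := dzb fx fy z' with hG
  have htend : Tendsto (fun t : ℝ => z' + (t : ℂ)) (𝓝[>] 0) (𝓝 z') := by
    have h1 : Continuous (fun t : ℝ => z' + (t : ℂ)) := by fun_prop
    have h2 := h1.tendsto 0
    simp only [ofReal_zero, add_zero] at h2
    exact h2.mono_left nhdsWithin_le_nhds
  have htend' : Tendsto (fun t : ℝ => z' + (t : ℂ)) (𝓝[>] 0) (𝓝[≠] z') := by
    apply tendsto_nhdsWithin_of_tendsto_nhds_of_eventually_within _ htend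
    filter_upwards [self_mem_nhdsWithin] with t ht
    have ht' : (0:ℝ) < t := ht
    intro heq
    have h3 : (t : ℂ) = 0 := by
      have h4 : z' + (t : ℂ) = z' := heq
      linear_combination h4
    rw [ofReal_eq_zero] at h3
    exact ht'.ne' h3
  have hl1 : Tendsto (fun t : ℝ => (f (z' + t) - f z') / (t : ℂ)) (𝓝[>] 0) (𝓝 (F + G)) := by
    rw [Metric.tendsto_nhds]
    intro ε hε
    filter_upwards [htend.eventually (hg.diff (ε / 2) (by positivity)), self_mem_nhdsWithin]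
      with t ht ht0
    have ht0' : (0:ℝ) < t := ht0
    have htC : (t : ℂ) ≠ 0 := ofReal_ne_zero.mpr ht0'.ne'
    rw [add_sub_cancel_left, conj_ofReal, Complex.norm_real, Real.norm_of_nonneg ht0'.le] at ht
    rw [dist_eq_norm]
    have e1 : (f (z' + t) - f z') / (t : ℂ) - (F + G) =
        (f (z' + t) - f z' - (F * t + G * t)) / (t : ℂ) := by
      field_simp
    rw [e1, norm_div, Complex.norm_real, Real.norm_of_nonneg ht0'.le, div_lt_iff₀ ht0']
    have : ε / 2 * t < ε * t := by nlinarith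
    exact lt_of_le_of_lt ht this
  have hl2 : Tendsto (fun t : ℝ => inc Φ R (z' + t) z' / (t : ℂ)) (𝓝[>] 0)
      (𝓝 ((R : ℂ) + conj (H z') / (R : ℂ))) := by
    have hs := (hasDerivAt_iff_tendsto_slope.mp hΦ).comp htend'
    have h3 : Tendsto (fun t : ℝ => (R : ℂ) + conj (slope Φ z' (z' + t)) / (R : ℂ)) (𝓝[>] 0)
        (𝓝 ((R : ℂ) + conj (H z') / (R : ℂ))) := by
      apply Tendsto.const_add
      apply Tendsto.div_const
      exact (Complex.continuous_conj.tendsto _).comp hs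
    refine h3.congr' ?_
    filter_upwards [self_mem_nhdsWithin] with t ht0
    have ht0' : (0:ℝ) < t := ht0
    have htC : (t : ℂ) ≠ 0 := ofReal_ne_zero.mpr ht0'.ne'
    have hRC : (R : ℂ) ≠ 0 := ofReal_ne_zero.mpr hR0.ne'
    rw [slope_def_field, inc, add_sub_cancel_left, map_div₀, conj_ofReal, conj_ofReal]
    field_simp
  have hle : ‖F + G‖ ≤ ‖(R : ℂ) + conj (H z') / (R : ℂ)‖ := by
    apply le_of_tendsto_of_tendsto hl1.norm hl2.norm
    filter_upwards [htend.eventually h, self_mem_nhdsWithin] with t ht ht0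
    have ht0' : (0:ℝ) < t := ht0
    rw [norm_div, norm_div]
    exact div_le_div_of_nonneg_right ht (norm_nonneg _)
  have hprod := hg.prod
  rw [← hF, ← hG] at hprod
  have hnorm : ‖F‖ * ‖G‖ = ‖H z'‖ := by
    rw [← hprod, norm_mul, RCLike.norm_conj]
  have hsq1 : ‖F + G‖ ^ 2 = ‖F‖ ^ 2 + ‖G‖ ^ 2 + 2 * (H z').re := by
    rw [← hprod, ← Complex.normSq_eq_norm_sq, ← Complex.normSq_eq_norm_sq,
      ← Complex.normSq_eq_norm_sq, Complex.normSq_add]
  have hsq2 : ‖(R : ℂ) + conj (H z') / (R : ℂ)‖ ^ 2 = R ^ 2 + ‖H z'‖ ^ 2 / R ^ 2 + 2 * (H z').re := by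
    rw [← Complex.normSq_eq_norm_sq, Complex.normSq_add, Complex.normSq_eq_norm_sq,
      Complex.normSq_eq_norm_sq, norm_div, RCLike.norm_conj, Complex.norm_real,
      Real.norm_of_nonneg hR0.le, map_div₀, conj_ofReal, Complex.conj_conj]
    have hRC : (R : ℂ) ≠ 0 := ofReal_ne_zero.mpr hR0.ne'
    rw [mul_div_cancel₀ _ hRC]
    rw [div_pow]
  have hsq : ‖F + G‖ ^ 2 ≤ ‖(R : ℂ) + conj (H z') / (R : ℂ)‖ ^ 2 :=
    pow_le_pow_left₀ (norm_nonneg _) hle 2
  rw [hsq1, hsq2, ← hnorm] at hsq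
  have hkey : 0 ≤ (R ^ 2 - ‖F‖ ^ 2) * (R ^ 2 - ‖G‖ ^ 2) := by
    have h1 : ‖F‖ ^ 2 + ‖G‖ ^ 2 ≤ R ^ 2 + (‖F‖ * ‖G‖) ^ 2 / R ^ 2 := by linarith
    have h2 : (‖F‖ ^ 2 + ‖G‖ ^ 2) * R ^ 2 ≤ (R ^ 2 + (‖F‖ * ‖G‖) ^ 2 / R ^ 2) * R ^ 2 :=
      mul_le_mul_of_nonneg_right h1 (by positivity)
    have h3 : (R ^ 2 + (‖F‖ * ‖G‖) ^ 2 / R ^ 2) * R ^ 2 = R ^ 4 + (‖F‖ * ‖G‖) ^ 2 := by
      field_simp
    rw [h3] at h2
    nlinarith
  by_contra hcon
  push Not at hcon
  have hF0 : 0 < ‖F‖ := hR0.trans hcon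
  have hG1 : ‖G‖ < R := by
    by_contra h4
    push Not at h4
    have h5 : R * R < ‖F‖ * ‖G‖ := by nlinarith
    have h6 : m ^ 2 ≤ R * R := by nlinarith
    linarith [hnorm.le.trans hH]
  have h7 : R ^ 2 < ‖F‖ ^ 2 := pow_lt_pow_left₀ hcon hR0.le (by norm_num)
  have h8 : ‖G‖ ^ 2 < R ^ 2 := pow_lt_pow_left₀ hG1 (norm_nonneg _) (by norm_num)
  nlinarith

/- TARGET -/
theorem Loc.p2 {U : Set ℂ} {f fx fy Φ H : ℂ → ℂ} {m : ℝ} (L : Loc U f fx fy Φ H m)
    (z₀ : ℂ) (hz₀ : z₀ ∈ U) (c : ℝ) (hc : m < c)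
    (h2 : ∀ R < c, ∀ r > 0, ¬ ∀ᵐ z ∂(volume.restrict (ball z₀ r)), ‖dz fx fy z‖ ≤ R)
    (s : ℝ) (hs : 0 < s) (hB : closedBall z₀ s ⊆ U) :
    ∃ z ∈ sphere z₀ s, ‖inc Φ c z z₀‖ ≤ ‖f z - f z₀‖ := by
  by_contra hcon
  push Not at hcon
  have hc0 : 0 < c := L.hm0.trans hc
  have hfc : ∀ z ∈ U, ContinuousAt f z := fun z hz =>
    (L.w.cont z hz).continuousAt (L.hU.mem_nhds hz)
  have hΦc : ∀ z ∈ U, ContinuousAt Φ z := fun z hz => (L.hΦ z hz).continuousAt
  have hev : ∀ᶠ x : ℂ × ℝ in 𝓝 (z₀, c), ∀ z ∈ sphere z₀ s, ‖f z - f x.1‖ < ‖inc Φ x.2 z x.1‖ := by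
    apply (isCompact_sphere z₀ s).eventually_forall_of_forall_eventually
    intro z hz
    have hzU : z ∈ U := hB (sphere_subset_closedBall hz)
    have c1 : ContinuousAt (fun p : (ℂ × ℝ) × ℂ => f p.2) ((z₀, c), z) :=
      ContinuousAt.comp (f := fun p : (ℂ × ℝ) × ℂ => p.2) (hfc z hzU) continuousAt_snd
    have c2 : ContinuousAt (fun p : (ℂ × ℝ) × ℂ => f p.1.1) ((z₀, c), z) :=
      ContinuousAt.comp (f := fun p : (ℂ × ℝ) × ℂ => p.1.1) (hfc z₀ hz₀)
        (continuous_fst.comp continuous_fst).continuousAt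
    have c3 : ContinuousAt (fun p : (ℂ × ℝ) × ℂ => Φ p.2) ((z₀, c), z) :=
      ContinuousAt.comp (f := fun p : (ℂ × ℝ) × ℂ => p.2) (hΦc z hzU) continuousAt_snd
    have c4 : ContinuousAt (fun p : (ℂ × ℝ) × ℂ => Φ p.1.1) ((z₀, c), z) :=
      ContinuousAt.comp (f := fun p : (ℂ × ℝ) × ℂ => p.1.1) (hΦc z₀ hz₀)
        (continuous_fst.comp continuous_fst).continuousAt
    have c5 : ContinuousAt (fun p : (ℂ × ℝ) × ℂ => ((p.1.2 : ℝ) : ℂ)) ((z₀, c), z) :=
      (Complex.continuous_ofReal.comp (continuous_snd.comp continuous_fst)).continuousAt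
    have c6 : ContinuousAt (fun p : (ℂ × ℝ) × ℂ => inc Φ p.1.2 p.2 p.1.1) ((z₀, c), z) := by
      unfold inc
      apply ContinuousAt.add
      · apply c5.mul
        exact (continuous_snd.sub (continuous_fst.comp continuous_fst)).continuousAt
      · apply ContinuousAt.div
        · exact Complex.continuous_conj.continuousAt.comp (c3.sub c4)
        · exact Complex.continuous_conj.continuousAt.comp c5
        · simp only [conj_ofReal]
          exact ofReal_ne_zero.mpr hc0.ne'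
    exact Filter.Tendsto.eventually_lt (c1.sub c2).norm c6.norm (hcon z hz)
  rw [nhds_prod_eq, Filter.eventually_prod_iff] at hev
  obtain ⟨pa, hpa, pb, hpb, hpab⟩ := hev
  obtain ⟨r1, hr1, hr1'⟩ := Metric.eventually_nhds_iff_ball.mp hpa
  obtain ⟨δ, hδ, hδ'⟩ := Metric.eventually_nhds_iff_ball.mp hpb
  set R := max ((m + c) / 2) (c - δ / 2) with hRdef
  have hRc : R < c := max_lt (by linarith) (by linarith)
  have hRm : m < R := lt_of_lt_of_le (by linarith) (le_max_left _ _)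
  have hRδ : R ∈ ball c δ := by
    rw [mem_ball, Real.dist_eq, abs_of_neg (by linarith)]
    have : c - δ / 2 ≤ R := le_max_right _ _
    linarith
  set r := min r1 s with hr
  have hr0 : 0 < r := lt_min hr1 hs
  apply h2 R hRc r hr0
  have hbU : ball z₀ r ⊆ U := fun z hz =>
    hB (ball_subset_closedBall (ball_subset_ball (min_le_right _ _) hz))
  have hgood := ae_restrict_of_ae_restrict_of_subset hbU L.good
  filter_upwards [hgood, ae_restrict_mem measurableSet_ball] with z' hg hz'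
  have hz's : z' ∈ ball z₀ s := ball_subset_ball (min_le_right _ _) hz'
  have hz'r : z' ∈ ball z₀ r1 := ball_subset_ball (min_le_left _ _) hz'
  have hmp := L.mp z' hg z₀ s R hB hz's hRm (fun z hz => hpab (hr1' z' hz'r) (hδ' R hRδ) z hz)
  apply hg.le_of_inc m R L.hm0 hRm.le (L.hm z' (hbU hz')) (L.hΦ z' (hbU hz'))
  filter_upwards [isOpen_ball.mem_nhds hz's] with z hz
  exact hmp z hz

end Pool.Agent.Helper366.IV
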