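import Pool.Agent.Helper366.IV.P1
import Pool.Agent.Helper366.IV.P2
import Pool.Agent.Helper366.IV.Close

set_option autoImplicit false
open MeasureTheory Metric Set Filter Topology Complex
open scoped ContDiff ENNReal ComplexConjugate

namespace Pool.Agent.Helper366.IV

theorem Loc.endgame {U : Set ℂ} {f fx fy Φ H : ℂ → ℂ} {m : ℝ} (L : Loc U f fx fy Φ H m)
    (z₀ : ℂ) (hz₀ : z₀ ∈ U) (c : ℝ) (hc : m < c)
    (h1 : ∀ ε > 0, ∃ r > 0, ∀ᵐ z ∂(volume.restrict (ball z₀ r)), ‖dz fx fy z‖ ≤ c + ε)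
    (h2 : ∀ R < c, ∀ r > 0, ¬ ∀ᵐ z ∂(volume.restrict (ball z₀ r)), ‖dz fx fy z‖ ≤ R) :
    ∀ R < c, ∃ r > 0, ∀ᵐ z ∂(volume.restrict (ball z₀ r)), R ≤ ‖dz fx fy z‖ := by
  intro R₁ hR₁
  set R := Max.max R₁ ((m + c) / 2) with hR
  have hRc : R < c := max_lt hR₁ (by linarith)
  have hmR : m < R := lt_of_lt_of_le (by linarith) (le_max_right _ _)
  have hRp : 0 < R := L.hm0.trans hmR
  obtain ⟨r₀, hr₀, hball⟩ := Metric.isOpen_iff.mp L.hU z₀ hz₀
  set τ := (1 - m ^ 2 / R ^ 2) * (c - R) with hτ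
  have hτ0 : 0 < τ := by
    apply mul_pos _ (by linarith)
    rw [sub_pos, div_lt_one (by positivity)]
    exact pow_lt_pow_left₀ hmR L.hm0.le two_ne_zero
  obtain ⟨r, hr, hrr₀, F, hF, hcl⟩ := L.close z₀ hz₀ c hc (L.p1 z₀ hz₀ c hc h1)
    (fun s hs hB => L.p2 z₀ hz₀ c hc h2 s hs hB) (τ / 8) (by positivity) r₀ hr₀
  have hBU : closedBall z₀ r ⊆ U := (closedBall_subset_ball hrr₀).trans hball
  refine ⟨r / 2, by positivity, ?_⟩
  have hsub : ball z₀ (r / 2) ⊆ U := (ball_subset_closedBall.trans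
    (closedBall_subset_closedBall (by linarith))).trans hBU
  have hgood := ae_restrict_of_ae_restrict_of_subset hsub L.good
  filter_upwards [hgood, ae_restrict_mem measurableSet_ball] with z' hg hz'
  refine (le_max_left R₁ ((m + c) / 2)).trans ?_
  refine L.lower z' hg z₀ r R hBU (ball_subset_ball (by linarith) hz') hmR F (by rw [hF]; exact hRc) ?_
  intro z hz
  have hz'c : z' ∈ closedBall z₀ r := ball_subset_closedBall (ball_subset_ball (by linarith) hz')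
  have e1 := hcl z (sphere_subset_closedBall hz)
  have e2 := hcl z' hz'c
  have e3 : f z - f z' - inc Φ F z z' =
      (f z - f z₀ - inc Φ F z z₀) - (f z' - f z₀ - inc Φ F z' z₀) := by
    simp only [inc_eq_cmp]; ring
  have e4 : r / 2 < ‖z - z'‖ := by
    have h3 : dist z z₀ = r := hz
    have h4 : dist z' z₀ < r / 2 := hz'
    have h5 := dist_triangle z z' z₀
    rw [← dist_eq_norm]; linarith
  rw [e3, hF]
  calc _ ≤ τ / 8 * r + τ / 8 * r := (norm_sub_le _ _).trans (add_le_add e1 e2)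
    _ = τ * (r / 4) := by ring
    _ < τ * ‖z - z'‖ := by
      apply mul_lt_mul_of_pos_left _ hτ0
      linarith

theorem Loc.bdd {U : Set ℂ} {f fx fy Φ H : ℂ → ℂ} {m : ℝ} (L : Loc U f fx fy Φ H m)
    (z₀ : ℂ) (hz₀ : z₀ ∈ U) :
    ∃ M, ∃ r > 0, ∀ᵐ z ∂(volume.restrict (ball z₀ r)), ‖dz fx fy z‖ ≤ M := by
  obtain ⟨r₀, hr₀, hball⟩ := Metric.isOpen_iff.mp L.hU z₀ hz₀
  set r := r₀ / 4 with hr
  have hrp : 0 < r := by positivity
  have hBU : closedBall z₀ (2 * r) ⊆ U :=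
    (closedBall_subset_ball (by rw [hr]; linarith)).trans hball
  obtain ⟨B, hB⟩ := (isCompact_closedBall z₀ (2 * r)).exists_bound_of_continuousOn
    (L.w.cont.mono hBU)
  have hB0 : 0 ≤ B := (norm_nonneg _).trans (hB z₀ (mem_closedBall_self (by positivity)))
  set R := m + 1 + (2 * B + 1) / r with hR
  have hmR : m < R := by
    have : 0 < (2 * B + 1) / r := by positivity
    rw [hR]; linarith
  have hRp : 0 < R := L.hm0.trans hmR
  refine ⟨R, r, hrp, ?_⟩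
  have hsub : ball z₀ r ⊆ U := (ball_subset_closedBall.trans
    (closedBall_subset_closedBall (by linarith))).trans hBU
  have hgood := ae_restrict_of_ae_restrict_of_subset hsub L.good
  filter_upwards [hgood, ae_restrict_mem measurableSet_ball] with z' hg hz'
  have hz'U : z' ∈ U := hsub hz'
  have hmp := L.mp z' hg z₀ (2 * r) R hBU (ball_subset_ball (by linarith) hz') hmR ?_
  · refine hg.le_of_inc (Φ := Φ) m R L.hm0 hmR.le (L.hm z' hz'U) (L.hΦ z' hz'U) ?_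
    filter_upwards [isOpen_ball.mem_nhds (ball_subset_ball (by linarith : r ≤ 2 * r) hz')] with z hz
    exact hmp z hz
  · intro z hz
    have h3 : dist z z₀ = 2 * r := hz
    have h4 : dist z' z₀ < r := hz'
    have h5 := dist_triangle z z' z₀
    have h6 : r ≤ ‖z - z'‖ := by rw [← dist_eq_norm]; linarith
    have hzU := hBU (sphere_subset_closedBall hz)
    have h7 : ‖f z - f z'‖ ≤ 2 * B := by
      refine (norm_sub_le _ _).trans ?_
      have := hB z (sphere_subset_closedBall hz)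
      have := hB z' (ball_subset_closedBall (ball_subset_ball (by linarith) hz'))
      linarith
    have h8 := inc_lower Φ (R : ℂ) z z' m (L.phi_lip z z' hzU hz'U) (by exact_mod_cast hRp.ne')
    rw [Complex.norm_real, Real.norm_of_nonneg hRp.le] at h8
    have h9 : m ^ 2 / R ≤ m := by
      rw [div_le_iff₀ hRp]; nlinarith [L.hm0]
    have h10 : (2 * B + 1) / r ≤ R - m ^ 2 / R := by rw [hR] at h9 ⊢; linarith
    have h11 : 2 * B + 1 ≤ (R - m ^ 2 / R) * ‖z - z'‖ := by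
      calc 2 * B + 1 = (2 * B + 1) / r * r := by field_simp
        _ ≤ (R - m ^ 2 / R) * ‖z - z'‖ := by
          apply mul_le_mul h10 h6 hrp.le
          exact (by positivity : (0 : ℝ) ≤ (2 * B + 1) / r).trans h10
    linarith

/-- essential neighbourhood filter -/
noncomputable def ess (z₀ : ℂ) : Filter ℂ := 𝓝 z₀ ⊓ ae volume

theorem ess_iff (z₀ : ℂ) (P : ℂ → Prop) :
    (∀ᶠ z in ess z₀, P z) ↔ ∃ r > 0, ∀ᵐ z ∂(volume.restrict (ball z₀ r)), P z := by
  unfold ess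
  constructor
  · intro h
    rw [Filter.eventually_inf] at h
    obtain ⟨s, hs, t, ht, hst⟩ := h
    obtain ⟨r, hr, hrs⟩ := Metric.mem_nhds_iff.mp hs
    refine ⟨r, hr, ?_⟩
    filter_upwards [ae_restrict_mem measurableSet_ball, ae_restrict_of_ae ht] with z h1 h2
    exact hst z ⟨hrs h1, h2⟩
  · rintro ⟨r, hr, h⟩
    rw [Filter.eventually_inf]
    refine ⟨ball z₀ r, ball_mem_nhds _ hr, {z | z ∈ ball z₀ r → P z}, ?_, ?_⟩
    · exact (ae_restrict_iff' measurableSet_ball).mp h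
    · rintro z ⟨h1, h2⟩; exact h2 h1

theorem ess_neBot (z₀ : ℂ) : (ess z₀).NeBot := by
  rw [Filter.neBot_iff]
  intro h
  have : ∀ᶠ z in ess z₀, False := by rw [h]; exact Filter.eventually_bot
  obtain ⟨r, hr, h2⟩ := (ess_iff z₀ _).mp this
  rw [ae_restrict_iff' measurableSet_ball, ae_iff] at h2
  simp only [imp_false, not_not] at h2
  have h3 := measure_ball_pos volume z₀ hr
  have : {a | a ∈ ball z₀ r} = ball z₀ r := rfl
  rw [this] at h2
  exact h3.ne' h2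

theorem Loc.restrict {U V : Set ℂ} {f fx fy Φ H : ℂ → ℂ} {m m' : ℝ} (L : Loc U f fx fy Φ H m)
    (hV : V ⊆ U) (hVo : IsOpen V) (hVc : Convex ℝ V) (hm' : 0 < m') (hb : ∀ z ∈ V, ‖H z‖ ≤ m' ^ 2) :
    Loc V f fx fy Φ H m' where
  hU := hVo
  conv := hVc
  w := L.w.mono hV
  hΦ z hz := L.hΦ z (hV hz)
  hm0 := hm'
  hm := hb
  prod := ae_restrict_of_ae_restrict_of_subset hV L.prod
  le := ae_restrict_of_ae_restrict_of_subset hV L.le

theorem Loc.contH {U : Set ℂ} {f fx fy Φ H : ℂ → ℂ} {m : ℝ} (L : Loc U f fx fy Φ H m) :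
    ContinuousOn H U := by
  have h1 : DifferentiableOn ℂ Φ U := fun w hw => (L.hΦ w hw).differentiableAt.differentiableWithinAt
  have h2 : ContinuousOn (deriv Φ) U := (h1.deriv L.hU).continuousOn
  exact h2.congr fun z hz => (L.hΦ z hz).deriv.symm

theorem Loc.limit {U : Set ℂ} {f fx fy Φ H : ℂ → ℂ} {m : ℝ} (L : Loc U f fx fy Φ H m)
    (z₀ : ℂ) (hz₀ : z₀ ∈ U) :
    ∃ c : ℝ, 0 ≤ c ∧ ‖H z₀‖ ≤ c ^ 2 ∧ Tendsto (fun z => ‖dz fx fy z‖) (ess z₀) (𝓝 c) := by
  have := ess_neBot z₀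
  set S : Set ℝ := {R | ∃ r > 0, ∀ᵐ z ∂(volume.restrict (ball z₀ r)), ‖dz fx fy z‖ ≤ R} with hS
  have hne : S.Nonempty := by
    obtain ⟨M, r, hr, h⟩ := L.bdd z₀ hz₀
    exact ⟨M, r, hr, h⟩
  have hbd : ∀ R ∈ S, 0 ≤ R := by
    intro R hR
    have h1 := (ess_iff z₀ _).mpr hR
    obtain ⟨z, hz⟩ := h1.exists
    exact (norm_nonneg _).trans hz
  have hbb : BddBelow S := ⟨0, hbd⟩
  set c := sInf S with hc
  have hc0 : 0 ≤ c := le_csInf hne hbd
  have h1 : ∀ ε > 0, ∃ r > 0, ∀ᵐ z ∂(volume.restrict (ball z₀ r)), ‖dz fx fy z‖ ≤ c + ε := by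
    intro ε hε
    obtain ⟨R, hR, hRlt⟩ := exists_lt_of_csInf_lt hne (show sInf S < c + ε by rw [← hc]; linarith)
    obtain ⟨r, hr, h⟩ := hR
    exact ⟨r, hr, h.mono fun z hz => hz.trans hRlt.le⟩
  have h2 : ∀ R < c, ∀ r > 0, ¬ ∀ᵐ z ∂(volume.restrict (ball z₀ r)), ‖dz fx fy z‖ ≤ R := by
    intro R hR r hr h
    exact absurd (csInf_le hbb ⟨r, hr, h⟩) (not_le.mpr hR)
  -- product relations near z₀
  have hUess : ∀ᶠ z in ess z₀, z ∈ U :=
    (Filter.Eventually.filter_mono inf_le_left (L.hU.mem_nhds hz₀))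
  have hprod : ∀ᶠ z in ess z₀, ‖H z‖ ≤ ‖dz fx fy z‖ ^ 2 := by
    obtain ⟨r₀, hr₀, hball⟩ := Metric.isOpen_iff.mp L.hU z₀ hz₀
    rw [ess_iff]
    refine ⟨r₀, hr₀, ?_⟩
    filter_upwards [ae_restrict_of_ae_restrict_of_subset hball L.prod,
      ae_restrict_of_ae_restrict_of_subset hball L.le] with z e1 e2
    rw [← e1, norm_mul, RCLike.norm_conj, sq]
    gcongr
  have hHt : Tendsto (fun z => ‖H z‖) (ess z₀) (𝓝 ‖H z₀‖) := by
    have : Tendsto H (𝓝 z₀) (𝓝 (H z₀)) := (L.contH.continuousAt (L.hU.mem_nhds hz₀))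
    exact (this.norm).mono_left inf_le_left
  have hup : ∀ ε > 0, ∀ᶠ z in ess z₀, ‖dz fx fy z‖ ≤ c + ε := fun ε hε =>
    (ess_iff z₀ _).mpr (h1 ε hε)
  have hHc : ‖H z₀‖ ≤ c ^ 2 := by
    have key : ∀ ε > 0, ‖H z₀‖ ≤ (c + ε) ^ 2 := by
      intro ε hε
      refine le_of_tendsto hHt ?_
      filter_upwards [hprod, hup ε hε] with z e1 e2
      exact e1.trans (pow_le_pow_left₀ (norm_nonneg _) e2 2)
    have hcont : Tendsto (fun ε : ℝ => (c + ε) ^ 2) (𝓝[>] 0) (𝓝 ((c + 0) ^ 2)) := by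
      have : Continuous (fun ε : ℝ => (c + ε) ^ 2) := by fun_prop
      exact (this.tendsto 0).mono_left nhdsWithin_le_nhds
    rw [add_zero] at hcont
    refine ge_of_tendsto hcont ?_
    filter_upwards [self_mem_nhdsWithin] with ε hε
    exact key ε hε
  refine ⟨c, hc0, hHc, ?_⟩
  have hlow : ∀ R < c, ∀ᶠ z in ess z₀, R ≤ ‖dz fx fy z‖ := by
    intro R hR
    rcases eq_or_lt_of_le hHc with heq | hlt
    · -- ‖H z₀‖ = c²
      rcases lt_or_ge R 0 with hR0 | hR0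
      · exact Filter.Eventually.of_forall fun z => hR0.le.trans (norm_nonneg _)
      have h3 : R ^ 2 < ‖H z₀‖ := by rw [heq]; exact pow_lt_pow_left₀ hR hR0 two_ne_zero
      filter_upwards [hHt.eventually (lt_mem_nhds h3), hprod] with z e1 e2
      have : R ^ 2 ≤ ‖dz fx fy z‖ ^ 2 := (e1.trans_le e2).le
      exact (pow_le_pow_iff_left₀ hR0 (norm_nonneg _) two_ne_zero).mp this
    · -- c > sqrt ‖H z₀‖
      have hcp : 0 < c := by
        rcases eq_or_lt_of_le hc0 with h | h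
        · rw [← h] at hlt
          have := norm_nonneg (H z₀)
          norm_num at hlt
          linarith
        · exact h
      obtain ⟨m', hm'1, hm'2⟩ : ∃ m', ‖H z₀‖ < m' ^ 2 ∧ 0 < m' ∧ m' < c := by
        have h4 : Tendsto (fun t : ℝ => t ^ 2) (𝓝[<] c) (𝓝 (c ^ 2)) := by
          have : Continuous (fun t : ℝ => t ^ 2) := by fun_prop
          exact (this.tendsto c).mono_left nhdsWithin_le_nhds
        have h5 := h4.eventually (lt_mem_nhds hlt)
        have h6 : ∀ᶠ t : ℝ in 𝓝[<] c, 0 < t :=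
          (lt_mem_nhds hcp).filter_mono nhdsWithin_le_nhds
        obtain ⟨m', a, b, d⟩ := (h5.and (h6.and self_mem_nhdsWithin)).exists
        exact ⟨m', a, b, d⟩
      have hev : ∀ᶠ z in 𝓝 z₀, ‖H z‖ < m' ^ 2 := by
        have : Tendsto (fun z => ‖H z‖) (𝓝 z₀) (𝓝 ‖H z₀‖) :=
          (L.contH.continuousAt (L.hU.mem_nhds hz₀)).norm
        exact this.eventually (gt_mem_nhds hm'1)
      obtain ⟨r, hr, hrb⟩ := Metric.eventually_nhds_iff_ball.mp
        (hev.and (L.hU.mem_nhds hz₀))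
      have L' := L.restrict (V := ball z₀ r) (m' := m') (fun z hz => (hrb z hz).2) isOpen_ball
        (convex_ball _ _) hm'2.1 (fun z hz => (hrb z hz).1.le)
      exact (ess_iff z₀ _).mpr (L'.endgame z₀ (mem_ball_self hr) c hm'2.2 h1 h2 R hR)
  rw [Metric.tendsto_nhds]
  intro ε hε
  filter_upwards [hup (ε / 2) (by positivity), hlow (c - ε / 2) (by linarith)] with z e1 e2
  rw [Real.dist_eq, abs_lt]
  constructor <;> linarith

/-- the Hilbert–Schmidt norm has an essential limit at every point -/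
theorem Loc.limit2 {U : Set ℂ} {f fx fy Φ H : ℂ → ℂ} {m : ℝ} (L : Loc U f fx fy Φ H m)
    (z₀ : ℂ) (hz₀ : z₀ ∈ U) :
    ∃ l : ℝ, Tendsto (fun z => Real.sqrt (‖fx z‖ ^ 2 + ‖fy z‖ ^ 2)) (ess z₀) (𝓝 l) := by
  obtain ⟨c, hc0, hHc, hlim⟩ := L.limit z₀ hz₀
  have hHt : Tendsto (fun z => ‖H z‖) (ess z₀) (𝓝 ‖H z₀‖) := by
    have : Tendsto H (𝓝 z₀) (𝓝 (H z₀)) := (L.contH.continuousAt (L.hU.mem_nhds hz₀))
    exact (this.norm).mono_left inf_le_left
  have hrel : ∀ᶠ z in ess z₀, ‖dz fx fy z‖ * ‖dzb fx fy z‖ = ‖H z‖ ∧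
      ‖dzb fx fy z‖ ≤ ‖dz fx fy z‖ := by
    obtain ⟨r₀, hr₀, hball⟩ := Metric.isOpen_iff.mp L.hU z₀ hz₀
    rw [ess_iff]
    refine ⟨r₀, hr₀, ?_⟩
    filter_upwards [ae_restrict_of_ae_restrict_of_subset hball L.prod,
      ae_restrict_of_ae_restrict_of_subset hball L.le] with z e1 e2
    exact ⟨by rw [← e1, norm_mul, RCLike.norm_conj], e2⟩
  have hG : ∃ l', Tendsto (fun z => ‖dzb fx fy z‖) (ess z₀) (𝓝 l') := by
    rcases eq_or_lt_of_le hc0 with h | h
    · refine ⟨0, ?_⟩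
      rw [← h] at hlim
      refine tendsto_of_tendsto_of_tendsto_of_le_of_le' tendsto_const_nhds hlim ?_ ?_
      · exact Filter.Eventually.of_forall fun z => norm_nonneg _
      · filter_upwards [hrel] with z hz using hz.2
    · refine ⟨‖H z₀‖ / c, ?_⟩
      have h3 := hHt.div hlim h.ne'
      refine h3.congr' ?_
      filter_upwards [hrel, hlim.eventually (lt_mem_nhds h)] with z e1 e2
      simp only [Pi.div_apply]
      rw [← e1.1, mul_div_cancel_left₀ _ e2.ne']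
  obtain ⟨l', hl'⟩ := hG
  refine ⟨Real.sqrt (2 * (c ^ 2 + l' ^ 2)), ?_⟩
  have e : (fun z => Real.sqrt (‖fx z‖ ^ 2 + ‖fy z‖ ^ 2)) =
      fun z => Real.sqrt (2 * (‖dz fx fy z‖ ^ 2 + ‖dzb fx fy z‖ ^ 2)) := by
    funext z
    congr 1
    have := (jac_identity (fx z) (fy z)).2
    unfold dz dzb
    rw [this, norm_div, norm_div]
    norm_num
    ring
  rw [e]
  exact (Real.continuous_sqrt.tendsto _).comp (((hlim.pow 2).add (hl'.pow 2)).const_mul 2)

end Pool.Agent.Helper366.IV
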