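import Mathlib
import Pool.Agent.Helper366.IV.Rep
import Pool.Agent.Helper366.IV.CCont

set_option autoImplicit false
open MeasureTheory Metric Set Filter Topology Complex
open scoped ContDiff ENNReal ComplexConjugate

namespace Pool.Agent.Helper366.IV




/-- the dbar operator -/
noncomputable def dbr (φ : ℂ → ℂ) (z : ℂ) : ℂ := (fderiv ℝ φ z 1 + I * fderiv ℝ φ z I) / 2

lemma dbr_mul (χ φ : ℂ → ℂ) (z : ℂ) (h1 : DifferentiableAt ℝ χ z) (h2 : DifferentiableAt ℝ φ z) :
    dbr (fun w => χ w * φ w) z = χ z * dbr φ z + φ z * dbr χ z := by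
  unfold dbr
  rw [fderiv_fun_mul h1 h2]
  simp only [ContinuousLinearMap.add_apply, ContinuousLinearMap.smul_apply, smul_eq_mul]
  ring

lemma dbr_cont (χ : ℂ → ℂ) (h : ContDiff ℝ ∞ χ) : Continuous (dbr χ) := by
  unfold dbr
  have h1 : Continuous (fderiv ℝ χ) := h.continuous_fderiv (by simp)
  have h2 : Continuous (fun z => fderiv ℝ χ z 1) := h1.clm_apply continuous_const
  have h3 : Continuous (fun z => fderiv ℝ χ z I) := h1.clm_apply continuous_const
  exact (h2.add (continuous_const.mul h3)).div_const 2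

lemma dbr_supp (χ : ℂ → ℂ) (z : ℂ) (h : z ∉ tsupport χ) : dbr χ z = 0 := by
  have h1 : fderiv ℝ χ z = 0 := by
    have := (tsupport_fderiv_subset ℝ (f := χ))
    exact image_eq_zero_of_notMem_tsupport (fun h2 => h (this h2))
  unfold dbr
  rw [h1]; simp

lemma core (Ω : Set ℂ) (f g : ℂ → ℂ) (hf : LocallyIntegrableOn f Ω)
    (hg : LocallyIntegrableOn g Ω)
    (hw : ∀ φ : ℂ → ℂ, ContDiff ℝ ∞ φ → HasCompactSupport φ → tsupport φ ⊆ Ω →
      (∫ z, f z * ((fderiv ℝ φ z 1 + I * fderiv ℝ φ z I) / 2)) = - ∫ z, g z * φ z)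
    (z₀ : ℂ) (r : ℝ) (hr : 0 < r) (hB : closedBall z₀ (2 * r) ⊆ Ω) :
    ∃ g' : ℂ → ℂ, Integrable g' ∧ (∀ z ∈ ball z₀ (3 * r / 2), g' z = g z) ∧
      ∀ᵐ z ∂(volume.restrict (ball z₀ r)), f z = 1 / Real.pi * ∫ w, g' w / (z - w) := by
  let b : ContDiffBump z₀ := ⟨3 * r / 2, 2 * r, by linarith, by linarith⟩
  obtain ⟨χ, hχ⟩ : ∃ χ : ℂ → ℂ, χ = fun z => ((b z : ℝ) : ℂ) := ⟨_, rfl⟩
  have hK : IsCompact (closedBall z₀ (2 * r)) := isCompact_closedBall z₀ (2 * r)
  have hcd : ContDiff ℝ ∞ χ := by
    rw [hχ]
    exact Complex.ofRealCLM.contDiff.comp b.contDiff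
  have hsupp : Function.support χ = ball z₀ (2 * r) := by
    rw [hχ]
    have := b.support_eq
    ext z
    have h1 : z ∈ Function.support b ↔ z ∈ ball z₀ (2 * r) := by rw [this]
    rw [← h1]
    simp
  have hts : tsupport χ = closedBall z₀ (2 * r) := by
    rw [tsupport, hsupp, closure_ball z₀ (by linarith : (2 * r) ≠ 0)]
  have hzero : ∀ z, z ∉ closedBall z₀ (2 * r) → χ z = 0 := by
    intro z hz
    apply image_eq_zero_of_notMem_tsupport
    rw [hts]; exact hz
  have hone : ∀ z ∈ ball z₀ (3 * r / 2), χ z = 1 := by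
    intro z hz
    rw [hχ]
    have : b z = 1 := b.one_of_mem_closedBall (ball_subset_closedBall hz)
    simp [this]
  have hdz : ∀ z, z ∉ closedBall z₀ (2 * r) → dbr χ z = 0 := by
    intro z hz
    apply dbr_supp
    rw [hts]; exact hz
  have hd0 : ∀ z ∈ ball z₀ (3 * r / 2), dbr χ z = 0 := by
    intro z hz
    have h1 : χ =ᶠ[𝓝 z] fun _ => 1 := by
      filter_upwards [isOpen_ball.mem_nhds hz] with w hw
      exact hone w hw
    have h2 : fderiv ℝ χ z = 0 := by
      rw [h1.fderiv_eq]; simp
    unfold dbr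
    rw [h2]; simp
  have hfK : IntegrableOn f (closedBall z₀ (2 * r)) := hf.integrableOn_compact_subset hB hK
  have hgK : IntegrableOn g (closedBall z₀ (2 * r)) := hg.integrableOn_compact_subset hB hK
  -- multiplication of an integrable function by a continuous function supported in the ball
  have mulI : ∀ (u p : ℂ → ℂ), IntegrableOn u (closedBall z₀ (2 * r)) → Continuous p →
      (∀ z, z ∉ closedBall z₀ (2 * r) → p z = 0) → Integrable (fun z => p z * u z) := by
    intro u p hu hp hp0
    have h1 : IntegrableOn (fun z => p z * u z) (closedBall z₀ (2 * r)) :=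
      hu.continuousOn_mul hp.continuousOn hK
    rw [← integrableOn_iff_integrable_of_support_subset (s := closedBall z₀ (2 * r))]
    · exact h1
    · intro z hz
      by_contra h2
      apply hz
      show p z * u z = 0
      rw [hp0 z h2, zero_mul]
  have hdc := dbr_cont χ hcd
  refine ⟨fun z => dbr χ z * f z + χ z * g z, ?_, ?_, ?_⟩
  · exact (mulI f (dbr χ) hfK hdc hdz).add (mulI g χ hgK hcd.continuous hzero)
  · intro z hz
    show dbr χ z * f z + χ z * g z = g z
    rw [hd0 z hz, hone z hz]; ring
  · have hrep := rep (fun z => χ z * f z) (fun z => dbr χ z * f z + χ z * g z)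
      (mulI f χ hfK hcd.continuous hzero)
      ((mulI f (dbr χ) hfK hdc hdz).add (mulI g χ hgK hcd.continuous hzero)) (‖z₀‖ + 2 * r)
      (by
        intro z hz
        have : z ∉ closedBall z₀ (2 * r) := by
          intro h
          rw [mem_closedBall, dist_eq_norm] at h
          have := norm_sub_norm_le z z₀
          linarith
        show χ z * f z = 0
        rw [hzero z this, zero_mul])
      (by
        intro z hz
        have : z ∉ closedBall z₀ (2 * r) := by
          intro h
          rw [mem_closedBall, dist_eq_norm] at h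
          have := norm_sub_norm_le z z₀
          linarith
        show dbr χ z * f z + χ z * g z = 0
        rw [hzero z this, hdz z this]; ring)
      (by
        intro φ hφ hφc
        have hχφ : ContDiff ℝ ∞ (fun z => χ z * φ z) := hcd.mul hφ
        have hc1 : HasCompactSupport (fun z => χ z * φ z) := hφc.mul_left
        have hts1 : tsupport (fun z => χ z * φ z) ⊆ Ω := by
          refine (tsupport_mul_subset_left (f := χ) (g := φ)).trans ?_
          rw [hts]; exact hB
        have h1 := hw _ hχφ hc1 hts1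
        have h2 : ∀ z, χ z * f z * dbr φ z =
            dbr (fun w => χ w * φ w) z * f z - (φ z * dbr χ z) * f z := by
          intro z
          rw [dbr_mul χ φ z (hcd.differentiable (by simp) z) (hφ.differentiable (by simp) z)]
          ring
        have hφcont := hφ.continuous
        have i1 : Integrable (fun z => dbr (fun w => χ w * φ w) z * f z) := by
          apply mulI f _ hfK (dbr_cont _ hχφ)
          intro z hz
          apply dbr_supp
          intro h
          have := tsupport_mul_subset_left (f := χ) (g := φ) h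
          rw [hts] at this
          exact hz this
        have i2 : Integrable (fun z => (φ z * dbr χ z) * f z) := by
          apply mulI f _ hfK (hφcont.mul hdc)
          intro z hz
          show φ z * dbr χ z = 0
          rw [hdz z hz, mul_zero]
        have i3 : Integrable (fun z => (φ z * χ z) * g z) := by
          apply mulI g _ hgK (hφcont.mul hcd.continuous)
          intro z hz
          show φ z * χ z = 0
          rw [hzero z hz, mul_zero]
        calc (∫ z, χ z * f z * ((fderiv ℝ φ z 1 + I * fderiv ℝ φ z I) / 2))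
            = ∫ z, (dbr (fun w => χ w * φ w) z * f z - (φ z * dbr χ z) * f z) := by
              apply integral_congr_ae
              exact Eventually.of_forall (fun z => h2 z)
          _ = (∫ z, dbr (fun w => χ w * φ w) z * f z) - ∫ z, (φ z * dbr χ z) * f z :=
              integral_sub i1 i2
          _ = (∫ z, f z * dbr (fun w => χ w * φ w) z) - ∫ z, (φ z * dbr χ z) * f z := by
              congr 1
              apply integral_congr_ae
              exact Eventually.of_forall (fun z => mul_comm _ _)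
          _ = (- ∫ z, g z * (χ z * φ z)) - ∫ z, (φ z * dbr χ z) * f z := by
              congr 1
          _ = (- ∫ z, (φ z * χ z) * g z) - ∫ z, (φ z * dbr χ z) * f z := by
              congr 2
              apply integral_congr_ae
              refine Eventually.of_forall (fun z => ?_)
              show g z * (χ z * φ z) = (φ z * χ z) * g z
              ring
          _ = - ((∫ z, (φ z * dbr χ z) * f z) + ∫ z, (φ z * χ z) * g z) := by ring
          _ = - ∫ z, ((φ z * dbr χ z) * f z + (φ z * χ z) * g z) := by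
              rw [integral_add i2 i3]
          _ = - ∫ z, (dbr χ z * f z + χ z * g z) * φ z := by
              congr 1
              apply integral_congr_ae
              refine Eventually.of_forall (fun z => ?_)
              show (φ z * dbr χ z) * f z + (φ z * χ z) * g z = (dbr χ z * f z + χ z * g z) * φ z
              ring)
    rw [ae_restrict_iff' measurableSet_ball]
    filter_upwards [hrep] with z hz hzb
    rw [← hz, hone z (ball_subset_ball (by linarith) hzb), one_mul]

/- TARGET -/
theorem local_cont (Ω : Set ℂ) (hΩ : IsOpen Ω) (f g : ℂ → ℂ) (hf : LocallyIntegrableOn f Ω)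
    (hg : LocallyIntegrableOn g Ω)
    (hw : ∀ φ : ℂ → ℂ, ContDiff ℝ ∞ φ → HasCompactSupport φ → tsupport φ ⊆ Ω →
      (∫ z, f z * ((fderiv ℝ φ z 1 + I * fderiv ℝ φ z I) / 2)) = - ∫ z, g z * φ z)
    (z₀ : ℂ) (r M : ℝ) (hr : 0 < r) (hB : closedBall z₀ (2 * r) ⊆ Ω)
    (hM : ∀ᵐ z ∂(volume.restrict (closedBall z₀ (2 * r))), ‖g z‖ ≤ M) :
    ∃ f' : ℂ → ℂ, ContinuousOn f' (ball z₀ r) ∧
      ∀ᵐ z ∂(volume.restrict (ball z₀ r)), f z = f' z := by
  obtain ⟨g', h1, h2, h3⟩ := core Ω f g hf hg hw z₀ r hr hB
  refine ⟨fun z => 1 / Real.pi * ∫ w, g' w / (z - w), ?_, h3⟩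
  have h4 := cauchy_cont g' h1 z₀ (3 * r / 2) M (by
    have h5 : ball z₀ (3 * r / 2) ⊆ closedBall z₀ (2 * r) :=
      (ball_subset_ball (by linarith)).trans ball_subset_closedBall
    have h6 := ae_restrict_of_ae_restrict_of_subset h5 hM
    rw [ae_restrict_iff' measurableSet_ball] at h6 ⊢
    filter_upwards [h6] with z hz hzb
    rw [h2 z hzb]
    exact hz hzb)
  exact (continuousOn_const.mul h4).mono (ball_subset_ball (by linarith))

/- TARGET -/
theorem local_holo (Ω : Set ℂ) (hΩ : IsOpen Ω) (f : ℂ → ℂ) (hf : LocallyIntegrableOn f Ω)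
    (hw : ∀ φ : ℂ → ℂ, ContDiff ℝ ∞ φ → HasCompactSupport φ → tsupport φ ⊆ Ω →
      (∫ z, f z * ((fderiv ℝ φ z 1 + I * fderiv ℝ φ z I) / 2)) = 0)
    (z₀ : ℂ) (r : ℝ) (hr : 0 < r) (hB : closedBall z₀ (2 * r) ⊆ Ω) :
    ∃ f' : ℂ → ℂ, DifferentiableOn ℂ f' (ball z₀ r) ∧
      ∀ᵐ z ∂(volume.restrict (ball z₀ r)), f z = f' z := by
  obtain ⟨g', h1, h2, h3⟩ := core Ω f (fun _ => 0) hf
    (locallyIntegrableOn_zero) (fun φ a b c => by rw [hw φ a b c]; simp) z₀ r hr hB
  refine ⟨fun z => 1 / Real.pi * ∫ w, g' w / (z - w), ?_, h3⟩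
  have h4 := cauchy_holo g' h1 z₀ (3 * r / 2) h2
  exact ((differentiableOn_const _).mul h4).mono (ball_subset_ball (by linarith))

end Pool.Agent.Helper366.IV
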