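import Mathlib
import Pool.Agent.Helper366.IV.Defs

set_option autoImplicit false
open MeasureTheory Metric Set Filter Topology Complex
open scoped ContDiff ENNReal ComplexConjugate

namespace Pool.Agent.Helper366.IV


open ContinuousLinearMap Convolution

/-- Jensen / Hölder on a probability measure. -/
theorem lint_sq_le {α : Type*} [MeasurableSpace α] (ν : Measure α) (hν : ν univ = 1)
    {h : α → ℝ≥0∞} (hh : AEMeasurable h ν) :
    (∫⁻ a, h a ∂ν) ^ (2 : ℝ) ≤ ∫⁻ a, h a ^ (2 : ℝ) ∂ν := by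
  have hpq : (2 : ℝ).HolderConjugate 2 := Real.HolderConjugate.two_two
  have := ENNReal.lintegral_mul_le_Lp_mul_Lq ν hpq hh (g := fun _ => 1) aemeasurable_const
  simp only [Pi.mul_apply, mul_one, ENNReal.one_rpow, lintegral_const, hν] at this
  calc (∫⁻ a, h a ∂ν) ^ (2 : ℝ) ≤ ((∫⁻ a, h a ^ (2 : ℝ) ∂ν) ^ (1 / (2 : ℝ))) ^ (2 : ℝ) :=
        ENNReal.rpow_le_rpow this (by norm_num)
    _ = _ := by
        rw [← ENNReal.rpow_mul]
        norm_num

/-- continuity of translations in `L²`. -/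
theorem transl_cont (g : ℂ → ℂ) (hg : MemLp g 2 volume) (η : ℝ≥0∞) (hη : 0 < η) :
    ∃ ε : ℝ, 0 < ε ∧ ∀ t : ℂ, ‖t‖ < ε → eLpNorm (fun z => g (z - t) - g z) 2 volume ≤ η := by
  let G : ℂ → C(ℂ, ℂ) := fun t => ⟨fun z => z - t, by fun_prop⟩
  have hG : Continuous G := ContinuousMap.continuous_of_continuous_uncurry _ (by
    show Continuous fun p : ℂ × ℂ => p.2 - p.1
    fun_prop)
  have hmp : ∀ t, MeasurePreserving (G t) volume volume := fun t =>
    measurePreserving_sub_right volume t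
  have hc : Continuous fun t => Lp.compMeasurePreserving (G t) (hmp t) (hg.toLp g) :=
    Continuous.compMeasurePreservingLp continuous_const hG hmp (by norm_num)
  have h0 := hc.tendsto 0
  rw [EMetric.tendsto_nhds] at h0
  have h1 := h0 η hη
  rw [Metric.eventually_nhds_iff] at h1
  obtain ⟨ε, hε, h2⟩ := h1
  refine ⟨ε, hε, fun t ht => ?_⟩
  have h3 := h2 (y := t) (by simpa [dist_eq_norm] using ht)
  rw [Lp.edist_def] at h3
  have hcoe : ∀ s : ℂ, (Lp.compMeasurePreserving (G s) (hmp s) (hg.toLp g) : ℂ → ℂ) =ᵐ[volume]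
      fun z => g (z - s) := by
    intro s
    have e1 := Lp.coeFn_compMeasurePreserving (hg.toLp g) (hmp s)
    have e2 : (fun z => (hg.toLp g : ℂ → ℂ) (G s z)) =ᵐ[volume] fun z => g (G s z) :=
      (hmp s).quasiMeasurePreserving.ae_eq_comp hg.coeFn_toLp
    exact e1.trans e2
  have h4 : eLpNorm (fun z => g (z - t) - g z) 2 volume =
      eLpNorm ((Lp.compMeasurePreserving (G t) (hmp t) (hg.toLp g) : ℂ → ℂ) -
        (Lp.compMeasurePreserving (G 0) (hmp 0) (hg.toLp g) : ℂ → ℂ)) 2 volume := by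
    apply eLpNorm_congr_ae
    filter_upwards [hcoe t, hcoe 0] with z h5 h6
    rw [Pi.sub_apply, h5, h6, sub_zero]
  rw [h4]
  exact h3.le

theorem mollify_L2 (g : ℂ → ℂ) (hgm : Measurable g) (hg : MemLp g 2 volume) (ρ : ℂ → ℝ)
    (hρc : Continuous ρ) (hρs : HasCompactSupport ρ) (hρ0 : ∀ t, 0 ≤ ρ t) (hρ1 : ∫ t, ρ t = 1)
    (ε : ℝ) (hρε : ∀ t, ρ t ≠ 0 → ‖t‖ < ε) (η : ℝ≥0∞)
    (h : ∀ t : ℂ, ‖t‖ < ε → eLpNorm (fun z => g (z - t) - g z) 2 volume ≤ η) :
    eLpNorm (fun z => (∫ t, ρ t • g (z - t)) - g z) 2 volume ≤ η := by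
  have hρint : Integrable ρ := hρc.integrable_of_hasCompactSupport hρs
  have hloc : LocallyIntegrable g volume := hg.locallyIntegrable (by norm_num)
  have hρm : Measurable fun t => ‖ρ t‖ₑ := hρc.measurable.enorm
  set ν : Measure ℂ := volume.withDensity fun t => ‖ρ t‖ₑ with hν
  have hρ1' : ∫⁻ t, ‖ρ t‖ₑ = 1 := by
    rw [← ofReal_integral_norm_eq_lintegral_enorm hρint]
    have : ∫ x, ‖ρ x‖ = 1 := by
      rw [← hρ1]
      refine integral_congr_ae (Filter.Eventually.of_forall fun w => ?_)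
      exact Real.norm_of_nonneg (hρ0 w)
    rw [this, ENNReal.ofReal_one]
  have hν1 : ν univ = 1 := by
    rw [hν, withDensity_apply _ MeasurableSet.univ, Measure.restrict_univ, hρ1']
  have hpt : ∀ z, ‖(∫ t, ρ t • g (z - t)) - g z‖ₑ ^ (2 : ℝ) ≤
      ∫⁻ t, ‖ρ t‖ₑ * ‖g (z - t) - g z‖ₑ ^ (2 : ℝ) := by
    intro z
    have hi1 : Integrable fun t => ρ t • g (z - t) :=
      hρs.convolutionExists_left (lsmul ℝ ℝ) hρc hloc z
    have hi2 : Integrable fun t => ρ t • g z := hρint.smul_const _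
    have e1 : (∫ t, ρ t • g (z - t)) - g z = ∫ t, ρ t • (g (z - t) - g z) := by
      have : ∫ t, ρ t • g z = g z := by rw [integral_smul_const, hρ1, one_smul]
      calc (∫ t, ρ t • g (z - t)) - g z = (∫ t, ρ t • g (z - t)) - ∫ t, ρ t • g z := by rw [this]
        _ = ∫ t, (ρ t • g (z - t) - ρ t • g z) := (integral_sub hi1 hi2).symm
        _ = _ := by simp only [smul_sub]
    have hm1 : Measurable fun t => ‖g (z - t) - g z‖ₑ :=
      ((hgm.comp (measurable_const.sub measurable_id)).sub measurable_const).enorm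
    have h1 : ‖∫ t, ρ t • (g (z - t) - g z)‖ₑ ≤ ∫⁻ t, ‖g (z - t) - g z‖ₑ ∂ν := by
      refine (enorm_integral_le_lintegral_enorm _).trans (le_of_eq ?_)
      rw [hν, lintegral_withDensity_eq_lintegral_mul _ hρm hm1]
      refine lintegral_congr fun t => ?_
      rw [enorm_smul]
      rfl
    rw [e1]
    calc ‖∫ t, ρ t • (g (z - t) - g z)‖ₑ ^ (2 : ℝ) ≤ (∫⁻ t, ‖g (z - t) - g z‖ₑ ∂ν) ^ (2 : ℝ) :=
          ENNReal.rpow_le_rpow h1 (by norm_num)
      _ ≤ ∫⁻ t, ‖g (z - t) - g z‖ₑ ^ (2 : ℝ) ∂ν := lint_sq_le ν hν1 hm1.aemeasurable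
      _ = _ := by
          rw [hν, lintegral_withDensity_eq_lintegral_mul _ hρm (hm1.pow_const _)]
          rfl
  have hmm : Measurable fun q : ℂ × ℂ => ‖ρ q.2‖ₑ * ‖g (q.1 - q.2) - g q.1‖ₑ ^ (2 : ℝ) :=
    (hρm.comp measurable_snd).mul ((((hgm.comp (measurable_fst.sub measurable_snd)).sub
      (hgm.comp measurable_fst)).enorm).pow_const _)
  have key : ∫⁻ z, ‖(∫ t, ρ t • g (z - t)) - g z‖ₑ ^ (2 : ℝ) ≤ η ^ (2 : ℝ) := by
    calc ∫⁻ z, ‖(∫ t, ρ t • g (z - t)) - g z‖ₑ ^ (2 : ℝ)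
        ≤ ∫⁻ z, ∫⁻ t, ‖ρ t‖ₑ * ‖g (z - t) - g z‖ₑ ^ (2 : ℝ) := lintegral_mono hpt
      _ = ∫⁻ t, ∫⁻ z, ‖ρ t‖ₑ * ‖g (z - t) - g z‖ₑ ^ (2 : ℝ) :=
          lintegral_lintegral_swap hmm.aemeasurable
      _ ≤ ∫⁻ t, ‖ρ t‖ₑ * η ^ (2 : ℝ) := by
          refine lintegral_mono fun t => ?_
          simp only
          have hmt : Measurable fun z => ‖g (z - t) - g z‖ₑ ^ (2 : ℝ) :=
            (((hgm.comp (measurable_id.sub_const t)).sub hgm).enorm).pow_const _
          rw [lintegral_const_mul _ hmt]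
          by_cases ht : ρ t = 0
          · rw [ht]; simp
          · gcongr
            have h1 := h t (hρε t ht)
            rw [eLpNorm_eq_lintegral_rpow_enorm_toReal (by norm_num) (by norm_num)] at h1
            simp only [ENNReal.toReal_ofNat] at h1
            have h2 := ENNReal.rpow_le_rpow h1 (show (0 : ℝ) ≤ 2 by norm_num)
            rw [← ENNReal.rpow_mul] at h2
            norm_num at h2
            norm_num
            exact h2
      _ = η ^ (2 : ℝ) := by rw [lintegral_mul_const _ hρm, hρ1', one_mul]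
  rw [eLpNorm_eq_lintegral_rpow_enorm_toReal (by norm_num) (by norm_num)]
  simp only [ENNReal.toReal_ofNat]
  calc (∫⁻ z, ‖(∫ t, ρ t • g (z - t)) - g z‖ₑ ^ (2 : ℝ)) ^ (1 / (2 : ℝ))
      ≤ (η ^ (2 : ℝ)) ^ (1 / (2 : ℝ)) := ENNReal.rpow_le_rpow key (by norm_num)
    _ = η := by rw [← ENNReal.rpow_mul]; norm_num

theorem deriv_formula (U : Set ℂ) (q qe : ℂ → ℂ) (e : ℂ) (K' : Set ℂ) (hK' : IsCompact K')
    (hK'U : K' ⊆ U) (hq : ContinuousOn q K')
    (hw : ∀ φ : ℂ → ℂ, ContDiff ℝ ∞ φ → HasCompactSupport φ → tsupport φ ⊆ U →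
      (∫ z, q z * fderiv ℝ φ z e) = - ∫ z, qe z * φ z)
    (g : ℂ → ℂ) (hg : ∀ᵐ z, z ∈ U → g z = qe z)
    (ρ : ℂ → ℝ) (hρs : ContDiff ℝ ∞ ρ) (hρc : HasCompactSupport ρ) (ε : ℝ)
    (hρsupp : ∀ x, ρ x ≠ 0 → ‖x‖ < ε) (z : ℂ) (hz : closedBall z ε ⊆ K') :
    fderiv ℝ (ρ ⋆[lsmul ℝ ℝ, volume] (K'.indicator q)) z e = ∫ t, ρ t • g (z - t) := by
  have hρs1 : ContDiff ℝ 1 ρ := hρs.of_le (by norm_cast)
  set F : ℂ → ℂ := K'.indicator q with hF
  have hFi : Integrable F := by
    rw [hF, integrable_indicator_iff hK'.measurableSet]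
    exact hq.integrableOn_compact hK'
  have hFl : LocallyIntegrable F := hFi.locallyIntegrable
  have h1 := hρc.hasFDerivAt_convolution_left (lsmul ℝ ℝ) hρs1 hFl z
  have h2 : fderiv ℝ (ρ ⋆[lsmul ℝ ℝ, volume] F) z =
      (fderiv ℝ ρ ⋆[(lsmul ℝ ℝ).precompL ℂ, volume] F) z := h1.fderiv
  rw [h2]
  have hex : ConvolutionExistsAt (fderiv ℝ ρ) F z
      ((lsmul ℝ ℝ : ℝ →L[ℝ] ℂ →L[ℝ] ℂ).precompL ℂ) volume :=
    (hρc.fderiv ℝ).convolutionExists_left _ (hρs1.continuous_fderiv one_ne_zero) hFl z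
  have h3 : (fderiv ℝ ρ ⋆[(lsmul ℝ ℝ).precompL ℂ, volume] F) z e =
      ∫ t, fderiv ℝ ρ t e • F (z - t) := by
    rw [convolution_def, ContinuousLinearMap.integral_apply hex]
    rfl
  rw [h3, ← integral_sub_left_eq_self (fun t => fderiv ℝ ρ t e • F (z - t)) volume z,
    ← integral_sub_left_eq_self (fun t => ρ t • g (z - t)) volume z]
  simp only [sub_sub_cancel]
  set ψ : ℂ → ℂ := fun w => ((ρ (z - w) : ℝ) : ℂ) with hψ
  have hψs : ContDiff ℝ ∞ ψ :=
    Complex.ofRealCLM.contDiff.comp (hρs.comp (contDiff_const.sub contDiff_id))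
  have hψts : tsupport ψ ⊆ closedBall z ε := by
    refine closure_minimal ?_ isClosed_closedBall
    intro w hw
    have hne : ρ (z - w) ≠ 0 := by
      intro h0
      apply hw
      simp only [hψ, h0, Complex.ofReal_zero]
    have := hρsupp (z - w) hne
    rw [mem_closedBall, dist_comm, dist_eq_norm]
    exact this.le
  have hψc : HasCompactSupport ψ := (isCompact_closedBall z ε).of_isClosed_subset
    (isClosed_tsupport _) hψts
  have h4 := hw ψ hψs hψc ((hψts.trans hz).trans hK'U)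
  have h5 : ∀ w, fderiv ℝ ψ w e = - ((fderiv ℝ ρ (z - w) e : ℝ) : ℂ) := by
    intro w
    have ha : HasFDerivAt (fun w : ℂ => z - w) (-(ContinuousLinearMap.id ℝ ℂ)) w :=
      (hasFDerivAt_id w).const_sub z
    have hb : HasFDerivAt (fun w => ρ (z - w)) ((fderiv ℝ ρ (z - w)).comp
        (-(ContinuousLinearMap.id ℝ ℂ))) w :=
      ((hρs1.differentiable one_ne_zero (z - w)).hasFDerivAt).comp w ha
    have hc : HasFDerivAt ψ (Complex.ofRealCLM.comp ((fderiv ℝ ρ (z - w)).comp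
        (-(ContinuousLinearMap.id ℝ ℂ)))) w :=
      Complex.ofRealCLM.hasFDerivAt.comp w hb
    rw [hc.fderiv]
    simp
  have h6 : ∫ w, fderiv ℝ ρ (z - w) e • F w = - ∫ x, q x * fderiv ℝ ψ x e := by
    rw [← integral_neg]
    refine integral_congr_ae (Filter.Eventually.of_forall fun w => ?_)
    simp only
    rw [h5 w]
    by_cases hw : w ∈ K'
    · rw [hF, indicator_of_mem hw, Complex.real_smul]; ring
    · have hz0 : fderiv ℝ ρ (z - w) = 0 := by
        by_contra hne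
        have h7 : z - w ∈ tsupport ρ := support_fderiv_subset ℝ (Function.mem_support.2 hne)
        have h8 : tsupport ρ ⊆ closedBall 0 ε := by
          refine closure_minimal ?_ isClosed_closedBall
          intro x hx
          rw [mem_closedBall, dist_zero_right]
          exact (hρsupp x hx).le
        have h9 := h8 h7
        rw [mem_closedBall, dist_zero_right] at h9
        apply hw
        apply hz
        rw [mem_closedBall, dist_comm, dist_eq_norm]
        exact h9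
      rw [hz0]; simp
  rw [h6, h4, neg_neg]
  apply integral_congr_ae
  filter_upwards [hg] with w hgw
  by_cases hwU : w ∈ U
  · rw [hgw hwU, hψ, Complex.real_smul]; ring
  · have h0 : ρ (z - w) = 0 := by
      by_contra hne
      apply hwU
      apply hK'U
      apply hz
      rw [mem_closedBall, dist_comm, dist_eq_norm]
      exact (hρsupp _ hne).le
    simp only [hψ, h0]
    simp

/- TARGET -/
theorem W_of_weak (U : Set ℂ) (hU : IsOpen U) (q qx qy : ℂ → ℂ) (hq : ContinuousOn q U)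
    (hx : MemLp qx 2 (volume.restrict U)) (hy : MemLp qy 2 (volume.restrict U))
    (hw : ∀ φ : ℂ → ℂ, ContDiff ℝ ∞ φ → HasCompactSupport φ → tsupport φ ⊆ U →
      ((∫ z, q z * fderiv ℝ φ z 1) = - ∫ z, qx z * φ z) ∧
      ((∫ z, q z * fderiv ℝ φ z I) = - ∫ z, qy z * φ z)) :
    W U q qx qy := by
  refine ⟨hq, fun K _ hKU => hx.mono_measure (Measure.restrict_mono hKU le_rfl),
    fun K _ hKU => hy.mono_measure (Measure.restrict_mono hKU le_rfl), ?_⟩
  intro K hK hKU
  obtain ⟨δ, hδ, hδU⟩ := hK.exists_cthickening_subset_open hU hKU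
  set K' : Set ℂ := cthickening δ K with hK'def
  have hK' : IsCompact K' := hK.cthickening
  have hqK' : ContinuousOn q K' := hq.mono hδU
  have huc := hK'.uniformContinuousOn_of_continuous hqK'
  rw [Metric.uniformContinuousOn_iff] at huc
  -- the mollifiers
  have hεpos : ∀ n : ℕ, 0 < δ / ((n : ℝ) + 2) := fun n => by positivity
  let b : ℕ → ContDiffBump (0 : ℂ) := fun n =>
    ⟨δ / ((n : ℝ) + 2) / 2, δ / ((n : ℝ) + 2), by positivity, by
      have := hεpos n
      linarith⟩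
  set ρ : ℕ → ℂ → ℝ := fun n => (b n).normed volume with hρ
  have hρs : ∀ n, ContDiff ℝ ∞ (ρ n) := fun n => (b n).contDiff_normed
  have hρs2 : ∀ n, ContDiff ℝ 2 (ρ n) := fun n => (b n).contDiff_normed
  have hρc : ∀ n, HasCompactSupport (ρ n) := fun n => (b n).hasCompactSupport_normed
  have hρ0 : ∀ n x, 0 ≤ ρ n x := fun n => (b n).nonneg_normed
  have hρi : ∀ n, ∫ x, ρ n x = 1 := fun n => (b n).integral_normed
  have hρsupp : ∀ n x, ρ n x ≠ 0 → ‖x‖ < δ / ((n : ℝ) + 2) := by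
    intro n x hx
    have : x ∈ Function.support (ρ n) := hx
    rw [hρ] at this
    simp only at this
    rw [(b n).support_normed_eq] at this
    simpa [b] using this
  have hεδ : ∀ n : ℕ, δ / ((n : ℝ) + 2) ≤ δ := by
    intro n
    rw [div_le_iff₀ (by positivity)]
    have : (0 : ℝ) ≤ n := by positivity
    nlinarith
  have hball : ∀ (n : ℕ), ∀ z ∈ K, closedBall z (δ / ((n : ℝ) + 2)) ⊆ K' := fun n z hz =>
    (closedBall_subset_closedBall (hεδ n)).trans (closedBall_subset_cthickening hz δ)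
  have hεlim : Tendsto (fun n : ℕ => δ / ((n : ℝ) + 2)) atTop (𝓝 0) := by
    apply Tendsto.div_atTop tendsto_const_nhds
    exact tendsto_atTop_add_const_right _ _ tendsto_natCast_atTop_atTop
  have hFi : Integrable (K'.indicator q) := by
    rw [integrable_indicator_iff hK'.measurableSet]
    exact hqK'.integrableOn_compact hK'
  have hKmem : ∀ z ∈ K, z ∈ K' := fun z hz => hball 0 z hz (mem_closedBall_self (hεpos 0).le)
  -- the general derivative statement
  have hder : ∀ (e : ℂ) (qe : ℂ → ℂ), MemLp qe 2 (volume.restrict U) →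
      (∀ φ : ℂ → ℂ, ContDiff ℝ ∞ φ → HasCompactSupport φ → tsupport φ ⊆ U →
        (∫ z, q z * fderiv ℝ φ z e) = - ∫ z, qe z * φ z) →
      Tendsto (fun n => eLpNorm (fun z => fderiv ℝ (ρ n ⋆[lsmul ℝ ℝ, volume] (K'.indicator q)) z e
        - qe z) 2 (volume.restrict K)) atTop (𝓝 0) := by
    intro e qe hqe hwe
    have hUi : MemLp (U.indicator qe) 2 volume := (memLp_indicator_iff_restrict hU.measurableSet).2 hqe
    set g : ℂ → ℂ := hUi.aestronglyMeasurable.mk _ with hg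
    have hgae : (U.indicator qe) =ᵐ[volume] g := hUi.aestronglyMeasurable.ae_eq_mk
    have hgm : Measurable g := hUi.aestronglyMeasurable.stronglyMeasurable_mk.measurable
    have hgL : MemLp g 2 volume := hUi.ae_eq hgae
    have hgU : ∀ᵐ z, z ∈ U → g z = qe z := by
      filter_upwards [hgae] with z hz hzU
      rw [← hz, indicator_of_mem hzU]
    rw [ENNReal.tendsto_nhds_zero]
    intro η hη
    obtain ⟨ε, hε, hε'⟩ := transl_cont g hgL η hη
    have hev : ∀ᶠ n : ℕ in atTop, δ / ((n : ℝ) + 2) < ε := hεlim.eventually (gt_mem_nhds hε)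
    filter_upwards [hev] with n hn
    have h1 := mollify_L2 g hgm hgL (ρ n) (hρs n).continuous (hρc n) (hρ0 n) (hρi n)
      (δ / ((n : ℝ) + 2)) (hρsupp n) η (fun t ht => hε' t (ht.trans hn))
    calc eLpNorm (fun z => fderiv ℝ (ρ n ⋆[lsmul ℝ ℝ, volume] (K'.indicator q)) z e
        - qe z) 2 (volume.restrict K)
        = eLpNorm (fun z => (∫ t, ρ n t • g (z - t)) - g z) 2 (volume.restrict K) := by
          apply eLpNorm_congr_ae
          filter_upwards [ae_restrict_mem hK.measurableSet, ae_restrict_of_ae hgU] with z hz hgz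
          rw [deriv_formula U q qe e K' hK' hδU hqK' hwe g hgU (ρ n) (hρs n) (hρc n)
            (δ / ((n : ℝ) + 2)) (hρsupp n) z (hball n z hz), hgz (hKU hz)]
      _ ≤ eLpNorm (fun z => (∫ t, ρ n t • g (z - t)) - g z) 2 volume :=
          eLpNorm_mono_measure _ Measure.restrict_le_self
      _ ≤ η := h1
  refine ⟨fun n => ρ n ⋆[lsmul ℝ ℝ, volume] (K'.indicator q), ?_, ?_, ?_, ?_⟩
  · intro n z _
    have := (hρc n).contDiff_convolution_left (n := 2) (lsmul ℝ ℝ) (hρs2 n) hFi.locallyIntegrable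
    exact this.contDiffAt
  · rw [Metric.tendstoUniformlyOn_iff]
    intro η hη
    obtain ⟨ε₀, hε₀, hε₀f⟩ := huc (η / 2) (by positivity)
    have hev : ∀ᶠ n : ℕ in atTop, δ / ((n : ℝ) + 2) < ε₀ := hεlim.eventually (gt_mem_nhds hε₀)
    filter_upwards [hev] with n hn z hz
    have hFz : K'.indicator q z = q z := indicator_of_mem (hKmem z hz) _
    have h1 : dist ((ρ n ⋆[lsmul ℝ ℝ, volume] (K'.indicator q)) z) (K'.indicator q z) ≤ η / 2 := by
      refine (b n).dist_normed_convolution_le hFi.aestronglyMeasurable fun x hx => ?_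
      have hx' : x ∈ K' := hball n z hz (ball_subset_closedBall hx)
      rw [hFz, indicator_of_mem hx']
      exact (hε₀f x hx' z (hKmem z hz) (lt_trans (mem_ball.1 hx) hn)).le
    rw [hFz] at h1
    rw [dist_comm]
    linarith
  · exact hder 1 qx hx fun φ h1 h2 h3 => (hw φ h1 h2 h3).1
  · exact hder I qy hy fun φ h1 h2 h3 => (hw φ h1 h2 h3).2

end Pool.Agent.Helper366.IV
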