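import Mathlib
import Pool.Agent.Helper366.IV.Lip

set_option autoImplicit false
open MeasureTheory Metric Set Filter Topology Complex
open scoped ContDiff ENNReal ComplexConjugate

namespace Pool.Agent.Helper366.IV



theorem p1_id (a b ζ : ℂ) : (ζ.re : ℂ) * a + (ζ.im : ℂ) * b =
    (a - I * b) / 2 * ζ + (a + I * b) / 2 * conj ζ := by
  have h1 : (a - I * b) / 2 * ζ + (a + I * b) / 2 * conj ζ =
      a * ((ζ + conj ζ) / 2) - I * b * ((ζ - conj ζ) / 2) := by ring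
  have h2 : (ζ + conj ζ) / 2 = (ζ.re : ℂ) := by
    rw [Complex.add_conj]
    push_cast
    ring
  have h3 : (ζ - conj ζ) / 2 = (ζ.im : ℂ) * I := by
    rw [Complex.sub_conj]
    push_cast
    ring
  rw [h1, h2, h3]
  have hI : I * I = -1 := Complex.I_mul_I
  linear_combination (b * ζ.im) * hI

theorem p1_sq (F G ζ : ℂ) (c' : ℝ) (hc' : 0 < c') (hF : ‖F‖ ≤ c') (hG : ‖G‖ ≤ ‖F‖) :
    ‖F * ζ + G * conj ζ‖ ≤ ‖(c' : ℂ) * ζ + conj (F * conj G * ζ) / (c' : ℂ)‖ := by
  apply le_of_sq_le_sq _ (norm_nonneg _)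
  have hne : (c' : ℂ) ≠ 0 := by exact_mod_cast hc'.ne'
  rw [Complex.sq_norm, Complex.sq_norm, Complex.normSq_add, Complex.normSq_add]
  have e1 : F * ζ * conj (G * conj ζ) = F * conj G * ζ * ζ := by
    rw [map_mul, Complex.conj_conj]
    ring
  have e2 : (c' : ℂ) * ζ * conj (conj (F * conj G * ζ) / (c' : ℂ)) = F * conj G * ζ * ζ := by
    rw [map_div₀, Complex.conj_conj, Complex.conj_ofReal]
    field_simp
  rw [e1, e2, map_mul, map_mul, map_mul, map_div₀, Complex.normSq_conj, Complex.normSq_conj,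
    map_mul, map_mul, Complex.normSq_conj, Complex.normSq_ofReal]
  have hF2 : Complex.normSq F ≤ c' * c' := by
    rw [← Complex.sq_norm, sq]
    gcongr
  have hG2 : Complex.normSq G ≤ c' * c' := by
    rw [← Complex.sq_norm, sq]
    have := hG.trans hF
    gcongr
  have hF0 := Complex.normSq_nonneg F
  have hG0 := Complex.normSq_nonneg G
  have hζ0 := Complex.normSq_nonneg ζ
  set A := Complex.normSq F
  set B := Complex.normSq G
  set Z := Complex.normSq ζ
  have hc2 : 0 < c' * c' := by positivity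
  have h3 : 0 ≤ (c' * c' - A) * (c' * c' - B) / (c' * c') := by
    apply div_nonneg _ hc2.le
    exact mul_nonneg (sub_nonneg.2 hF2) (sub_nonneg.2 hG2)
  have e3 : (c' * c' - A) * (c' * c' - B) / (c' * c') = c' * c' + A * B / (c' * c') - A - B := by
    field_simp
    ring
  rw [e3] at h3
  have h4 := mul_nonneg h3 hζ0
  have e4 : A * B * Z / (c' * c') = A * B / (c' * c') * Z := by ring
  rw [e4]
  nlinarith

/- TARGET -/
theorem Loc.p1 {U : Set ℂ} {f fx fy Φ H : ℂ → ℂ} {m : ℝ} (L : Loc U f fx fy Φ H m)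
    (z₀ : ℂ) (hz₀ : z₀ ∈ U) (c : ℝ) (hc : m < c)
    (h1 : ∀ ε > 0, ∃ r > 0, ∀ᵐ z ∂(volume.restrict (ball z₀ r)), ‖dz fx fy z‖ ≤ c + ε) :
    ∀ ε > 0, ∃ r > 0, ball z₀ r ⊆ U ∧ ∀ z ∈ ball z₀ r, ∀ z' ∈ ball z₀ r,
      ‖f z - f z'‖ ≤ ‖(c : ℂ) * (z - z') + conj (H z₀ * (z - z')) / (c : ℂ)‖ + ε * ‖z - z'‖ := by
  intro ε hε
  have hm0 := L.hm0
  have hc0 : 0 < c := hm0.trans hc
  set e : ℝ := ε / 3 with he
  have he0 : 0 < e := by positivity
  set c' : ℝ := c + e with hc'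
  have hc'0 : 0 < c' := by positivity
  obtain ⟨r1, hr1, hF⟩ := h1 e he0
  obtain ⟨r3, hr3, hB3⟩ := Metric.isOpen_iff.1 L.hU z₀ hz₀
  -- continuity of `H`
  have hHc : ContinuousAt H z₀ := by
    have hd : DifferentiableOn ℂ Φ U := fun z hz => (L.hΦ z hz).differentiableAt.differentiableWithinAt
    have h2 : DifferentiableOn ℂ (deriv Φ) U := hd.deriv L.hU
    have h3 : ContinuousAt (deriv Φ) z₀ :=
      (h2.continuousOn.continuousAt (L.hU.mem_nhds hz₀))
    apply h3.congr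
    filter_upwards [L.hU.mem_nhds hz₀] with z hz
    exact (L.hΦ z hz).deriv
  obtain ⟨r2, hr2, hH⟩ := Metric.continuousAt_iff.1 hHc (e * c) (by positivity)
  refine ⟨min r1 (min r2 r3), by positivity, ?_, ?_⟩
  · exact (ball_subset_ball ((min_le_right _ _).trans (min_le_right _ _))).trans hB3
  intro z hz z' hz'
  set r : ℝ := min r1 (min r2 r3) with hr
  have hBU : ball z₀ r ⊆ U :=
    (ball_subset_ball ((min_le_right _ _).trans (min_le_right _ _))).trans hB3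
  set ζ : ℂ := z - z' with hζ
  have hzz : z' + ζ = z := by rw [hζ]; ring
  have hlip := L.w.lip z₀ r hBU ζ
    (‖(c : ℂ) * ζ + conj (H z₀ * ζ) / (c : ℂ)‖ + ε * ‖ζ‖) ?_ z' hz' (by rw [hzz]; exact hz)
  · rwa [hzz] at hlip
  have hp := ae_restrict_of_ae_restrict_of_subset hBU L.prod
  have hle := ae_restrict_of_ae_restrict_of_subset hBU L.le
  have hF' := ae_restrict_of_ae_restrict_of_subset
    (ball_subset_ball (min_le_left r1 (min r2 r3)) : ball z₀ r ⊆ ball z₀ r1) hF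
  filter_upwards [hp, hle, hF', ae_restrict_mem measurableSet_ball] with w hpw hlew hFw hw
  have hHw : ‖H w - H z₀‖ < e * c := by
    rw [← dist_eq_norm]
    apply hH
    exact (mem_ball.1 hw).trans_le ((min_le_right _ _).trans (min_le_left _ _))
  rw [p1_id]
  have h5 := p1_sq (dz fx fy w) (dzb fx fy w) ζ c' hc'0 hFw hlew
  rw [hpw] at h5
  refine h5.trans ?_
  have hcne : (c : ℂ) ≠ 0 := by exact_mod_cast hc0.ne'
  have hcne' : (c' : ℂ) ≠ 0 := by exact_mod_cast hc'0.ne'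
  have e5 : (c' : ℂ) * ζ + conj (H w * ζ) / (c' : ℂ) =
      ((c : ℂ) * ζ + conj (H z₀ * ζ) / (c : ℂ)) + (e : ℂ) * ζ +
      (conj (H w - H z₀) / (c' : ℂ) + conj (H z₀) * (1 / (c' : ℂ) - 1 / (c : ℂ))) * conj ζ := by
    rw [hc']
    simp only [map_mul, map_sub]
    push_cast
    ring
  rw [e5]
  have h6 : ‖(e : ℂ) * ζ‖ = e * ‖ζ‖ := by
    rw [norm_mul, Complex.norm_real, Real.norm_of_nonneg he0.le]
  have h7 : ‖conj (H w - H z₀) / (c' : ℂ)‖ ≤ e := by
    rw [norm_div, Complex.norm_conj, Complex.norm_real, Real.norm_of_nonneg hc'0.le,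
      div_le_iff₀ hc'0]
    have : e * c ≤ e * c' := by
      gcongr
      linarith
    linarith
  have h8 : ‖conj (H z₀) * (1 / (c' : ℂ) - 1 / (c : ℂ))‖ ≤ e := by
    have e6 : (1 / (c' : ℂ) - 1 / (c : ℂ)) = -((e / (c * c') : ℝ) : ℂ) := by
      have : (e : ℂ) = c' - c := by
        rw [hc']
        push_cast
        ring
      push_cast
      rw [this]
      field_simp
      ring
    rw [e6, norm_mul, Complex.norm_conj, norm_neg, Complex.norm_real,
      Real.norm_of_nonneg (by positivity), mul_div_assoc', div_le_iff₀ (by positivity)]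
    have h9 : ‖H z₀‖ ≤ c * c' := by
      have := L.hm z₀ hz₀
      have h10 : m ^ 2 ≤ c * c' := by
        rw [hc']
        nlinarith
      linarith
    calc ‖H z₀‖ * e ≤ (c * c') * e := by gcongr
      _ = e * (c * c') := by ring
  calc ‖((c : ℂ) * ζ + conj (H z₀ * ζ) / (c : ℂ)) + (e : ℂ) * ζ +
      (conj (H w - H z₀) / (c' : ℂ) + conj (H z₀) * (1 / (c' : ℂ) - 1 / (c : ℂ))) * conj ζ‖
      ≤ ‖((c : ℂ) * ζ + conj (H z₀ * ζ) / (c : ℂ))‖ + ‖(e : ℂ) * ζ‖ +
        ‖(conj (H w - H z₀) / (c' : ℂ) + conj (H z₀) * (1 / (c' : ℂ) - 1 / (c : ℂ))) * conj ζ‖ :=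
        norm_add₃_le
    _ ≤ ‖((c : ℂ) * ζ + conj (H z₀ * ζ) / (c : ℂ))‖ + e * ‖ζ‖ + (e + e) * ‖ζ‖ := by
        rw [h6, norm_mul, Complex.norm_conj]
        gcongr
        exact (norm_add_le _ _).trans (add_le_add h7 h8)
    _ = ‖((c : ℂ) * ζ + conj (H z₀ * ζ) / (c : ℂ))‖ + ε * ‖ζ‖ := by
        rw [he]
        ring

end Pool.Agent.Helper366.IV
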